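import Pool.Agent.Helper4.PF.Defs

/-!
# Basic API for form atlases (project MP_905dfc_gt)
-/

open scoped Manifold ContDiff Topology InnerProductSpace
open Set Filter Metric

noncomputable section

namespace PF

section FormAtlas

variable {E E' E'' V V' N N' M : Type*}
  [NormedAddCommGroup E] [NormedSpace ℝ E] [NormedAddCommGroup E'] [NormedSpace ℝ E']
  [NormedAddCommGroup E''] [NormedSpace ℝ E'']
  [NormedAddCommGroup V] [NormedSpace ℝ V] [NormedAddCommGroup V'] [NormedSpace ℝ V']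
  [TopologicalSpace N] [TopologicalSpace N'] [TopologicalSpace M]
  {Z : Set N} {a b c : FPair E V N} {p : N}

@[simp] theorem FPair.restr_source (a : FPair E V N) (s : Set N) (hs : IsOpen s) :
    (a.restr s hs).c.source = a.c.source ∩ s := rfl

@[simp] theorem FPair.restr_apply (a : FPair E V N) (s : Set N) (hs : IsOpen s) (p : N) :
    (a.restr s hs).c p = a.c p := rfl

@[simp] theorem FPair.restr_symm_apply (a : FPair E V N) (s : Set N) (hs : IsOpen s) (y : E) :
    (a.restr s hs).c.symm y = a.c.symm y := rfl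

@[simp] theorem FPair.restr_form (a : FPair E V N) (s : Set N) (hs : IsOpen s) :
    (a.restr s hs).Θ = a.Θ := rfl

theorem FPair.restr_target (a : FPair E V N) (s : Set N) (hs : IsOpen s) :
    (a.restr s hs).c.target = a.c.target ∩ a.c.symm ⁻¹' s := rfl

@[simp] theorem FPair.push_apply (a : FPair E V N) (i : OpenPartialHomeomorph N N') (p : N') :
    (a.push i).c p = a.c (i.symm p) := rfl

@[simp] theorem FPair.push_symm_apply (a : FPair E V N) (i : OpenPartialHomeomorph N N')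
    (y : E) : (a.push i).c.symm y = i (a.c.symm y) := rfl

@[simp] theorem FPair.push_form (a : FPair E V N) (i : OpenPartialHomeomorph N N') :
    (a.push i).Θ = a.Θ := rfl

theorem FPair.mem_push_source (a : FPair E V N) (i : OpenPartialHomeomorph N N') (p : N') :
    p ∈ (a.push i).c.source ↔ p ∈ i.target ∧ i.symm p ∈ a.c.source := Iff.rfl

theorem FPair.mem_push_target (a : FPair E V N) (i : OpenPartialHomeomorph N N') (y : E) :
    y ∈ (a.push i).c.target ↔ y ∈ a.c.target ∧ a.c.symm y ∈ i.source := Iff.rfl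

@[simp] theorem FPair.comp_apply (a : FPair E V N) (g : OpenPartialHomeomorph E E') (p : N) :
    (a.comp g).c p = g (a.c p) := rfl

@[simp] theorem FPair.comp_symm_apply (a : FPair E V N) (g : OpenPartialHomeomorph E E')
    (y : E') : (a.comp g).c.symm y = a.c.symm (g.symm y) := rfl

theorem FPair.comp_form (a : FPair E V N) (g : OpenPartialHomeomorph E E') (y : E') :
    (a.comp g).Θ y = (a.Θ (g.symm y)).comp (fderiv ℝ g.symm y) := rfl

theorem FPair.mem_comp_source (a : FPair E V N) (g : OpenPartialHomeomorph E E') (p : N) :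
    p ∈ (a.comp g).c.source ↔ p ∈ a.c.source ∧ a.c p ∈ g.source := Iff.rfl

theorem FPair.mem_comp_target (a : FPair E V N) (g : OpenPartialHomeomorph E E') (y : E') :
    y ∈ (a.comp g).c.target ↔ y ∈ g.target ∧ g.symm y ∈ a.c.target := Iff.rfl

/-! ### The relation `AgreeAt` -/

/-- Constructor: it is enough to know the two transition maps near the point. -/
theorem AgreeAt.mk' {f : E → E} {g : E → E}
    (hf : (b.c ∘ a.c.symm) =ᶠ[𝓝 (a.c p)] f) (hg : (a.c ∘ b.c.symm) =ᶠ[𝓝 (b.c p)] g)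
    (hfs : ContDiffAt ℝ ∞ f (a.c p)) (hgs : ContDiffAt ℝ ∞ g (b.c p))
    (hform : p ∉ Z → a.Θ (a.c p) = (b.Θ (b.c p)).comp (fderiv ℝ f (a.c p))) :
    AgreeAt Z a b p :=
  ⟨hfs.congr_of_eventuallyEq hf, hgs.congr_of_eventuallyEq hg, fun hp => by
    rw [hf.fderiv_eq]; exact hform hp⟩

theorem trans_self_eventuallyEq {X Y : Type*} [TopologicalSpace X] [TopologicalSpace Y]
    (e : OpenPartialHomeomorph X Y) {p : X} (hp : p ∈ e.source) :
    (e ∘ e.symm) =ᶠ[𝓝 (e p)] id :=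
  e.eventually_right_inverse (e.map_source hp)

/-- If `p` is in both sources, `e' ∘ e.symm ∘ (e ∘ e'.symm) = id` etc. -/
theorem trans_comp_eventuallyEq {X Y Y' Y'' : Type*} [TopologicalSpace X] [TopologicalSpace Y]
    [TopologicalSpace Y'] [TopologicalSpace Y''] (e : OpenPartialHomeomorph X Y)
    (e' : OpenPartialHomeomorph X Y') (e'' : OpenPartialHomeomorph X Y'') {p : X}
    (hp : p ∈ e.source) (hp' : p ∈ e'.source) :
    (e'' ∘ e.symm) =ᶠ[𝓝 (e p)] (e'' ∘ e'.symm) ∘ (e' ∘ e.symm) := by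
  have h1 : ∀ᶠ y in 𝓝 (e p), e.symm y ∈ e'.source := by
    have hc := e.symm.continuousAt (e.map_source hp)
    apply hc.eventually
    rw [e.left_inv hp]
    exact e'.open_source.mem_nhds hp'
  filter_upwards [h1] with y hy
  simp only [Function.comp_apply]
  rw [e'.left_inv hy]

theorem AgreeAt.refl (Z : Set N) (a : FPair E V N) (hp : p ∈ a.c.source) :
    AgreeAt Z a a p := by
  have h := trans_self_eventuallyEq a.c hp
  refine AgreeAt.mk' h h contDiffAt_id contDiffAt_id fun _ => ?_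
  rw [fderiv_id, ContinuousLinearMap.comp_id]

theorem AgreeAt.fderiv_comp_fderiv (ha : p ∈ a.c.source) (hb : p ∈ b.c.source)
    (h : AgreeAt Z a b p) :
    (fderiv ℝ (b.c ∘ a.c.symm) (a.c p)).comp (fderiv ℝ (a.c ∘ b.c.symm) (b.c p))
      = ContinuousLinearMap.id ℝ E := by
  have h1 := trans_comp_eventuallyEq b.c a.c b.c hb ha
  have h2 := trans_self_eventuallyEq b.c hb
  have h3 : (a.c ∘ b.c.symm) (b.c p) = a.c p := by
    simp [b.c.left_inv hb]
  have h4 : fderiv ℝ ((b.c ∘ a.c.symm) ∘ (a.c ∘ b.c.symm)) (b.c p)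
      = (fderiv ℝ (b.c ∘ a.c.symm) (a.c p)).comp (fderiv ℝ (a.c ∘ b.c.symm) (b.c p)) := by
    rw [fderiv_comp _ _ (h.smooth'.differentiableAt (by simp)), h3]
    rw [h3]
    exact h.smooth.differentiableAt (by simp)
  rw [← h4, ← h1.fderiv_eq, h2.fderiv_eq, fderiv_id]

theorem AgreeAt.fderiv_comp_fderiv' (ha : p ∈ a.c.source) (hb : p ∈ b.c.source)
    (h : AgreeAt Z a b p) :
    (fderiv ℝ (a.c ∘ b.c.symm) (b.c p)).comp (fderiv ℝ (b.c ∘ a.c.symm) (a.c p))
      = ContinuousLinearMap.id ℝ E := by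
  have h1 := trans_comp_eventuallyEq a.c b.c a.c ha hb
  have h2 := trans_self_eventuallyEq a.c ha
  have h3 : (b.c ∘ a.c.symm) (a.c p) = b.c p := by
    simp [a.c.left_inv ha]
  have h4 : fderiv ℝ ((a.c ∘ b.c.symm) ∘ (b.c ∘ a.c.symm)) (a.c p)
      = (fderiv ℝ (a.c ∘ b.c.symm) (b.c p)).comp (fderiv ℝ (b.c ∘ a.c.symm) (a.c p)) := by
    rw [fderiv_comp _ _ (h.smooth.differentiableAt (by simp)), h3]
    rw [h3]
    exact h.smooth'.differentiableAt (by simp)
  rw [← h4, ← h1.fderiv_eq, h2.fderiv_eq, fderiv_id]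

theorem AgreeAt.symm (ha : p ∈ a.c.source) (hb : p ∈ b.c.source) (h : AgreeAt Z a b p) :
    AgreeAt Z b a p := by
  refine ⟨h.smooth', h.smooth, fun hp => ?_⟩
  rw [h.form hp, ContinuousLinearMap.comp_assoc, h.fderiv_comp_fderiv ha hb,
    ContinuousLinearMap.comp_id]

theorem AgreeAt.trans (ha : p ∈ a.c.source) (hb : p ∈ b.c.source) (hc : p ∈ c.c.source)
    (h : AgreeAt Z a b p) (h' : AgreeAt Z b c p) : AgreeAt Z a c p := by
  have e1 := trans_comp_eventuallyEq a.c b.c c.c ha hb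
  have e2 := trans_comp_eventuallyEq c.c b.c a.c hc hb
  have h3 : (b.c ∘ a.c.symm) (a.c p) = b.c p := by
    simp [a.c.left_inv ha]
  have h3' : (b.c ∘ c.c.symm) (c.c p) = b.c p := by
    simp [c.c.left_inv hc]
  refine AgreeAt.mk' e1 e2 ?_ ?_ fun hp => ?_
  · refine ContDiffAt.comp _ ?_ h.smooth
    rw [h3]; exact h'.smooth
  · refine ContDiffAt.comp _ ?_ h'.smooth'
    rw [h3']; exact h.smooth'
  · rw [fderiv_comp _ _ (h.smooth.differentiableAt (by simp)), h3, h.form hp, h'.form hp,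
      ContinuousLinearMap.comp_assoc]
    rw [h3]
    exact h'.smooth.differentiableAt (by simp)

theorem AgreeAt.restr_left (h : AgreeAt Z a b p) (s : Set N) (hs : IsOpen s) :
    AgreeAt Z (a.restr s hs) b p := ⟨h.1, h.2, h.3⟩

theorem AgreeAt.restr_right (h : AgreeAt Z a b p) (s : Set N) (hs : IsOpen s) :
    AgreeAt Z a (b.restr s hs) p := ⟨h.1, h.2, h.3⟩

theorem AgreeAt.push {i : OpenPartialHomeomorph N N'} (hp : p ∈ i.source)
    (ha : p ∈ a.c.source) (hb : p ∈ b.c.source) (h : AgreeAt Z a b p)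
    {Z' : Set N'} (hZ : i p ∉ Z' → p ∉ Z) :
    AgreeAt Z' (a.push i) (b.push i) (i p) := by
  have hip : i.symm (i p) = p := i.left_inv hp
  have key : ∀ a b : FPair E V N, p ∈ a.c.source →
      ((b.push i).c ∘ (a.push i).c.symm) =ᶠ[𝓝 ((a.push i).c (i p))] (b.c ∘ a.c.symm) := by
    intro a b ha
    have h1 : ∀ᶠ y in 𝓝 (a.c p), a.c.symm y ∈ i.source := by
      have hc := a.c.symm.continuousAt (a.c.map_source ha)
      apply hc.eventually
      rw [a.c.left_inv ha]
      exact i.open_source.mem_nhds hp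
    rw [FPair.push_apply, hip]
    filter_upwards [h1] with y hy
    simp only [Function.comp_apply, FPair.push_apply, FPair.push_symm_apply]
    rw [i.left_inv hy]
  refine AgreeAt.mk' (key a b ha) (key b a hb) ?_ ?_ fun hq => ?_
  · rw [FPair.push_apply, hip]; exact h.smooth
  · rw [FPair.push_apply, hip]; exact h.smooth'
  · rw [FPair.push_apply, FPair.push_apply, hip]
    exact h.form (hZ hq)

theorem AgreeAt.mulLeft (h : AgreeAt Z a b p) (C : V →L[ℝ] V') :
    AgreeAt Z (a.mulLeft C) (b.mulLeft C) p := by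
  refine ⟨h.smooth, h.smooth', fun hp => ?_⟩
  show C.comp (a.Θ (a.c p)) = (C.comp (b.Θ (b.c p))).comp _
  rw [h.form hp]; rfl

/-- Change of coordinates on both sides by the same local diffeomorphism. -/
theorem AgreeAt.comp_comp' {g g' : OpenPartialHomeomorph E E'} (ha : p ∈ (a.comp g).c.source)
    (hb : p ∈ (b.comp g').c.source) (h : AgreeAt Z a b p)
    (hg : ContDiffOn ℝ ∞ g g.source) (hg' : ContDiffOn ℝ ∞ g.symm g.target)
    (hk : ContDiffOn ℝ ∞ g' g'.source) (hk' : ContDiffOn ℝ ∞ g'.symm g'.target) :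
    AgreeAt Z (a.comp g) (b.comp g') p := by
  obtain ⟨ha1, ha2⟩ := ha
  obtain ⟨hb1, hb2⟩ := hb
  have ha2' : a.c p ∈ g.source := ha2
  have hb2' : b.c p ∈ g'.source := hb2
  have eg : g.symm (g (a.c p)) = a.c p := g.left_inv ha2
  have eg' : g'.symm (g' (b.c p)) = b.c p := g'.left_inv hb2
  have sg : ContDiffAt ℝ ∞ g (a.c p) := hg.contDiffAt (g.open_source.mem_nhds ha2)
  have sg' : ContDiffAt ℝ ∞ g.symm (g (a.c p)) :=
    hg'.contDiffAt (g.open_target.mem_nhds (g.map_source ha2))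
  have sk : ContDiffAt ℝ ∞ g' (b.c p) := hk.contDiffAt (g'.open_source.mem_nhds hb2)
  have sk' : ContDiffAt ℝ ∞ g'.symm (g' (b.c p)) :=
    hk'.contDiffAt (g'.open_target.mem_nhds (g'.map_source hb2))
  have eab : (b.c ∘ a.c.symm) (a.c p) = b.c p := by simp [a.c.left_inv ha1]
  have eba : (a.c ∘ b.c.symm) (b.c p) = a.c p := by simp [b.c.left_inv hb1]
  have s1 : ContDiffAt ℝ ∞ ((b.c ∘ a.c.symm) ∘ g.symm) (g (a.c p)) := by
    refine ContDiffAt.comp _ ?_ sg'
    rw [eg]; exact h.smooth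
  have s1' : ContDiffAt ℝ ∞ ((a.c ∘ b.c.symm) ∘ g'.symm) (g' (b.c p)) := by
    refine ContDiffAt.comp _ ?_ sk'
    rw [eg']; exact h.smooth'
  have e1 : ((b.c ∘ a.c.symm) ∘ g.symm) (g (a.c p)) = b.c p := by
    simp only [Function.comp_apply] at eab ⊢
    rw [eg, eab]
  have e1' : ((a.c ∘ b.c.symm) ∘ g'.symm) (g' (b.c p)) = a.c p := by
    simp only [Function.comp_apply] at eba ⊢
    rw [eg', eba]
  refine ⟨?_, ?_, fun hp => ?_⟩
  · show ContDiffAt ℝ ∞ (g' ∘ ((b.c ∘ a.c.symm) ∘ g.symm)) (g (a.c p))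
    refine ContDiffAt.comp _ ?_ s1
    rw [e1]; exact sk
  · show ContDiffAt ℝ ∞ (g ∘ ((a.c ∘ b.c.symm) ∘ g'.symm)) (g' (b.c p))
    refine ContDiffAt.comp _ ?_ s1'
    rw [e1']; exact sg
  · show (a.Θ (g.symm (g (a.c p)))).comp (fderiv ℝ g.symm (g (a.c p))) =
      ((b.Θ (g'.symm (g' (b.c p)))).comp (fderiv ℝ g'.symm (g' (b.c p)))).comp
        (fderiv ℝ (g' ∘ ((b.c ∘ a.c.symm) ∘ g.symm)) (g (a.c p)))
    have d1 : fderiv ℝ (g' ∘ ((b.c ∘ a.c.symm) ∘ g.symm)) (g (a.c p)) =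
        (fderiv ℝ g' (b.c p)).comp ((fderiv ℝ (b.c ∘ a.c.symm) (a.c p)).comp
          (fderiv ℝ g.symm (g (a.c p)))) := by
      rw [fderiv_comp _ _ (s1.differentiableAt (by simp)), e1, fderiv_comp _ _
        (sg'.differentiableAt (by simp)), eg]
      · rw [eg]; exact h.smooth.differentiableAt (by simp)
      · rw [e1]; exact sk.differentiableAt (by simp)
    have d2 : (fderiv ℝ g'.symm (g' (b.c p))).comp (fderiv ℝ g' (b.c p)) =
        ContinuousLinearMap.id ℝ E := by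
      have : fderiv ℝ (g'.symm ∘ g') (b.c p) =
          (fderiv ℝ g'.symm (g' (b.c p))).comp (fderiv ℝ g' (b.c p)) :=
        fderiv_comp _ (sk'.differentiableAt (by simp)) (sk.differentiableAt (by simp))
      rw [← this]
      have e : (g'.symm ∘ g') =ᶠ[𝓝 (b.c p)] id := g'.eventually_left_inverse hb2
      rw [e.fderiv_eq, fderiv_id]
    rw [d1, eg, eg', h.form hp]
    ext v
    simp only [ContinuousLinearMap.comp_apply]
    have := DFunLike.congr_fun d2 ((fderiv ℝ (b.c ∘ a.c.symm) (a.c p))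
      ((fderiv ℝ g.symm (g (a.c p))) v))
    simp only [ContinuousLinearMap.comp_apply, ContinuousLinearMap.id_apply] at this
    rw [this]

theorem AgreeAt.comp_comp {g : OpenPartialHomeomorph E E'} (ha : p ∈ (a.comp g).c.source)
    (hb : p ∈ (b.comp g).c.source) (h : AgreeAt Z a b p)
    (hg : ContDiffOn ℝ ∞ g g.source) (hg' : ContDiffOn ℝ ∞ g.symm g.target) :
    AgreeAt Z (a.comp g) (b.comp g) p :=
  AgreeAt.comp_comp' ha hb h hg hg' hg hg'

theorem FPair.comp_refl_form (a : FPair E V N) :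
    (a.comp (OpenPartialHomeomorph.refl E)) = a := by
  cases a with
  | mk c Θ =>
    simp only [FPair.comp, OpenPartialHomeomorph.trans_refl]
    congr 1
    ext y v
    simp

theorem AgreeAt.comp_left {g : OpenPartialHomeomorph E E} (ha : p ∈ (a.comp g).c.source)
    (hb : p ∈ b.c.source) (h : AgreeAt Z a b p)
    (hg : ContDiffOn ℝ ∞ g g.source) (hg' : ContDiffOn ℝ ∞ g.symm g.target) :
    AgreeAt Z (a.comp g) b p := by
  have := AgreeAt.comp_comp' (a := a) (b := b) (g := g) (g' := OpenPartialHomeomorph.refl E)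
    (Z := Z) ha ⟨hb, mem_univ _⟩ h hg hg' contDiff_id.contDiffOn contDiff_id.contDiffOn
  rwa [FPair.comp_refl_form] at this

/-! ### Members -/

theorem FA.mem_of_mem_at (𝔸 : FA E V N Z) (ha : a ∈ 𝔸.at') : 𝔸.Mem a :=
  fun b hb p hp hq => 𝔸.agree a ha b hb p hp hq

theorem FA.Mem.agree {𝔸 : FA E V N Z} (ha : 𝔸.Mem a) (hb : 𝔸.Mem b)
    (hpa : p ∈ a.c.source) (hpb : p ∈ b.c.source) : AgreeAt Z a b p := by
  obtain ⟨d, hd, hpd⟩ := 𝔸.cover p
  exact (ha d hd p hpa hpd).trans hpa hpd hpb ((hb d hd p hpb hpd).symm hpb hpd)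

theorem FA.Mem.inj {𝔸 : FA E V N Z} (ha : 𝔸.Mem a) (hp : p ∈ a.c.source) (hZ : p ∉ Z) :
    Function.Injective (a.Θ (a.c p)) := by
  obtain ⟨d, hd, hpd⟩ := 𝔸.cover p
  have h := ha d hd p hp hpd
  rw [h.form hZ]
  have h1 := 𝔸.inj d hd p hpd hZ
  have h2 : Function.Injective (fderiv ℝ (d.c ∘ a.c.symm) (a.c p)) := by
    have h3 := h.fderiv_comp_fderiv' hp hpd
    apply Function.LeftInverse.injective (g := fderiv ℝ (a.c ∘ d.c.symm) (d.c p))
    intro v
    exact DFunLike.congr_fun h3 v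
  exact h1.comp h2

theorem FA.Mem.smooth {𝔸 : FA E V N Z} (ha : 𝔸.Mem a) (hp : p ∈ a.c.source) (hZ : p ∉ Z) :
    ContDiffAt ℝ ∞ a.Θ (a.c p) := by
  obtain ⟨d, hd, hpd⟩ := 𝔸.cover p
  have h := ha d hd p hp hpd
  have h1 : ∀ᶠ y in 𝓝 (a.c p), y ∈ a.c.target ∧ a.c.symm y ∈ d.c.source ∧
      a.c.symm y ∉ Z := by
    have hc := a.c.symm.continuousAt (a.c.map_source hp)
    refine (a.c.open_target.eventually_mem (a.c.map_source hp)).and
      (hc.eventually (p := fun q => q ∈ d.c.source ∧ q ∉ Z) ?_)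
    rw [a.c.left_inv hp]
    exact (d.c.open_source.eventually_mem hpd).and (𝔸.closed.isOpen_compl.eventually_mem hZ)
  have h2 : a.Θ =ᶠ[𝓝 (a.c p)] fun y =>
      (d.Θ ((d.c ∘ a.c.symm) y)).comp (fderiv ℝ (d.c ∘ a.c.symm) y) := by
    filter_upwards [h1] with y ⟨hy1, hy2, hy3⟩
    have h3 := (ha d hd (a.c.symm y) (a.c.map_target hy1) hy2).form hy3
    rw [a.c.right_inv hy1] at h3
    exact h3
  refine ContDiffAt.congr_of_eventuallyEq ?_ h2
  have h4 : ContDiffAt ℝ ∞ (fderiv ℝ (d.c ∘ a.c.symm)) (a.c p) :=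
    h.smooth.fderiv_right (m := ∞) (by simp)
  have h5 : ContDiffAt ℝ ∞ (fun y => d.Θ ((d.c ∘ a.c.symm) y)) (a.c p) := by
    refine ContDiffAt.comp (a.c p) ?_ h.smooth
    have : (d.c ∘ a.c.symm) (a.c p) = d.c p := by simp [a.c.left_inv hp]
    rw [this]
    exact 𝔸.smooth d hd p hpd hZ
  exact h5.clm_comp h4

theorem FA.Mem.restr {𝔸 : FA E V N Z} (ha : 𝔸.Mem a) (s : Set N) (hs : IsOpen s) :
    𝔸.Mem (a.restr s hs) :=
  fun b hb p hp hq => (ha b hb p hp.1 hq).restr_left s hs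

/-- Members can be composed with local diffeomorphisms of the model space. -/
theorem FA.Mem.comp {𝔸 : FA E V N Z} (ha : 𝔸.Mem a) (g : OpenPartialHomeomorph E E)
    (hg : ContDiffOn ℝ ∞ g g.source) (hg' : ContDiffOn ℝ ∞ g.symm g.target) :
    𝔸.Mem (a.comp g) :=
  fun b hb p hp hq => (ha b hb p hp.1 hq).comp_left hp hq hg hg'

/-- The set `Z` may be enlarged. -/
def FA.mono (𝔸 : FA E V N Z) {Z' : Set N} (h : Z ⊆ Z') (hZ' : IsClosed Z') :
    FA E V N Z' where
  at' := 𝔸.at'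
  closed := hZ'
  cover := 𝔸.cover
  smooth := fun a ha p hp hZ => 𝔸.smooth a ha p hp (fun h' => hZ (h h'))
  inj := fun a ha p hp hZ => 𝔸.inj a ha p hp (fun h' => hZ (h h'))
  agree := fun a ha b hb p hp hq =>
    ⟨(𝔸.agree a ha b hb p hp hq).1, (𝔸.agree a ha b hb p hp hq).2,
      fun hZ => (𝔸.agree a ha b hb p hp hq).3 (fun h' => hZ (h h'))⟩

/-- Change of the model space by a linear isomorphism. -/
def FA.changeModel (𝔸 : FA E V N Z) (L : E ≃L[ℝ] E') : FA E' V N Z where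
  at' := (fun a : FPair E V N => a.comp L.toHomeomorph.toOpenPartialHomeomorph) '' 𝔸.at'
  closed := 𝔸.closed
  cover := fun p => by
    obtain ⟨a, ha, hp⟩ := 𝔸.cover p
    exact ⟨_, mem_image_of_mem _ ha, hp, mem_univ _⟩
  smooth := by
    rintro _ ⟨a, ha, rfl⟩ p hp hZ
    have h := 𝔸.smooth a ha p hp.1 hZ
    show ContDiffAt ℝ ∞ (fun y => (a.Θ (L.symm y)).comp (fderiv ℝ L.symm y)) (L (a.c p))
    have h1 : ContDiffAt ℝ ∞ (fun y => a.Θ (L.symm y)) (L (a.c p)) := by
      refine ContDiffAt.comp (g := a.Θ) _ ?_ L.symm.contDiff.contDiffAt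
      rw [L.symm_apply_apply]; exact h
    refine h1.clm_comp ?_
    have : (fderiv ℝ (L.symm : E' → E)) = fun _ => (L.symm : E' →L[ℝ] E) := by
      ext1 y; exact L.symm.fderiv
    rw [this]
    exact contDiffAt_const
  inj := by
    rintro _ ⟨a, ha, rfl⟩ p hp hZ
    have h := 𝔸.inj a ha p hp.1 hZ
    show Function.Injective ((a.Θ (L.symm (L (a.c p)))).comp (fderiv ℝ L.symm (L (a.c p))))
    rw [L.symm_apply_apply, L.symm.fderiv]
    exact h.comp L.symm.injective
  agree := by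
    rintro _ ⟨a, ha, rfl⟩ _ ⟨b, hb, rfl⟩ p hp hq
    exact (𝔸.agree a ha b hb p hp.1 hq.1).comp_comp hp hq L.contDiff.contDiffOn
      L.symm.contDiff.contDiffOn

theorem FA.Mem.comp_changeModel {𝔸 : FA E V N Z} (ha : 𝔸.Mem a) (L : E ≃L[ℝ] E')
    (g : OpenPartialHomeomorph E E') (hg : ContDiffOn ℝ ∞ g g.source)
    (hg' : ContDiffOn ℝ ∞ g.symm g.target) : (𝔸.changeModel L).Mem (a.comp g) := by
  rintro _ ⟨b, hb, rfl⟩ p hp hq
  exact AgreeAt.comp_comp' hp hq (ha b hb p hp.1 hq.1) hg hg' L.contDiff.contDiffOn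
    L.symm.contDiff.contDiffOn

theorem FA.Mem.changeModel {𝔸 : FA E V N Z} (ha : 𝔸.Mem a) (L : E ≃L[ℝ] E') :
    (𝔸.changeModel L).Mem (a.comp L.toHomeomorph.toOpenPartialHomeomorph) :=
  ha.comp_changeModel L _ L.contDiff.contDiffOn L.symm.contDiff.contDiffOn

theorem Emb.changeModel {F E₀ : Type*} [NormedAddCommGroup F] [NormedSpace ℝ F]
    [NormedAddCommGroup E₀] [NormedSpace ℝ E₀] {Y : Set M}
    {𝔹 : FA E₀ V M Y} {𝔸 : FA E V N Z} {j : M → N} (h : Emb F 𝔹 𝔸 j) (L : E ≃L[ℝ] E') :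
    Emb F 𝔹 (𝔸.changeModel L) j where
  cont := h.cont
  inj := h.inj
  avoid := h.avoid
  slice := by
    intro x
    obtain ⟨a, c, ℓ, ha, hc, hx, hsl⟩ := h.slice x
    refine ⟨a, c.comp L.toHomeomorph.toOpenPartialHomeomorph, ℓ.trans L, ha,
      hc.changeModel L, hx, fun x' hx' => ?_⟩
    obtain ⟨h1, h2, h3⟩ := hsl x' hx'
    refine ⟨⟨h1, mem_univ _⟩, ?_, ?_⟩
    · show L (c.c (j x')) = L (ℓ (a.c x', 0))
      rw [h2]
    · rw [← h3]
      show ((c.Θ (L.symm (L (c.c (j x'))))).comp (fderiv ℝ L.symm (L (c.c (j x'))))).comp _ = _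
      rw [L.symm_apply_apply, L.symm.fderiv]
      ext v
      simp

/-- Post-composition of all forms with a linear isomorphism. -/
def FA.mulLeft (𝔸 : FA E V N Z) (C : V ≃L[ℝ] V') : FA E V' N Z where
  at' := (fun a : FPair E V N => a.mulLeft (C : V →L[ℝ] V')) '' 𝔸.at'
  closed := 𝔸.closed
  cover := fun p => by
    obtain ⟨a, ha, hp⟩ := 𝔸.cover p
    exact ⟨_, mem_image_of_mem _ ha, hp⟩
  smooth := by
    rintro _ ⟨a, ha, rfl⟩ p hp hZ
    exact contDiffAt_const.clm_comp (𝔸.smooth a ha p hp hZ)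
  inj := by
    rintro _ ⟨a, ha, rfl⟩ p hp hZ
    exact C.injective.comp (𝔸.inj a ha p hp hZ)
  agree := by
    rintro _ ⟨a, ha, rfl⟩ _ ⟨b, hb, rfl⟩ p hp hq
    exact (𝔸.agree a ha b hb p hp hq).mulLeft _

theorem FA.Mem.mulLeft {𝔸 : FA E V N Z} (ha : 𝔸.Mem a) (C : V ≃L[ℝ] V') :
    (𝔸.mulLeft C).Mem (a.mulLeft (C : V →L[ℝ] V')) := by
  rintro _ ⟨b, hb, rfl⟩ p hp hq
  exact (ha b hb p hp hq).mulLeft _

/-! ### Partial homeomorphisms between a subset and a space -/

/-- A partial homeomorphism from a subset `S ⊆ X` to `Y` given by functions on `X` and `Y`. -/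
theorem exists_subOPH {X Y : Type*} [TopologicalSpace X] [TopologicalSpace Y] {S : Set X}
    (f : X → Y) (g : Y → X) (U : Set X) (W : Set Y) (hU : IsOpen U) (hW : IsOpen W)
    (hS : S.Nonempty)
    (hf : ∀ x ∈ S, x ∈ U → f x ∈ W) (hg : ∀ y ∈ W, g y ∈ S ∧ g y ∈ U)
    (hfg : ∀ y ∈ W, f (g y) = y) (hgf : ∀ x ∈ S, x ∈ U → g (f x) = x)
    (cf : ContinuousOn f (S ∩ U)) (cg : ContinuousOn g W) :
    ∃ e : OpenPartialHomeomorph S Y, e.source = {x : S | (x : X) ∈ U} ∧ e.target = W ∧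
      (∀ x : S, e x = f x) ∧ (∀ y ∈ W, ((e.symm y : S) : X) = g y) := by
  classical
  let g' : Y → S := fun y => if h : g y ∈ S then ⟨g y, h⟩ else ⟨hS.some, hS.some_mem⟩
  have hg' : ∀ y ∈ W, (g' y : X) = g y := by
    intro y hy
    simp only [g', dif_pos (hg y hy).1]
  refine ⟨{ toFun := fun x => f x
            invFun := g'
            source := {x | (x : X) ∈ U}
            target := W
            map_source' := fun x hx => hf x x.2 hx
            map_target' := fun y hy => by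
              show (g' y : X) ∈ U
              rw [hg' y hy]; exact (hg y hy).2
            left_inv' := fun x hx => by
              apply Subtype.ext
              rw [hg' _ (hf x x.2 hx)]
              exact hgf x x.2 hx
            right_inv' := fun y hy => by
              show f (g' y) = y
              rw [hg' y hy]; exact hfg y hy
            open_source := hU.preimage continuous_subtype_val
            open_target := hW
            continuousOn_toFun := ?_
            continuousOn_invFun := ?_ }, rfl, rfl, fun _ => rfl, hg'⟩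
  · exact cf.comp continuous_subtype_val.continuousOn fun x hx => ⟨x.2, hx⟩
  · rw [Topology.IsInducing.subtypeVal.continuousOn_iff]
    exact cg.congr hg'

end FormAtlas

end PF
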