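import Pool.Agent.Helper4.PF.Basic

/-!
# The normal bundle of a form atlas (project MP_905dfc_gt)
-/

open scoped Manifold ContDiff Topology InnerProductSpace
open Set Filter Metric ContinuousLinearMap

noncomputable section

namespace PF

variable {V : Type*} [NormedAddCommGroup V] [InnerProductSpace ℝ V] [FiniteDimensional ℝ V]
  {M : Type*} [TopologicalSpace M] {n m : ℕ}
  {𝔸 : FA (Eu n) V M ∅} {a b : FPair (Eu n) V M} {x : M}

/-- The orthogonal complement of the range is the kernel of the adjoint. -/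
theorem mem_range_orthogonal_iff (A : Eu n →L[ℝ] V) (w : V) :
    w ∈ (LinearMap.range (A : Eu n →ₗ[ℝ] V))ᗮ ↔ adjoint A w = 0 := by
  have h := ContinuousLinearMap.orthogonal_range A
  have h2 : w ∈ (LinearMap.range (A : Eu n →ₗ[ℝ] V))ᗮ ↔ w ∈ A.rangeᗮ := Iff.rfl
  rw [h2, h]
  exact LinearMap.mem_ker

theorem FA.mem_nu_iff (ha : 𝔸.Mem a) (hx : x ∈ a.c.source) (w : V) :
    w ∈ 𝔸.nu x ↔ adjoint (a.Θ (a.c x)) w = 0 := by
  have hc := (𝔸.cover x).choose_spec
  set c := (𝔸.cover x).choose with hcdef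
  have hag : AgreeAt ∅ a c x := ha c hc.1 x hx hc.2
  have hform := hag.form (by simp)
  have hinv := hag.fderiv_comp_fderiv hx hc.2
  have hr : LinearMap.range (c.Θ (c.c x) : Eu n →ₗ[ℝ] V)
      = LinearMap.range (a.Θ (a.c x) : Eu n →ₗ[ℝ] V) := by
    apply le_antisymm
    · rintro _ ⟨v, rfl⟩
      refine ⟨fderiv ℝ (a.c ∘ c.c.symm) (c.c x) v, ?_⟩
      show a.Θ (a.c x) _ = c.Θ (c.c x) v
      rw [hform]
      have := DFunLike.congr_fun hinv v
      simp only [comp_apply, id_apply] at this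
      rw [comp_apply, this]
    · rintro _ ⟨v, rfl⟩
      refine ⟨fderiv ℝ (c.c ∘ a.c.symm) (a.c x) v, ?_⟩
      show c.Θ (c.c x) _ = a.Θ (a.c x) v
      rw [hform, comp_apply]
  show w ∈ (LinearMap.range (c.Θ (c.c x) : Eu n →ₗ[ℝ] V))ᗮ ↔ _
  rw [hr, mem_range_orthogonal_iff]

/-! ### The projection `PiN` -/

theorem PiN_apply (A : Eu n →L[ℝ] V) (w : V) :
    PiN A w = w - A (Ring.inverse ((adjoint A).comp A) (adjoint A w)) := rfl

theorem isUnit_adjoint_comp {A : Eu n →L[ℝ] V} (hA : Function.Injective A) :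
    IsUnit ((adjoint A).comp A) := by
  have hinj : Function.Injective ((adjoint A).comp A : Eu n →ₗ[ℝ] Eu n) := by
    rw [injective_iff_map_eq_zero]
    intro v hv
    have hv' : adjoint A (A v) = 0 := hv
    have h1 : ⟪adjoint A (A v), v⟫_ℝ = ⟪A v, A v⟫_ℝ := adjoint_inner_left A v (A v)
    rw [hv', inner_zero_left] at h1
    have h2 : A v = 0 := inner_self_eq_zero.1 h1.symm
    exact hA (h2.trans (map_zero A).symm)
  let e := (LinearEquiv.ofInjectiveEndo _ hinj).toContinuousLinearEquiv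
  refine ⟨ContinuousLinearEquiv.toUnit e, ?_⟩
  ext v
  rfl

theorem PiN_of_adjoint_eq_zero (A : Eu n →L[ℝ] V) {w : V} (hw : adjoint A w = 0) :
    PiN A w = w := by
  rw [PiN_apply, hw, map_zero, map_zero, sub_zero]

theorem PiN_apply_range {A : Eu n →L[ℝ] V} (hA : Function.Injective A) (v : Eu n) :
    PiN A (A v) = 0 := by
  have h := Ring.inverse_mul_cancel _ (isUnit_adjoint_comp hA)
  have h2 := DFunLike.congr_fun h v
  have h3 : Ring.inverse ((adjoint A).comp A) (adjoint A (A v)) = v := h2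
  rw [PiN_apply, h3, sub_self]

theorem adjoint_PiN {A : Eu n →L[ℝ] V} (hA : Function.Injective A) (w : V) :
    adjoint A (PiN A w) = 0 := by
  have h := Ring.mul_inverse_cancel _ (isUnit_adjoint_comp hA)
  have h2 := DFunLike.congr_fun h (adjoint A w)
  have h3 : adjoint A (A (Ring.inverse ((adjoint A).comp A) (adjoint A w))) = adjoint A w := h2
  rw [PiN_apply, map_sub, h3, sub_self]

/-- `PiN A w - w` is in the range of `A`. -/
theorem exists_sub_PiN (A : Eu n →L[ℝ] V) (w : V) : ∃ v, w - PiN A w = A v :=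
  ⟨Ring.inverse ((adjoint A).comp A) (adjoint A w), by rw [PiN_apply, sub_sub_cancel]⟩

theorem PiN_inner_PiN {A : Eu n →L[ℝ] V} (hA : Function.Injective A) (v w : V) :
    ⟪PiN A v, w⟫_ℝ = ⟪PiN A v, PiN A w⟫_ℝ := by
  obtain ⟨x, hx⟩ := exists_sub_PiN A w
  have h1 : w = PiN A w + A x := by rw [← hx]; abel
  have h2 : ⟪PiN A v, A x⟫_ℝ = 0 := by
    rw [← adjoint_inner_left, adjoint_PiN hA, inner_zero_left]
  calc ⟪PiN A v, w⟫_ℝ = ⟪PiN A v, PiN A w + A x⟫_ℝ := by rw [← h1]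
    _ = _ := by rw [inner_add_right, h2, add_zero]

theorem PiN_symm {A : Eu n →L[ℝ] V} (hA : Function.Injective A) (v w : V) :
    ⟪PiN A v, w⟫_ℝ = ⟪v, PiN A w⟫_ℝ := by
  rw [PiN_inner_PiN hA, real_inner_comm, ← PiN_inner_PiN hA, real_inner_comm]

theorem contDiff_adjoint :
    ContDiff ℝ ∞ (fun A : Eu n →L[ℝ] V => adjoint A) := by
  have h : IsBoundedLinearMap ℝ (fun A : Eu n →L[ℝ] V => adjoint A) := by
    refine IsLinearMap.with_bound ⟨fun A B => map_add _ A B, fun c A => ?_⟩ 1 fun A => ?_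
    · show adjoint (c • A) = c • adjoint A
      rw [LinearIsometryEquiv.map_smulₛₗ]
      simp
    · rw [one_mul]
      exact (LinearIsometryEquiv.norm_map _ A).le
  exact h.contDiff

theorem contDiffAt_PiN {A : Eu n →L[ℝ] V} (hA : Function.Injective A) :
    ContDiffAt ℝ ∞ (PiN : (Eu n →L[ℝ] V) → (V →L[ℝ] V)) A := by
  have h1 : ContDiffAt ℝ ∞ (fun A : Eu n →L[ℝ] V => adjoint A) A := contDiff_adjoint.contDiffAt
  have h2 : ContDiffAt ℝ ∞ (fun A : Eu n →L[ℝ] V => (adjoint A).comp A) A :=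
    h1.clm_comp contDiffAt_id
  have h3 : ContDiffAt ℝ ∞ (Ring.inverse : (Eu n →L[ℝ] Eu n) → (Eu n →L[ℝ] Eu n))
      ((adjoint A).comp A) := by
    obtain ⟨u, hu⟩ := isUnit_adjoint_comp hA
    rw [← hu]
    exact contDiffAt_ringInverse ℝ u
  have h4 : ContDiffAt ℝ ∞ (fun A : Eu n →L[ℝ] V => Ring.inverse ((adjoint A).comp A)) A :=
    ContDiffAt.comp (g := Ring.inverse) (f := fun A : Eu n →L[ℝ] V => (adjoint A).comp A) A h3 h2
  exact contDiffAt_const.sub (contDiffAt_id.clm_comp (h4.clm_comp h1))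

/-- The projection only depends on the normal space. -/
theorem PiN_eq_starProjection (ha : 𝔸.Mem a) (hx : x ∈ a.c.source) :
    PiN (a.Θ (a.c x)) = (𝔸.nu x).starProjection := by
  have hA := ha.inj hx (by simp)
  ext w
  symm
  apply Submodule.eq_starProjection_of_mem_orthogonal
  · rw [FA.mem_nu_iff ha hx]
    exact adjoint_PiN hA w
  · obtain ⟨v, hv⟩ := exists_sub_PiN (a.Θ (a.c x)) w
    rw [hv, Submodule.mem_orthogonal]
    intro u hu
    rw [FA.mem_nu_iff ha hx] at hu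
    rw [← adjoint_inner_left, hu, inner_zero_left]

/-! ### Local trivialisations -/

theorem UU_spec {β : Eu m →L[ℝ] V} {z : Eu n × Eu m} (hz : z ∈ Om a β) :
    adjoint (a.Θ z.1) (UU a β z) = 0 ∧ adjoint β (UU a β z) = z.2 := by
  have h := hz.2.self_apply_inverse (0, z.2)
  exact ⟨congrArg Prod.fst h, congrArg Prod.snd h⟩

theorem UU_mem_nu (ha : 𝔸.Mem a) {β : Eu m →L[ℝ] V} {z : Eu n × Eu m} (hz : z ∈ Om a β) :
    UU a β z ∈ 𝔸.nu (a.c.symm z.1) := by
  rw [FA.mem_nu_iff ha (a.c.map_target hz.1), a.c.right_inv hz.1]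
  exact (UU_spec hz).1

/-- Membership in `Om` only depends on the first component. -/
theorem Om_iff {β : Eu m →L[ℝ] V} {y : Eu n} {u u' : Eu m} :
    (y, u) ∈ Om a β ↔ (y, u') ∈ Om a β := Iff.rfl

theorem UU_eq_of_adjoint {β : Eu m →L[ℝ] V} {y : Eu n} {w : V}
    (hz : (y, adjoint β w) ∈ Om a β) (hw : adjoint (a.Θ y) w = 0) :
    UU a β (y, adjoint β w) = w := by
  have h : BB (a.Θ y) β w = (0, adjoint β w) := Prod.ext hw rfl
  show (BB (a.Θ y) β).inverse (0, adjoint β w) = w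
  rw [← h]
  exact hz.2.inverse_apply_self w

/-- `UU` is linear in the second component. -/
theorem UU_smul {β : Eu m →L[ℝ] V} {y : Eu n} (t : ℝ) (u : Eu m) :
    UU a β (y, t • u) = t • UU a β (y, u) := by
  show (BB (a.Θ y) β).inverse (0, t • u) = t • (BB (a.Θ y) β).inverse (0, u)
  rw [← map_smul, Prod.smul_mk, smul_zero]

theorem UU_add {β : Eu m →L[ℝ] V} {y : Eu n} (u u' : Eu m) :
    UU a β (y, u + u') = UU a β (y, u) + UU a β (y, u') := by
  show (BB (a.Θ y) β).inverse (0, u + u') =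
    (BB (a.Θ y) β).inverse (0, u) + (BB (a.Θ y) β).inverse (0, u')
  rw [← map_add, Prod.mk_add_mk, add_zero]

theorem UU_zero {β : Eu m →L[ℝ] V} {y : Eu n} : UU a β (y, 0) = 0 := by
  show (BB (a.Θ y) β).inverse (0, 0) = 0
  exact map_zero _

theorem contDiffAt_form (ha : 𝔸.Mem a) {y : Eu n} (hy : y ∈ a.c.target) :
    ContDiffAt ℝ ∞ a.Θ y := by
  have h := ha.smooth (a.c.map_target hy) (by simp)
  rwa [a.c.right_inv hy] at h

theorem form_injective (ha : 𝔸.Mem a) {y : Eu n} (hy : y ∈ a.c.target) :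
    Function.Injective (a.Θ y) := by
  have h := ha.inj (a.c.map_target hy) (by simp)
  rwa [a.c.right_inv hy] at h

theorem contDiffAt_BB (ha : 𝔸.Mem a) (β : Eu m →L[ℝ] V) {z : Eu n × Eu m}
    (hy : z.1 ∈ a.c.target) :
    ContDiffAt ℝ ∞ (fun z : Eu n × Eu m => BB (a.Θ z.1) β) z := by
  have h1 : ContDiffAt ℝ ∞ (fun z : Eu n × Eu m => a.Θ z.1) z :=
    ContDiffAt.comp (g := a.Θ) z (contDiffAt_form ha hy) contDiffAt_fst
  have h2 : ContDiffAt ℝ ∞ (fun z : Eu n × Eu m => adjoint (a.Θ z.1)) z :=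
    ContDiffAt.comp (g := fun A : Eu n →L[ℝ] V => adjoint A) z contDiff_adjoint.contDiffAt h1
  have h3 : (fun z : Eu n × Eu m => BB (a.Θ z.1) β) = fun z : Eu n × Eu m =>
      (ContinuousLinearMap.inl ℝ (Eu n) (Eu m)).comp (adjoint (a.Θ z.1)) +
        (ContinuousLinearMap.inr ℝ (Eu n) (Eu m)).comp (adjoint β) := by
    funext z
    ext w <;> simp [BB]
  rw [h3]
  exact (contDiffAt_const.clm_comp h2).add contDiffAt_const

theorem isOpen_Om (ha : 𝔸.Mem a) (β : Eu m →L[ℝ] V) : IsOpen (Om a β) := by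
  have h1 : IsOpen (Prod.fst ⁻¹' a.c.target : Set (Eu n × Eu m)) :=
    a.c.open_target.preimage continuous_fst
  have h2 : ContinuousOn (fun z : Eu n × Eu m => BB (a.Θ z.1) β)
      (Prod.fst ⁻¹' a.c.target) := fun z hz =>
    (contDiffAt_BB ha β hz).continuousAt.continuousWithinAt
  exact h2.isOpen_inter_preimage h1 ContinuousLinearEquiv.isOpen

theorem contDiffAt_UU (ha : 𝔸.Mem a) {β : Eu m →L[ℝ] V} {z : Eu n × Eu m}
    (hz : z ∈ Om a β) : ContDiffAt ℝ ∞ (UU a β) z := by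
  have h1 := contDiffAt_BB ha β hz.1
  have h2 : ContDiffAt ℝ ∞ (fun z : Eu n × Eu m => (BB (a.Θ z.1) β).inverse) z :=
    ContDiffAt.comp (g := ContinuousLinearMap.inverse) z hz.2.contDiffAt_map_inverse h1
  exact h2.clm_apply (contDiffAt_const.prodMk contDiffAt_snd)

theorem contDiffAt_Th0 (ha : 𝔸.Mem a) {β : Eu m →L[ℝ] V} {z : Eu n × Eu m}
    (hz : z ∈ Om a β) : ContDiffAt ℝ ∞ (Th0 a β) z := by
  have h1 : ContDiffAt ℝ ∞ (fun z : Eu n × Eu m => a.Θ z.1) z :=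
    ContDiffAt.comp (g := a.Θ) z (contDiffAt_form ha hz.1) contDiffAt_fst
  have h2 : ContDiffAt ℝ ∞ (fun z : Eu n × Eu m => PiN (a.Θ z.1)) z :=
    ContDiffAt.comp (g := PiN) z (contDiffAt_PiN (form_injective ha hz.1)) h1
  have h3 : ContDiffAt ℝ ∞ (fderiv ℝ (UU a β)) z :=
    (contDiffAt_UU ha hz).fderiv_right (m := ∞) (by simp)
  exact (h1.clm_comp contDiffAt_const).add (h2.clm_comp h3)

/-- `D UU` in the vertical direction. -/
theorem fderiv_UU_inr (ha : 𝔸.Mem a) {β : Eu m →L[ℝ] V} {z : Eu n × Eu m}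
    (hz : z ∈ Om a β) (u : Eu m) : fderiv ℝ (UU a β) z (0, u) = UU a β (z.1, u) := by
  have h1 : HasFDerivAt (UU a β) (fderiv ℝ (UU a β) z) z :=
    ((contDiffAt_UU ha hz).differentiableAt (by simp)).hasFDerivAt
  have h2 : HasDerivAt (fun t : ℝ => z + t • ((0 : Eu n), u)) ((0 : Eu n), u) 0 := by
    simpa using ((hasDerivAt_id (0 : ℝ)).smul_const ((0 : Eu n), u)).const_add z
  have h1' : HasFDerivAt (UU a β) (fderiv ℝ (UU a β) z)
      ((fun t : ℝ => z + t • ((0 : Eu n), u)) 0) := by simpa using h1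
  have h3 := h1'.comp_hasDerivAt (0 : ℝ) h2
  have h4 : (UU a β ∘ fun t : ℝ => z + t • ((0 : Eu n), u))
      = fun t : ℝ => UU a β z + t • UU a β (z.1, u) := by
    funext t
    have e : z + t • ((0 : Eu n), u) = (z.1, z.2 + t • u) := by
      ext <;> simp
    simp only [Function.comp_apply]
    rw [e, UU_add, UU_smul]
  rw [h4] at h3
  have h5 : HasDerivAt (fun t : ℝ => UU a β z + t • UU a β (z.1, u)) (UU a β (z.1, u)) 0 := by
    simpa using ((hasDerivAt_id (0 : ℝ)).smul_const (UU a β (z.1, u))).const_add (UU a β z)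
  exact h3.unique h5

/-- On the zero section `D UU` vanishes in the horizontal direction. -/
theorem fderiv_UU_inl (ha : 𝔸.Mem a) {β : Eu m →L[ℝ] V} {y : Eu n}
    (hz : (y, (0 : Eu m)) ∈ Om a β) (v : Eu n) : fderiv ℝ (UU a β) (y, 0) (v, 0) = 0 := by
  have h1 : HasFDerivAt (UU a β) (fderiv ℝ (UU a β) (y, 0)) (y, 0) :=
    ((contDiffAt_UU ha hz).differentiableAt (by simp)).hasFDerivAt
  have h2 : HasDerivAt (fun t : ℝ => (y, (0 : Eu m)) + t • (v, (0 : Eu m)))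
      (v, (0 : Eu m)) 0 := by
    simpa using ((hasDerivAt_id (0 : ℝ)).smul_const (v, (0 : Eu m))).const_add (y, (0 : Eu m))
  have h1' : HasFDerivAt (UU a β) (fderiv ℝ (UU a β) (y, 0))
      ((fun t : ℝ => (y, (0 : Eu m)) + t • (v, (0 : Eu m))) 0) := by simpa using h1
  have h3 := h1'.comp_hasDerivAt (0 : ℝ) h2
  have h4 : (UU a β ∘ fun t : ℝ => (y, (0 : Eu m)) + t • (v, (0 : Eu m)))
      = fun _ : ℝ => (0 : V) := by
    funext t
    have e : (y, (0 : Eu m)) + t • (v, (0 : Eu m)) = (y + t • v, 0) := by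
      ext <;> simp
    simp only [Function.comp_apply]
    rw [e, UU_zero]
  rw [h4] at h3
  exact h3.unique (hasDerivAt_const _ _)

theorem Th0_injective (ha : 𝔸.Mem a) {β : Eu m →L[ℝ] V} {z : Eu n × Eu m}
    (hz : z ∈ Om a β) : Function.Injective (Th0 a β z) := by
  have hA := form_injective ha hz.1
  rw [injective_iff_map_eq_zero]
  rintro ⟨v, u⟩ h
  have h0 : a.Θ z.1 v + PiN (a.Θ z.1) (fderiv ℝ (UU a β) z (v, u)) = 0 := h
  have h1 : adjoint (a.Θ z.1) (a.Θ z.1 v) = 0 := by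
    have := congrArg (adjoint (a.Θ z.1)) h0
    rwa [map_add, adjoint_PiN hA, add_zero, map_zero] at this
  have h2 : v = 0 := by
    have h3 : ⟪adjoint (a.Θ z.1) (a.Θ z.1 v), v⟫_ℝ = ⟪a.Θ z.1 v, a.Θ z.1 v⟫_ℝ :=
      adjoint_inner_left (a.Θ z.1) v (a.Θ z.1 v)
    rw [h1, inner_zero_left] at h3
    exact hA ((inner_self_eq_zero.1 h3.symm).trans (map_zero _).symm)
  subst h2
  rw [map_zero, zero_add, fderiv_UU_inr ha hz] at h0
  have hz' : (z.1, u) ∈ Om a β := hz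
  rw [PiN_of_adjoint_eq_zero _ (UU_spec hz').1] at h0
  have h5 := (UU_spec hz').2
  rw [h0, map_zero] at h5
  exact Prod.ext rfl h5.symm

/-- Near every point there is a trivialisation, with `β` an isometry onto the normal space at
this point. -/
theorem exists_beta (hdim : Module.finrank ℝ V = n + m) (ha : 𝔸.Mem a)
    (hx : x ∈ a.c.source) :
    ∃ β : Eu m →L[ℝ] V, (∀ v, ‖β v‖ = ‖v‖) ∧ (∀ v, β v ∈ 𝔸.nu x) ∧
      ∀ u : Eu m, (a.c x, u) ∈ Om a β := by
  have hA := ha.inj hx (by simp)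
  have hrank : Module.finrank ℝ (𝔸.nu x) = m := by
    have h1 := (LinearMap.range (a.Θ (a.c x) : Eu n →ₗ[ℝ] V)).finrank_add_finrank_orthogonal
    have h2 : Module.finrank ℝ (LinearMap.range (a.Θ (a.c x) : Eu n →ₗ[ℝ] V)) = n := by
      rw [LinearMap.finrank_range_of_inj hA, finrank_euclideanSpace_fin]
    have h3 : 𝔸.nu x = (LinearMap.range (a.Θ (a.c x) : Eu n →ₗ[ℝ] V))ᗮ := by
      ext w
      rw [FA.mem_nu_iff ha hx, mem_range_orthogonal_iff]
    rw [h3]
    omega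
  let e : Eu m ≃ₗᵢ[ℝ] 𝔸.nu x :=
    ((stdOrthonormalBasis ℝ (𝔸.nu x)).reindex (finCongr hrank)).repr.symm
  let β : Eu m →L[ℝ] V := (𝔸.nu x).subtypeL.comp (e : Eu m →L[ℝ] 𝔸.nu x)
  have hβ : ∀ v, β v = (e v : V) := fun v => rfl
  refine ⟨β, fun v => ?_, fun v => ?_, fun u => ⟨a.c.map_source hx, ?_⟩⟩
  · rw [hβ, Submodule.norm_coe, e.norm_map]
  · rw [hβ]
    exact (e v).2
  · have hinj : Function.Injective (BB (a.Θ (a.c x)) β : V →ₗ[ℝ] Eu n × Eu m) := by
      rw [injective_iff_map_eq_zero]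
      intro w hw
      have hw1 : adjoint (a.Θ (a.c x)) w = 0 := congrArg Prod.fst hw
      have hw2 : adjoint β w = 0 := congrArg Prod.snd hw
      have hwn : w ∈ 𝔸.nu x := (FA.mem_nu_iff ha hx w).2 hw1
      have h1 : β (e.symm ⟨w, hwn⟩) = w := by
        rw [hβ, e.apply_symm_apply]
      have h2 : ⟪w, w⟫_ℝ = 0 := by
        calc ⟪w, w⟫_ℝ = ⟪w, β (e.symm ⟨w, hwn⟩)⟫_ℝ := by rw [h1]
          _ = ⟪adjoint β w, e.symm ⟨w, hwn⟩⟫_ℝ := (adjoint_inner_left β _ w).symm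
          _ = 0 := by rw [hw2, inner_zero_left]
      exact inner_self_eq_zero.1 h2
    have hfr : Module.finrank ℝ V = Module.finrank ℝ (Eu n × Eu m) := by
      rw [Module.finrank_prod, finrank_euclideanSpace_fin, finrank_euclideanSpace_fin, hdim]
    refine ⟨(LinearEquiv.ofInjectiveOfFinrankEq _ hinj hfr).toContinuousLinearEquiv, ?_⟩
    ext w <;> rfl

/-- At a point where `β` is an isometry into the normal space, `UU (y, u) = β u`. -/
theorem UU_eq_beta (ha : 𝔸.Mem a) (hx : x ∈ a.c.source) {β : Eu m →L[ℝ] V}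
    (hβ : ∀ v, ‖β v‖ = ‖v‖) (hβ' : ∀ v, β v ∈ 𝔸.nu x) {u : Eu m}
    (hz : (a.c x, u) ∈ Om a β) : UU a β (a.c x, u) = β u := by
  let e : Eu m →ₗᵢ[ℝ] V := ⟨β, hβ⟩
  have h1 : adjoint β (β u) = u := by
    apply ext_inner_right ℝ
    intro v
    rw [adjoint_inner_left]
    exact e.inner_map_map u v
  have h2 : adjoint (a.Θ (a.c x)) (β u) = 0 := (FA.mem_nu_iff ha hx _).1 (hβ' u)
  have h3 := UU_eq_of_adjoint (a := a) (β := β) (y := a.c x) (w := β u) hz h2
  rwa [h1] at h3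

/-! ### The cutoffs -/

theorem contDiff_lam : ContDiff ℝ ∞ lam := by
  have h : ContDiff ℝ ∞ (fun t : ℝ => 2 - 2 * t) :=
    contDiff_const.sub (contDiff_const.mul contDiff_id)
  exact (Real.smoothTransition.contDiff (n := ⊤)).comp h

theorem lam_eq_one {t : ℝ} (ht : t ≤ 1 / 2) : lam t = 1 :=
  Real.smoothTransition.one_of_one_le (by linarith)

theorem lam_eq_zero {t : ℝ} (ht : 1 ≤ t) : lam t = 0 :=
  Real.smoothTransition.zero_of_nonpos (by linarith)

theorem lam_mem (t : ℝ) : 0 ≤ lam t ∧ lam t ≤ 1 :=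
  ⟨Real.smoothTransition.nonneg _, Real.smoothTransition.le_one _⟩

theorem phi_aux {t : ℝ} (ht : 0 ≤ t) : 0 < lam t + (1 - lam t) * t := by
  rcases le_or_gt t (1 / 2) with h | h
  · rw [lam_eq_one h]
    norm_num
  · obtain ⟨h0, h1⟩ := lam_mem t
    nlinarith

theorem phi_pos {t : ℝ} (ht : 0 ≤ t) : 0 < phi t :=
  inv_pos.2 (phi_aux ht)

theorem phi_eq_one {t : ℝ} (ht : t ≤ 1 / 2) : phi t = 1 := by
  rw [phi, lam_eq_one ht]
  norm_num

theorem phi_eq_inv {t : ℝ} (ht : 1 ≤ t) : phi t = t⁻¹ := by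
  rw [phi, lam_eq_zero ht]
  norm_num

theorem contDiffAt_phi {t : ℝ} (ht : 0 ≤ t) : ContDiffAt ℝ ∞ phi t := by
  have h : ContDiffAt ℝ ∞ lam t := contDiff_lam.contDiffAt
  exact (h.add ((contDiffAt_const.sub h).mul contDiffAt_id)).inv (phi_aux ht).ne'

end PF
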