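import Pool.Agent.Helper4.PF.Defs

/-!
# Reflections and smooth homotopies on the punctured ball (project MP_905dfc_gt)
-/

open scoped Manifold ContDiff Topology InnerProductSpace
open Set Filter Metric ContinuousLinearMap

noncomputable section

namespace PF

variable {V : Type*} [NormedAddCommGroup V] [InnerProductSpace ℝ V]

/-! ### Reflections -/

theorem R_apply (v w : V) : R v w = w - (2 * ⟪v, w⟫_ℝ / ‖v‖ ^ 2) • v := by
  simp only [R, sub_apply, id_apply, smul_apply, smulRight_apply, innerSL_apply_apply, smul_smul]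
  congr 2
  ring

@[simp] theorem R_zero : R (0 : V) = ContinuousLinearMap.id ℝ V := by
  ext w
  simp [R_apply]

theorem R_smul {t : ℝ} (ht : t ≠ 0) (v : V) : R (t • v) = R v := by
  ext w
  rw [R_apply, R_apply, norm_smul, inner_smul_left, smul_smul]
  congr 2
  rcases eq_or_ne v 0 with rfl | hv
  · simp
  · have hv' : ‖v‖ ≠ 0 := norm_ne_zero_iff.2 hv
    have ht' : |t| ^ 2 = t ^ 2 := sq_abs t
    rw [mul_pow, Real.norm_eq_abs, ht']
    simp only [conj_trivial]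
    field_simp

theorem R_comp_R (v : V) : (R v).comp (R v) = ContinuousLinearMap.id ℝ V := by
  rcases eq_or_ne v 0 with rfl | hv
  · simp
  have hv' : ‖v‖ ≠ 0 := norm_ne_zero_iff.2 hv
  ext w
  rw [comp_apply, id_apply, R_apply, R_apply, inner_sub_right, inner_smul_right,
    real_inner_self_eq_norm_sq]
  have h : 2 * (⟪v, w⟫_ℝ - 2 * ⟪v, w⟫_ℝ / ‖v‖ ^ 2 * ‖v‖ ^ 2) / ‖v‖ ^ 2
      = - (2 * ⟪v, w⟫_ℝ / ‖v‖ ^ 2) := by
    field_simp
    ring
  rw [h, neg_smul]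
  abel

theorem isUnit_R (v : V) : IsUnit (R v) :=
  ⟨⟨R v, R v, R_comp_R v, R_comp_R v⟩, rfl⟩

theorem inner_R_left (v x y : V) : ⟪R v x, y⟫_ℝ = ⟪x, R v y⟫_ℝ := by
  rw [R_apply, R_apply, inner_sub_left, inner_sub_right, inner_smul_left, inner_smul_right,
    real_inner_comm v x]
  simp only [conj_trivial]
  ring

theorem norm_R_apply (v x : V) : ‖R v x‖ = ‖x‖ := by
  have h : ‖R v x‖ ^ 2 = ‖x‖ ^ 2 := by
    rw [← real_inner_self_eq_norm_sq, ← real_inner_self_eq_norm_sq, inner_R_left]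
    have := congrArg (fun f : V →L[ℝ] V => f x) (R_comp_R v)
    simp only [comp_apply, id_apply] at this
    rw [this]
  have h1 := norm_nonneg (R v x)
  have h2 := norm_nonneg x
  nlinarith [sq_nonneg (‖R v x‖ - ‖x‖), sq_nonneg (‖R v x‖ + ‖x‖)]

theorem R_self {v : V} : R v v = -v := by
  rcases eq_or_ne v 0 with rfl | hv
  · simp
  have hv' : ‖v‖ ≠ 0 := norm_ne_zero_iff.2 hv
  rw [R_apply, real_inner_self_eq_norm_sq]
  have h : 2 * ‖v‖ ^ 2 / ‖v‖ ^ 2 = 2 := by field_simp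
  rw [h, two_smul]
  abel

theorem R_of_inner_eq_zero {v w : V} (h : ⟪v, w⟫_ℝ = 0) : R v w = w := by
  rw [R_apply, h]
  simp

theorem R_R (v w : V) : R v (R v w) = w := by
  have := congrArg (fun f : V →L[ℝ] V => f w) (R_comp_R v)
  simpa only [comp_apply, id_apply] using this

theorem R_conj (y e : V) : (R y).comp ((R e).comp (R y)) = R (R y e) := by
  ext x
  rw [comp_apply, comp_apply, R_apply e, R_apply (R y e), map_sub, map_smul, R_R,
    norm_R_apply, inner_R_left]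

/-- The inner product as a bilinear map with trivial conjugation. -/
def ipL (V : Type*) [NormedAddCommGroup V] [InnerProductSpace ℝ V] : V →L[ℝ] V →L[ℝ] ℝ :=
  (isBoundedBilinearMap_inner (𝕜 := ℝ) (E := V)).toContinuousLinearMap

theorem ipL_eq (v : V) : ipL V v = innerSL ℝ v := by
  ext w
  rfl

theorem contDiffAt_R {v : V} (hv : v ≠ 0) : ContDiffAt ℝ ∞ (R : V → V →L[ℝ] V) v := by
  have h : (R : V → V →L[ℝ] V) = fun v => ContinuousLinearMap.id ℝ V -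
      (2 / ‖v‖ ^ 2) • (ipL V v).smulRight v := by
    ext v w
    simp [R, ipL_eq]
  rw [h]
  have hv' : ‖v‖ ^ 2 ≠ 0 := pow_ne_zero 2 (norm_ne_zero_iff.2 hv)
  have h1 : ContDiffAt ℝ ∞ (fun v : V => 2 / ‖v‖ ^ 2) v :=
    contDiffAt_const.div (contDiff_norm_sq ℝ).contDiffAt hv'
  have h2 : ContDiffAt ℝ ∞ (fun v : V => (ipL V v).smulRight v) v := by
    have h3 : ContDiffAt ℝ ∞ (fun v : V => ipL V v) v := (ipL V).contDiff.contDiffAt
    exact h3.smulRight contDiffAt_id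
  exact contDiffAt_const.sub (h1.smul h2)

/-! ### The inversion `T` -/

theorem mem_D {y : V} : y ∈ D V ↔ ‖y‖ < 1 ∧ y ≠ 0 := by
  simp [D]

theorem isOpen_D : IsOpen (D V) :=
  isOpen_ball.sdiff isClosed_singleton

theorem norm_T {y : V} (hy : y ∈ D V) : ‖T y‖ = 1 - ‖y‖ := by
  rw [mem_D] at hy
  have h0 : 0 < ‖y‖ := norm_pos_iff.2 hy.2
  have h1 : 0 ≤ ‖y‖⁻¹ - 1 := by
    rw [sub_nonneg]
    exact (one_le_inv₀ h0).2 hy.1.le
  rw [T, norm_smul, Real.norm_of_nonneg h1, sub_mul, inv_mul_cancel₀ h0.ne', one_mul]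

theorem T_mem_D {y : V} (hy : y ∈ D V) : T y ∈ D V := by
  have h := norm_T hy
  rw [mem_D] at hy ⊢
  have h0 : 0 < ‖y‖ := norm_pos_iff.2 hy.2
  refine ⟨by linarith, ?_⟩
  rw [← norm_pos_iff, h]
  linarith [hy.1]

theorem T_T {y : V} (hy : y ∈ D V) : T (T y) = y := by
  have h := norm_T hy
  rw [T, h, T, smul_smul]
  rw [mem_D] at hy
  have h0 : ‖y‖ ≠ 0 := norm_ne_zero_iff.2 hy.2
  have h1 : 1 - ‖y‖ ≠ 0 := by linarith [hy.1]
  have h2 : ((1 - ‖y‖)⁻¹ - 1) * (‖y‖⁻¹ - 1) = 1 := by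
    field_simp
    ring
  rw [h2, one_smul]

theorem contDiffAt_T {y : V} (hy : y ≠ 0) : ContDiffAt ℝ ∞ (T : V → V) y := by
  have h0 : ‖y‖ ≠ 0 := norm_ne_zero_iff.2 hy
  exact (((contDiffAt_norm ℝ hy).inv h0).sub contDiffAt_const).smul contDiffAt_id

theorem R_T {y : V} (hy : y ∈ D V) : R (T y) = R y := by
  rw [T, R_smul]
  rw [mem_D] at hy
  have h0 : 0 < ‖y‖ := norm_pos_iff.2 hy.2
  have h1 : 1 < ‖y‖⁻¹ := (one_lt_inv₀ h0).2 hy.1
  linarith

theorem hasFDerivAt_norm_inv {y : V} (hy : y ≠ 0) :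
    HasFDerivAt (fun z : V => ‖z‖⁻¹) (-(‖y‖⁻¹ ^ 3) • innerSL ℝ y) y := by
  have h0 : ‖y‖ ≠ 0 := norm_ne_zero_iff.2 hy
  have h1 : HasFDerivAt (fun z : V => ‖z‖ ^ 2) (2 • innerSL ℝ y) y :=
    (hasStrictFDerivAt_norm_sq y).hasFDerivAt
  have h2 := (h1.sqrt (by positivity))
  have h3 : (fun z : V => √(‖z‖ ^ 2)) = fun z : V => ‖z‖ := by
    ext z
    rw [Real.sqrt_sq (norm_nonneg z)]
  rw [h3] at h2
  have h4 := (hasDerivAt_inv h0).comp_hasFDerivAt y h2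
  have h5 : -(‖y‖ ^ 2)⁻¹ • (1 / (2 * √(‖y‖ ^ 2))) • 2 • innerSL ℝ y
      = -(‖y‖⁻¹ ^ 3) • innerSL ℝ y := by
    rw [Real.sqrt_sq (norm_nonneg y), two_smul, ← two_smul ℝ, smul_smul, smul_smul]
    congr 1
    field_simp
  rw [h5] at h4
  exact h4

/-- `D T = R ∘ S` with `S = 1` on the radial line and `‖y‖⁻¹ - 1` on its complement. -/
theorem fderiv_T_apply {y : V} (hy : y ≠ 0) (v : V) :
    fderiv ℝ (T : V → V) y v = (‖y‖⁻¹ - 1) • v - (‖y‖⁻¹ ^ 3 * ⟪y, v⟫_ℝ) • y := by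
  have h1 := (((hasFDerivAt_norm_inv hy).sub_const (1 : ℝ)).smul (hasFDerivAt_id y))
  have h2 : HasFDerivAt (T : V → V) _ y := h1
  rw [h2.fderiv]
  simp
  rw [sub_eq_add_neg (_ • v)]

theorem isUnit_fderiv_T {y : V} (hy : y ∈ D V) : IsUnit (fderiv ℝ (T : V → V) y) := by
  have key : ∀ z ∈ D V, (fderiv ℝ (T : V → V) (T z)).comp (fderiv ℝ (T : V → V) z)
      = ContinuousLinearMap.id ℝ V := by
    intro z hz
    have hz0 := (mem_D.1 hz).2
    have hTz0 := (mem_D.1 (T_mem_D hz)).2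
    have h1 : HasFDerivAt (T ∘ T : V → V) ((fderiv ℝ (T : V → V) (T z)).comp
        (fderiv ℝ (T : V → V) z)) z :=
      ((contDiffAt_T hTz0).differentiableAt (by simp)).hasFDerivAt.comp z
        ((contDiffAt_T hz0).differentiableAt (by simp)).hasFDerivAt
    have h2 : (T ∘ T : V → V) =ᶠ[𝓝 z] id := by
      filter_upwards [isOpen_D.mem_nhds hz] with u hu
      exact T_T hu
    have h3 : HasFDerivAt (T ∘ T : V → V) (ContinuousLinearMap.id ℝ V) z :=
      (hasFDerivAt_id z).congr_of_eventuallyEq h2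
    exact HasFDerivAt.unique h1 h3
  have h := key (T y) (T_mem_D hy)
  rw [T_T hy] at h
  exact ⟨⟨fderiv ℝ (T : V → V) y, fderiv ℝ (T : V → V) (T y), h, key y hy⟩, rfl⟩

/-! ### Homotopies -/

variable {F G K F' G' : V → V →L[ℝ] V}

theorem Hty.left (h : Hty F G) {y : V} (hy : y ∈ D V) :
    ContDiffAt ℝ ∞ F y ∧ IsUnit (F y) := by
  obtain ⟨h, h1, h2, -⟩ := h
  have h3 := h1 0 y hy
  rw [h2 0 le_rfl y hy] at h3
  refine ⟨?_, h3.2⟩
  have h4 : ContDiffAt ℝ ∞ (fun y : V => h ((0 : ℝ), y)) y :=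
    ContDiffAt.comp (g := h) y (h1 0 y hy).1 (contDiffAt_const.prodMk contDiffAt_id)
  refine h4.congr_of_eventuallyEq ?_
  filter_upwards [isOpen_D.mem_nhds hy] with u hu
  exact (h2 0 le_rfl u hu).symm

theorem Hty.right (h : Hty F G) {y : V} (hy : y ∈ D V) :
    ContDiffAt ℝ ∞ G y ∧ IsUnit (G y) := by
  obtain ⟨h, h1, -, h2⟩ := h
  have h3 := h1 1 y hy
  rw [h2 1 le_rfl y hy] at h3
  refine ⟨?_, h3.2⟩
  have h4 : ContDiffAt ℝ ∞ (fun y : V => h ((1 : ℝ), y)) y :=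
    ContDiffAt.comp (g := h) y (h1 1 y hy).1 (contDiffAt_const.prodMk contDiffAt_id)
  refine h4.congr_of_eventuallyEq ?_
  filter_upwards [isOpen_D.mem_nhds hy] with u hu
  exact (h2 1 le_rfl u hu).symm

theorem Hty.refl (hF : ∀ y ∈ D V, ContDiffAt ℝ ∞ F y ∧ IsUnit (F y)) : Hty F F :=
  ⟨fun p => F p.2, fun _ y hy =>
    ⟨ContDiffAt.comp (g := F) _ (hF y hy).1 contDiffAt_snd, (hF y hy).2⟩,
    fun _ _ _ _ => rfl, fun _ _ _ _ => rfl⟩

theorem Hty.symm (h : Hty F G) : Hty G F := by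
  obtain ⟨h, h1, h2, h3⟩ := h
  refine ⟨fun p => h (1 - p.1, p.2), fun s y hy => ⟨?_, (h1 (1 - s) y hy).2⟩,
    fun s hs y hy => h3 _ (by linarith) y hy, fun s hs y hy => h2 _ (by linarith) y hy⟩
  exact ContDiffAt.comp (g := h) (s, y) (h1 (1 - s) y hy).1
    ((contDiffAt_const.sub contDiffAt_fst).prodMk contDiffAt_snd)

theorem Hty.trans (h : Hty F G) (h' : Hty G K) : Hty F K := by
  obtain ⟨h, h1, h2, h3⟩ := h
  obtain ⟨k, k1, k2, k3⟩ := h'
  refine ⟨fun p => if p.1 < 1 / 2 then h (3 * p.1, p.2) else k (3 * p.1 - 2, p.2),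
    fun s y hy => ⟨?_, ?_⟩, fun s hs y hy => ?_, fun s hs y hy => ?_⟩
  · have hD : ∀ᶠ p : ℝ × V in 𝓝 (s, y), p.2 ∈ D V :=
      (continuous_snd.isOpen_preimage _ isOpen_D).mem_nhds hy
    rcases lt_or_ge s (2 / 3) with hs | hs
    · have e : (fun p : ℝ × V => if p.1 < 1 / 2 then h (3 * p.1, p.2) else k (3 * p.1 - 2, p.2))
          =ᶠ[𝓝 (s, y)] fun p => h (3 * p.1, p.2) := by
        have hs' : ∀ᶠ p : ℝ × V in 𝓝 (s, y), p.1 < 2 / 3 :=
          (continuous_fst.isOpen_preimage _ isOpen_Iio).mem_nhds hs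
        filter_upwards [hD, hs'] with p hp hp'
        split_ifs with hc
        · rfl
        · rw [h3 _ (by linarith [not_lt.1 hc]) _ hp, k2 _ (by linarith) _ hp]
      refine ContDiffAt.congr_of_eventuallyEq ?_ e
      exact ContDiffAt.comp (g := h) (s, y) (h1 (3 * s) y hy).1
        ((contDiffAt_const.mul contDiffAt_fst).prodMk contDiffAt_snd)
    · have e : (fun p : ℝ × V => if p.1 < 1 / 2 then h (3 * p.1, p.2) else k (3 * p.1 - 2, p.2))
          =ᶠ[𝓝 (s, y)] fun p => k (3 * p.1 - 2, p.2) := by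
        have hs' : ∀ᶠ p : ℝ × V in 𝓝 (s, y), 1 / 2 < p.1 :=
          (continuous_fst.isOpen_preimage _ isOpen_Ioi).mem_nhds
            (show (1 / 2 : ℝ) < s by linarith)
        filter_upwards [hD, hs'] with p hp hp'
        rw [if_neg (not_lt.2 hp'.le)]
      refine ContDiffAt.congr_of_eventuallyEq ?_ e
      exact ContDiffAt.comp (g := k) (s, y) (k1 (3 * s - 2) y hy).1
        (((contDiffAt_const.mul contDiffAt_fst).sub contDiffAt_const).prodMk contDiffAt_snd)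
  · show IsUnit (if s < 1 / 2 then h (3 * s, y) else k (3 * s - 2, y))
    split_ifs
    · exact (h1 _ y hy).2
    · exact (k1 _ y hy).2
  · show (if s < 1 / 2 then h (3 * s, y) else k (3 * s - 2, y)) = F y
    rw [if_pos (by linarith), h2 _ (by linarith) y hy]
  · show (if s < 1 / 2 then h (3 * s, y) else k (3 * s - 2, y)) = K y
    rw [if_neg (by linarith), k3 _ (by linarith) y hy]

theorem Hty.congr (h : Hty F G) (hF : ∀ y ∈ D V, F y = F' y) (hG : ∀ y ∈ D V, G y = G' y) :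
    Hty F' G' := by
  obtain ⟨h, h1, h2, h3⟩ := h
  exact ⟨h, h1, fun s hs y hy => (h2 s hs y hy).trans (hF y hy),
    fun s hs y hy => (h3 s hs y hy).trans (hG y hy)⟩

theorem Hty.mul (h : Hty F G) (h' : Hty F' G') :
    Hty (fun y => (F y).comp (F' y)) (fun y => (G y).comp (G' y)) := by
  obtain ⟨h, h1, h2, h3⟩ := h
  obtain ⟨k, k1, k2, k3⟩ := h'
  refine ⟨fun p => (h p).comp (k p), fun s y hy => ⟨?_, ?_⟩, fun s hs y hy => ?_,
    fun s hs y hy => ?_⟩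
  · exact (h1 s y hy).1.clm_comp (k1 s y hy).1
  · exact (h1 s y hy).2.mul (k1 s y hy).2
  · show (h (s, y)).comp (k (s, y)) = _
    rw [h2 s hs y hy, k2 s hs y hy]
  · show (h (s, y)).comp (k (s, y)) = _
    rw [h3 s hs y hy, k3 s hs y hy]

/-- It is enough to control the homotopy for `s ∈ [0, 1]`. -/
theorem Hty.of_path {h : ℝ × V → V →L[ℝ] V}
    (hh : ∀ s ∈ Icc (0 : ℝ) 1, ∀ y ∈ D V, ContDiffAt ℝ ∞ h (s, y) ∧ IsUnit (h (s, y)))
    (h0 : ∀ y ∈ D V, h (0, y) = F y) (h1 : ∀ y ∈ D V, h (1, y) = G y) : Hty F G := by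
  refine ⟨fun p => h (Real.smoothTransition p.1, p.2), fun s y hy => ?_, fun s hs y hy => ?_,
    fun s hs y hy => ?_⟩
  · have hm : Real.smoothTransition s ∈ Icc (0 : ℝ) 1 :=
      ⟨Real.smoothTransition.nonneg s, Real.smoothTransition.le_one s⟩
    refine ⟨?_, (hh _ hm y hy).2⟩
    refine ContDiffAt.comp (g := h) (s, y) (hh _ hm y hy).1 (ContDiffAt.prodMk ?_ contDiffAt_snd)
    exact (Real.smoothTransition.contDiff (n := ⊤)).contDiffAt.comp (s, y) contDiffAt_fst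
  · show h (Real.smoothTransition s, y) = F y
    rw [Real.smoothTransition.zero_of_nonpos hs, h0 y hy]
  · show h (Real.smoothTransition s, y) = G y
    rw [Real.smoothTransition.one_of_one_le hs, h1 y hy]

theorem Hty.of_reflection {v : ℝ × V → V}
    (hv : ∀ s ∈ Icc (0 : ℝ) 1, ∀ y ∈ D V, ContDiffAt ℝ ∞ v (s, y) ∧ v (s, y) ≠ 0) :
    Hty (fun y => R (v (0, y))) (fun y => R (v (1, y))) := by
  refine Hty.of_path (h := fun p => R (v p)) (fun s hs y hy => ⟨?_, isUnit_R _⟩)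
    (fun _ _ => rfl) (fun _ _ => rfl)
  exact ContDiffAt.comp (g := (R : V → V →L[ℝ] V)) (s, y) (contDiffAt_R (hv s hs y hy).2)
    (hv s hs y hy).1

/-- The interpolating map of a homotopy. -/
theorem Hty.interp (h : Hty F G) : ∃ H : V → V →L[ℝ] V,
    (∀ y ∈ D V, ContDiffAt ℝ ∞ H y ∧ IsUnit (H y)) ∧
    (∀ y ∈ D V, ‖y‖ ≤ 1 / 4 → H y = F y) ∧ (∀ y ∈ D V, 3 / 4 ≤ ‖y‖ → H y = G y) := by
  obtain ⟨h, h1, h2, h3⟩ := h
  refine ⟨fun y => h (2 * ‖y‖ - 1 / 2, y), fun y hy => ⟨?_, (h1 _ y hy).2⟩,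
    fun y hy hy' => h2 _ (by linarith) y hy, fun y hy hy' => h3 _ (by linarith) y hy⟩
  refine ContDiffAt.comp (g := h) y (h1 _ y hy).1 (ContDiffAt.prodMk ?_ contDiffAt_id)
  exact (contDiffAt_const.mul (contDiffAt_norm ℝ (mem_D.1 hy).2)).sub contDiffAt_const

end PF
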