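import Pool.Agent.Helper4.PF.Basic
import Pool.Agent.Helper4.PF.Hty

/-!
# Connected sums of form atlases (project MP_905dfc_gt)
-/

open scoped Manifold ContDiff Topology InnerProductSpace
open Set Filter Metric ContinuousLinearMap

noncomputable section

universe u

namespace PF

namespace CS

/-! ### The gluing map -/

section Glue

variable {V : Type*} [NormedAddCommGroup V] [InnerProductSpace ℝ V]

/-- `T`, extended by `0` outside the unit ball. -/
def TT (y : V) : V := (max (1 - ‖y‖) 0 * ‖y‖⁻¹) • y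

theorem TT_of_mem {y : V} (hy : y ∈ D V) : TT y = T y := by
  have h := mem_D.1 hy
  have h1 : ‖y‖ ≠ 0 := norm_ne_zero_iff.2 h.2
  have h2 : max (1 - ‖y‖) 0 = 1 - ‖y‖ := max_eq_left (by linarith [h.1])
  unfold TT T
  rw [h2]
  congr 1
  field_simp

theorem TT_eq_zero {y : V} (hy : 1 ≤ ‖y‖) : TT y = 0 := by
  have h2 : max (1 - ‖y‖) 0 = 0 := max_eq_right (by linarith)
  unfold TT
  rw [h2]; simp

theorem TT_zero : TT (0 : V) = 0 := by simp [TT]

theorem mem_D_of_TT_ne_zero {y : V} (hy : TT y ≠ 0) : y ∈ D V := by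
  refine mem_D.2 ⟨?_, ?_⟩
  · by_contra h
    exact hy (TT_eq_zero (not_lt.1 h))
  · rintro rfl
    exact hy TT_zero

theorem TT_mem_ball (y : V) : TT y ∈ closedBall (0 : V) 1 := by
  rw [mem_closedBall_zero_iff]
  by_cases h : TT y = 0
  · simp [h]
  · have h1 := mem_D_of_TT_ne_zero h
    rw [TT_of_mem h1]
    have h2 := mem_D.1 (T_mem_D h1)
    exact h2.1.le

theorem continuousAt_TT {y : V} (hy : y ≠ 0) : ContinuousAt (TT : V → V) y := by
  have h1 : ‖y‖ ≠ 0 := norm_ne_zero_iff.2 hy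
  unfold TT
  have h2 : ContinuousAt (fun y : V => ‖y‖⁻¹) y := (continuous_norm.continuousAt).inv₀ h1
  have h3 : ContinuousAt (fun y : V => max (1 - ‖y‖) 0) y :=
    ((continuous_const.sub continuous_norm).max continuous_const).continuousAt
  exact (h3.mul h2).smul continuousAt_id

theorem fderiv_T_comp {y : V} (hy : y ∈ D V) :
    (fderiv ℝ (T : V → V) (T y)).comp (fderiv ℝ (T : V → V) y)
      = ContinuousLinearMap.id ℝ V := by
  have h1 : (T ∘ T : V → V) =ᶠ[𝓝 y] id := by
    filter_upwards [isOpen_D.mem_nhds hy] with x hx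
    exact T_T hx
  have h2 := contDiffAt_T (mem_D.1 hy).2
  have h3 := contDiffAt_T (mem_D.1 (T_mem_D hy)).2
  have h4 := fderiv_comp y (h3.differentiableAt (by simp)) (h2.differentiableAt (by simp))
  rw [← h4, h1.fderiv_eq, fderiv_id]

variable {N P : Type*} [TopologicalSpace N] [TopologicalSpace P]
  (e : OpenPartialHomeomorph N V) (e' : OpenPartialHomeomorph P V)

open Classical in
/-- The gluing map `N ∖ {z} → P`. -/
def al (q : N) : P := if q ∈ e.source then e'.symm (TT (e q)) else e'.symm 0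

variable {e e'}

theorem al_of_mem {q : N} (hq : q ∈ e.source) : al e e' q = e'.symm (TT (e q)) := by
  unfold al; rw [if_pos hq]

theorem al_symm {ζ : V} (hζ : ζ ∈ D V) (he : closedBall 0 1 ⊆ e.target) :
    al e e' (e.symm ζ) = e'.symm (T ζ) := by
  have h1 : ζ ∈ e.target := he (by
    rw [mem_closedBall_zero_iff]; exact (mem_D.1 hζ).1.le)
  rw [al_of_mem (e.map_target h1), e.right_inv h1, TT_of_mem hζ]

/-- Outside the closed unit ball (or on its boundary) the map is constant. -/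
theorem al_of_notMem {q : N} (h : ∀ ζ ∈ ball (0 : V) 1, e.symm ζ ≠ q)  :
    al e e' q = e'.symm 0 := by
  classical
  unfold al
  split_ifs with hq
  · have h1 : TT (e q) = 0 := by
      apply TT_eq_zero
      by_contra h2
      refine h (e q) ?_ (e.left_inv hq)
      rw [mem_ball_zero_iff]; exact not_le.1 h2
    rw [h1]
  · rfl

theorem exists_of_al_ne (he' : closedBall 0 1 ⊆ e'.target) {q : N}
    (h : al e e' q ≠ e'.symm 0) :
    q ∈ e.source ∧ e q ∈ D V ∧ al e e' q = e'.symm (T (e q)) ∧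
      al e e' q ∈ e'.source ∧ e' (al e e' q) = T (e q) := by
  classical
  have hq : q ∈ e.source := by
    by_contra hq
    apply h
    unfold al; rw [if_neg hq]
  have h1 : al e e' q = e'.symm (TT (e q)) := al_of_mem hq
  have h2 : TT (e q) ≠ 0 := by
    intro h3; rw [h3] at h1; exact h h1
  have h3 := mem_D_of_TT_ne_zero h2
  rw [TT_of_mem h3] at h1
  have h4 : T (e q) ∈ e'.target := he' (by
    rw [mem_closedBall_zero_iff]; exact (mem_D.1 (T_mem_D h3)).1.le)
  refine ⟨hq, h3, h1, ?_, ?_⟩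
  · rw [h1]; exact e'.map_target h4
  · rw [h1]; exact e'.right_inv h4

theorem al_al (he' : closedBall 0 1 ⊆ e'.target) {q : N} (h : al e e' q ≠ e'.symm 0) :
    al e' e (al e e' q) = q := by
  obtain ⟨h1, h2, h3, h4, h5⟩ := exists_of_al_ne he' h
  rw [al_of_mem h4, h5, TT_of_mem (T_mem_D h2), T_T h2, e.left_inv h1]

theorem continuousOn_al (he : closedBall 0 1 ⊆ e.target) (he' : closedBall 0 1 ⊆ e'.target)
    [T2Space N] [ProperSpace V] : ContinuousOn (al e e') {e.symm 0}ᶜ := by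
  classical
  have hK : IsClosed (e.symm '' closedBall 0 1) := by
    apply IsCompact.isClosed
    exact (isCompact_closedBall (0 : V) 1).image_of_continuousOn
      (e.symm.continuousOn.mono he)
  intro q hq
  apply ContinuousAt.continuousWithinAt
  by_cases hs : q ∈ e.source
  · have h1 : e q ≠ 0 := by
      intro h2
      apply hq
      rw [mem_singleton_iff, ← h2, e.left_inv hs]
    have h3 : ContinuousAt (fun q => e'.symm (TT (e q))) q := by
      have h4 : ContinuousAt (fun q => TT (e q)) q :=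
        ContinuousAt.comp (continuousAt_TT h1) (e.continuousAt hs)
      exact ContinuousAt.comp (e'.symm.continuousAt (he' (TT_mem_ball _))) h4
    refine h3.congr ?_
    filter_upwards [e.open_source.mem_nhds hs] with q' hq'
    rw [al_of_mem hq']
  · have h1 : q ∉ e.symm '' closedBall 0 1 := by
      rintro ⟨ζ, hζ, rfl⟩
      exact hs (e.map_target (he hζ))
    have h3 : ContinuousAt (fun _ : N => e'.symm 0) q := continuousAt_const
    refine h3.congr ?_
    filter_upwards [hK.isOpen_compl.mem_nhds h1] with q' hq'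
    rw [al_of_notMem]
    intro ζ hζ h
    exact hq' ⟨ζ, ball_subset_closedBall hζ, h⟩

/-- The connected sum as a subset of the product. -/
def SS (e : OpenPartialHomeomorph N V) (e' : OpenPartialHomeomorph P V) : Set (N × P) :=
  {q | (q.1 ≠ e.symm 0 ∧ q.2 = al e e' q.1) ∨ (q.2 ≠ e'.symm 0 ∧ q.1 = al e' e q.2)}

theorem snd_eq (he : closedBall 0 1 ⊆ e.target) {q : N × P} (hq : q ∈ SS e e')
    (h : q.1 ≠ e.symm 0) : q.2 = al e e' q.1 := by
  rcases hq with h1 | h1
  · exact h1.2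
  · have h2 : al e' e q.2 ≠ e.symm 0 := by rw [← h1.2]; exact h
    rw [h1.2, al_al he h2]

theorem fst_eq (he' : closedBall 0 1 ⊆ e'.target) {q : N × P} (hq : q ∈ SS e e')
    (h : q.2 ≠ e'.symm 0) : q.1 = al e' e q.2 := by
  rcases hq with h1 | h1
  · have h2 : al e e' q.1 ≠ e'.symm 0 := by rw [← h1.2]; exact h
    rw [h1.2, al_al he' h2]
  · exact h1.2

/-- The neck: points of `SS` which are not the two centres lie on the neck if the second one is
in the unit ball. -/
theorem neck (he : closedBall 0 1 ⊆ e.target) (he' : closedBall 0 1 ⊆ e'.target)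
    {q : N × P} (hq : q ∈ SS e e') (h1 : q.1 ≠ e.symm 0) (h2 : q.2 ≠ e'.symm 0) :
    q.1 ∈ e.source ∧ e q.1 ∈ D V ∧ q.2 ∈ e'.source ∧ e' q.2 = T (e q.1) := by
  have h3 := snd_eq he hq h1
  have h4 : al e e' q.1 ≠ e'.symm 0 := by rw [← h3]; exact h2
  obtain ⟨h5, h6, h7, h8, h9⟩ := exists_of_al_ne he' h4
  rw [← h3] at h8 h9
  exact ⟨h5, h6, h8, h9⟩

theorem isCompact_SS [CompactSpace N] [CompactSpace P] [T2Space N] [T2Space P] [ProperSpace V]
    (he : closedBall 0 1 ⊆ e.target) (he' : closedBall 0 1 ⊆ e'.target) :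
    IsCompact (SS e e') := by
  have hb : ball (0 : V) (1 / 2) ⊆ closedBall 0 1 :=
    ball_subset_closedBall.trans (closedBall_subset_closedBall (by norm_num))
  have hO : IsOpen (e.symm '' ball 0 (1 / 2)) :=
    e.symm.isOpen_image_of_subset_source isOpen_ball (hb.trans he)
  have hO' : IsOpen (e'.symm '' ball 0 (1 / 2)) :=
    e'.symm.isOpen_image_of_subset_source isOpen_ball (hb.trans he')
  have key : SS e e' = (fun q => (q, al e e' q)) '' (e.symm '' ball 0 (1 / 2))ᶜ ∪
      (fun q => (al e' e q, q)) '' (e'.symm '' ball 0 (1 / 2))ᶜ := by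
    apply Subset.antisymm
    · rintro ⟨q1, q2⟩ hq
      by_cases h1 : q1 ∈ e.symm '' ball 0 (1 / 2)
      · right
        have h2 : q2 ∉ e'.symm '' ball 0 (1 / 2) ∧ q1 = al e' e q2 := by
          by_cases h3 : q2 = e'.symm 0
          · exfalso
            rcases hq with ⟨h4, h5⟩ | ⟨h4, h5⟩
            · simp only at h4 h5
              obtain ⟨ζ, hζ, rfl⟩ := h1
              have h6 : ζ ∈ D V := by
                refine mem_D.2 ⟨?_, ?_⟩
                · rw [mem_ball_zero_iff] at hζ; linarith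
                · rintro rfl; exact h4 rfl
              rw [al_symm h6 he, h3] at h5
              have h7 : T ζ ∈ e'.target := he' (by
                rw [mem_closedBall_zero_iff]; exact (mem_D.1 (T_mem_D h6)).1.le)
              have h8 := e'.symm.injOn (he' (mem_closedBall_self zero_le_one)) h7 h5
              exact (mem_D.1 (T_mem_D h6)).2 h8.symm
            · exact h4 h3
          · have h4 := fst_eq he' hq h3
            refine ⟨?_, h4⟩
            rintro ⟨y, hy, h5⟩
            have h6 : y ∈ D V := by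
              refine mem_D.2 ⟨?_, ?_⟩
              · rw [mem_ball_zero_iff] at hy; linarith
              · rintro rfl; exact h3 h5.symm
            simp only at h4
            rw [← h5, al_symm h6 he'] at h4
            obtain ⟨ζ, hζ, rfl⟩ := h1
            have h7 : T y ∈ e.target := he (by
              rw [mem_closedBall_zero_iff]; exact (mem_D.1 (T_mem_D h6)).1.le)
            have h8 := e.symm.injOn (he (hb hζ)) h7 h4
            have h9 := norm_T h6
            rw [← h8] at h9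
            rw [mem_ball_zero_iff] at hζ hy
            linarith
        exact ⟨q2, h2.1, Prod.ext h2.2.symm rfl⟩
      · left
        have h2 : q1 ≠ e.symm 0 := by
          rintro rfl
          exact h1 ⟨0, mem_ball_self (by norm_num), rfl⟩
        have h3 := snd_eq he hq h2
        exact ⟨q1, h1, Prod.ext rfl h3.symm⟩
    · rintro q (⟨q1, h1, rfl⟩ | ⟨q2, h1, rfl⟩)
      · left
        refine ⟨?_, rfl⟩
        rintro rfl
        exact h1 ⟨0, mem_ball_self (by norm_num), rfl⟩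
      · right
        refine ⟨?_, rfl⟩
        rintro rfl
        exact h1 ⟨0, mem_ball_self (by norm_num), rfl⟩
  rw [key]
  refine IsCompact.union ?_ ?_
  · apply hO.isClosed_compl.isCompact.image_of_continuousOn
    refine continuousOn_id.prodMk ((continuousOn_al he he').mono ?_)
    intro q hq h
    rw [mem_singleton_iff] at h
    rw [h] at hq
    exact hq ⟨0, mem_ball_self (by norm_num), rfl⟩
  · apply hO'.isClosed_compl.isCompact.image_of_continuousOn
    refine ((continuousOn_al he' he).mono ?_).prodMk continuousOn_id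
    intro q hq h
    rw [mem_singleton_iff] at h
    rw [h] at hq
    exact hq ⟨0, mem_ball_self (by norm_num), rfl⟩

theorem exists_i [T2Space N] [T2Space P] [ProperSpace V]
    (he : closedBall 0 1 ⊆ e.target) (he' : closedBall 0 1 ⊆ e'.target)
    (hne : (SS e e').Nonempty) :
    ∃ i : OpenPartialHomeomorph N (SS e e'), i.source = {e.symm 0}ᶜ ∧
      i.target = {s : SS e e' | s.1.1 ≠ e.symm 0} ∧ (∀ s : SS e e', i.symm s = s.1.1) ∧
      ∀ q, q ≠ e.symm 0 → ((i q : SS e e') : N × P) = (q, al e e' q) := by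
  obtain ⟨f, h1, h2, h3, h4⟩ := exists_subOPH (S := SS e e') (Prod.fst : N × P → N)
    (fun q => (q, al e e' q)) {q | q.1 ≠ e.symm 0} {e.symm 0}ᶜ
    (isOpen_compl_singleton.preimage continuous_fst) isOpen_compl_singleton hne
    (fun x _ hx => hx) (fun y hy => ⟨Or.inl ⟨hy, rfl⟩, hy⟩) (fun _ _ => rfl)
    (fun x hx hx' => Prod.ext rfl (snd_eq he hx hx').symm) continuous_fst.continuousOn
    (continuousOn_id.prodMk (continuousOn_al he he'))
  exact ⟨f.symm, h2, h1, h3, h4⟩

theorem exists_j [T2Space N] [T2Space P] [ProperSpace V]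
    (he : closedBall 0 1 ⊆ e.target) (he' : closedBall 0 1 ⊆ e'.target)
    (hne : (SS e e').Nonempty) :
    ∃ j : OpenPartialHomeomorph P (SS e e'), j.source = {e'.symm 0}ᶜ ∧
      j.target = {s : SS e e' | s.1.2 ≠ e'.symm 0} ∧ (∀ s : SS e e', j.symm s = s.1.2) ∧
      ∀ q, q ≠ e'.symm 0 → ((j q : SS e e') : N × P) = (al e' e q, q) := by
  obtain ⟨f, h1, h2, h3, h4⟩ := exists_subOPH (S := SS e e') (Prod.snd : N × P → P)
    (fun q => (al e' e q, q)) {q | q.2 ≠ e'.symm 0} {e'.symm 0}ᶜ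
    (isOpen_compl_singleton.preimage continuous_snd) isOpen_compl_singleton hne
    (fun x _ hx => hx) (fun y hy => ⟨Or.inr ⟨hy, rfl⟩, hy⟩) (fun _ _ => rfl)
    (fun x hx hx' => Prod.ext (fst_eq he' hx hx').symm rfl) continuous_snd.continuousOn
    ((continuousOn_al he' he).prodMk continuousOn_id)
  exact ⟨f.symm, h2, h1, h3, h4⟩

theorem exists_mem_D [Nontrivial V] : ∃ ζ : V, ζ ∈ D V := by
  obtain ⟨v, hv⟩ := exists_ne (0 : V)
  have h1 : 0 < ‖v‖ := norm_pos_iff.2 hv
  refine ⟨((2 : ℝ)⁻¹ * ‖v‖⁻¹) • v, mem_D.2 ⟨?_, ?_⟩⟩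
  · rw [norm_smul, Real.norm_of_nonneg (by positivity), mul_assoc, inv_mul_cancel₀ h1.ne']
    norm_num
  · exact smul_ne_zero (by positivity) hv

theorem SS_nonempty [Nontrivial V] (he : closedBall 0 1 ⊆ e.target) :
    (SS e e').Nonempty := by
  obtain ⟨ζ, hζ⟩ := exists_mem_D (V := V)
  refine ⟨(e.symm ζ, al e e' (e.symm ζ)), Or.inl ⟨?_, rfl⟩⟩
  intro h
  have h1 : ζ ∈ e.target := he (by
    rw [mem_closedBall_zero_iff]; exact (mem_D.1 hζ).1.le)
  have h2 := e.symm.injOn h1 (he (mem_closedBall_self zero_le_one)) h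
  exact (mem_D.1 hζ).2 h2

end Glue

end CS

variable {V : Type} [NormedAddCommGroup V] [InnerProductSpace ℝ V] [FiniteDimensional ℝ V]
  [Nontrivial V]

open CS in
/-- The connected sum of `N` at the centre of the chart `a` and `P` at the centre of the chart
`b`.  The partial homeomorphism `i` embeds `N` minus the closed unit ball of `a`; the only
singular points left are the images of the other singular points of `N`. -/
theorem exists_connectedSum
    {N : Type u} {P : Type} [TopologicalSpace N] [CompactSpace N] [T2Space N]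
    [TopologicalSpace P] [CompactSpace P] [T2Space P] {Z : Set N} {W : Set P}
    (𝔸 : FA V V N Z) (𝔹 : FA V V P W) (a : FPair V V N) (b : FPair V V P)
    (ha : 𝔸.Mem a) (hb : 𝔹.Mem b) (ha1 : closedBall 0 1 ⊆ a.c.target)
    (hb1 : closedBall 0 1 ⊆ b.c.target)
    (hZ : ∀ ζ ∈ closedBall (0 : V) 1, a.c.symm ζ ∈ Z → ζ = 0) (hW : W ⊆ {b.c.symm 0})
    (hH : Hty (flip a.Θ) b.Θ) :
    ∃ (N' : Type u) (_ : TopologicalSpace N') (_ : CompactSpace N') (_ : T2Space N')
      (i : OpenPartialHomeomorph N N') (𝔸' : FA V V N' (i '' (Z \ {a.c.symm 0}))),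
      i.source = (a.c.symm '' closedBall 0 1)ᶜ ∧ ∀ c, 𝔸.Mem c → 𝔸'.Mem (c.push i) := by
  have : ProperSpace V := FiniteDimensional.proper ℝ V
  have hne : (SS a.c b.c).Nonempty := SS_nonempty ha1
  obtain ⟨i, i1, i2, i3, i4⟩ := exists_i ha1 hb1 hne
  obtain ⟨j, j1, j2, j3, j4⟩ := exists_j ha1 hb1 hne
  obtain ⟨H, H1, H2, H3⟩ := hH.interp
  have hcomp : CompactSpace (SS a.c b.c) := isCompact_iff_compactSpace.1 (isCompact_SS ha1 hb1)
  have h34 : closedBall (0 : V) (3 / 4) ⊆ closedBall 0 1 :=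
    closedBall_subset_closedBall (by norm_num)
  -- the three compact balls
  have hK1 : IsClosed (a.c.symm '' closedBall 0 1) :=
    ((isCompact_closedBall (0 : V) 1).image_of_continuousOn
      (a.c.symm.continuousOn.mono ha1)).isClosed
  have hK : IsClosed (a.c.symm '' closedBall 0 (3 / 4)) :=
    ((isCompact_closedBall (0 : V) (3 / 4)).image_of_continuousOn
      (a.c.symm.continuousOn.mono (h34.trans ha1))).isClosed
  have hK' : IsClosed (b.c.symm '' closedBall 0 (3 / 4)) :=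
    ((isCompact_closedBall (0 : V) (3 / 4)).image_of_continuousOn
      (b.c.symm.continuousOn.mono (h34.trans hb1))).isClosed
  have hD : IsOpen (b.c.source ∩ b.c ⁻¹' D V) := b.c.isOpen_inter_preimage isOpen_D
  have zK : a.c.symm 0 ∈ a.c.symm '' closedBall 0 (3 / 4) :=
    ⟨0, mem_closedBall_self (by norm_num), rfl⟩
  have pK : b.c.symm 0 ∈ b.c.symm '' closedBall 0 (3 / 4) :=
    ⟨0, mem_closedBall_self (by norm_num), rfl⟩
  have zK1 : a.c.symm 0 ∈ a.c.symm '' closedBall 0 1 :=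
    ⟨0, mem_closedBall_self (by norm_num), rfl⟩
  have b0 : b.c (b.c.symm 0) = 0 := b.c.right_inv (hb1 (mem_closedBall_self zero_le_one))
  let mid : FPair V V P := ⟨b.c.restrOpen _ hD, H⟩
  let Z' : Set (SS a.c b.c) := i '' (Z \ {a.c.symm 0})
  have isymm : ∀ s : SS a.c b.c, s.1.1 ≠ a.c.symm 0 → i (s.1.1) = s := by
    intro s hs
    have h1 : s ∈ i.target := by rw [i2]; exact hs
    have h2 := i.right_inv h1
    rwa [i3] at h2
  have jsymm : ∀ s : SS a.c b.c, s.1.2 ≠ b.c.symm 0 → j (s.1.2) = s := by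
    intro s hs
    have h1 : s ∈ j.target := by rw [j2]; exact hs
    have h2 := j.right_inv h1
    rwa [j3] at h2
  have hnotZ : ∀ s : SS a.c b.c, s.1.1 ≠ a.c.symm 0 → s ∉ Z' → s.1.1 ∉ Z := by
    intro s hs h1 h2
    exact h1 ⟨s.1.1, ⟨h2, hs⟩, isymm s hs⟩
  have hnotW : ∀ s : SS a.c b.c, s.1.2 ≠ b.c.symm 0 → s.1.2 ∉ W :=
    fun s hs h => hs (hW h)
  -- compatibility of pushed pairs
  have agr1 : ∀ c d : FPair V V N, ∀ s : SS a.c b.c, s.1.1 ≠ a.c.symm 0 → s.1.1 ∈ c.c.source →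
      s.1.1 ∈ d.c.source → AgreeAt Z c d s.1.1 → AgreeAt Z' (c.push i) (d.push i) s := by
    intro c d s hs hc hd h
    have h1 := AgreeAt.push (i := i) (Z' := Z') (p := s.1.1) (by rw [i1]; exact hs) hc hd h (by
      rw [isymm s hs]; exact hnotZ s hs)
    rwa [isymm s hs] at h1
  have agr2 : ∀ c d : FPair V V P, ∀ s : SS a.c b.c, s.1.2 ≠ b.c.symm 0 → s.1.2 ∈ c.c.source →
      s.1.2 ∈ d.c.source → AgreeAt W c d s.1.2 → AgreeAt Z' (c.push j) (d.push j) s := by
    intro c d s hs hc hd h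
    have h1 := AgreeAt.push (i := j) (Z' := Z') (p := s.1.2) (by rw [j1]; exact hs) hc hd h (by
      rw [jsymm s hs]; exact fun _ => hnotW s hs)
    rwa [jsymm s hs] at h1
  -- the neck
  have neckD : ∀ s : SS a.c b.c, s.1.2 ∈ b.c.source → b.c s.1.2 ∈ D V →
      s.1.1 ≠ a.c.symm 0 ∧ s.1.2 ≠ b.c.symm 0 ∧ s.1.1 ∈ a.c.source ∧ a.c s.1.1 ∈ D V ∧
        b.c s.1.2 = T (a.c s.1.1) ∧ a.c s.1.1 = T (b.c s.1.2) := by
    intro s h1 h2
    have h3 : s.1.2 ≠ b.c.symm 0 := by
      intro h; rw [h, b0] at h2; exact (mem_D.1 h2).2 rfl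
    have h4 := fst_eq hb1 s.2 h3
    have h5 : s.1.1 ≠ a.c.symm 0 := by
      rw [h4, al_of_mem h1, TT_of_mem h2]
      intro h6
      have h7 : T (b.c s.1.2) ∈ a.c.target := ha1 (by
        rw [mem_closedBall_zero_iff]; exact (mem_D.1 (T_mem_D h2)).1.le)
      have h8 := a.c.symm.injOn h7 (ha1 (mem_closedBall_self zero_le_one)) h6
      exact (mem_D.1 (T_mem_D h2)).2 h8
    obtain ⟨h6, h7, h8, h9⟩ := neck ha1 hb1 s.2 h5 h3
    exact ⟨h5, h3, h6, h7, h9, by rw [h9, T_T h7]⟩
  -- outer-middle compatibility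
  have agr3 : ∀ s : SS a.c b.c, s.1.2 ∈ b.c.source → b.c s.1.2 ∈ D V →
      s.1.1 ∉ a.c.symm '' closedBall 0 (3 / 4) → AgreeAt Z' (a.push i) (mid.push j) s := by
    intro s h1 h2 h3
    obtain ⟨h4, h5, h6, h7, h8, h9⟩ := neckD s h1 h2
    have ea : (a.push i).c s = a.c s.1.1 := by rw [FPair.push_apply, i3]
    have eb : (mid.push j).c s = b.c s.1.2 := by
      rw [FPair.push_apply, j3]; rfl
    have hn : 3 / 4 < ‖a.c s.1.1‖ := by
      by_contra hn
      exact h3 ⟨a.c s.1.1, by rw [mem_closedBall_zero_iff]; exact not_lt.1 hn,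
        a.c.left_inv h6⟩
    have hn' : ‖b.c s.1.2‖ ≤ 1 / 4 := by
      rw [h8, norm_T h7]; linarith
    refine AgreeAt.mk' (f := T) (g := T) ?_ ?_ ?_ ?_ ?_
    · rw [ea]
      filter_upwards [isOpen_D.mem_nhds h7] with ζ hζ
      simp only [Function.comp_apply, FPair.push_symm_apply]
      have g1 : ζ ∈ a.c.target := ha1 (by
        rw [mem_closedBall_zero_iff]; exact (mem_D.1 hζ).1.le)
      have g2 : a.c.symm ζ ≠ a.c.symm 0 := fun h =>
        (mem_D.1 hζ).2 (a.c.symm.injOn g1 (ha1 (mem_closedBall_self zero_le_one)) h)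
      have g3 : T ζ ∈ b.c.target := hb1 (by
        rw [mem_closedBall_zero_iff]; exact (mem_D.1 (T_mem_D hζ)).1.le)
      show b.c (j.symm (i (a.c.symm ζ))) = T ζ
      rw [j3, i4 _ g2]
      simp only
      rw [al_symm hζ ha1, b.c.right_inv g3]
    · rw [eb]
      filter_upwards [isOpen_D.mem_nhds h2] with y hy
      simp only [Function.comp_apply, FPair.push_symm_apply, FPair.push_apply]
      have g1 : y ∈ b.c.target := hb1 (by
        rw [mem_closedBall_zero_iff]; exact (mem_D.1 hy).1.le)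
      have g2 : b.c.symm y ≠ b.c.symm 0 := fun h =>
        (mem_D.1 hy).2 (b.c.symm.injOn g1 (hb1 (mem_closedBall_self zero_le_one)) h)
      have g3 : T y ∈ a.c.target := ha1 (by
        rw [mem_closedBall_zero_iff]; exact (mem_D.1 (T_mem_D hy)).1.le)
      show a.c (i.symm (j (b.c.symm y))) = T y
      rw [i3, j4 _ g2]
      simp only
      rw [al_symm hy hb1, a.c.right_inv g3]
    · rw [ea]; exact contDiffAt_T (mem_D.1 h7).2
    · rw [eb]; exact contDiffAt_T (mem_D.1 h2).2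
    · intro _
      rw [ea, eb]
      show a.Θ (a.c s.1.1) = (H (b.c s.1.2)).comp _
      rw [H2 _ h2 hn', flip, ContinuousLinearMap.comp_assoc, ← h9]
      have g5 := fderiv_T_comp h7
      rw [← h8] at g5
      rw [g5, ContinuousLinearMap.comp_id]
  have agr4 : ∀ s : SS a.c b.c, s.1.2 ∈ b.c.source → b.c s.1.2 ∈ D V →
      s.1.2 ∉ b.c.symm '' closedBall 0 (3 / 4) → ∀ d : FPair V V P, 𝔹.Mem d →
      s.1.2 ∈ d.c.source → AgreeAt Z' (d.push j) (mid.push j) s := by
    intro s h1 h2 h3 d hd h4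
    obtain ⟨-, h5, -⟩ := neckD s h1 h2
    refine agr2 d mid s h5 h4 ⟨h1, h1, h2⟩ ?_
    have h6 : AgreeAt W d b s.1.2 := hd.agree hb h4 h1
    have hn : 3 / 4 ≤ ‖b.c s.1.2‖ := by
      by_contra hn
      exact h3 ⟨b.c s.1.2, by rw [mem_closedBall_zero_iff]; exact (not_le.1 hn).le,
        b.c.left_inv h1⟩
    refine ⟨h6.smooth, h6.smooth', fun hp => ?_⟩
    show _ = (H (b.c s.1.2)).comp _
    rw [H3 _ h2 hn]
    exact h6.form hp
  have aP : ∀ c : FPair V V N, 𝔸.Mem c → ∀ s : SS a.c b.c, s.1.1 ∈ c.c.source →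
      s.1.1 ∉ a.c.symm '' closedBall 0 (3 / 4) → s.1.2 ∈ b.c.source → b.c s.1.2 ∈ D V →
      AgreeAt Z' (c.push i) (mid.push j) s := by
    intro c hc s h1 h2 h3 h4
    obtain ⟨h5, h6, h7, -⟩ := neckD s h3 h4
    have hi : s ∈ i.target := by rw [i2]; exact h5
    have hj : s ∈ j.target := by rw [j2]; exact h6
    refine AgreeAt.trans (b := a.push i) ?_ ?_ ?_
      (agr1 c a s h5 h1 h7 (hc.agree ha h1 h7)) (agr3 s h3 h4 h2)
    · rw [FPair.mem_push_source, i3]; exact ⟨hi, h1⟩
    · rw [FPair.mem_push_source, i3]; exact ⟨hi, h7⟩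
    · rw [FPair.mem_push_source, j3]; exact ⟨hj, h3, h3, h4⟩
  have sP1 : ∀ (c : FPair V V N) (s : SS a.c b.c),
      s ∈ ((c.restr _ hK.isOpen_compl).push i).c.source →
        s.1.1 ≠ a.c.symm 0 ∧ s.1.1 ∈ c.c.source ∧
          s.1.1 ∉ a.c.symm '' closedBall 0 (3 / 4) := by
    intro c s hs
    rw [FPair.mem_push_source, i2, i3] at hs
    exact ⟨hs.1, hs.2.1, hs.2.2⟩
  have sP2 : ∀ (c : FPair V V P) (s : SS a.c b.c),
      s ∈ ((c.restr _ hK'.isOpen_compl).push j).c.source →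
        s.1.2 ≠ b.c.symm 0 ∧ s.1.2 ∈ c.c.source ∧
          s.1.2 ∉ b.c.symm '' closedBall 0 (3 / 4) := by
    intro c s hs
    rw [FPair.mem_push_source, j2, j3] at hs
    exact ⟨hs.1, hs.2.1, hs.2.2⟩
  have sP3 : ∀ s : SS a.c b.c, s ∈ (mid.push j).c.source →
        s.1.2 ∈ b.c.source ∧ b.c s.1.2 ∈ D V := by
    intro s hs
    rw [FPair.mem_push_source, j2, j3] at hs
    exact ⟨hs.2.1, hs.2.2.2⟩
  have outer : ∀ s : SS a.c b.c, s.1.1 ∉ a.c.symm '' closedBall 0 (3 / 4) →
      s.1.2 ∉ b.c.symm '' closedBall 0 (3 / 4) → False := by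
    intro s h1 h2
    have h3 : s.1.1 ≠ a.c.symm 0 := fun h => h1 (by rw [h]; exact zK)
    have h4 : s.1.2 ≠ b.c.symm 0 := fun h => h2 (by rw [h]; exact pK)
    obtain ⟨h5, h6, h7, h8⟩ := neck ha1 hb1 s.2 h3 h4
    have hn : 3 / 4 < ‖a.c s.1.1‖ := by
      by_contra hn
      exact h1 ⟨a.c s.1.1, by rw [mem_closedBall_zero_iff]; exact not_lt.1 hn,
        a.c.left_inv h5⟩
    have hn' : 3 / 4 < ‖b.c s.1.2‖ := by
      by_contra hn
      exact h2 ⟨b.c s.1.2, by rw [mem_closedBall_zero_iff]; exact not_lt.1 hn,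
        b.c.left_inv h7⟩
    rw [h8, norm_T h6] at hn'
    linarith
  have cover3 : ∀ s : SS a.c b.c, s.1.1 ∈ a.c.symm '' closedBall 0 (3 / 4) →
      s.1.2 ∈ b.c.symm '' closedBall 0 (3 / 4) →
      s.1.2 ≠ b.c.symm 0 ∧ s.1.2 ∈ b.c.source ∧ b.c s.1.2 ∈ D V := by
    rintro s ⟨ζ, hζ, h1⟩ ⟨y, hy, h2⟩
    have yt : y ∈ b.c.target := hb1 (h34 hy)
    have ζt : ζ ∈ a.c.target := ha1 (h34 hζ)
    rw [mem_closedBall_zero_iff] at hζ hy
    have hs2 : s.1.2 ∈ b.c.source := by rw [← h2]; exact b.c.map_target yt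
    have hs1 : s.1.1 ∈ a.c.source := by rw [← h1]; exact a.c.map_target ζt
    have e2 : b.c s.1.2 = y := by rw [← h2]; exact b.c.right_inv yt
    have e1 : a.c s.1.1 = ζ := by rw [← h1]; exact a.c.right_inv ζt
    have h3 : s.1.2 ≠ b.c.symm 0 := by
      intro h
      rcases s.2 with ⟨g1, g2⟩ | ⟨g1, g2⟩
      · rw [al_of_mem hs1, e1] at g2
        have hζD : ζ ∈ D V := mem_D.2 ⟨by linarith, fun h0 => g1 (by rw [← h1, h0])⟩
        rw [TT_of_mem hζD, h] at g2
        have g3 : T ζ ∈ b.c.target := hb1 (by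
          rw [mem_closedBall_zero_iff]; exact (mem_D.1 (T_mem_D hζD)).1.le)
        have g4 := b.c.symm.injOn (hb1 (mem_closedBall_self zero_le_one)) g3 g2
        exact (mem_D.1 (T_mem_D hζD)).2 g4.symm
      · exact g1 h
    refine ⟨h3, hs2, ?_⟩
    rw [e2]
    exact mem_D.2 ⟨by linarith, fun h0 => h3 (by rw [← h2, h0])⟩
  let 𝔸' : FA V V (SS a.c b.c) Z' :=
    { at' := {x | (∃ c ∈ 𝔸.at', x = (c.restr _ hK.isOpen_compl).push i) ∨
        (∃ c ∈ 𝔹.at', x = (c.restr _ hK'.isOpen_compl).push j) ∨ x = mid.push j}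
      closed := by
        have hBo : IsOpen (a.c.symm '' ball 0 1) :=
          a.c.symm.isOpen_image_of_subset_source isOpen_ball (ball_subset_closedBall.trans ha1)
        have hZeq : Z \ {a.c.symm 0} = Z ∩ (a.c.symm '' ball 0 1)ᶜ := by
          apply Subset.antisymm
          · rintro q ⟨h1, h2⟩
            refine ⟨h1, ?_⟩
            rintro ⟨ζ, hζ, rfl⟩
            have h3 := hZ ζ (ball_subset_closedBall hζ) h1
            exact h2 (by rw [h3]; rfl)
          · rintro q ⟨h1, h2⟩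
            refine ⟨h1, ?_⟩
            rintro rfl
            exact h2 ⟨0, mem_ball_self one_pos, rfl⟩
        have hZc : IsClosed (Z \ {a.c.symm 0}) := by
          rw [hZeq]; exact 𝔸.closed.inter hBo.isClosed_compl
        refine (hZc.isCompact.image_of_continuousOn (i.continuousOn.mono ?_)).isClosed
        rw [i1]
        exact fun q hq => hq.2
      cover := by
        intro s
        by_cases h1 : s.1.1 ∈ a.c.symm '' closedBall 0 (3 / 4)
        · by_cases h2 : s.1.2 ∈ b.c.symm '' closedBall 0 (3 / 4)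
          · obtain ⟨h3, h4, h5⟩ := cover3 s h1 h2
            refine ⟨_, Or.inr (Or.inr rfl), ?_⟩
            rw [FPair.mem_push_source, j2, j3]
            exact ⟨h3, h4, h4, h5⟩
          · obtain ⟨c, hc, hcs⟩ := 𝔹.cover s.1.2
            refine ⟨_, Or.inr (Or.inl ⟨c, hc, rfl⟩), ?_⟩
            rw [FPair.mem_push_source, j2, j3]
            exact ⟨fun h => h2 (by rw [h]; exact pK), hcs, h2⟩
        · obtain ⟨c, hc, hcs⟩ := 𝔸.cover s.1.1
          refine ⟨_, Or.inl ⟨c, hc, rfl⟩, ?_⟩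
          rw [FPair.mem_push_source, i2, i3]
          exact ⟨fun h => h1 (by rw [h]; exact zK), hcs, h1⟩
      smooth := by
        rintro x (⟨c, hc, rfl⟩ | ⟨c, hc, rfl⟩ | rfl) s hs hsZ
        · obtain ⟨h1, h2, h3⟩ := sP1 c s hs
          rw [FPair.push_apply, i3]
          exact 𝔸.smooth c hc _ h2 (hnotZ s h1 hsZ)
        · obtain ⟨h1, h2, h3⟩ := sP2 c s hs
          rw [FPair.push_apply, j3]
          exact 𝔹.smooth c hc _ h2 (hnotW s h1)
        · obtain ⟨h1, h2⟩ := sP3 s hs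
          rw [FPair.push_apply, j3]
          exact (H1 _ h2).1
      inj := by
        rintro x (⟨c, hc, rfl⟩ | ⟨c, hc, rfl⟩ | rfl) s hs hsZ
        · obtain ⟨h1, h2, h3⟩ := sP1 c s hs
          rw [FPair.push_apply, i3]
          exact 𝔸.inj c hc _ h2 (hnotZ s h1 hsZ)
        · obtain ⟨h1, h2, h3⟩ := sP2 c s hs
          rw [FPair.push_apply, j3]
          exact 𝔹.inj c hc _ h2 (hnotW s h1)
        · obtain ⟨h1, h2⟩ := sP3 s hs
          rw [FPair.push_apply, j3]
          obtain ⟨u, hu⟩ := (H1 _ h2).2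
          show Function.Injective (H (b.c s.1.2))
          rw [← hu]
          apply Function.LeftInverse.injective (g := (↑u⁻¹ : V →L[ℝ] V))
          intro v
          have := DFunLike.congr_fun u.inv_mul v
          exact this
      agree := by
        rintro x (⟨c, hc, rfl⟩ | ⟨c, hc, rfl⟩ | rfl) y (⟨d, hd, rfl⟩ | ⟨d, hd, rfl⟩ | rfl) s hs ht
        · obtain ⟨h1, h2, h3⟩ := sP1 c s hs
          obtain ⟨g1, g2, g3⟩ := sP1 d s ht
          exact agr1 _ _ s h1 ⟨h2, h3⟩ ⟨g2, g3⟩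
            (((𝔸.agree c hc d hd _ h2 g2).restr_left _ _).restr_right _ _)
        · obtain ⟨h1, h2, h3⟩ := sP1 c s hs
          obtain ⟨g1, g2, g3⟩ := sP2 d s ht
          exact (outer s h3 g3).elim
        · obtain ⟨h1, h2, h3⟩ := sP1 c s hs
          obtain ⟨g1, g2⟩ := sP3 s ht
          have := aP c (𝔸.mem_of_mem_at hc) s h2 h3 g1 g2
          exact ⟨this.1, this.2, this.3⟩
        · obtain ⟨h1, h2, h3⟩ := sP2 c s hs
          obtain ⟨g1, g2, g3⟩ := sP1 d s ht
          exact (outer s g3 h3).elim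
        · obtain ⟨h1, h2, h3⟩ := sP2 c s hs
          obtain ⟨g1, g2, g3⟩ := sP2 d s ht
          exact agr2 _ _ s h1 ⟨h2, h3⟩ ⟨g2, g3⟩
            (((𝔹.agree c hc d hd _ h2 g2).restr_left _ _).restr_right _ _)
        · obtain ⟨h1, h2, h3⟩ := sP2 c s hs
          obtain ⟨g1, g2⟩ := sP3 s ht
          have := agr4 s g1 g2 h3 c (𝔹.mem_of_mem_at hc) h2
          exact ⟨this.1, this.2, this.3⟩
        · refine AgreeAt.symm ht hs ?_
          obtain ⟨h1, h2, h3⟩ := sP1 d s ht
          obtain ⟨g1, g2⟩ := sP3 s hs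
          have := aP d (𝔸.mem_of_mem_at hd) s h2 h3 g1 g2
          exact ⟨this.1, this.2, this.3⟩
        · refine AgreeAt.symm ht hs ?_
          obtain ⟨h1, h2, h3⟩ := sP2 d s ht
          obtain ⟨g1, g2⟩ := sP3 s hs
          have := agr4 s g1 g2 h3 d (𝔹.mem_of_mem_at hd) h2
          exact ⟨this.1, this.2, this.3⟩
        · exact AgreeAt.refl _ _ hs }
  refine ⟨SS a.c b.c, inferInstance, hcomp, inferInstance,
    i.restrOpen _ hK1.isOpen_compl, 𝔸', ?_, ?_⟩
  · show i.source ∩ _ = _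
    rw [i1]
    apply inter_eq_right.2
    intro q hq h
    rw [mem_singleton_iff] at h
    rw [h] at hq
    exact hq zK1
  · intro c hc
    have hmem : ∀ s, s ∈ (c.push (i.restrOpen _ hK1.isOpen_compl)).c.source →
        s.1.1 ≠ a.c.symm 0 ∧ s.1.1 ∈ c.c.source ∧ s.1.1 ∉ a.c.symm '' closedBall 0 1 := by
      intro s hs
      have h1 : s ∈ i.target := hs.1.1
      have h2 : i.symm s ∈ c.c.source := hs.2
      have h3 : i.symm s ∉ a.c.symm '' closedBall 0 1 := hs.1.2
      rw [i3] at h2 h3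
      rw [i2] at h1
      exact ⟨h1, h2, h3⟩
    have hp : ∀ s : SS a.c b.c, s.1.1 ≠ a.c.symm 0 → s.1.1 ∉ a.c.symm '' closedBall 0 1 →
        s.1.2 = b.c.symm 0 := by
      intro s h1 h2
      rw [snd_eq ha1 s.2 h1]
      exact al_of_notMem fun ζ hζ h => h2 ⟨ζ, ball_subset_closedBall hζ, h⟩
    rintro x (⟨d, hd, rfl⟩ | ⟨d, hd, rfl⟩ | rfl) s hs ht
    · obtain ⟨h1, h2, h3⟩ := hmem s hs
      obtain ⟨g1, g2, g3⟩ := sP1 d s ht
      have h4 : AgreeAt Z' (c.push i) ((d.restr _ hK.isOpen_compl).push i) s :=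
        agr1 _ _ s h1 h2 ⟨g2, g3⟩ ((hc.agree (𝔸.mem_of_mem_at hd) h2 g2).restr_right _ _)
      exact ⟨h4.1, h4.2, h4.3⟩
    · obtain ⟨h1, h2, h3⟩ := hmem s hs
      obtain ⟨g1, g2, g3⟩ := sP2 d s ht
      exact (g1 (hp s h1 h3)).elim
    · obtain ⟨h1, h2, h3⟩ := hmem s hs
      obtain ⟨g1, g2⟩ := sP3 s ht
      rw [hp s h1 h3, b0] at g2
      exact ((mem_D.1 g2).2 rfl).elim

end PF
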