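import Mathlib

/-!
# Form atlases (project MP_905dfc_gt, compact dilations of moving Parseval frames)

Definitions only.  A *form atlas* `FA E V N Z` on a space `N` is an atlas with model space `E`
(transitions smooth everywhere) together with a `V`-valued one-form which is smooth and
injective at every point outside `Z`.  When `dim E = dim V` this is a parallelisation of
`N` outside `Z`.
-/

open scoped Manifold ContDiff Topology InnerProductSpace
open Set Filter Metric

noncomputable section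

namespace PF

/-! ## Form atlases -/

section FormAtlas

variable {E E' V V' N N' M : Type*}
  [NormedAddCommGroup E] [NormedSpace ℝ E] [NormedAddCommGroup E'] [NormedSpace ℝ E']
  [NormedAddCommGroup V] [NormedSpace ℝ V] [NormedAddCommGroup V'] [NormedSpace ℝ V']
  [TopologicalSpace N] [TopologicalSpace N'] [TopologicalSpace M]

/-- A chart of `N` together with a `V`-valued one-form written in this chart. -/
structure FPair (E V N : Type*) [NormedAddCommGroup E] [NormedSpace ℝ E]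
    [NormedAddCommGroup V] [NormedSpace ℝ V] [TopologicalSpace N] where
  c : OpenPartialHomeomorph N E
  Θ : E → E →L[ℝ] V

/-- Restriction to an open set. -/
def FPair.restr (a : FPair E V N) (s : Set N) (hs : IsOpen s) : FPair E V N :=
  ⟨a.c.restrOpen s hs, a.Θ⟩

/-- Change of coordinates by a partial homeomorphism (meant to be a local diffeomorphism). -/
def FPair.comp (a : FPair E V N) (g : OpenPartialHomeomorph E E') : FPair E' V N :=
  ⟨a.c ≫ₕ g, fun y => (a.Θ (g.symm y)).comp (fderiv ℝ g.symm y)⟩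

/-- Post-composition of the form with a constant linear map. -/
def FPair.mulLeft (C : V →L[ℝ] V') (a : FPair E V N) : FPair E V' N :=
  ⟨a.c, fun y => C.comp (a.Θ y)⟩

/-- Transport of a pair along a partial homeomorphism `i : N → N'`. -/
def FPair.push (a : FPair E V N) (i : OpenPartialHomeomorph N N') : FPair E V N' :=
  ⟨i.symm ≫ₕ a.c, a.Θ⟩

/-- Compatibility of two pairs at a point `p` (used for `p` in both sources); the forms are
only compared outside `Z`. -/
structure AgreeAt (Z : Set N) (a b : FPair E V N) (p : N) : Prop where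
  smooth : ContDiffAt ℝ ∞ (b.c ∘ a.c.symm) (a.c p)
  smooth' : ContDiffAt ℝ ∞ (a.c ∘ b.c.symm) (b.c p)
  form : p ∉ Z →
    a.Θ (a.c p) = (b.Θ (b.c p)).comp (fderiv ℝ (b.c ∘ a.c.symm) (a.c p))

/-- A form atlas with singular set `Z`. -/
structure FA (E V N : Type*) [NormedAddCommGroup E] [NormedSpace ℝ E]
    [NormedAddCommGroup V] [NormedSpace ℝ V] [TopologicalSpace N] (Z : Set N) where
  at' : Set (FPair E V N)
  closed : IsClosed Z
  cover : ∀ p, ∃ a ∈ at', p ∈ a.c.source
  smooth : ∀ a ∈ at', ∀ p ∈ a.c.source, p ∉ Z → ContDiffAt ℝ ∞ a.Θ (a.c p)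
  inj : ∀ a ∈ at', ∀ p ∈ a.c.source, p ∉ Z → Function.Injective (a.Θ (a.c p))
  agree : ∀ a ∈ at', ∀ b ∈ at', ∀ p ∈ a.c.source, p ∈ b.c.source → AgreeAt Z a b p

/-- A pair compatible with all pairs of the form atlas. -/
def FA.Mem {Z : Set N} (𝔸 : FA E V N Z) (a : FPair E V N) : Prop :=
  ∀ b ∈ 𝔸.at', ∀ p ∈ a.c.source, p ∈ b.c.source → AgreeAt Z a b p

/-- `j : M → N` is an embedding which in suitable charts is the slice `y ↦ ℓ (y, 0)` and which
pulls the form of `𝔸` back to the form of `𝔹`. -/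
structure Emb (F : Type*) [NormedAddCommGroup F] [NormedSpace ℝ F] {Y : Set M} {Z : Set N}
    (𝔹 : FA E V M Y) (𝔸 : FA E' V N Z) (j : M → N) : Prop where
  cont : Continuous j
  inj : Function.Injective j
  avoid : ∀ x, j x ∉ Z
  slice : ∀ x, ∃ (a : FPair E V M) (c : FPair E' V N) (ℓ : (E × F) ≃L[ℝ] E'),
    𝔹.Mem a ∧ 𝔸.Mem c ∧ x ∈ a.c.source ∧ ∀ x' ∈ a.c.source,
      j x' ∈ c.c.source ∧ c.c (j x') = ℓ (a.c x', 0) ∧
      (c.Θ (c.c (j x'))).comp ((ℓ : (E × F) →L[ℝ] E').comp (ContinuousLinearMap.inl ℝ E F))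
        = a.Θ (a.c x')

end FormAtlas

/-! ## Reflections, the inversion of the punctured ball, homotopies -/

section Hole

variable {V : Type*} [NormedAddCommGroup V] [InnerProductSpace ℝ V]

/-- The reflection in the hyperplane orthogonal to `v` (the identity if `v = 0`). -/
def R (v : V) : V →L[ℝ] V :=
  ContinuousLinearMap.id ℝ V - (2 / ‖v‖ ^ 2) • (innerSL ℝ v).smulRight v

/-- The involution `y ↦ (1 - ‖y‖) y / ‖y‖` of the punctured unit ball. -/
def T (y : V) : V := (‖y‖⁻¹ - 1) • y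

variable (V) in
/-- The punctured open unit ball. -/
def D : Set V := ball 0 1 \ {0}

/-- Smooth homotopy, through invertible maps, of two operator-valued functions on the
punctured ball, constant near both ends. -/
def Hty (F G : V → V →L[ℝ] V) : Prop :=
  ∃ h : ℝ × V → V →L[ℝ] V,
    (∀ s : ℝ, ∀ y ∈ D V, ContDiffAt ℝ ∞ h (s, y) ∧ IsUnit (h (s, y))) ∧
    (∀ s : ℝ, s ≤ 0 → ∀ y ∈ D V, h (s, y) = F y) ∧
    (∀ s : ℝ, 1 ≤ s → ∀ y ∈ D V, h (s, y) = G y)

/-- The form read on the punctured ball after the inversion `T`. -/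
def flip (Θ : V → V →L[ℝ] V) (y : V) : V →L[ℝ] V := (Θ (T y)).comp (fderiv ℝ (T : V → V) y)

/-- A singular point of the standard type: in a chart around it the form is `R ζ ∘ B ζ` with
`B` smooth and invertible on the closed unit ball. -/
def Sing {N : Type*} [TopologicalSpace N] {Z : Set N} (𝔸 : FA V V N Z) (z : N) : Prop :=
  ∃ (a : FPair V V N) (B : V → V →L[ℝ] V), 𝔸.Mem a ∧ z ∈ a.c.source ∧ a.c z = 0 ∧
    closedBall 0 1 ⊆ a.c.target ∧ (∀ ζ ∈ closedBall (0 : V) 1, a.c.symm ζ ∈ Z → ζ = 0) ∧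
    (∀ ζ ∈ closedBall (0 : V) 1, ContDiffAt ℝ ∞ B ζ ∧ IsUnit (B ζ)) ∧
    (∀ ζ ∈ closedBall (0 : V) 1, ζ ≠ 0 → a.Θ ζ = (R ζ).comp (B ζ))

/-- `G` is, up to homotopy, the form near the (at most one) singular point of a closed
manifold parallelised elsewhere. -/
def Filler (G : V → V →L[ℝ] V) : Prop :=
  ∃ (P : Type) (_ : TopologicalSpace P) (_ : CompactSpace P) (_ : T2Space P) (W : Set P)
    (𝔹 : FA V V P W) (b : FPair V V P), 𝔹.Mem b ∧ closedBall 0 1 ⊆ b.c.target ∧
      W ⊆ {b.c.symm 0} ∧ Hty G b.Θ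

end Hole

/-! ## The normal bundle of a form -/

section Normal

variable {V : Type*} [NormedAddCommGroup V] [InnerProductSpace ℝ V] [FiniteDimensional ℝ V]
  {M : Type*} [TopologicalSpace M] {n m : ℕ}

/-- Model spaces. -/
abbrev Eu (n : ℕ) : Type := EuclideanSpace ℝ (Fin n)

/-- The normal space at `x`: the orthogonal complement of the range of the form. -/
def FA.nu {Z : Set M} (𝔸 : FA (Eu n) V M Z) (x : M) : Submodule ℝ V :=
  (LinearMap.range
    ((𝔸.cover x).choose.Θ ((𝔸.cover x).choose.c x) : Eu n →ₗ[ℝ] V))ᗮ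

/-- The orthogonal projection onto the orthogonal complement of the range of an injective `A`. -/
def PiN (A : Eu n →L[ℝ] V) : V →L[ℝ] V :=
  ContinuousLinearMap.id ℝ V -
    A.comp ((Ring.inverse ((ContinuousLinearMap.adjoint A).comp A)).comp
      (ContinuousLinearMap.adjoint A))

/-- `w ↦ (A† w, β† w)`. -/
def BB (A : Eu n →L[ℝ] V) (β : Eu m →L[ℝ] V) : V →L[ℝ] (Eu n × Eu m) :=
  (ContinuousLinearMap.adjoint A).prod (ContinuousLinearMap.adjoint β)

/-- Local trivialisation of the normal bundle: the normal vector `w` at `z.1` with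
`β† w = z.2`. -/
def UU (a : FPair (Eu n) V M) (β : Eu m →L[ℝ] V) (z : Eu n × Eu m) : V :=
  (BB (a.Θ z.1) β).inverse (0, z.2)

/-- The domain of the local trivialisation. -/
def Om (a : FPair (Eu n) V M) (β : Eu m →L[ℝ] V) : Set (Eu n × Eu m) :=
  {z | z.1 ∈ a.c.target ∧ (BB (a.Θ z.1) β).IsInvertible}

/-- The standard parallelisation of the total space of the normal bundle. -/
def Th0 (a : FPair (Eu n) V M) (β : Eu m →L[ℝ] V) (z : Eu n × Eu m) :
    (Eu n × Eu m) →L[ℝ] V :=
  (a.Θ z.1).comp (ContinuousLinearMap.fst ℝ (Eu n) (Eu m)) +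
    (PiN (a.Θ z.1)).comp (fderiv ℝ (UU a β) z)

/-- A smooth cutoff: `1` for `t ≤ 1/2`, `0` for `t ≥ 1`. -/
def lam (t : ℝ) : ℝ := Real.smoothTransition (2 - 2 * t)

/-- A smooth positive function on `[0, ∞)`, equal to `1` for `t ≤ 1/2` and to `1/t` for
`t ≥ 1`. -/
def phi (t : ℝ) : ℝ := (lam t + (1 - lam t) * t)⁻¹

/-- The form on the lower half of the sphere bundle. -/
def ThM (a : FPair (Eu n) V M) (β : Eu m →L[ℝ] V) (F : M → V → V →L[ℝ] V)
    (z : Eu n × Eu m) : (Eu n × Eu m) →L[ℝ] V :=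
  (F (a.c.symm z.1) (UU a β z)).comp
    ((ContinuousLinearMap.id ℝ V - PiN (a.Θ z.1) + phi (‖UU a β z‖ ^ 2) • PiN (a.Θ z.1)).comp
      (Th0 a β z))

/-- Data `F` extending the family of reflections `R w`, `‖w‖ ≥ 1`, over the unit disc bundle,
smooth and invertible outside the finite set `Z₀` of normal vectors. -/
structure Ext (𝔸 : FA (Eu n) V M ∅) (F : M → V → V →L[ℝ] V) (Z₀ : Set (M × V)) : Prop where
  fin : Z₀.Finite
  nu : ∀ p ∈ Z₀, p.2 ∈ 𝔸.nu p.1
  smooth : ∀ a, 𝔸.Mem a → ∀ x ∈ a.c.source, ∀ w ∈ 𝔸.nu x, (x, w) ∉ Z₀ →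
    ContDiffAt ℝ ∞ (fun z : Eu n × V => F (a.c.symm z.1) z.2) (a.c x, w) ∧ IsUnit (F x w)
  far : ∀ x, ∀ w ∈ 𝔸.nu x, 1 ≤ ‖w‖ → (x, w) ∉ Z₀ ∧ F x w = R w

end Normal

end PF
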