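import Pool.Agent.Helper4.PF.DoubleHty

/-!
# The filler with a double zero (project MP_905dfc_gt)
-/

open scoped Manifold ContDiff Topology InnerProductSpace
open Set Filter Metric ContinuousLinearMap

noncomputable section

namespace PF

section

variable {V H : Type} [NormedAddCommGroup V] [InnerProductSpace ℝ V] [FiniteDimensional ℝ V]
  [NormedAddCommGroup H] [InnerProductSpace ℝ H] {n : ℕ}

theorem eq_zero_of_inner [hH : Fact (Module.finrank ℝ H = n + 1)]
    (hdim : Module.finrank ℝ V = n + 2) (L : H →ₗᵢ[ℝ] V) {q : V} (hq : ‖q‖ = 1)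
    (hqL : ∀ h, ⟪q, L h⟫_ℝ = 0) {d : V} (hd : ∀ h, ⟪d, L h⟫_ℝ = 0) (hdq : ⟪d, q⟫_ℝ = 0) :
    d = 0 := by
  have : FiniteDimensional ℝ H := FiniteDimensional.of_fact_finrank_eq_succ n
  let T : (H × ℝ) →ₗ[ℝ] V := (L.toLinearMap).coprod (LinearMap.toSpanSingleton ℝ V q)
  have hT : ∀ x : H × ℝ, T x = L x.1 + x.2 • q := fun x => rfl
  have hinj : Function.Injective T := by
    rw [injective_iff_map_eq_zero]
    rintro ⟨h, t⟩ hx
    rw [hT] at hx
    have h1 : ⟪q, L h + t • q⟫_ℝ = 0 := by rw [hx, inner_zero_right]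
    rw [inner_add_right, hqL, inner_smul_right, real_inner_self_eq_norm_sq, hq] at h1
    have h2 : t = 0 := by linarith
    subst h2
    have h3 : L h = 0 := by simpa using hx
    have h4 : h = 0 := by
      rw [← norm_eq_zero, ← L.norm_map, h3, norm_zero]
    rw [h4]; rfl
  have hfin : Module.finrank ℝ (H × ℝ) = Module.finrank ℝ V := by
    rw [Module.finrank_prod, hH.out, Module.finrank_self, hdim]
  have hsurj := (LinearMap.injective_iff_surjective_of_finrank_eq_finrank hfin).1 hinj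
  obtain ⟨⟨h, t⟩, hx⟩ := hsurj d
  rw [hT] at hx
  have h5 : ⟪d, d⟫_ℝ = 0 := by
    have h6 : ⟪d, L h + t • q⟫_ℝ = 0 := by
      rw [inner_add_right, inner_smul_right, hd, hdq]
      simp
    rw [← hx] at h6 ⊢
    exact h6
  exact inner_self_eq_zero.1 h5

theorem filler_double_aux [hH : Fact (Module.finrank ℝ H = n + 1)]
    (hdim : Module.finrank ℝ V = n + 2) (L : H →ₗᵢ[ℝ] V) {e p : H} {q : V}
    (he : ‖e‖ = 1) (hp : ‖p‖ = 1) (hep : ⟪e, p⟫_ℝ = 0) (hq : ‖q‖ = 1)
    (hqL : ∀ h, ⟪q, L h⟫_ℝ = 0) : Filler (fun y : V => R (R y (L e))) := by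
  have : FiniteDimensional ℝ H := FiniteDimensional.of_fact_finrank_eq_succ n
  obtain ⟨𝔸, hmem, hnu⟩ := exists_sphereFA (V := V) (H := H) (n := n) L
  set P : sphere (0 : H) 1 := ⟨p, by simpa using hp⟩ with hP
  set a : FPair (Eu n) V (sphere (0 : H) 1) := spherePair L P with ha
  have hac : a.c = chartAt (Eu n) P := rfl
  obtain ⟨U, hU1, hU2, hU3⟩ := exists_stereo (n := n) P
  have hU1' : ∀ y, ⟪U y, p⟫_ℝ = 0 := hU1
  have hU3' : ∀ y, ((a.c.symm y : sphere (0 : H) 1) : H) = stx U p y := hU3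
  obtain ⟨α, hα⟩ := hU2 e hep
  have hα0 : α ≠ 0 := by
    rintro rfl
    rw [map_zero] at hα
    rw [← hα, norm_zero] at he
    exact zero_ne_one he
  -- the section
  set ε : ℝ := 1 / 32 with hε
  set σ : sphere (0 : H) 1 → V := fun x => -(ε • L (Xf e p x)) with hσdef
  have hxn : ∀ x : sphere (0 : H) 1, ‖(x : H)‖ = 1 := fun x => by simpa using x.2
  have hσs : ∀ a', 𝔸.Mem a' → ∀ x ∈ a'.c.source,
      ContDiffAt ℝ ∞ (σ ∘ a'.c.symm) (a'.c x) := by
    intro a' ha' x hx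
    have hx2 : x ∈ (spherePair (n := n) L x).c.source := mem_chart_source (Eu n) x
    have h1 := (ha'.agree (hmem x) hx hx2).smooth
    obtain ⟨Ux, -, -, hUx⟩ := exists_stereo (n := n) x
    have h2 : ContDiff ℝ ∞ (σ ∘ (spherePair (n := n) L x).c.symm) := by
      have h3 : σ ∘ (spherePair (n := n) L x).c.symm = fun y => -(ε • L (Xf e p (stx Ux x y))) := by
        funext y
        have h4 : (((spherePair (n := n) L x).c.symm y : sphere (0 : H) 1) : H) = stx Ux x y := hUx y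
        simp only [Function.comp_apply, hσdef, h4]
      rw [h3]
      exact (((L.toContinuousLinearMap.contDiff.comp
        ((contDiff_Xf e p).comp (contDiff_stx Ux x))).const_smul ε).neg)
    have h5 : (σ ∘ a'.c.symm) =ᶠ[𝓝 (a'.c x)]
        (σ ∘ (spherePair (n := n) L x).c.symm) ∘ ((spherePair (n := n) L x).c ∘ a'.c.symm) := by
      have h6 : a'.c.target ∩ a'.c.symm ⁻¹' (spherePair (n := n) L x).c.source ∈ 𝓝 (a'.c x) := by
        refine (a'.c.isOpen_inter_preimage_symm (spherePair (n := n) L x).c.open_source).mem_nhds ?_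
        exact ⟨a'.c.map_source hx, by simpa [a'.c.left_inv hx] using hx2⟩
      filter_upwards [h6] with y hy
      simp only [Function.comp_apply]
      rw [(spherePair (n := n) L x).c.left_inv hy.2]
    refine ContDiffAt.congr_of_eventuallyEq ?_ h5
    exact ContDiffAt.comp _ h2.contDiffAt h1
  have hσn : ∀ x, ‖σ x‖ < 1 / 4 := by
    intro x
    have h1 := norm_Xf_le he hp (hxn x)
    simp only [hσdef, norm_neg, norm_smul, L.norm_map]
    rw [hε, Real.norm_eq_abs, abs_of_pos (by norm_num)]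
    linarith
  have hσz : ∀ x, σ x ∈ 𝔸.nu x → x = P := by
    intro x hx
    have h1 := (hnu x (σ x)).1 hx (Xf e p x) (inner_Xf_self (hxn x))
    simp only [hσdef, inner_neg_left, real_inner_smul_left, L.inner_map_map] at h1
    have h2 : Xf e p (x : H) = 0 := by
      have h3 : ε * ⟪Xf e p (x : H), Xf e p (x : H)⟫_ℝ = 0 := by linarith
      rcases mul_eq_zero.1 h3 with h4 | h4
      · norm_num [hε] at h4
      · exact inner_self_eq_zero.1 h4
    exact Subtype.ext (eq_of_Xf_eq_zero he hp hep (hxn x) h2)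
  have hσP : σ P = 0 := by
    simp only [hσdef, hP, Xf_p e hp, map_zero, smul_zero, neg_zero]
  have hF := Ext.of_section 𝔸 σ hσs hσn ((Set.finite_singleton P).subset (fun x hx => hσz x hx))
  set F : sphere (0 : H) 1 → V → V →L[ℝ] V :=
    fun x w => R (w - lam (‖w‖ ^ 2) • σ x) with hFdef
  set Z₀ : Set (sphere (0 : H) 1 × V) := {p | p.2 = σ p.1 ∧ p.2 ∈ 𝔸.nu p.1} with hZ₀
  have hZ₀' : Z₀ ⊆ {(P, 0)} := by
    rintro ⟨x, w⟩ ⟨h1, h2⟩
    simp only at h1 h2
    subst h1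
    have h3 := hσz x h2
    subst h3
    rw [hσP]; rfl
  obtain ⟨N, tN, cN, sN, pt, 𝔑, j, -, -, hc⟩ := exists_sphereBundle 𝔸 hdim F Z₀ hF
  have haM : 𝔸.Mem a := hmem P
  have hsrc : P ∈ a.c.source := mem_chart_source (Eu n) P
  -- the chart sends `P` to `0`
  have hzero : a.c P = 0 := by
    have h1 : a.c.symm 0 = P := by
      apply Subtype.ext
      rw [hU3']
      simp [stx, hP]
    have h2 : (0 : Eu n) ∈ a.c.target := by
      have : a.c.target = Set.univ := stereographic'_target (-P)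
      rw [this]; trivial
    rw [← h1, a.c.right_inv h2]
  obtain ⟨β, hβ1, hβ2, hβ3⟩ := exists_beta hdim haM hsrc
  rw [hzero] at hβ3
  obtain ⟨c, hct, hcs, hcm⟩ := hc a β haM
  have hβL : ∀ u h, ⟪p, h⟫_ℝ = 0 → ⟪β u, L h⟫_ℝ = 0 := fun u h hh => (hnu P (β u)).1 (hβ2 u) h hh
  -- the linear chart
  let Ul : Eu n →ₗᵢ[ℝ] V := L.comp U
  have hUl : ∀ y, Ul y = L (U y) := fun y => rfl
  have horth : ∀ y u, ⟪Ul y, β u⟫_ℝ = 0 := by
    intro y u
    rw [real_inner_comm, hUl]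
    exact hβL u _ (by rw [real_inner_comm]; exact hU1' y)
  let Q0 : (Eu n × Eu 2) →ₗ[ℝ] V := (Ul.toLinearMap).coprod (β : Eu 2 →ₗ[ℝ] V)
  have hQ0 : ∀ z, Q0 z = Ul z.1 + β z.2 := fun z => rfl
  have hQinj : Function.Injective Q0 := by
    rw [injective_iff_map_eq_zero]
    rintro ⟨η, u⟩ hx
    rw [hQ0] at hx
    have h1 : ‖Ul η + β u‖ ^ 2 = ‖η‖ ^ 2 + ‖u‖ ^ 2 := by
      rw [norm_add_sq_real, horth, Ul.norm_map, hβ1]; ring
    simp only at hx
    rw [hx, norm_zero] at h1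
    have h2 : ‖η‖ = 0 := by nlinarith [norm_nonneg η, norm_nonneg u]
    have h3 : ‖u‖ = 0 := by nlinarith [norm_nonneg η, norm_nonneg u]
    rw [norm_eq_zero] at h2 h3
    rw [h2, h3]; rfl
  have hfin : Module.finrank ℝ (Eu n × Eu 2) = Module.finrank ℝ V := by
    rw [Module.finrank_prod, finrank_euclideanSpace_fin, finrank_euclideanSpace_fin, hdim]
  let Q : (Eu n × Eu 2) ≃L[ℝ] V :=
    (LinearEquiv.ofInjectiveOfFinrankEq Q0 hQinj hfin).toContinuousLinearEquiv
  have hQ : ∀ z, Q z = Ul z.1 + β z.2 := fun z => rfl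
  -- the scale
  have hOm0 : ((0 : Eu n), (0 : Eu 2)) ∈ Om a β := hβ3 0
  have hUU0 : UU a β (0 : Eu n × Eu 2) = 0 := by
    have h1 := UU_smul (a := a) (β := β) (y := (0 : Eu n)) 0 0
    rw [zero_smul, zero_smul] at h1
    exact h1
  have hev : ∀ᶠ z in 𝓝 (0 : Eu n × Eu 2), z ∈ Om a β ∧ ‖UU a β z‖ ^ 2 < 1 / 2 := by
    have h1 : Om a β ∈ 𝓝 (0 : Eu n × Eu 2) := (isOpen_Om haM β).mem_nhds hOm0
    have h2 : ContinuousAt (UU a β) (0 : Eu n × Eu 2) := (contDiffAt_UU haM hOm0).continuousAt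
    have h3 : ContinuousAt (fun z => ‖UU a β z‖ ^ 2) (0 : Eu n × Eu 2) := (h2.norm).pow 2
    have h4 : ∀ᶠ z in 𝓝 (0 : Eu n × Eu 2), ‖UU a β z‖ ^ 2 < 1 / 2 := by
      refine h3.eventually_lt continuousAt_const ?_
      rw [hUU0]; norm_num
    exact (Filter.eventually_mem_set.2 h1).and h4
  obtain ⟨r, hr, hball⟩ := Metric.eventually_nhds_iff.1 hev
  set K : ℝ := ‖(Q.symm : V →L[ℝ] (Eu n × Eu 2))‖ + 1 with hK
  have hKpos : 0 < K := by positivity
  set δ : ℝ := r / (2 * K) with hδ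
  have hδpos : 0 < δ := by positivity
  have hgood : ∀ Y : V, ‖Y‖ ≤ 1 → ∀ s ∈ Icc (0 : ℝ) 1,
      (s * δ) • Q.symm Y ∈ Om a β ∧ ‖UU a β ((s * δ) • Q.symm Y)‖ ^ 2 < 1 / 2 := by
    intro Y hY s hs
    refine hball ?_
    rw [dist_zero_right, norm_smul, Real.norm_eq_abs, abs_of_nonneg (by have := hs.1; positivity)]
    have h1 : ‖Q.symm Y‖ ≤ K := by
      have h2 := (Q.symm : V →L[ℝ] (Eu n × Eu 2)).le_opNorm Y
      have h3 : ‖(Q.symm : V →L[ℝ] (Eu n × Eu 2))‖ * ‖Y‖ ≤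
          ‖(Q.symm : V →L[ℝ] (Eu n × Eu 2))‖ * 1 := by gcongr
      rw [mul_one] at h3
      have h4 : ‖Q.symm Y‖ ≤ ‖(Q.symm : V →L[ℝ] (Eu n × Eu 2))‖ := h2.trans h3
      linarith
    calc s * δ * ‖Q.symm Y‖ ≤ 1 * δ * K := by
          have := hs.1
          have := hs.2
          gcongr
      _ = r / 2 := by rw [hδ]; field_simp
      _ < r := by linarith
  -- the form at `0`
  have hfd : ∀ y, a.Θ y = L.toContinuousLinearMap.comp (fderiv ℝ (stx U p) y) := by
    intro y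
    have h1 : a.Θ = fderiv ℝ (fun y => L (((chartAt (Eu n) P).symm y : sphere (0 : H) 1) : H)) :=
      rfl
    have h2 : (fun y => L (((chartAt (Eu n) P).symm y : sphere (0 : H) 1) : H)) =
        fun y => L.toContinuousLinearMap (stx U p y) := by
      funext y
      rw [← hU3' y]; rfl
    rw [h1, h2]
    have h3 : DifferentiableAt ℝ (stx U p) y :=
      (contDiff_stx U p).differentiable (by simp) y
    exact (L.toContinuousLinearMap.hasFDerivAt.comp y h3.hasFDerivAt).fderiv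
  have hform : a.Θ 0 = Ul.toContinuousLinearMap := by
    rw [hfd]
    refine ContinuousLinearMap.ext fun η => ?_
    have h1 := fderiv_stx U p 0 η
    have h2 : fderiv ℝ (stx U p) 0 η = U η := by
      rw [h1]
      simp only [inner_zero_left, norm_zero, map_zero]
      match_scalars <;> norm_num
    change L (fderiv ℝ (stx U p) 0 η) = L (U η)
    rw [h2]
  have hloc : Loc 𝔸 a P β Ul Q δ :=
    ⟨haM, hsrc, hzero, hβ1, hβ2, hβ3, hform, hQ, hδpos, fun Y hY s hs => (hgood Y hY s hs).1⟩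
  -- the chart of the filler
  let g0 : (Eu n × Eu 2) ≃L[ℝ] V :=
    Q.trans (ContinuousLinearEquiv.smulLeft (Units.mk0 δ⁻¹ (inv_ne_zero hδpos.ne')))
  have hg0 : ∀ Y, g0.symm Y = δ • Q.symm Y := by
    intro Y
    apply g0.injective
    rw [g0.apply_symm_apply]
    change Y = δ⁻¹ • Q (δ • Q.symm Y)
    rw [map_smul, Q.apply_symm_apply, smul_smul, inv_mul_cancel₀ hδpos.ne', one_smul]
  set b0 : FPair (Eu n × Eu 2) V N := ⟨c, ThM a β F⟩ with hb0
  set b : FPair V V N := b0.comp g0.toHomeomorph.toOpenPartialHomeomorph with hb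
  have hbmem : (𝔑.changeModel Q).Mem b := by
    refine hcm.comp_changeModel Q _ ?_ ?_
    · exact g0.contDiff.contDiffOn
    · exact g0.symm.contDiff.contDiffOn
  have hgs : ∀ Y, g0.toHomeomorph.toOpenPartialHomeomorph.symm Y = δ • Q.symm Y := fun Y => hg0 Y
  refine ⟨N, tN, cN, sN, pt '' Z₀, 𝔑.changeModel Q, b, hbmem, ?_, ?_, ?_⟩
  · intro Y hY
    have hY1 : ‖Y‖ ≤ 1 := by simpa using hY
    rw [hb, FPair.mem_comp_target]
    refine ⟨trivial, ?_⟩
    rw [hgs]
    change δ • Q.symm Y ∈ c.target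
    rw [hct]
    have := (hgood Y hY1 1 ⟨zero_le_one, le_rfl⟩).1
    rwa [one_mul] at this
  · rintro _ ⟨z, hz, rfl⟩
    have h1 := hZ₀' hz
    rw [Set.mem_singleton_iff] at h1 ⊢
    subst h1
    have h2 : b.c.symm 0 = c.symm (g0.toHomeomorph.toOpenPartialHomeomorph.symm 0) := rfl
    rw [h2, hgs, map_zero, smul_zero, hcs 0 hOm0, hUU0]
    congr 2
    have h3 : a.c.symm 0 = P := by rw [← hzero, a.c.left_inv hsrc]
    exact h3.symm
  · -- the homotopy
    have hep' : ⟪L e, L p⟫_ℝ = 0 := by rw [L.inner_map_map]; exact hep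
    have heq' : ⟪L e, q⟫_ℝ = 0 := by rw [real_inner_comm]; exact hqL e
    have hpq' : ⟪L p, q⟫_ℝ = 0 := by rw [real_inner_comm]; exact hqL p
    have hLe : L e ≠ 0 := by
      rw [← norm_ne_zero_iff, L.norm_map, he]; exact one_ne_zero
    have h1 := double_hty (p := L p) (q := q) hLe (by rw [L.norm_map, hp]) hq hpq' hep' heq'
    have hc1 : (0 : ℝ) < ε * δ ^ 2 / 2 := by rw [hε]; positivity
    have h2 := hloc.hty_refl (α := α) hα0 hc1
    have h3 := hloc.hty_form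
    have h4 : Hty (fun y => R (R y (L e))) (fun Y => R (a.Θ (δ • (Q.symm Y).1)
        ((ε * δ ^ 2 / 2) • ff α (Q.symm Y).1) + UU a β (δ • Q.symm Y))) := by
      refine h1.trans (h2.congr (fun Y hY => ?_) (fun Y _ => rfl))
      congr 1
      set y₁ := (Q.symm Y).1 with hy₁
      set u₁ := (Q.symm Y).2 with hu₁
      have hY : Y = Ul y₁ + β u₁ := by rw [← hQ, Q.apply_symm_apply]
      have hpy : ⟪L p, Ul y₁⟫_ℝ = 0 := by
        rw [hUl, L.inner_map_map, real_inner_comm]; exact hU1' y₁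
      have hqy : ⟪q, Ul y₁⟫_ℝ = 0 := hqL _
      have hw : ⟪L p, Y⟫_ℝ • L p + ⟪q, Y⟫_ℝ • q = β u₁ := by
        rw [hY, inner_add_right, inner_add_right, hpy, hqy, zero_add, zero_add]
        symm
        rw [← sub_eq_zero]
        refine eq_zero_of_inner hdim L hq hqL (fun h => ?_) ?_
        · have h5 : h = ⟪p, h⟫_ℝ • p + (h - ⟪p, h⟫_ℝ • p) := by abel
          have h6 : ⟪p, h - ⟪p, h⟫_ℝ • p⟫_ℝ = 0 := by
            rw [inner_sub_right, inner_smul_right, real_inner_self_eq_norm_sq, hp]; ring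
          have h7 := hβL u₁ _ h6
          have h8 : ⟪L p, L (h - ⟪p, h⟫_ℝ • p)⟫_ℝ = 0 := by rw [L.inner_map_map]; exact h6
          have h9 : ⟪L p, L p⟫_ℝ = 1 := by
            rw [L.inner_map_map, real_inner_self_eq_norm_sq, hp]; norm_num
          have h10 : ⟪β u₁, L p⟫_ℝ = ⟪L p, β u₁⟫_ℝ := real_inner_comm _ _
          rw [h5, map_add, map_smul, inner_add_right, inner_smul_right]
          simp only [inner_sub_left, inner_add_left, real_inner_smul_left, h7, h8, h9, hqL, h10]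
          ring
        · have h11 : ⟪q, q⟫_ℝ = 1 := by rw [real_inner_self_eq_norm_sq, hq]; norm_num
          have h12 : ⟪β u₁, q⟫_ℝ = ⟪q, β u₁⟫_ℝ := real_inner_comm _ _
          simp only [inner_sub_left, inner_add_left, real_inner_smul_left, hpq', h11, h12]
          ring
      have hsub : Y - β u₁ = Ul y₁ := by rw [hY]; abel
      have hin : ⟪Y, L e⟫_ℝ = ⟪y₁, α⟫_ℝ := by
        have h13 : ⟪β u₁, L e⟫_ℝ = 0 := hβL u₁ e (by rw [real_inner_comm]; exact hep)
        rw [hY, inner_add_left, h13, add_zero, hUl, L.inner_map_map, ← hα, U.inner_map_map]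
      rw [hw, hsub, hin, Ul.norm_map, ff, map_sub, map_smul, map_smul, hUl α, hα]
    refine (h4.mul h3).congr (fun Y _ => by rw [ContinuousLinearMap.comp_id]) (fun Y hY => ?_)
    have hY1 : ‖Y‖ ≤ 1 := (mem_D.1 hY).1.le
    have hz := hgood Y hY1 1 ⟨zero_le_one, le_rfl⟩
    rw [one_mul] at hz
    have h5 : b.Θ Y = (ThM a β F (g0.toHomeomorph.toOpenPartialHomeomorph.symm Y)).comp
        (fderiv ℝ g0.toHomeomorph.toOpenPartialHomeomorph.symm Y) := rfl
    have h6 : fderiv ℝ g0.toHomeomorph.toOpenPartialHomeomorph.symm Y =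
        δ • (Q.symm : V →L[ℝ] (Eu n × Eu 2)) := by
      have h7 : (g0.toHomeomorph.toOpenPartialHomeomorph.symm : V → Eu n × Eu 2) =
          (δ • (Q.symm : V →L[ℝ] (Eu n × Eu 2)) : V →L[ℝ] (Eu n × Eu 2)) := by
        funext Y'
        exact hg0 Y'
      rw [h7]
      exact ContinuousLinearMap.fderiv _
    rw [h5, h6, hgs]
    set z : Eu n × Eu 2 := δ • Q.symm Y with hzdef
    have hz1 : z.1 = δ • (Q.symm Y).1 := rfl
    have h8 : phi (‖UU a β z‖ ^ 2) = 1 := phi_eq_one hz.2.le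
    have h9 : lam (‖UU a β z‖ ^ 2) = 1 := lam_eq_one hz.2.le
    have h10 : F (a.c.symm z.1) (UU a β z) = R (a.Θ (δ • (Q.symm Y).1)
        ((ε * δ ^ 2 / 2) • ff α (Q.symm Y).1) + UU a β z) := by
      simp only [hFdef, h9, one_smul]
      congr 1
      have h11 : a.Θ (δ • (Q.symm Y).1) ((ε * δ ^ 2 / 2) • ff α (Q.symm Y).1) =
          -(σ (a.c.symm z.1)) := by
        simp only [hσdef, neg_neg]
        rw [hU3', hz1, Xf_stx U hp hep hU1' hα, hfd]
        have h12 : (2 : ℝ)⁻¹ • (‖δ • (Q.symm Y).1‖ ^ 2 • α -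
            (2 * ⟪δ • (Q.symm Y).1, α⟫_ℝ) • (δ • (Q.symm Y).1)) =
            (δ ^ 2 / 2) • ff α (Q.symm Y).1 := by
          rw [ff, norm_smul, real_inner_smul_left, mul_pow, Real.norm_eq_abs, sq_abs]
          module
        rw [h12]
        change L (fderiv ℝ (stx U p) (δ • (Q.symm Y).1) ((ε * δ ^ 2 / 2) • ff α (Q.symm Y).1)) = _
        rw [map_smul, map_smul, map_smul, map_smul, smul_smul]
        congr 1
        ring
      rw [h11]
      abel
    change (R _).comp ((Th0 a β z).comp _) = ((F (a.c.symm z.1) (UU a β z)).comp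
      ((ContinuousLinearMap.id ℝ V - PiN (a.Θ z.1) + phi (‖UU a β z‖ ^ 2) • PiN (a.Θ z.1)).comp
        (Th0 a β z))).comp _
    rw [h8, h10, one_smul, sub_add_cancel, ContinuousLinearMap.id_comp]
    rfl

end

/-- The filler for the form `y ↦ R_{R_y e}`. -/
theorem filler_double (k : ℕ) (hk : 3 ≤ k) :
    ∃ e : Eu k, e ≠ 0 ∧ Filler (fun y : Eu k => R (R y e)) := by
  obtain ⟨n, rfl⟩ : ∃ n, k = n + 1 + 1 := ⟨k - 2, by omega⟩
  let i0 : Fin (n + 1 + 1) := ⟨0, by omega⟩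
  let i1 : Fin (n + 1 + 1) := ⟨1, by omega⟩
  let i2 : Fin (n + 1 + 1) := ⟨2, by omega⟩
  let q : Eu (n + 1 + 1) := EuclideanSpace.single i2 1
  have hq : ‖q‖ = 1 := by simp [q]
  have hq0 : q ≠ 0 := by rw [← norm_ne_zero_iff, hq]; exact one_ne_zero
  have : Fact (Module.finrank ℝ (Eu (n + 1 + 1)) = n + 1 + 1) := ⟨by simp⟩
  have : Fact (Module.finrank ℝ (ℝ ∙ q)ᗮ = n + 1) :=
    ⟨Submodule.finrank_orthogonal_span_singleton hq0⟩
  have hin : ∀ i j : Fin (n + 1 + 1), i ≠ j →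
      ⟪(EuclideanSpace.single i (1 : ℝ) : Eu (n + 1 + 1)), EuclideanSpace.single j 1⟫_ℝ = 0 := by
    intro i j hij
    rw [EuclideanSpace.inner_single_left]
    simp [hij]
  let e : (ℝ ∙ q)ᗮ := ⟨EuclideanSpace.single i0 1,
    Submodule.mem_orthogonal_singleton_iff_inner_left.2 (hin i0 i2 (by simp [i0, i2]))⟩
  let p : (ℝ ∙ q)ᗮ := ⟨EuclideanSpace.single i1 1,
    Submodule.mem_orthogonal_singleton_iff_inner_left.2 (hin i1 i2 (by simp [i1, i2]))⟩
  refine ⟨(ℝ ∙ q)ᗮ.subtypeₗᵢ e, ?_, ?_⟩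
  · rw [← norm_ne_zero_iff]
    change ‖(EuclideanSpace.single i0 (1 : ℝ) : Eu (n + 1 + 1))‖ ≠ 0
    simp
  · refine filler_double_aux (n := n) (by simp) (ℝ ∙ q)ᗮ.subtypeₗᵢ (e := e) (p := p) (q := q)
      ?_ ?_ ?_ hq ?_
    · change ‖(EuclideanSpace.single i0 (1 : ℝ) : Eu (n + 1 + 1))‖ = 1
      simp
    · change ‖(EuclideanSpace.single i1 (1 : ℝ) : Eu (n + 1 + 1))‖ = 1
      simp
    · exact hin i0 i1 (by simp [i0, i1])
    · intro h
      exact Submodule.mem_orthogonal_singleton_iff_inner_right.1 h.2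

end PF
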