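import Pool.Agent.Helper4.PF.Bundle
import Pool.Agent.Helper4.PF.Hty

/-!
# Two extensions of the reflections (project MP_905dfc_gt)
-/

open scoped Manifold ContDiff Topology InnerProductSpace
open Set Filter Metric ContinuousLinearMap

noncomputable section

universe u

namespace PF

variable {V : Type} [NormedAddCommGroup V] [InnerProductSpace ℝ V] [FiniteDimensional ℝ V]
  {M : Type u} [TopologicalSpace M] {n m : ℕ}

/-- `F x w = R (w - λ(‖w‖²) σ(x))`, singular where `w = σ x` is normal. -/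
theorem Ext.of_section (𝔸 : FA (Eu n) V M ∅) (σ : M → V)
    (hσ : ∀ a, 𝔸.Mem a → ∀ x ∈ a.c.source, ContDiffAt ℝ ∞ (σ ∘ a.c.symm) (a.c x))
    (hσ' : ∀ x, ‖σ x‖ < 1 / 4) (hfin : {x | σ x ∈ 𝔸.nu x}.Finite) :
    Ext 𝔸 (fun x w => R (w - lam (‖w‖ ^ 2) • σ x)) {p | p.2 = σ p.1 ∧ p.2 ∈ 𝔸.nu p.1} := by
  refine ⟨?_, ?_, ?_, ?_⟩
  · refine (hfin.image (fun x => (x, σ x))).subset ?_
    rintro ⟨x, w⟩ ⟨h1, h2⟩
    simp only at h1 h2
    subst h1
    exact ⟨x, h2, rfl⟩
  · rintro p ⟨-, h2⟩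
    exact h2
  · intro a ha x hx w hw hnot
    have hne : w ≠ σ x := fun h => hnot ⟨h, hw⟩
    have hv : w - lam (‖w‖ ^ 2) • σ x ≠ 0 := by
      intro h0
      have h1 : w = lam (‖w‖ ^ 2) • σ x := sub_eq_zero.1 h0
      have h2 : ‖w‖ ≤ 1 / 4 := by
        have hl := lam_mem (‖w‖ ^ 2)
        calc ‖w‖ = ‖lam (‖w‖ ^ 2) • σ x‖ := congrArg norm h1
          _ = lam (‖w‖ ^ 2) * ‖σ x‖ := by rw [norm_smul, Real.norm_of_nonneg hl.1]
          _ ≤ 1 * (1 / 4) := by
            refine mul_le_mul hl.2 (hσ' x).le (norm_nonneg _) zero_le_one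
          _ = 1 / 4 := one_mul _
      have h3 : lam (‖w‖ ^ 2) = 1 := lam_eq_one (by nlinarith [norm_nonneg w])
      rw [h3, one_smul] at h1
      exact hne h1
    refine ⟨?_, isUnit_R _⟩
    have h1 : ContDiffAt ℝ ∞ (fun z : Eu n × V => z.2 - lam (‖z.2‖ ^ 2) • σ (a.c.symm z.1))
        (a.c x, w) := by
      have hl : ContDiffAt ℝ ∞ (fun z : Eu n × V => lam (‖z.2‖ ^ 2)) (a.c x, w) := by
        have h2 : ContDiff ℝ ∞ (fun z : Eu n × V => ‖z.2‖ ^ 2) :=
          contDiff_snd.norm_sq ℝ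
        exact (contDiff_lam.comp h2).contDiffAt
      have hs : ContDiffAt ℝ ∞ (fun z : Eu n × V => σ (a.c.symm z.1)) (a.c x, w) :=
        ContDiffAt.comp (g := σ ∘ a.c.symm) (f := Prod.fst) (a.c x, w) (hσ a ha x hx)
          contDiffAt_fst
      exact contDiffAt_snd.sub (hl.smul hs)
    have hv' : (fun z : Eu n × V => z.2 - lam (‖z.2‖ ^ 2) • σ (a.c.symm z.1)) (a.c x, w) ≠ 0 := by
      simp only [a.c.left_inv hx]
      exact hv
    exact ContDiffAt.comp (g := R)
      (f := fun z : Eu n × V => z.2 - lam (‖z.2‖ ^ 2) • σ (a.c.symm z.1)) (a.c x, w)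
      (contDiffAt_R hv') h1
  · intro x w _ hw1
    constructor
    · rintro ⟨h1, -⟩
      simp only at h1
      have := hσ' x
      rw [← h1] at this
      linarith
    · have h1 : lam (‖w‖ ^ 2) = 0 := lam_eq_zero (by nlinarith)
      rw [h1, zero_smul, sub_zero]

theorem finrank_nu (𝔸 : FA (Eu n) V M ∅) (hdim : Module.finrank ℝ V = n + m) (x : M) :
    Module.finrank ℝ (𝔸.nu x) = m := by
  have h1 := (LinearMap.range
    ((𝔸.cover x).choose.Θ ((𝔸.cover x).choose.c x) : Eu n →ₗ[ℝ] V)).finrank_add_finrank_orthogonal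
  have hinj : Function.Injective ((𝔸.cover x).choose.Θ ((𝔸.cover x).choose.c x)) :=
    𝔸.inj _ (𝔸.cover x).choose_spec.1 x (𝔸.cover x).choose_spec.2 (by simp)
  rw [LinearMap.finrank_range_of_inj (by exact hinj), finrank_euclideanSpace_fin, hdim] at h1
  have h2 : n + Module.finrank ℝ (𝔸.nu x) = n + m := h1
  omega

/-- In codimension one no singularities are needed: `F = 1 - 2 Π`. -/
theorem Ext.of_line (𝔸 : FA (Eu n) V M ∅) (hdim : Module.finrank ℝ V = n + 1) :
    Ext 𝔸 (fun x _ => ContinuousLinearMap.id ℝ V - (2 : ℝ) • (𝔸.nu x).starProjection) ∅ := by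
  refine ⟨finite_empty, fun p hp => absurd hp (notMem_empty p), ?_, ?_⟩
  · intro a ha x hx w hw _
    constructor
    · have h1 : ContDiffAt ℝ ∞ (fun z : Eu n × V =>
          ContinuousLinearMap.id ℝ V - (2 : ℝ) • PiN (a.Θ z.1)) (a.c x, w) := by
        have hΘ : ContDiffAt ℝ ∞ (fun z : Eu n × V => a.Θ z.1) (a.c x, w) :=
          ContDiffAt.comp (g := a.Θ) (f := Prod.fst) (a.c x, w) (ha.smooth hx (by simp))
            contDiffAt_fst
        have hP : ContDiffAt ℝ ∞ (fun z : Eu n × V => PiN (a.Θ z.1)) (a.c x, w) :=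
          ContDiffAt.comp (g := PiN) (f := fun z : Eu n × V => a.Θ z.1) (a.c x, w)
            (contDiffAt_PiN (ha.inj hx (by simp))) hΘ
        exact contDiffAt_const.sub (hP.const_smul (2 : ℝ))
      refine h1.congr_of_eventuallyEq ?_
      have h2 : ∀ᶠ z : Eu n × V in 𝓝 (a.c x, w), z.1 ∈ a.c.target := by
        have h3 : a.c.target ∈ 𝓝 (a.c x) := a.c.open_target.mem_nhds (a.c.map_source hx)
        exact continuousAt_fst.eventually_mem h3
      filter_upwards [h2] with z hz
      have h4 := PiN_eq_starProjection ha (a.c.map_target hz)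
      rw [a.c.right_inv hz] at h4
      rw [h4]
    · set P := (𝔸.nu x).starProjection with hP
      have hPP : P.comp P = P := (𝔸.nu x).isIdempotentElem_starProjection
      have h1 : (ContinuousLinearMap.id ℝ V - (2 : ℝ) • P) *
          (ContinuousLinearMap.id ℝ V - (2 : ℝ) • P) = 1 := by
        ext v
        have h2 : P (P v) = P v := DFunLike.congr_fun hPP v
        change (v - (2 : ℝ) • P v) - (2 : ℝ) • P (v - (2 : ℝ) • P v) = v
        rw [map_sub, map_smul, h2]
        module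
      exact ⟨⟨_, _, h1, h1⟩, rfl⟩
  · intro x w hw hw1
    refine ⟨notMem_empty _, ?_⟩
    have hw0 : w ≠ 0 := by
      rintro rfl
      rw [norm_zero] at hw1
      linarith
    have hspan : 𝔸.nu x = Submodule.span ℝ {w} := by
      have hfr := finrank_nu 𝔸 hdim x
      have h1 := (finrank_eq_one_iff_of_nonzero' (⟨w, hw⟩ : 𝔸.nu x)
        (by simpa using hw0)).1 hfr
      apply le_antisymm
      · intro v hv
        obtain ⟨c, hc⟩ := h1 ⟨v, hv⟩
        rw [Submodule.mem_span_singleton]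
        exact ⟨c, congrArg Subtype.val hc⟩
      · rw [Submodule.span_singleton_le_iff_mem]
        exact hw
    ext v
    rw [R_apply]
    change v - (2 : ℝ) • (𝔸.nu x).starProjection v = _
    congr 1
    rw [hspan, Submodule.starProjection_singleton, smul_smul]
    congr 1
    simp only [RCLike.ofReal_real_eq_id, id_eq]
    ring

end PF
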