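import Pool.Agent.Helper4.PF.Hty

/-!
# Homotopy classes near a singular point (project MP_905dfc_gt)
-/

open scoped Manifold ContDiff Topology InnerProductSpace
open Set Filter Metric ContinuousLinearMap

noncomputable section

namespace PF

variable {V : Type*} [NormedAddCommGroup V] [InnerProductSpace ℝ V]

theorem hty_const_refl {C : V →L[ℝ] V} (hC : IsUnit C) :
    Hty (fun _ : V => C) (fun _ => C) :=
  Hty.refl fun _ _ => ⟨contDiffAt_const, hC⟩

theorem hty_R_R {v w : V} (hv : v ≠ 0) (hw : w ≠ 0) :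
    Hty (fun _ : V => R v) (fun _ => R w) := by
  by_cases h : ∀ s ∈ Icc (0:ℝ) 1, (1 - s) • v + s • w ≠ 0
  · have h1 := Hty.of_reflection (v := fun x : ℝ × V => (1 - x.1) • v + x.1 • w)
      (fun s hs y _ => ⟨by fun_prop, h s hs⟩)
    simpa using h1
  · push Not at h
    obtain ⟨s, hs, h0⟩ := h
    have hs0 : s ≠ 0 := by
      rintro rfl
      simp only [sub_zero, one_smul, zero_smul, add_zero] at h0
      exact hv h0
    have hs1 : 1 - s ≠ 0 := by
      intro h1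
      have h2 : s = 1 := by linarith
      subst h2
      simp only [sub_self, zero_smul, one_smul, zero_add] at h0
      exact hw h0
    have hw' : w = (-((1 - s) / s)) • v := by
      have h3 : s • w = -((1 - s) • v) := by
        rw [eq_neg_iff_add_eq_zero, add_comm]; exact h0
      calc w = s⁻¹ • (s • w) := by rw [smul_smul, inv_mul_cancel₀ hs0, one_smul]
        _ = (-((1 - s) / s)) • v := by
          rw [h3, smul_neg, smul_smul, neg_smul, div_eq_inv_mul]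
    rw [hw', R_smul (neg_ne_zero.2 (div_ne_zero hs1 hs0))]
    exact hty_const_refl (isUnit_R v)

/-- The two homotopy classes of constant invertible maps. -/
theorem const_hty [FiniteDimensional ℝ V] {C : V →L[ℝ] V} (hC : IsUnit C) {e : V}
    (he : e ≠ 0) :
    Hty (fun _ : V => C) (fun _ => ContinuousLinearMap.id ℝ V) ∨
      Hty (fun _ : V => C) (fun _ => R e) := by
  classical
  set P : (V →L[ℝ] V) → Prop := fun C =>
    Hty (fun _ : V => C) (fun _ => ContinuousLinearMap.id ℝ V) ∨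
      Hty (fun _ : V => C) (fun _ => R e) with hP
  have hmulP : ∀ C C' : V →L[ℝ] V, P C → P C' → P (C * C') := by
    intro C C' h h'
    rcases h with h | h <;> rcases h' with h' | h'
    · exact Or.inl (h.mul h')
    · exact Or.inr (h.mul h')
    · exact Or.inr (h.mul h')
    · left
      have h2 := h.mul h'
      simp only [R_comp_R] at h2
      exact h2
  have htr : ∀ C C' : V →L[ℝ] V, Hty (fun _ : V => C) (fun _ => C') → P C' → P C := by
    intro C C' h h'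
    rcases h' with h' | h'
    · exact Or.inl (h.trans h')
    · exact Or.inr (h.trans h')
  have hRP : ∀ v : V, v ≠ 0 → P (R v) := fun v hv => Or.inr (hty_R_R hv he)
  let b := (stdOrthonormalBasis ℝ V).toBasis
  let Φ : Matrix _ _ ℝ ≃ₐ[ℝ] (V →L[ℝ] V) :=
    (Matrix.toLinAlgEquiv b).trans (Module.End.toContinuousLinearMap V)
  have hΦapp : ∀ M v, Φ M v = Matrix.toLinAlgEquiv b M v := fun M v => rfl
  have hun : ∀ M, IsUnit (Φ M) ↔ M.det ≠ 0 := by
    intro M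
    rw [MulEquiv.isUnit_map Φ, Matrix.isUnit_iff_isUnit_det, isUnit_iff_ne_zero]
  -- affine paths
  have haff : ∀ A B : Matrix _ _ ℝ, (∀ s ∈ Icc (0:ℝ) 1, ((1 - s) • A + s • B).det ≠ 0) →
      Hty (fun _ : V => Φ A) (fun _ => Φ B) := by
    intro A B h
    have hpath : ∀ s ∈ Icc (0 : ℝ) 1, ∀ y ∈ D V,
        ContDiffAt ℝ ∞ (fun x : ℝ × V => (1 - x.1) • Φ A + x.1 • Φ B) (s, y) ∧
          IsUnit ((1 - (s, y).1) • Φ A + (s, y).1 • Φ B) := by
      intro s hs y _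
      refine ⟨by fun_prop, ?_⟩
      have h1 := (hun ((1 - s) • A + s • B)).2 (h s hs)
      rwa [map_add, map_smul, map_smul] at h1
    refine Hty.of_path (h := fun x : ℝ × V => (1 - x.1) • Φ A + x.1 • Φ B) hpath ?_ ?_
    · intro y _
      simp
    · intro y _
      simp
  have h1 : P (ContinuousLinearMap.id ℝ V) := Or.inl (hty_const_refl isUnit_one)
  have hΦ1 : Φ 1 = ContinuousLinearMap.id ℝ V := map_one Φ
  change P C
  obtain ⟨M, rfl⟩ := Φ.surjective C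
  have hM := (hun M).1 hC
  refine Matrix.diagonal_transvection_induction_of_det_ne_zero (fun M => P (Φ M)) M hM ?_ ?_ ?_
  · intro Dg hD
    rw [Matrix.det_diagonal, Finset.prod_ne_zero_iff] at hD
    -- signs
    have hsign : Hty (fun _ : V => Φ (Matrix.diagonal Dg))
        (fun _ => Φ (Matrix.diagonal fun i => if Dg i < 0 then (-1:ℝ) else 1)) := by
      apply haff
      intro s hs
      rw [← Matrix.diagonal_smul, ← Matrix.diagonal_smul, Matrix.diagonal_add,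
        Matrix.det_diagonal, Finset.prod_ne_zero_iff]
      intro i _
      simp only [Pi.smul_apply, smul_eq_mul]
      have hi := hD i (Finset.mem_univ i)
      split_ifs with h
      · apply ne_of_lt
        rcases eq_or_lt_of_le hs.1 with h0 | h0
        · rw [← h0]; linarith
        · have : (1 - s) * Dg i ≤ 0 := mul_nonpos_of_nonneg_of_nonpos (by linarith [hs.2]) h.le
          linarith
      · have hpos : 0 < Dg i := lt_of_le_of_ne (not_lt.1 h) (Ne.symm hi)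
        apply ne_of_gt
        rcases eq_or_lt_of_le hs.1 with h0 | h0
        · rw [← h0]; linarith
        · have : 0 ≤ (1 - s) * Dg i := mul_nonneg (by linarith [hs.2]) hpos.le
          linarith
    refine htr _ _ hsign ?_
    have hS : ∀ S : Finset (Fin (Module.finrank ℝ V)),
        P (Φ (Matrix.diagonal fun i => if i ∈ S then (-1:ℝ) else 1)) := by
      intro S
      induction S using Finset.induction_on with
      | empty =>
        simp only [Finset.notMem_empty, if_false, Matrix.diagonal_one]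
        rw [hΦ1]; exact h1
      | insert i S hi ih =>
        have hdg : Matrix.diagonal (fun j => if j ∈ insert i S then (-1:ℝ) else 1) =
            Matrix.diagonal (fun j => if j = i then (-1:ℝ) else 1) *
              Matrix.diagonal (fun j => if j ∈ S then (-1:ℝ) else 1) := by
          rw [Matrix.diagonal_mul_diagonal]
          congr 1
          funext j
          by_cases hj : j = i
          · subst hj
            simp [hi]
          · simp [hj]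
        rw [hdg, map_mul]
        refine hmulP _ _ ?_ ih
        have hRi : Φ (Matrix.diagonal (fun j => if j = i then (-1:ℝ) else 1)) = R (b i) := by
          have hb : ∀ k, ⟪b i, b k⟫_ℝ = if i = k then 1 else 0 := by
            intro k
            simp only [b, OrthonormalBasis.coe_toBasis]
            exact (stdOrthonormalBasis ℝ V).inner_eq_ite i k
          have hnb : ‖b i‖ = 1 := by
            simp only [b, OrthonormalBasis.coe_toBasis]
            exact (stdOrthonormalBasis ℝ V).norm_eq_one i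
          have hlin : ((Φ (Matrix.diagonal (fun j => if j = i then (-1:ℝ) else 1)) :
              V →L[ℝ] V) : V →ₗ[ℝ] V) = (R (b i) : V →ₗ[ℝ] V) := by
            refine b.ext fun k => ?_
            change Φ _ (b k) = R (b i) (b k)
            rw [hΦapp, Matrix.toLinAlgEquiv_self, R_apply, hb, hnb]
            have : ∑ j, Matrix.diagonal (fun j => if j = i then (-1:ℝ) else 1) j k • b j =
                (if k = i then (-1:ℝ) else 1) • b k := by
              rw [Finset.sum_eq_single k]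
              · simp
              · intro j _ hj
                simp [Matrix.diagonal_apply_ne _ hj]
              · intro h; exact absurd (Finset.mem_univ k) h
            rw [this]
            by_cases hk : k = i
            · subst hk
              simp only [if_true]
              module
            · simp only [if_neg hk, if_neg (Ne.symm hk)]
              module
          exact ContinuousLinearMap.coe_injective hlin
        rw [hRi]
        exact hRP _ (b.ne_zero i)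
    have h3 := hS (Finset.univ.filter fun i => Dg i < 0)
    simpa using h3
  · intro t
    refine htr _ (Φ 1) ?_ (by rw [hΦ1]; exact h1)
    apply haff
    intro s hs
    have h2 : (1 - s) • t.toMatrix + s • (1 : Matrix _ _ ℝ) =
        Matrix.transvection t.i t.j ((1 - s) * t.c) := by
      rw [Matrix.TransvectionStruct.toMatrix, Matrix.transvection, Matrix.transvection]
      have h4 : Matrix.single t.i t.j ((1 - s) * t.c) = (1 - s) • Matrix.single t.i t.j t.c := by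
        rw [Matrix.smul_single, smul_eq_mul]
      rw [h4]
      module
    rw [h2, Matrix.det_transvection_of_ne _ _ t.hij]
    exact one_ne_zero
  · intro A B _ _ hA hB
    rw [map_mul]
    exact hmulP _ _ hA hB

/-! ### The form near a singular point, seen from outside -/

variable {Θ B : V → V →L[ℝ] V}

/-- The radial homotopy from `D T` to `R`. -/
theorem hty_fderiv_T : Hty (fun y : V => fderiv ℝ (T : V → V) y) (fun y => R y) := by
  have hinv : ∀ (c : ℝ) (_ : c ≠ 0) (y : V) (_ : y ≠ 0),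
      (c • ContinuousLinearMap.id ℝ V - ((1 + c) / ‖y‖ ^ 2) • (innerSL ℝ y).smulRight y) *
      (c⁻¹ • ContinuousLinearMap.id ℝ V - ((1 + c⁻¹) / ‖y‖ ^ 2) • (innerSL ℝ y).smulRight y) =
      1 := by
    intro c hc y hy
    ext v
    have hn : ‖y‖ ≠ 0 := norm_ne_zero_iff.2 hy
    simp only [mul_apply_eq_comp, _root_.sub_apply,
      _root_.smul_apply, ContinuousLinearMap.id_apply,
      ContinuousLinearMap.smulRight_apply, innerSL_apply_apply, inner_sub_right,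
      inner_smul_right, real_inner_self_eq_norm_sq, one_apply_eq_self]
    have hcc : c * c⁻¹ = 1 := mul_inv_cancel₀ hc
    generalize c⁻¹ = k at *
    have e1 : ∀ a1 a2 a3 : ℝ, a1 = 1 → a2 = a3 → a1 • v - a2 • y + a3 • y = v := by
      intro a1 a2 a3 h1 h2
      rw [h1, h2]; module
    have e2 : c * ((1 + k) / ‖y‖ ^ 2 * ⟪y, v⟫_ℝ) = -((1 + c) / ‖y‖ ^ 2 * (k * ⟪y, v⟫_ℝ -
        (1 + k) / ‖y‖ ^ 2 * (⟪y, v⟫_ℝ * ‖y‖ ^ 2))) := by
      field_simp
      linear_combination ⟪y, v⟫_ℝ * hcc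
    conv_rhs => rw [← e1 (c * k) _ _ hcc e2]
    module
  have hunit : ∀ (c : ℝ) (_ : c ≠ 0) (y : V) (_ : y ≠ 0),
      IsUnit (c • ContinuousLinearMap.id ℝ V -
        ((1 + c) / ‖y‖ ^ 2) • (innerSL ℝ y).smulRight y) := by
    intro c hc y hy
    refine ⟨⟨_, _, hinv c hc y hy, ?_⟩, rfl⟩
    have h1 := hinv c⁻¹ (inv_ne_zero hc) y hy
    rw [inv_inv] at h1
    exact h1
  have hpath : ∀ s ∈ Icc (0 : ℝ) 1, ∀ y ∈ D V,
      ContDiffAt ℝ ∞ (fun x : ℝ × V =>
        (((1 - x.1) * (‖x.2‖⁻¹ - 1) + x.1) • ContinuousLinearMap.id ℝ V -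
        ((1 + ((1 - x.1) * (‖x.2‖⁻¹ - 1) + x.1)) / ‖x.2‖ ^ 2) •
          (innerSL ℝ x.2).smulRight x.2 : V →L[ℝ] V)) (s, y) ∧
      IsUnit (((1 - (s, y).1) * (‖(s, y).2‖⁻¹ - 1) + (s, y).1) • ContinuousLinearMap.id ℝ V -
        ((1 + ((1 - (s, y).1) * (‖(s, y).2‖⁻¹ - 1) + (s, y).1)) / ‖(s, y).2‖ ^ 2) •
          (innerSL ℝ (s, y).2).smulRight (s, y).2 : V →L[ℝ] V) := by
    intro s hs y hy
    obtain ⟨hy1, hy0⟩ := mem_D.1 hy
    have hn : ‖y‖ ≠ 0 := norm_ne_zero_iff.2 hy0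
    constructor
    · have c1 : ContDiffAt ℝ ∞ (fun x : ℝ × V => ‖x.2‖) (s, y) :=
        ContDiffAt.norm ℝ contDiffAt_snd hy0
      have c2 : ContDiffAt ℝ ∞ (fun x : ℝ × V => ‖x.2‖⁻¹) (s, y) := c1.inv hn
      have c3 : ContDiffAt ℝ ∞ (fun x : ℝ × V => (1 - x.1) * (‖x.2‖⁻¹ - 1) + x.1) (s, y) :=
        ((contDiffAt_const.sub contDiffAt_fst).mul (c2.sub contDiffAt_const)).add contDiffAt_fst
      have c4 : ContDiffAt ℝ ∞ (fun x : ℝ × V => (innerSL ℝ x.2).smulRight x.2) (s, y) := by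
        refine ContDiffAt.smulRight ?_ contDiffAt_snd
        exact (innerSL ℝ).contDiff.contDiffAt.comp (s, y) contDiffAt_snd
      have c5 : ContDiffAt ℝ ∞ (fun x : ℝ × V =>
          (1 + ((1 - x.1) * (‖x.2‖⁻¹ - 1) + x.1)) / ‖x.2‖ ^ 2) (s, y) :=
        (contDiffAt_const.add c3).div (c1.pow 2) (pow_ne_zero 2 hn)
      exact (c3.smul contDiffAt_const).sub (c5.smul c4)
    · refine hunit _ (ne_of_gt ?_) y hy0
      have h1 : 0 < ‖y‖⁻¹ - 1 := by
        rw [sub_pos]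
        exact (one_lt_inv₀ (norm_pos_iff.2 hy0)).2 hy1
      simp only
      rcases eq_or_lt_of_le hs.1 with h0 | h0
      · rw [← h0]; linarith
      · have : 0 ≤ (1 - s) * (‖y‖⁻¹ - 1) := mul_nonneg (by linarith [hs.2]) h1.le
        linarith
  refine Hty.of_path hpath ?_ ?_
  · intro y hy
    obtain ⟨hy1, hy0⟩ := mem_D.1 hy
    have hn : ‖y‖ ≠ 0 := norm_ne_zero_iff.2 hy0
    ext v
    rw [fderiv_T_apply hy0]
    simp only [_root_.sub_apply,
      _root_.smul_apply, ContinuousLinearMap.id_apply,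
      ContinuousLinearMap.smulRight_apply, innerSL_apply_apply]
    rw [smul_smul]
    congr 2
    · ring
    · field_simp
      ring
  · intro y hy
    obtain ⟨hy1, hy0⟩ := mem_D.1 hy
    ext v
    rw [R_apply]
    simp only [_root_.sub_apply,
      _root_.smul_apply, ContinuousLinearMap.id_apply,
      ContinuousLinearMap.smulRight_apply, innerSL_apply_apply]
    rw [smul_smul]
    congr 2
    · norm_num
    · ring

theorem hty_comp_T (hB : ∀ ζ ∈ closedBall (0 : V) 1, ContDiffAt ℝ ∞ B ζ ∧ IsUnit (B ζ)) :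
    Hty (fun y => B (T y)) (fun _ : V => B 0) := by
  have hpath : ∀ s ∈ Icc (0 : ℝ) 1, ∀ y ∈ D V,
      ContDiffAt ℝ ∞ (fun x : ℝ × V => B ((1 - x.1) • T x.2)) (s, y) ∧
      IsUnit (B ((1 - (s, y).1) • T (s, y).2)) := by
    intro s hs y hy
    obtain ⟨hy1, hy0⟩ := mem_D.1 hy
    have hmem : (1 - s) • T y ∈ closedBall (0 : V) 1 := by
      rw [mem_closedBall_zero_iff, norm_smul, Real.norm_eq_abs, abs_of_nonneg (by linarith [hs.2]),
        norm_T hy]
      have h1 : 0 < ‖y‖ := norm_pos_iff.2 hy0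
      nlinarith [hs.1, hs.2]
    refine ⟨?_, (hB _ hmem).2⟩
    have c1 : ContDiffAt ℝ ∞ (fun x : ℝ × V => (1 - x.1) • T x.2) (s, y) := by
      refine ContDiffAt.smul (contDiffAt_const.sub contDiffAt_fst) ?_
      exact ContDiffAt.comp (s, y) (contDiffAt_T hy0) contDiffAt_snd
    exact ContDiffAt.comp (s, y) (f := fun x : ℝ × V => (1 - x.1) • T x.2) (hB _ hmem).1 c1
  refine Hty.of_path hpath ?_ ?_
  · intro y _
    simp
  · intro y _
    simp

theorem flip_hty_aux [FiniteDimensional ℝ V]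
    (hB : ∀ ζ ∈ closedBall (0 : V) 1, ContDiffAt ℝ ∞ B ζ ∧ IsUnit (B ζ))
    (hΘ : ∀ ζ ∈ closedBall (0 : V) 1, ζ ≠ 0 → Θ ζ = (R ζ).comp (B ζ)) {C : V →L[ℝ] V}
    (h : Hty (fun _ : V => B 0) (fun _ => C)) :
    Hty (flip Θ) (fun y => (R y).comp (C.comp (R y))) := by
  have h1 : Hty (fun y => B (T y)) (fun _ : V => C) := (hty_comp_T hB).trans h
  have h2 := h1.mul hty_fderiv_T
  have h3 : Hty (fun y : V => R y) (fun y => R y) :=
    Hty.refl fun y hy => ⟨contDiffAt_R (mem_D.1 hy).2, isUnit_R y⟩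
  have h4 := h3.mul h2
  refine h4.congr ?_ ?_
  · intro y hy
    have h5 := T_mem_D hy
    obtain ⟨h6, h7⟩ := mem_D.1 h5
    rw [flip, hΘ (T y) (by rw [mem_closedBall_zero_iff]; exact h6.le) h7, R_T hy]
    rfl
  · intro y _
    rfl

theorem flip_hty_one [FiniteDimensional ℝ V]
    (hB : ∀ ζ ∈ closedBall (0 : V) 1, ContDiffAt ℝ ∞ B ζ ∧ IsUnit (B ζ))
    (hΘ : ∀ ζ ∈ closedBall (0 : V) 1, ζ ≠ 0 → Θ ζ = (R ζ).comp (B ζ))
    (h : Hty (fun _ : V => B 0) (fun _ => ContinuousLinearMap.id ℝ V)) :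
    Hty (flip Θ) (fun _ => ContinuousLinearMap.id ℝ V) := by
  refine (flip_hty_aux hB hΘ h).congr (fun _ _ => rfl) ?_
  intro y _
  rw [ContinuousLinearMap.id_comp, R_comp_R]

theorem flip_hty_refl [FiniteDimensional ℝ V]
    (hB : ∀ ζ ∈ closedBall (0 : V) 1, ContDiffAt ℝ ∞ B ζ ∧ IsUnit (B ζ))
    (hΘ : ∀ ζ ∈ closedBall (0 : V) 1, ζ ≠ 0 → Θ ζ = (R ζ).comp (B ζ)) {e : V}
    (h : Hty (fun _ : V => B 0) (fun _ => R e)) :
    Hty (flip Θ) (fun y => R (R y e)) := by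
  refine (flip_hty_aux hB hΘ h).congr (fun _ _ => rfl) ?_
  intro y _
  rw [R_conj]

/-- With `p, q` orthonormal and orthogonal to `e ≠ 0`, `y = z + w` and
`w = ⟪p, y⟫ p + ⟪q, y⟫ q`: the map `y ↦ R_{R_y e}` is homotopic to
`y ↦ R_{‖z‖² e - 2 ⟪z, e⟫ z + w}`.  The homotopy is
`‖z‖² e - 2 ⟪z, e⟫ z + s ‖w‖² e + ((1 - s) J - 2 s ⟪z, e⟫) w`, followed by a rotation. -/
theorem double_hty {e p q : V} (he : e ≠ 0) (hp : ‖p‖ = 1) (hq : ‖q‖ = 1)
    (hpq : ⟪p, q⟫_ℝ = 0) (hep : ⟪e, p⟫_ℝ = 0) (heq : ⟪e, q⟫_ℝ = 0) :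
    Hty (fun y => R (R y e))
      (fun y => R (‖y - (⟪p, y⟫_ℝ • p + ⟪q, y⟫_ℝ • q)‖ ^ 2 • e
        - (2 * ⟪y, e⟫_ℝ) • (y - (⟪p, y⟫_ℝ • p + ⟪q, y⟫_ℝ • q))
        + (⟪p, y⟫_ℝ • p + ⟪q, y⟫_ℝ • q))) := by
  set z : V → V := fun y => y - (⟪p, y⟫_ℝ • p + ⟪q, y⟫_ℝ • q) with hz
  have hpp : ⟪p, p⟫_ℝ = 1 := by rw [real_inner_self_eq_norm_sq, hp]; norm_num
  have hqq : ⟪q, q⟫_ℝ = 1 := by rw [real_inner_self_eq_norm_sq, hq]; norm_num
  have hqp : ⟪q, p⟫_ℝ = 0 := by rw [real_inner_comm]; exact hpq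
  have hpe : ⟪p, e⟫_ℝ = 0 := by rw [real_inner_comm]; exact hep
  have hqe : ⟪q, e⟫_ℝ = 0 := by rw [real_inner_comm]; exact heq
  have hpz : ∀ y, ⟪p, z y⟫_ℝ = 0 := by
    intro y
    simp only [hz, inner_sub_right, inner_add_right, inner_smul_right, hpp, hpq]
    ring
  have hqz : ∀ y, ⟪q, z y⟫_ℝ = 0 := by
    intro y
    simp only [hz, inner_sub_right, inner_add_right, inner_smul_right, hqq, hqp]
    ring
  have hze : ∀ y, ⟪z y, e⟫_ℝ = ⟪y, e⟫_ℝ := by
    intro y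
    simp only [hz, inner_sub_left, inner_add_left, inner_smul_left, hpe, hqe]
    simp
  have hnz : ∀ y, ‖y‖ ^ 2 = ‖z y‖ ^ 2 + (⟪p, y⟫_ℝ ^ 2 + ⟪q, y⟫_ℝ ^ 2) := by
    intro y
    rw [← real_inner_self_eq_norm_sq, ← real_inner_self_eq_norm_sq]
    simp only [hz, inner_sub_left, inner_sub_right, inner_add_left, inner_add_right,
      inner_smul_left, inner_smul_right, hpp, hqq, hpq, hqp, real_inner_comm y p,
      real_inner_comm y q, conj_trivial]
    ring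
  have hzc : ContDiff ℝ ∞ z := by
    have c1 : ContDiff ℝ ∞ (fun y : V => ⟪p, y⟫_ℝ) := contDiff_const.inner ℝ contDiff_id
    have c2 : ContDiff ℝ ∞ (fun y : V => ⟪q, y⟫_ℝ) := contDiff_const.inner ℝ contDiff_id
    exact contDiff_id.sub ((c1.smul contDiff_const).add (c2.smul contDiff_const))
  have hne0 : ∀ y : V, y ≠ 0 → ⟪p, y⟫_ℝ ^ 2 + ⟪q, y⟫_ℝ ^ 2 = 0 →
      ∀ u : V, u = 0 → ‖z y‖ ^ 2 • e - (2 * ⟪y, e⟫_ℝ) • z y + u ≠ 0 := by
    intro y hy hab u hu h0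
    have h1 := hnz y
    rw [hab, add_zero] at h1
    have hzy : z y ≠ 0 := by
      intro h2
      rw [h2, norm_zero] at h1
      have : ‖y‖ ^ 2 = 0 := by rw [h1]; norm_num
      exact hy (norm_eq_zero.1 (pow_eq_zero_iff (two_ne_zero) |>.1 this))
    have hn : ‖z y‖ ≠ 0 := norm_ne_zero_iff.2 hzy
    have h3 : ‖z y‖ ^ 2 • e - (2 * ⟪y, e⟫_ℝ) • z y = ‖z y‖ ^ 2 • R (z y) e := by
      have h6 : ‖z y‖ ^ 2 * (2 * ⟪y, e⟫_ℝ / ‖z y‖ ^ 2) = 2 * ⟪y, e⟫_ℝ := by field_simp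
      rw [R_apply, hze, smul_sub (‖z y‖ ^ 2) e, smul_smul (‖z y‖ ^ 2) _ (z y), h6]
    rw [hu, add_zero, h3] at h0
    have h4 : ‖‖z y‖ ^ 2 • R (z y) e‖ = ‖z y‖ ^ 2 * ‖e‖ := by
      rw [norm_smul, norm_R_apply, Real.norm_eq_abs, abs_of_nonneg (sq_nonneg _)]
    rw [h0, norm_zero] at h4
    have h5 : ‖e‖ ≠ 0 := norm_ne_zero_iff.2 he
    exact (mul_ne_zero (pow_ne_zero 2 hn) h5) h4.symm
  -- the two vector fields
  set v1 : ℝ × V → V := fun x => ‖z x.2‖ ^ 2 • e - (2 * ⟪x.2, e⟫_ℝ) • z x.2 +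
    ((x.1 * (⟪p, x.2⟫_ℝ ^ 2 + ⟪q, x.2⟫_ℝ ^ 2)) • e +
      ((1 - x.1) • (⟪p, x.2⟫_ℝ • q - ⟪q, x.2⟫_ℝ • p) -
        (x.1 * (2 * ⟪x.2, e⟫_ℝ)) • (⟪p, x.2⟫_ℝ • p + ⟪q, x.2⟫_ℝ • q))) with hv1
  set v2 : ℝ × V → V := fun x => ‖z x.2‖ ^ 2 • e - (2 * ⟪x.2, e⟫_ℝ) • z x.2 +
      ((1 - x.1) • (⟪p, x.2⟫_ℝ • q - ⟪q, x.2⟫_ℝ • p) +
        x.1 • (⟪p, x.2⟫_ℝ • p + ⟪q, x.2⟫_ℝ • q)) with hv2
  have ca : ContDiff ℝ ∞ (fun x : ℝ × V => ⟪p, x.2⟫_ℝ) := contDiff_const.inner ℝ contDiff_snd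
  have cb : ContDiff ℝ ∞ (fun x : ℝ × V => ⟪q, x.2⟫_ℝ) := contDiff_const.inner ℝ contDiff_snd
  have ce : ContDiff ℝ ∞ (fun x : ℝ × V => ⟪x.2, e⟫_ℝ) := contDiff_snd.inner ℝ contDiff_const
  have cz : ContDiff ℝ ∞ (fun x : ℝ × V => z x.2) := hzc.comp contDiff_snd
  have cn : ContDiff ℝ ∞ (fun x : ℝ × V => ‖z x.2‖ ^ 2) := cz.norm_sq ℝ
  have cJ : ContDiff ℝ ∞ (fun x : ℝ × V => ⟪p, x.2⟫_ℝ • q - ⟪q, x.2⟫_ℝ • p) :=
    (ca.smul contDiff_const).sub (cb.smul contDiff_const)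
  have cw : ContDiff ℝ ∞ (fun x : ℝ × V => ⟪p, x.2⟫_ℝ • p + ⟪q, x.2⟫_ℝ • q) :=
    (ca.smul contDiff_const).add (cb.smul contDiff_const)
  have c0 : ContDiff ℝ ∞ (fun x : ℝ × V => ‖z x.2‖ ^ 2 • e - (2 * ⟪x.2, e⟫_ℝ) • z x.2) :=
    (cn.smul contDiff_const).sub ((contDiff_const.mul ce).smul cz)
  have cs : ContDiff ℝ ∞ (fun x : ℝ × V => (1 - x.1)) := contDiff_const.sub contDiff_fst
  have hv1c : ContDiff ℝ ∞ v1 := by
    refine c0.add (ContDiff.add ?_ (ContDiff.sub ?_ ?_))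
    · exact (contDiff_fst.mul ((ca.pow 2).add (cb.pow 2))).smul contDiff_const
    · exact cs.smul cJ
    · exact (contDiff_fst.mul (contDiff_const.mul ce)).smul cw
  have hv2c : ContDiff ℝ ∞ v2 :=
    c0.add ((cs.smul cJ).add (contDiff_fst.smul cw))
  have hv1n : ∀ s ∈ Icc (0:ℝ) 1, ∀ y ∈ D V, v1 (s, y) ≠ 0 := by
    intro s _ y hy h0
    have hy0 := (mem_D.1 hy).2
    have hp0 : ⟪p, v1 (s, y)⟫_ℝ = 0 := by rw [h0, inner_zero_right]
    have hq0 : ⟪q, v1 (s, y)⟫_ℝ = 0 := by rw [h0, inner_zero_right]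
    simp only [hv1, inner_add_right, inner_sub_right, inner_smul_right, hpz, hqz, hpp, hqq,
      hpq, hqp, hpe, hqe] at hp0 hq0
    have e1 : (1 - s) * (⟪p, y⟫_ℝ ^ 2 + ⟪q, y⟫_ℝ ^ 2) = 0 := by
      linear_combination (-⟪q, y⟫_ℝ) * hp0 + ⟪p, y⟫_ℝ * hq0
    have e2 : (s * (2 * ⟪y, e⟫_ℝ)) * (⟪p, y⟫_ℝ ^ 2 + ⟪q, y⟫_ℝ ^ 2) = 0 := by
      linear_combination (-⟪p, y⟫_ℝ) * hp0 - ⟪q, y⟫_ℝ * hq0
    by_cases hab : ⟪p, y⟫_ℝ ^ 2 + ⟪q, y⟫_ℝ ^ 2 = 0
    · refine hne0 y hy0 hab _ ?_ h0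
      have ha : ⟪p, y⟫_ℝ = 0 := by nlinarith [sq_nonneg ⟪p, y⟫_ℝ, sq_nonneg ⟪q, y⟫_ℝ]
      have hb : ⟪q, y⟫_ℝ = 0 := by nlinarith [sq_nonneg ⟪p, y⟫_ℝ, sq_nonneg ⟪q, y⟫_ℝ]
      simp [ha, hb]
    · have h1 : s = 1 := by
        rcases mul_eq_zero.1 e1 with h | h
        · linarith
        · exact absurd h hab
      subst h1
      have h2 : ⟪y, e⟫_ℝ = 0 := by
        rcases mul_eq_zero.1 e2 with h | h
        · linarith
        · exact absurd h hab
      simp only [hv1, h2] at h0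
      have h3 : ‖y‖ ^ 2 • e = 0 := by
        rw [hnz y, add_smul]
        simpa using h0
      rcases smul_eq_zero.1 h3 with h | h
      · exact hy0 (norm_eq_zero.1 (pow_eq_zero_iff two_ne_zero |>.1 h))
      · exact he h
  have hv2n : ∀ s ∈ Icc (0:ℝ) 1, ∀ y ∈ D V, v2 (s, y) ≠ 0 := by
    intro s _ y hy h0
    have hy0 := (mem_D.1 hy).2
    have hp0 : ⟪p, v2 (s, y)⟫_ℝ = 0 := by rw [h0, inner_zero_right]
    have hq0 : ⟪q, v2 (s, y)⟫_ℝ = 0 := by rw [h0, inner_zero_right]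
    simp only [hv2, inner_add_right, inner_sub_right, inner_smul_right, hpz, hqz, hpp, hqq,
      hpq, hqp, hpe, hqe] at hp0 hq0
    have e1 : (1 - s) * (⟪p, y⟫_ℝ ^ 2 + ⟪q, y⟫_ℝ ^ 2) = 0 := by
      linear_combination (-⟪q, y⟫_ℝ) * hp0 + ⟪p, y⟫_ℝ * hq0
    have e2 : s * (⟪p, y⟫_ℝ ^ 2 + ⟪q, y⟫_ℝ ^ 2) = 0 := by
      linear_combination (⟪p, y⟫_ℝ) * hp0 + ⟪q, y⟫_ℝ * hq0
    have hab : ⟪p, y⟫_ℝ ^ 2 + ⟪q, y⟫_ℝ ^ 2 = 0 := by linarith
    refine hne0 y hy0 hab _ ?_ h0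
    have ha : ⟪p, y⟫_ℝ = 0 := by nlinarith [sq_nonneg ⟪p, y⟫_ℝ, sq_nonneg ⟪q, y⟫_ℝ]
    have hb : ⟪q, y⟫_ℝ = 0 := by nlinarith [sq_nonneg ⟪p, y⟫_ℝ, sq_nonneg ⟪q, y⟫_ℝ]
    simp [ha, hb]
  have H1 := Hty.of_reflection (v := v1) fun s hs y hy => ⟨hv1c.contDiffAt, hv1n s hs y hy⟩
  have H2 := Hty.of_reflection (v := v2) fun s hs y hy => ⟨hv2c.contDiffAt, hv2n s hs y hy⟩
  have H3 : Hty (fun y => R (v1 (0, y))) (fun y => R (v2 (1, y))) := by
    refine H2.congr (fun y _ => ?_) (fun y _ => rfl)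
    simp [hv1, hv2]
  refine (H1.symm.trans H3).congr ?_ ?_
  · intro y hy
    have hy0 := (mem_D.1 hy).2
    have hn : ‖y‖ ≠ 0 := norm_ne_zero_iff.2 hy0
    have h1 : v1 (1, y) = ‖y‖ ^ 2 • R y e := by
      rw [R_apply, smul_sub, smul_smul]
      have h2 : ‖y‖ ^ 2 * (2 * ⟪y, e⟫_ℝ / ‖y‖ ^ 2) = 2 * ⟪y, e⟫_ℝ := by field_simp
      rw [h2, hnz y]
      simp only [hv1, hz]
      module
    rw [h1, R_smul (pow_ne_zero 2 hn)]
  · intro y _
    simp only [hv2, hz, sub_self, zero_smul, zero_add, one_smul]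

end PF
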