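import Pool.Agent.Helper4.PF.Bundle

/-!
# Form atlases of spheres (project MP_905dfc_gt)
-/

open scoped Manifold ContDiff Topology InnerProductSpace
open Set Filter Metric ContinuousLinearMap

noncomputable section

namespace PF

section Charts

variable {H : Type} [NormedAddCommGroup H] [InnerProductSpace ℝ H] {n : ℕ}

/-- The inverse charts of the sphere are smooth as maps into the ambient space. -/
theorem contDiff_chart_symm_sphere [Fact (Module.finrank ℝ H = n + 1)] (v : sphere (0 : H) 1) :
    ContDiff ℝ ∞ (fun y : Eu n => (((chartAt (Eu n) v).symm y : sphere (0 : H) 1) : H)) := by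
  let U : _ ≃ₗᵢ[ℝ] _ :=
    (OrthonormalBasis.fromOrthogonalSpanSingleton (𝕜 := ℝ)
      n (ne_zero_of_mem_unit_sphere (-v))).repr
  exact ((contDiff_stereoInvFunAux (v := ((-v : sphere (0 : H) 1) : H)).comp
    (ℝ ∙ ((-v : sphere (0 : H) 1) : H))ᗮ.subtypeL.contDiff).comp U.symm.contDiff)

theorem chart_sphere_target [Fact (Module.finrank ℝ H = n + 1)] (v : sphere (0 : H) 1) :
    (chartAt (Eu n) v).target = Set.univ :=
  stereographic'_target (-v)

/-- The transition maps are smooth. -/
theorem contDiffAt_trans_sphere [Fact (Module.finrank ℝ H = n + 1)]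
    (v w p : sphere (0 : H) 1) (hv : p ∈ (chartAt (Eu n) v).source)
    (hw : p ∈ (chartAt (Eu n) w).source) :
    ContDiffAt ℝ ∞ ((chartAt (Eu n) w) ∘ (chartAt (Eu n) v).symm) (chartAt (Eu n) v p) := by
  have h : (chartAt (Eu n) v).symm ≫ₕ (chartAt (Eu n) w) ∈ contDiffGroupoid ω (𝓡 n) :=
    HasGroupoid.compatible (chart_mem_atlas _ v) (chart_mem_atlas _ w)
  rw [contDiffGroupoid, mem_groupoid_of_pregroupoid] at h
  have h1 := h.1
  simp only [contDiffPregroupoid, mfld_simps] at h1
  have h2 : chartAt (Eu n) v p ∈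
      ((chartAt (Eu n) v).symm ≫ₕ (chartAt (Eu n) w)).source := by
    rw [OpenPartialHomeomorph.trans_source]
    refine ⟨(chartAt (Eu n) v).map_source hv, ?_⟩
    change (chartAt (Eu n) v).symm (chartAt (Eu n) v p) ∈ (chartAt (Eu n) w).source
    rw [(chartAt (Eu n) v).left_inv hv]
    exact hw
  exact (h1.contDiffAt
    (((chartAt (Eu n) v).symm ≫ₕ (chartAt (Eu n) w)).open_source.mem_nhds h2)).of_le le_top

/-- The embedding of the sphere in the chart centred at `v`. -/
def iot [Fact (Module.finrank ℝ H = n + 1)] (v : sphere (0 : H) 1) (y : Eu n) : H :=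
  (((chartAt (Eu n) v).symm y : sphere (0 : H) 1) : H)

theorem contDiff_iot [Fact (Module.finrank ℝ H = n + 1)] (v : sphere (0 : H) 1) :
    ContDiff ℝ ∞ (iot (n := n) v) := contDiff_chart_symm_sphere v

theorem mvfderiv_coe_sphere_eq [Fact (Module.finrank ℝ H = n + 1)] (v : sphere (0 : H) 1) :
    (mvfderiv (𝓡 n) ((↑) : sphere (0 : H) 1 → H) v : Eu n →L[ℝ] H) =
      fderiv ℝ (iot (n := n) v) (chartAt (Eu n) v v) := by
  rw [((contMDiff_coe_sphere v).mdifferentiableAt one_ne_zero).mvfderiv]
  simp only [fderivWithin_univ, mfld_simps]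
  rfl

theorem range_fderiv_iot_self [Fact (Module.finrank ℝ H = n + 1)] (v : sphere (0 : H) 1) :
    LinearMap.range (fderiv ℝ (iot (n := n) v) (chartAt (Eu n) v v) : Eu n →ₗ[ℝ] H) =
      (ℝ ∙ (v : H))ᗮ := by
  rw [← mvfderiv_coe_sphere_eq]
  exact range_mvfderiv_subtypeVal v

theorem injective_fderiv_iot_self [Fact (Module.finrank ℝ H = n + 1)] (v : sphere (0 : H) 1) :
    Function.Injective (fderiv ℝ (iot (n := n) v) (chartAt (Eu n) v v)) := by
  rw [← mvfderiv_coe_sphere_eq]
  exact injective_mvfderiv_subtypeVal_sphere v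

end Charts

variable {V : Type} [NormedAddCommGroup V] [InnerProductSpace ℝ V] [FiniteDimensional ℝ V]
  {H : Type} [NormedAddCommGroup H] [InnerProductSpace ℝ H] {n : ℕ}

/-- The chart of the unit sphere centred at `v`, with the derivative of the embedding into
`V` given by the linear isometry `L`. -/
def spherePair [Fact (Module.finrank ℝ H = n + 1)] (L : H →ₗᵢ[ℝ] V)
    (v : sphere (0 : H) 1) : FPair (Eu n) V (sphere (0 : H) 1) :=
  ⟨chartAt (Eu n) v, fderiv ℝ (fun y => L (((chartAt (Eu n) v).symm y : sphere (0 : H) 1) : H))⟩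

theorem spherePair_form [Fact (Module.finrank ℝ H = n + 1)] (L : H →ₗᵢ[ℝ] V)
    (v : sphere (0 : H) 1) (y : Eu n) :
    (spherePair (n := n) L v).Θ y =
      L.toContinuousLinearMap.comp (fderiv ℝ (iot (n := n) v) y) := by
  change fderiv ℝ (fun y => L.toContinuousLinearMap (iot (n := n) v y)) y = _
  have h : DifferentiableAt ℝ (iot (n := n) v) y :=
    (contDiff_iot v).contDiffAt.differentiableAt (by simp)
  exact (L.toContinuousLinearMap.hasFDerivAt.comp y h.hasFDerivAt).fderiv

theorem spherePair_form_eq [Fact (Module.finrank ℝ H = n + 1)] (L : H →ₗᵢ[ℝ] V)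
    (v : sphere (0 : H) 1) :
    (spherePair (n := n) L v).Θ =
      fderiv ℝ (fun y => L.toContinuousLinearMap (iot (n := n) v y)) := rfl

theorem contDiff_spherePair_form [Fact (Module.finrank ℝ H = n + 1)] (L : H →ₗᵢ[ℝ] V)
    (v : sphere (0 : H) 1) : ContDiff ℝ ∞ (spherePair (n := n) L v).Θ := by
  rw [spherePair_form_eq]
  exact (L.toContinuousLinearMap.contDiff.comp (contDiff_iot v)).fderiv_right le_rfl

theorem spherePair_agree [Fact (Module.finrank ℝ H = n + 1)] (L : H →ₗᵢ[ℝ] V)
    (v w p : sphere (0 : H) 1) (hv : p ∈ (spherePair (n := n) L v).c.source)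
    (hw : p ∈ (spherePair (n := n) L w).c.source) :
    AgreeAt ∅ (spherePair (n := n) L v) (spherePair (n := n) L w) p := by
  have hv' : p ∈ (chartAt (Eu n) v).source := hv
  have hw' : p ∈ (chartAt (Eu n) w).source := hw
  refine ⟨contDiffAt_trans_sphere v w p hv' hw', contDiffAt_trans_sphere w v p hw' hv', ?_⟩
  intro _
  have h1 : (fun y => L.toContinuousLinearMap (iot (n := n) v y)) =ᶠ[𝓝 (chartAt (Eu n) v p)]
      (fun y => L.toContinuousLinearMap (iot (n := n) w y)) ∘
        ((chartAt (Eu n) w) ∘ (chartAt (Eu n) v).symm) := by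
    have h2 : ∀ᶠ y in 𝓝 (chartAt (Eu n) v p),
        (chartAt (Eu n) v).symm y ∈ (chartAt (Eu n) w).source := by
      have hc := (chartAt (Eu n) v).symm.continuousAt ((chartAt (Eu n) v).map_source hv')
      apply hc.eventually
      rw [(chartAt (Eu n) v).left_inv hv']
      exact (chartAt (Eu n) w).open_source.mem_nhds hw'
    filter_upwards [h2] with y hy
    simp only [Function.comp_apply, iot]
    rw [(chartAt (Eu n) w).left_inv hy]
  change (spherePair (n := n) L v).Θ (chartAt (Eu n) v p) =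
    ((spherePair (n := n) L w).Θ (chartAt (Eu n) w p)).comp
      (fderiv ℝ ((chartAt (Eu n) w) ∘ (chartAt (Eu n) v).symm) (chartAt (Eu n) v p))
  rw [spherePair_form_eq, spherePair_form_eq, h1.fderiv_eq]
  have h3 : ((chartAt (Eu n) w) ∘ (chartAt (Eu n) v).symm) (chartAt (Eu n) v p) =
      chartAt (Eu n) w p := by
    simp only [Function.comp_apply]
    rw [(chartAt (Eu n) v).left_inv hv']
  rw [fderiv_comp _ _ ((contDiffAt_trans_sphere v w p hv' hw').differentiableAt (by simp)), h3]
  rw [h3]
  exact (L.toContinuousLinearMap.contDiff.comp (contDiff_iot w)).contDiffAt.differentiableAt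
    (by simp)

theorem spherePair_inj [Fact (Module.finrank ℝ H = n + 1)] (L : H →ₗᵢ[ℝ] V)
    (v p : sphere (0 : H) 1) (hv : p ∈ (spherePair (n := n) L v).c.source) :
    Function.Injective ((spherePair (n := n) L v).Θ ((spherePair (n := n) L v).c p)) := by
  have hp : p ∈ (spherePair (n := n) L p).c.source := mem_chart_source (Eu n) p
  have hag := spherePair_agree L v p p hv hp
  rw [hag.form (by simp), ContinuousLinearMap.coe_comp]
  refine Function.Injective.comp ?_ ?_
  · change Function.Injective ((spherePair (n := n) L p).Θ (chartAt (Eu n) p p))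
    rw [spherePair_form, ContinuousLinearMap.coe_comp]
    exact L.injective.comp (injective_fderiv_iot_self p)
  · have h3 := hag.fderiv_comp_fderiv' hv hp
    apply Function.LeftInverse.injective
      (g := fderiv ℝ ((spherePair (n := n) L v).c ∘ (spherePair (n := n) L p).c.symm)
        ((spherePair (n := n) L p).c p))
    intro z
    exact DFunLike.congr_fun h3 z

/-- The form atlas of the unit sphere of `H` embedded in `V`. -/
theorem exists_sphereFA [Fact (Module.finrank ℝ H = n + 1)] (L : H →ₗᵢ[ℝ] V) :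
    ∃ 𝔸 : FA (Eu n) V (sphere (0 : H) 1) ∅, (∀ v, 𝔸.Mem (spherePair L v)) ∧
      ∀ (x : sphere (0 : H) 1) (w : V), w ∈ 𝔸.nu x ↔
        ∀ h : H, ⟪(x : H), h⟫_ℝ = 0 → ⟪w, L h⟫_ℝ = 0 := by
  let 𝔸 : FA (Eu n) V (sphere (0 : H) 1) ∅ :=
    { at' := Set.range (spherePair L)
      closed := isClosed_empty
      cover := fun p => ⟨spherePair L p, ⟨p, rfl⟩, mem_chart_source (Eu n) p⟩
      smooth := by
        rintro _ ⟨v, rfl⟩ p _ _
        exact (contDiff_spherePair_form L v).contDiffAt
      inj := by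
        rintro _ ⟨v, rfl⟩ p hp _
        exact spherePair_inj L v p hp
      agree := by
        rintro _ ⟨v, rfl⟩ _ ⟨w, rfl⟩ p hp hp'
        exact spherePair_agree L v w p hp hp' }
  have hmem : ∀ v, 𝔸.Mem (spherePair L v) := fun v => 𝔸.mem_of_mem_at ⟨v, rfl⟩
  refine ⟨𝔸, hmem, ?_⟩
  intro x w
  have hx : x ∈ (spherePair (n := n) L x).c.source := mem_chart_source (Eu n) x
  rw [FA.mem_nu_iff (hmem x) hx]
  change adjoint ((spherePair (n := n) L x).Θ (chartAt (Eu n) x x)) w = 0 ↔ _
  rw [spherePair_form]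
  constructor
  · intro h0 h hh
    have h1 : h ∈ LinearMap.range
        (fderiv ℝ (iot (n := n) x) (chartAt (Eu n) x x) : Eu n →ₗ[ℝ] H) := by
      rw [range_fderiv_iot_self, Submodule.mem_orthogonal_singleton_iff_inner_right]
      exact hh
    obtain ⟨η, rfl⟩ := h1
    have h2 : ⟪adjoint (L.toContinuousLinearMap.comp
        (fderiv ℝ (iot (n := n) x) (chartAt (Eu n) x x))) w, η⟫_ℝ = 0 := by
      rw [h0, inner_zero_left]
    rw [adjoint_inner_left] at h2
    exact h2
  · intro h0
    refine ext_inner_right ℝ fun η => ?_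
    rw [adjoint_inner_left, inner_zero_left]
    apply h0
    rw [← Submodule.mem_orthogonal_singleton_iff_inner_right, ← range_fderiv_iot_self (n := n)]
    exact ⟨η, rfl⟩

end PF
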