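import Pool.Agent.Helper4.PF.SphereBundle
import Pool.Agent.Helper4.PF.Ext
import Pool.Agent.Helper4.PF.SphereFA
import Pool.Agent.Helper4.PF.HtyClass

/-!
# The filler with a double zero: preparations (project MP_905dfc_gt)
-/

open scoped Manifold ContDiff Topology InnerProductSpace
open Set Filter Metric ContinuousLinearMap

noncomputable section

namespace PF

section Stereo

variable {H : Type} [NormedAddCommGroup H] [InnerProductSpace ℝ H] {n : ℕ}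
  [Fact (Module.finrank ℝ H = n + 1)]

/-- The inverse stereographic chart centred at `p`. -/
def stx (U : Eu n →ₗᵢ[ℝ] H) (p : H) (y : Eu n) : H :=
  (‖y‖ ^ 2 + 4)⁻¹ • ((4 : ℝ) • U y + (4 - ‖y‖ ^ 2) • p)

theorem exists_stereo (v : sphere (0 : H) 1) : ∃ U : Eu n →ₗᵢ[ℝ] H,
    (∀ y, ⟪U y, (v : H)⟫_ℝ = 0) ∧ (∀ h : H, ⟪h, (v : H)⟫_ℝ = 0 → ∃ y, U y = h) ∧
    ∀ y, (((chartAt (Eu n) v).symm y : sphere (0 : H) 1) : H) = stx U v y := by
  set W : (ℝ ∙ ((-v : sphere (0 : H) 1) : H))ᗮ ≃ₗᵢ[ℝ] EuclideanSpace ℝ (Fin n) :=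
    (OrthonormalBasis.fromOrthogonalSpanSingleton n
      (ne_zero_of_mem_unit_sphere (-v : sphere (0 : H) 1))).repr with hW
  have hval : ∀ y, ((Submodule.subtypeₗᵢ (ℝ ∙ ((-v : sphere (0 : H) 1) : H))ᗮ).comp
      W.symm.toLinearIsometry) y = ((W.symm y : (ℝ ∙ ((-v : sphere (0 : H) 1) : H))ᗮ) : H) :=
    fun y => rfl
  refine ⟨(Submodule.subtypeₗᵢ _).comp W.symm.toLinearIsometry, ?_, ?_, ?_⟩
  · intro y
    rw [hval]
    have h := (Submodule.mem_orthogonal_singleton_iff_inner_left.1 (W.symm y).2)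
    have h2 : ⟪((W.symm y : (ℝ ∙ ((-v : sphere (0 : H) 1) : H))ᗮ) : H), -(v : H)⟫_ℝ = 0 := h
    rw [inner_neg_right, neg_eq_zero] at h2
    exact h2
  · intro h hh
    have hmem : h ∈ (ℝ ∙ ((-v : sphere (0 : H) 1) : H))ᗮ := by
      rw [Submodule.mem_orthogonal_singleton_iff_inner_left]
      simpa using hh
    refine ⟨W ⟨h, hmem⟩, ?_⟩
    rw [hval, LinearIsometryEquiv.symm_apply_apply]
  · intro y
    have h := stereographic'_symm_apply (-v : sphere (0 : H) 1) y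
    have hn : ‖((W.symm y : (ℝ ∙ ((-v : sphere (0 : H) 1) : H))ᗮ) : H)‖ = ‖y‖ := by
      rw [← Submodule.coe_norm]
      exact W.symm.norm_map y
    refine h.trans ?_
    change (‖((W.symm y : (ℝ ∙ ((-v : sphere (0 : H) 1) : H))ᗮ) : H)‖ ^ 2 + 4)⁻¹ • (4 : ℝ) •
      ((W.symm y : (ℝ ∙ ((-v : sphere (0 : H) 1) : H))ᗮ) : H) +
      (‖((W.symm y : (ℝ ∙ ((-v : sphere (0 : H) 1) : H))ᗮ) : H)‖ ^ 2 + 4)⁻¹ •
      (‖((W.symm y : (ℝ ∙ ((-v : sphere (0 : H) 1) : H))ᗮ) : H)‖ ^ 2 - 4) •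
      ((-v : sphere (0 : H) 1) : H) = _
    rw [hn]
    rw [stx, hval, smul_add]
    congr 2
    have : ((-v : sphere (0 : H) 1) : H) = - (v : H) := rfl
    rw [this, smul_neg, ← neg_smul]
    congr 1
    ring

theorem contDiff_stx {H : Type} [NormedAddCommGroup H] [InnerProductSpace ℝ H]
    (U : Eu n →ₗᵢ[ℝ] H) (p : H) : ContDiff ℝ ∞ (stx U p) := by
  unfold stx
  have h0 : ContDiff ℝ ∞ (fun y : Eu n => ‖y‖ ^ 2) := contDiff_norm_sq ℝ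
  have h1 : ∀ y : Eu n, ‖y‖ ^ 2 + 4 ≠ 0 := fun y => by positivity
  refine ContDiff.smul ((h0.add contDiff_const).inv h1) ?_
  refine ContDiff.add (contDiff_const.smul U.toContinuousLinearMap.contDiff) ?_
  exact (contDiff_const.sub h0).smul contDiff_const

/-- The tangent vector field with a double zero at `p`. -/
def Xf (e p x : H) : H := (1 - ⟪x, p⟫_ℝ) • e - ⟪x, e⟫_ℝ • (x - p)

variable {H : Type} [NormedAddCommGroup H] [InnerProductSpace ℝ H] {e p : H}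

theorem inner_stx_p (U : Eu n →ₗᵢ[ℝ] H) (hp : ‖p‖ = 1) (hU : ∀ y, ⟪U y, p⟫_ℝ = 0) (y : Eu n) :
    ⟪stx U p y, p⟫_ℝ = (‖y‖ ^ 2 + 4)⁻¹ * (4 - ‖y‖ ^ 2) := by
  rw [stx, real_inner_smul_left, inner_add_left, real_inner_smul_left, real_inner_smul_left, hU,
    real_inner_self_eq_norm_sq, hp]
  ring

theorem inner_stx_e (U : Eu n →ₗᵢ[ℝ] H) (hep : ⟪e, p⟫_ℝ = 0) {α : Eu n} (hα : U α = e)
    (y : Eu n) :
    ⟪stx U p y, e⟫_ℝ = (‖y‖ ^ 2 + 4)⁻¹ * (4 * ⟪y, α⟫_ℝ) := by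
  have h : ⟪U y, e⟫_ℝ = ⟪y, α⟫_ℝ := by rw [← hα, LinearIsometry.inner_map_map]
  rw [stx, real_inner_smul_left, inner_add_left, real_inner_smul_left, real_inner_smul_left, h,
    real_inner_comm e p, hep]
  ring

theorem fderiv_stx (U : Eu n →ₗᵢ[ℝ] H) (p : H) (y η : Eu n) :
    fderiv ℝ (stx U p) y η = (‖y‖ ^ 2 + 4)⁻¹ • ((4 : ℝ) • U η - (2 * ⟪y, η⟫_ℝ) • p)
      - ((‖y‖ ^ 2 + 4)⁻¹ ^ 2 * (2 * ⟪y, η⟫_ℝ)) • ((4 : ℝ) • U y + (4 - ‖y‖ ^ 2) • p) := by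
  have h0 : HasFDerivAt (fun y : Eu n => ‖y‖ ^ 2) (2 • (innerSL ℝ y)) y :=
    (hasStrictFDerivAt_norm_sq y).hasFDerivAt
  have h1 : ‖y‖ ^ 2 + 4 ≠ 0 := by positivity
  have h2 : HasFDerivAt (fun y : Eu n => (‖y‖ ^ 2 + 4)⁻¹)
      (-((‖y‖ ^ 2 + 4) ^ 2)⁻¹ • (2 • (innerSL ℝ y))) y := by
    have := (hasDerivAt_inv h1).comp_hasFDerivAt y (h0.add_const 4)
    exact this
  have h3 : HasFDerivAt (fun y : Eu n => (4 : ℝ) • U y + (4 - ‖y‖ ^ 2) • p)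
      ((4 : ℝ) • U.toContinuousLinearMap + (-(2 • (innerSL ℝ y))).smulRight p) y := by
    have h4 : HasFDerivAt (fun y : Eu n => (4 : ℝ) • U y) ((4 : ℝ) • U.toContinuousLinearMap) y :=
      U.toContinuousLinearMap.hasFDerivAt.const_smul 4
    exact h4.add ((h0.const_sub 4).smul_const p)
  have h5 := (h2.smul h3).fderiv
  have h6 : (stx U p) = (fun y : Eu n => (‖y‖ ^ 2 + 4)⁻¹) •
      fun y => ((4 : ℝ) • U y + (4 - ‖y‖ ^ 2) • p) := rfl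
  rw [h6, h5]
  simp only [add_apply, smul_apply, smulRight_apply, neg_apply, innerSL_apply_apply,
    LinearIsometry.coe_toContinuousLinearMap, ← inv_pow]
  module

/-- The key identity: the vector field in the stereographic chart. -/
theorem Xf_stx (U : Eu n →ₗᵢ[ℝ] H) (hp : ‖p‖ = 1) (hep : ⟪e, p⟫_ℝ = 0)
    (hU : ∀ y, ⟪U y, p⟫_ℝ = 0) {α : Eu n} (hα : U α = e) (y : Eu n) :
    Xf e p (stx U p y) =
      fderiv ℝ (stx U p) y ((2 : ℝ)⁻¹ • (‖y‖ ^ 2 • α - (2 * ⟪y, α⟫_ℝ) • y)) := by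
  have h1 : ‖y‖ ^ 2 + 4 ≠ 0 := by positivity
  rw [fderiv_stx, Xf, inner_stx_p U hp hU, inner_stx_e U hep hα, stx]
  simp only [map_smul, map_sub, hα, inner_smul_right, inner_sub_right, real_inner_self_eq_norm_sq]
  set c := ‖y‖ ^ 2 with hc
  set d := ⟪y, α⟫_ℝ with hd
  match_scalars <;> field_simp <;> ring

theorem Xf_p (e : H) (hp : ‖p‖ = 1) : Xf e p p = 0 := by
  rw [Xf, real_inner_self_eq_norm_sq, hp]
  simp

theorem inner_Xf_self {x : H} (hx : ‖x‖ = 1) : ⟪x, Xf e p x⟫_ℝ = 0 := by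
  rw [Xf, inner_sub_right, inner_smul_right, inner_smul_right, inner_sub_right,
    real_inner_self_eq_norm_sq, hx]
  ring

theorem eq_of_Xf_eq_zero (he : ‖e‖ = 1) (hp : ‖p‖ = 1) (hep : ⟪e, p⟫_ℝ = 0) {x : H}
    (hx : ‖x‖ = 1) (h : Xf e p x = 0) : x = p := by
  have h1 : ⟪Xf e p x, p⟫_ℝ = 0 := by rw [h, inner_zero_left]
  rw [Xf, inner_sub_left, real_inner_smul_left, real_inner_smul_left, inner_sub_left, hep,
    real_inner_self_eq_norm_sq, hp] at h1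
  have h2 : ⟪Xf e p x, e⟫_ℝ = 0 := by rw [h, inner_zero_left]
  rw [Xf, inner_sub_left, real_inner_smul_left, real_inner_smul_left, inner_sub_left,
    real_inner_comm e p, hep, real_inner_self_eq_norm_sq, he] at h2
  have h3 : ⟪x, p⟫_ℝ = 1 := by
    rcases eq_or_ne (⟪x, e⟫_ℝ) 0 with h0 | h0
    · rw [h0] at h2; linarith
    · have : ⟪x, e⟫_ℝ * (⟪x, p⟫_ℝ - 1) = 0 := by linarith
      rcases mul_eq_zero.1 this with h4 | h4
      · exact absurd h4 h0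
      · linarith
  exact (inner_eq_one_iff_of_norm_eq_one hx hp).1 h3

theorem norm_Xf_le (he : ‖e‖ = 1) (hp : ‖p‖ = 1) {x : H} (hx : ‖x‖ = 1) : ‖Xf e p x‖ ≤ 4 := by
  have h1 : |⟪x, p⟫_ℝ| ≤ 1 := by
    have := abs_real_inner_le_norm x p
    rwa [hx, hp, mul_one] at this
  have h2 : |⟪x, e⟫_ℝ| ≤ 1 := by
    have := abs_real_inner_le_norm x e
    rwa [hx, he, mul_one] at this
  have h3 : ‖x - p‖ ≤ 2 := by
    have := norm_sub_le x p
    rw [hx, hp] at this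
    linarith
  have h4 : |1 - ⟪x, p⟫_ℝ| ≤ 2 := by
    rw [abs_le] at h1 ⊢
    constructor <;> linarith [h1.1, h1.2]
  calc ‖Xf e p x‖ ≤ ‖(1 - ⟪x, p⟫_ℝ) • e‖ + ‖⟪x, e⟫_ℝ • (x - p)‖ := norm_sub_le _ _
    _ = |1 - ⟪x, p⟫_ℝ| * 1 + |⟪x, e⟫_ℝ| * ‖x - p‖ := by
        rw [norm_smul, norm_smul, he, Real.norm_eq_abs, Real.norm_eq_abs]
    _ ≤ 2 * 1 + 1 * 2 := by
        gcongr
    _ = 4 := by norm_num

theorem contDiff_Xf (e p : H) : ContDiff ℝ ∞ (Xf e p) := by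
  unfold Xf
  exact ((contDiff_const.sub (contDiff_id.inner ℝ contDiff_const)).smul contDiff_const).sub
    ((contDiff_id.inner ℝ contDiff_const).smul (contDiff_id.sub contDiff_const))

end Stereo

end PF
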