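import Pool.Agent.Helper4.PF.DoubleAux

/-!
# The filler with a double zero: the homotopies (project MP_905dfc_gt)
-/

open scoped Manifold ContDiff Topology InnerProductSpace
open Set Filter Metric ContinuousLinearMap

noncomputable section

namespace PF

theorem isUnit_of_inj {V : Type*} [NormedAddCommGroup V] [InnerProductSpace ℝ V]
    [FiniteDimensional ℝ V] {f : V →L[ℝ] V} (h : Function.Injective f) : IsUnit f := by
  have h2 : Function.Surjective f :=
    (LinearMap.injective_iff_surjective (f := (f : V →ₗ[ℝ] V))).1 h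
  exact (ContinuousLinearMap.isUnit_iff_bijective).2 ⟨h, h2⟩

section

variable {V : Type} [NormedAddCommGroup V] [InnerProductSpace ℝ V] [FiniteDimensional ℝ V]
  {M : Type} [TopologicalSpace M] {n m : ℕ}

theorem Theta_add_UU_eq_zero {𝔸 : FA (Eu n) V M ∅} {a : FPair (Eu n) V M} (ha : 𝔸.Mem a)
    {β : Eu m →L[ℝ] V} {t η : Eu n} {u : Eu m} (ht : (t, u) ∈ Om a β)
    (h : a.Θ t η + UU a β (t, u) = 0) : η = 0 ∧ u = 0 := by
  have h1 := UU_spec ht
  have h2 : ⟪a.Θ t η, UU a β (t, u)⟫_ℝ = 0 := by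
    rw [← ContinuousLinearMap.adjoint_inner_right, h1.1, inner_zero_right]
  have h3 : a.Θ t η = - UU a β (t, u) := eq_neg_of_add_eq_zero_left h
  have h4 : UU a β (t, u) = 0 := by
    rw [h3, inner_neg_left, neg_eq_zero, inner_self_eq_zero] at h2
    exact h2
  rw [h4, neg_zero] at h3
  have h5 : t ∈ a.c.target := ht.1
  have h6 := ha.inj (a.c.map_target h5) (Set.notMem_empty _)
  rw [a.c.right_inv h5] at h6
  refine ⟨h6 (by rw [h3, map_zero]), ?_⟩
  have h7 := h1.2
  rw [h4, map_zero] at h7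
  exact h7.symm

/-- The reflected vector `‖y‖² α - 2 ⟪y, α⟫ y`. -/
def ff (α y : Eu n) : Eu n := ‖y‖ ^ 2 • α - (2 * ⟪y, α⟫_ℝ) • y

theorem contDiff_ff (α : Eu n) : ContDiff ℝ ∞ (ff α) := by
  unfold ff
  exact ((contDiff_norm_sq ℝ).smul contDiff_const).sub
    ((contDiff_const.mul (contDiff_id.inner ℝ contDiff_const)).smul contDiff_id)

theorem ff_eq_zero {α y : Eu n} (hα : α ≠ 0) (h : ff α y = 0) : y = 0 := by
  by_contra hy
  have h1 : ‖ff α y‖ ^ 2 = ‖y‖ ^ 4 * ‖α‖ ^ 2 := by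
    rw [ff, norm_sub_sq_real, norm_smul, norm_smul, inner_smul_left, inner_smul_right,
      real_inner_comm y α]
    simp only [Real.norm_eq_abs, mul_pow, sq_abs, conj_trivial]
    ring
  rw [h, norm_zero] at h1
  have h2 : 0 < ‖y‖ ^ 4 * ‖α‖ ^ 2 := by
    have := norm_pos_iff.2 hα
    have := norm_pos_iff.2 hy
    positivity
  rw [← h1] at h2
  norm_num at h2

/-- The local data at the double zero. -/
structure Loc (𝔸 : FA (Eu n) V M ∅) (a : FPair (Eu n) V M) (x₀ : M) (β : Eu m →L[ℝ] V)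
    (U : Eu n →ₗᵢ[ℝ] V) (Q : (Eu n × Eu m) ≃L[ℝ] V) (δ : ℝ) : Prop where
  mem : 𝔸.Mem a
  src : x₀ ∈ a.c.source
  zero : a.c x₀ = 0
  isom : ∀ v, ‖β v‖ = ‖v‖
  nu : ∀ v, β v ∈ 𝔸.nu x₀
  om : ∀ u : Eu m, ((0 : Eu n), u) ∈ Om a β
  form : a.Θ 0 = U.toContinuousLinearMap
  eqQ : ∀ z, Q z = U z.1 + β z.2
  pos : 0 < δ
  small : ∀ Y : V, ‖Y‖ ≤ 1 → ∀ s ∈ Icc (0 : ℝ) 1, (s * δ) • Q.symm Y ∈ Om a β

variable {𝔸 : FA (Eu n) V M ∅} {a : FPair (Eu n) V M} {x₀ : M} {β : Eu m →L[ℝ] V}
    {U : Eu n →ₗᵢ[ℝ] V} {Q : (Eu n × Eu m) ≃L[ℝ] V} {δ : ℝ}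

theorem Loc.UU_zero (h : Loc 𝔸 a x₀ β U Q δ) (u : Eu m) : UU a β (0, u) = β u := by
  have h1 := UU_eq_beta h.mem h.src h.isom h.nu (u := u) (by rw [h.zero]; exact h.om u)
  rwa [h.zero] at h1

theorem Loc.Th0_zero (h : Loc 𝔸 a x₀ β U Q δ) : Th0 a β 0 = (Q : (Eu n × Eu m) →L[ℝ] V) := by
  refine ContinuousLinearMap.ext fun z => ?_
  obtain ⟨η, u⟩ := z
  have h1 : fderiv ℝ (UU a β) (0 : Eu n × Eu m) (η, u) = β u := by
    have h2 : ((η, u) : Eu n × Eu m) = (η, 0) + (0, u) := by simp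
    rw [h2, map_add]
    have h3 := fderiv_UU_inl h.mem (y := (0 : Eu n)) (h.om 0) η
    have h4 := fderiv_UU_inr h.mem (z := ((0 : Eu n), (0 : Eu m))) (h.om 0) u
    have h5 : ((0 : Eu n), (0 : Eu m)) = (0 : Eu n × Eu m) := rfl
    rw [h5] at h3 h4
    rw [h3, h4, zero_add]
    exact h.UU_zero u
  have h2 : PiN (a.Θ 0) (β u) = β u := by
    refine PiN_of_adjoint_eq_zero _ ?_
    have := (𝔸.mem_nu_iff h.mem h.src (β u)).1 (h.nu u)
    rwa [h.zero] at this
  have h3 : Th0 a β 0 (η, u) = a.Θ 0 η + PiN (a.Θ 0) (fderiv ℝ (UU a β) 0 (η, u)) := rfl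
  rw [h3, h1, h2, h.form]
  exact (h.eqQ (η, u)).symm

theorem Loc.hty_form (h : Loc 𝔸 a x₀ β U Q δ) :
    Hty (fun _ : V => ContinuousLinearMap.id ℝ V)
      (fun Y => (Th0 a β (δ • Q.symm Y)).comp (δ • (Q.symm : V →L[ℝ] (Eu n × Eu m)))) := by
  have hA : Hty (fun _ : V => δ • ContinuousLinearMap.id ℝ V)
      (fun Y => (Th0 a β (δ • Q.symm Y)).comp (δ • (Q.symm : V →L[ℝ] (Eu n × Eu m)))) := by
    refine Hty.of_path (h := fun x => (Th0 a β ((x.1 * δ) • Q.symm x.2)).comp
      (δ • (Q.symm : V →L[ℝ] (Eu n × Eu m)))) ?_ ?_ ?_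
    · intro s hs Y hY
      have hY1 : ‖Y‖ ≤ 1 := (mem_D.1 hY).1.le
      have hz := h.small Y hY1 s hs
      constructor
      · refine ContDiffAt.clm_comp ?_ contDiffAt_const
        refine ContDiffAt.comp (g := Th0 a β) (f := fun x : ℝ × V => (x.1 * δ) • Q.symm x.2)
          (s, Y) (contDiffAt_Th0 h.mem hz) ?_
        exact ((contDiff_fst.mul contDiff_const).smul
          (Q.symm.contDiff.comp contDiff_snd)).contDiffAt
      · refine isUnit_of_inj ?_
        intro v w hvw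
        have h1 := Th0_injective h.mem hz hvw
        have h2 : δ • Q.symm v = δ • Q.symm w := h1
        exact Q.symm.injective (smul_right_injective _ h.pos.ne' h2)
    · intro Y _
      ext1 v
      have h1 : Th0 a β (((0 : ℝ) * δ) • Q.symm Y) = (Q : (Eu n × Eu m) →L[ℝ] V) := by
        rw [zero_mul, zero_smul, h.Th0_zero]
      change Th0 a β (((0 : ℝ) * δ) • Q.symm Y) (δ • Q.symm v) = δ • v
      rw [h1]
      change Q (δ • Q.symm v) = δ • v
      rw [map_smul, Q.apply_symm_apply]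
    · intro Y _
      simp only [one_mul]
  have hB : Hty (fun _ : V => ContinuousLinearMap.id ℝ V)
      (fun _ : V => δ • ContinuousLinearMap.id ℝ V) := by
    refine Hty.of_path (h := fun x => ((1 - x.1) + x.1 * δ) • ContinuousLinearMap.id ℝ V)
      ?_ ?_ ?_
    · intro s hs Y _
      constructor
      · exact (((contDiff_const.sub contDiff_fst).add
          (contDiff_fst.mul contDiff_const)).smul contDiff_const).contDiffAt
      · refine isUnit_of_inj ?_
        intro v w hvw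
        have h1 : ((1 - s) + s * δ) • v = ((1 - s) + s * δ) • w := hvw
        refine smul_right_injective _ ?_ h1
        have hδ := h.pos
        rcases eq_or_lt_of_le hs.1 with h0 | h0
        · rw [← h0]; norm_num
        · have : 0 < s * δ := by positivity
          have h2 := hs.2
          have : 0 < (1 - s) + s * δ := by linarith
          exact this.ne'
    · intro Y _; simp
    · intro Y _; simp
  exact hB.trans hA

theorem Loc.hty_refl (h : Loc 𝔸 a x₀ β U Q δ) {α : Eu n} (hα : α ≠ 0) {c₁ : ℝ} (hc : 0 < c₁) :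
    Hty (fun Y => R (U (ff α (Q.symm Y).1) + β (Q.symm Y).2))
      (fun Y => R (a.Θ (δ • (Q.symm Y).1) (c₁ • ff α (Q.symm Y).1) +
        UU a β (δ • Q.symm Y))) := by
  have hδ := h.pos
  have hne : ∀ Y ∈ D V, ∀ c d : ℝ, 0 < c → 0 < d → c • ff α (Q.symm Y).1 = 0 →
      d • (Q.symm Y).2 = 0 → False := by
    intro Y hY c d hc hd h1 h2
    have h3 : (Q.symm Y).1 = 0 := ff_eq_zero hα ((smul_eq_zero_iff_right hc.ne').1 h1)
    have h4 : (Q.symm Y).2 = 0 := (smul_eq_zero_iff_right hd.ne').1 h2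
    have h5 : Q.symm Y = 0 := Prod.ext h3 h4
    exact (mem_D.1 hY).2 ((map_eq_zero_iff _ Q.symm.injective).1 h5)
  have c1 : ContDiff ℝ ∞ (fun x : ℝ × V => (Q.symm x.2).1) :=
    contDiff_fst.comp (Q.symm.contDiff.comp contDiff_snd)
  have c2 : ContDiff ℝ ∞ (fun x : ℝ × V => (Q.symm x.2).2) :=
    contDiff_snd.comp (Q.symm.contDiff.comp contDiff_snd)
  have c3 : ContDiff ℝ ∞ (fun x : ℝ × V => ff α (Q.symm x.2).1) := (contDiff_ff α).comp c1
  have hA : Hty (fun Y => R (U (c₁ • ff α (Q.symm Y).1) + β (δ • (Q.symm Y).2)))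
      (fun Y => R (a.Θ (δ • (Q.symm Y).1) (c₁ • ff α (Q.symm Y).1) +
        UU a β (δ • Q.symm Y))) := by
    refine (Hty.of_reflection (v := fun x : ℝ × V =>
      a.Θ ((x.1 * δ) • (Q.symm x.2).1) (c₁ • ff α (Q.symm x.2).1) +
        UU a β ((x.1 * δ) • (Q.symm x.2).1, δ • (Q.symm x.2).2)) ?_).congr ?_ ?_
    · intro s hs Y hY
      have hY1 : ‖Y‖ ≤ 1 := (mem_D.1 hY).1.le
      have hz : ((s * δ) • (Q.symm Y).1, (s * δ) • (Q.symm Y).2) ∈ Om a β :=
        h.small Y hY1 s hs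
      have hz' : ((s * δ) • (Q.symm Y).1, δ • (Q.symm Y).2) ∈ Om a β := Om_iff.1 hz
      have ht : (s * δ) • (Q.symm Y).1 ∈ a.c.target := hz.1
      constructor
      · have c4 : ContDiff ℝ ∞ (fun x : ℝ × V => (x.1 * δ) • (Q.symm x.2).1) :=
          (contDiff_fst.mul contDiff_const).smul c1
        refine ContDiffAt.add (ContDiffAt.clm_apply ?_ ?_) ?_
        · refine ContDiffAt.comp (g := a.Θ) (f := fun x : ℝ × V => (x.1 * δ) • (Q.symm x.2).1)
            (s, Y) ?_ c4.contDiffAt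
          have := h.mem.smooth (a.c.map_target ht) (Set.notMem_empty _)
          rwa [a.c.right_inv ht] at this
        · exact (ContDiff.const_smul c₁ c3).contDiffAt
        · refine ContDiffAt.comp (g := UU a β)
            (f := fun x : ℝ × V => ((x.1 * δ) • (Q.symm x.2).1, δ • (Q.symm x.2).2))
            (s, Y) (contDiffAt_UU h.mem hz') ?_
          exact (c4.prodMk (ContDiff.const_smul δ c2)).contDiffAt
      · intro h0
        have h1 := Theta_add_UU_eq_zero h.mem hz' h0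
        exact hne Y hY c₁ δ hc hδ h1.1 h1.2
    · intro Y _
      simp only [zero_mul, zero_smul]
      rw [h.UU_zero, h.form]
      rfl
    · intro Y _
      simp only [one_mul]
      rfl
  have hB : Hty (fun Y => R (U (ff α (Q.symm Y).1) + β (Q.symm Y).2))
      (fun Y => R (U (c₁ • ff α (Q.symm Y).1) + β (δ • (Q.symm Y).2))) := by
    refine (Hty.of_reflection (v := fun x : ℝ × V =>
      U (((1 - x.1) + x.1 * c₁) • ff α (Q.symm x.2).1) +
        β (((1 - x.1) + x.1 * δ) • (Q.symm x.2).2)) ?_).congr ?_ ?_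
    · intro s hs Y hY
      have hp : ∀ d : ℝ, 0 < d → 0 < (1 - s) + s * d := by
        intro d hd
        rcases eq_or_lt_of_le hs.1 with h0 | h0
        · rw [← h0]; norm_num
        · have : 0 < s * d := by positivity
          have h2 := hs.2
          linarith
      constructor
      · refine ContDiffAt.add ?_ ?_
        · exact (U.toContinuousLinearMap.contDiff.comp
            (((contDiff_const.sub contDiff_fst).add (contDiff_fst.mul contDiff_const)).smul
              c3)).contDiffAt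
        · exact (β.contDiff.comp
            (((contDiff_const.sub contDiff_fst).add (contDiff_fst.mul contDiff_const)).smul
              c2)).contDiffAt
      · intro h0
        have h1 : Q (((1 - s) + s * c₁) • ff α (Q.symm Y).1, ((1 - s) + s * δ) • (Q.symm Y).2)
            = 0 := by rw [h.eqQ]; exact h0
        have h2 := (map_eq_zero_iff _ Q.injective).1 h1
        exact hne Y hY _ _ (hp c₁ hc) (hp δ hδ) (congrArg Prod.fst h2) (congrArg Prod.snd h2)
    · intro Y _
      simp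
    · intro Y _
      simp
  exact hB.trans hA

end

end PF
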