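import Pool.Agent.Helper4.PF.SphereBundle
import Pool.Agent.Helper4.PF.Ext
import Pool.Agent.Helper4.PF.HtyClass
import Pool.Agent.Helper4.PF.SphereFA

/-!
# Codimension one, and the filler with constant form (project MP_905dfc_gt)
-/

open scoped Manifold ContDiff Topology InnerProductSpace
open Set Filter Metric ContinuousLinearMap

noncomputable section

universe u

namespace PF

variable {V : Type} [NormedAddCommGroup V] [InnerProductSpace ℝ V] [FiniteDimensional ℝ V]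

/-- The case of codimension one. -/
theorem exists_codim_one {M : Type u} [TopologicalSpace M] [CompactSpace M] [T2Space M] {n : ℕ}
    (𝔸 : FA (Eu n) V M ∅) (hdim : Module.finrank ℝ V = n + 1) :
    ∃ (N : Type u) (_ : TopologicalSpace N) (_ : CompactSpace N) (_ : T2Space N)
      (𝔑 : FA (Eu n × Eu 1) V N ∅) (j : M → N), Emb (Eu 1) 𝔸 𝔑 j := by
  obtain ⟨N, t, hc, h2, pt, 𝔑, j, -, hemb, -⟩ :=
    exists_sphereBundle 𝔸 hdim _ ∅ (Ext.of_line 𝔸 hdim)
  have hZ : pt '' (∅ : Set (M × V)) = ∅ := image_empty pt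
  revert 𝔑
  rw [hZ]
  intro 𝔑 hemb
  exact ⟨N, t, hc, h2, 𝔑, j, hemb⟩

/-- Closed parallelised manifolds of every positive dimension. -/
theorem exists_parallelised (k : ℕ) (hk : 1 ≤ k) :
    ∃ (P : Type) (_ : TopologicalSpace P) (_ : CompactSpace P) (_ : T2Space P)
      (_ : Nonempty P), Nonempty (FA (Eu k) (Eu k) P ∅) := by
  obtain ⟨n, rfl⟩ : ∃ n, k = n + 1 := ⟨k - 1, by omega⟩
  have hfin : Module.finrank ℝ (Eu (n + 1)) = n + 1 := by simp
  have : Fact (Module.finrank ℝ (Eu (n + 1)) = n + 1) := ⟨hfin⟩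
  obtain ⟨𝔸, -, -⟩ := exists_sphereFA (V := Eu (n + 1)) (H := Eu (n + 1)) (n := n)
    LinearIsometry.id
  obtain ⟨N, t, hc, h2, 𝔑, j, hemb⟩ := exists_codim_one 𝔸 hfin
  have hne : Nonempty (sphere (0 : Eu (n + 1)) 1) := by
    have : (sphere (0 : Eu (n + 1)) 1).Nonempty := NormedSpace.sphere_nonempty.2 zero_le_one
    exact this.to_subtype
  have hL : Module.finrank ℝ (Eu n × Eu 1) = Module.finrank ℝ (Eu (n + 1)) := by
    simp
  exact ⟨N, t, hc, h2, hne.map j, ⟨𝔑.changeModel (ContinuousLinearEquiv.ofFinrankEq hL)⟩⟩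

/-- An injective endomorphism of a finite-dimensional space is a unit. -/
theorem fill_isUnit_of_injective {k : ℕ} {A : Eu k →L[ℝ] Eu k} (hA : Function.Injective A) :
    IsUnit A := by
  have h1 : IsUnit (A : Eu k →ₗ[ℝ] Eu k) := by
    rw [LinearMap.isUnit_iff_ker_eq_bot]
    exact LinearMap.ker_eq_bot.2 hA
  obtain ⟨e, he⟩ := h1
  let e' : Eu k ≃ₗ[ℝ] Eu k := LinearEquiv.ofBijective (A : Eu k →ₗ[ℝ] Eu k)
    ⟨hA, (LinearMap.injective_iff_surjective (f := (A : Eu k →ₗ[ℝ] Eu k))).1 hA⟩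
  let e2 : Eu k ≃L[ℝ] Eu k := e'.toContinuousLinearEquiv
  have h3 : A = (e2 : Eu k →L[ℝ] Eu k) := by
    ext x; rfl
  rw [h3]
  exact (ContinuousLinearEquiv.unitsEquiv ℝ (Eu k)).symm e2 |>.isUnit

/-- The affine chart `y ↦ ρ⁻¹ (y - y₀)`. -/
def fillAff {k : ℕ} (y₀ : Eu k) (ρ : ℝ) (hρ : ρ ≠ 0) : Eu k ≃ₜ Eu k where
  toFun y := ρ⁻¹ • (y - y₀)
  invFun z := y₀ + ρ • z
  left_inv y := by simp [smul_smul, hρ]
  right_inv z := by simp [smul_smul, hρ]
  continuous_toFun := by fun_prop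
  continuous_invFun := by fun_prop

/-- The filler for a constant form. -/
theorem filler_const (k : ℕ) (hk : 1 ≤ k) {C : Eu k →L[ℝ] Eu k} (hC : IsUnit C) :
    Filler (fun _ : Eu k => C) := by
  obtain ⟨P, t, hc, h2, ⟨p⟩, ⟨𝔸⟩⟩ := exists_parallelised k hk
  obtain ⟨a, ha, hp⟩ := 𝔸.cover p
  have hmem : 𝔸.Mem a := 𝔸.mem_of_mem_at ha
  have hy : a.c p ∈ a.c.target := a.c.map_source hp
  obtain ⟨ρ, hρ, hball⟩ : ∃ ρ > 0, closedBall (a.c p) ρ ⊆ a.c.target :=
    Metric.nhds_basis_closedBall.mem_iff.1 (a.c.open_target.mem_nhds hy)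
  set g : OpenPartialHomeomorph (Eu k) (Eu k) :=
    (fillAff (a.c p) ρ hρ.ne').toOpenPartialHomeomorph with hg
  have hg1 : ContDiffOn ℝ ∞ g g.source := by
    have : (g : Eu k → Eu k) = fun y => ρ⁻¹ • (y - a.c p) := rfl
    rw [this]
    fun_prop
  have hgs : (g.symm : Eu k → Eu k) = fun z => a.c p + ρ • z := rfl
  have hg2 : ContDiffOn ℝ ∞ g.symm g.target := by
    rw [hgs]
    fun_prop
  set a' : FPair (Eu k) (Eu k) P := a.comp g with ha'
  have hmem' : 𝔸.Mem a' := hmem.comp g hg1 hg2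
  have htarget : closedBall (0 : Eu k) 1 ⊆ a'.c.target := by
    intro z hz
    rw [ha', FPair.mem_comp_target]
    refine ⟨by rw [hg]; exact mem_univ _, hball ?_⟩
    rw [hgs]
    simp only [mem_closedBall, dist_self_add_left, norm_smul, Real.norm_eq_abs, abs_of_pos hρ]
    have : ‖z‖ ≤ 1 := by simpa using hz
    nlinarith
  have hsm : ∀ z ∈ closedBall (0 : Eu k) 1, ContDiffAt ℝ ∞ a'.Θ z ∧ IsUnit (a'.Θ z) := by
    intro z hz
    have h1 := htarget hz
    have h2 : a'.c.symm z ∈ a'.c.source := a'.c.map_target h1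
    have h3 : a'.c (a'.c.symm z) = z := a'.c.right_inv h1
    refine ⟨?_, ?_⟩
    · have := hmem'.smooth h2 (notMem_empty _)
      rwa [h3] at this
    · have := hmem'.inj h2 (notMem_empty _)
      rw [h3] at this
      exact fill_isUnit_of_injective this
  obtain ⟨hs0, hu0⟩ := hsm 0 (by simp)
  obtain ⟨u, hu⟩ := hC.mul hu0.unit⁻¹.isUnit
  let C' : Eu k ≃L[ℝ] Eu k := ContinuousLinearEquiv.unitsEquiv ℝ (Eu k) u
  have hC' : (C' : Eu k →L[ℝ] Eu k) = C * (↑(hu0.unit⁻¹) : Eu k →L[ℝ] Eu k) := by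
    rw [← hu]; rfl
  refine ⟨P, t, hc, h2, ∅, 𝔸.mulLeft C', a'.mulLeft (C' : Eu k →L[ℝ] Eu k), hmem'.mulLeft C',
    htarget, empty_subset _, ?_⟩
  have hΘ : ∀ z, (a'.mulLeft (C' : Eu k →L[ℝ] Eu k)).Θ z
      = C * (↑(hu0.unit⁻¹) : Eu k →L[ℝ] Eu k) * a'.Θ z := by
    intro z
    rw [← hC']
    rfl
  refine Hty.of_path (h := fun q => (a'.mulLeft (C' : Eu k →L[ℝ] Eu k)).Θ (q.1 • q.2)) ?_ ?_ ?_
  · intro s hs y hy
    have hz : s • y ∈ closedBall (0 : Eu k) 1 := by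
      have h1 : ‖y‖ < 1 := (mem_D.1 hy).1
      simp only [mem_closedBall, dist_zero_right, norm_smul, Real.norm_eq_abs, abs_of_nonneg hs.1]
      have h0 := norm_nonneg y
      have h2 := hs.2
      have h3 := hs.1
      nlinarith
    obtain ⟨h1, h2⟩ := hsm _ hz
    refine ⟨?_, ?_⟩
    · have h3 : (fun q : ℝ × Eu k => (a'.mulLeft (C' : Eu k →L[ℝ] Eu k)).Θ (q.1 • q.2))
          = fun q : ℝ × Eu k => (C' : Eu k →L[ℝ] Eu k).comp (a'.Θ (q.1 • q.2)) := rfl
      rw [h3]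
      refine contDiffAt_const.clm_comp ?_
      have h4 : ContDiffAt ℝ ∞ (fun q : ℝ × Eu k => q.1 • q.2) (s, y) := by fun_prop
      exact ContDiffAt.comp (s, y) (g := a'.Θ) h1 h4
    · simp only [hΘ]
      exact (hC.mul hu0.unit⁻¹.isUnit).mul h2
  · intro y hy
    simp only [hΘ, zero_smul]
    have h5 : (↑(hu0.unit⁻¹) : Eu k →L[ℝ] Eu k) * a'.Θ 0 = 1 := by
      exact hu0.unit.inv_mul
    rw [mul_assoc, h5, mul_one]
  · intro y hy
    simp only [one_smul]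

end PF
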