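import Pool.Agent.Helper4.PF.Basic

/-!
# From a parallelising form atlas to a Riemannian manifold (project MP_905dfc_gt)
-/

set_option linter.unusedSectionVars false


open scoped Manifold ContDiff Topology InnerProductSpace Bundle
open Set Filter Metric ContinuousLinearMap Bundle

noncomputable section

universe u

namespace PF
namespace TM

section Lin

variable {k : ℕ}

theorem isInvertible_of_injective {A : Eu k →L[ℝ] Eu k} (hA : Function.Injective A) :
    A.IsInvertible := by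
  let e : Eu k ≃ₗ[ℝ] Eu k := LinearEquiv.ofInjectiveEndo (A : Eu k →ₗ[ℝ] Eu k) hA
  refine ⟨e.toContinuousLinearEquiv, ?_⟩
  ext1 v
  rfl

theorem isInvertible_of_surjective {A : Eu k →L[ℝ] Eu k} (hA : Function.Surjective A) :
    A.IsInvertible :=
  isInvertible_of_injective
    ((LinearMap.injective_iff_surjective (f := (A : Eu k →ₗ[ℝ] Eu k))).mpr hA)

theorem inverse_self {A : Eu k →L[ℝ] Eu k} (hA : A.IsInvertible) (v : Eu k) :
    A.inverse (A v) = v := by
  obtain ⟨e, rfl⟩ := hA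
  simp

theorem self_inverse {A : Eu k →L[ℝ] Eu k} (hA : A.IsInvertible) (v : Eu k) :
    A (A.inverse v) = v := by
  obtain ⟨e, rfl⟩ := hA
  simp

end Lin

section Local
variable {k : ℕ} {N : Type u} [TopologicalSpace N] [ChartedSpace (Eu k) N]
  [IsManifold (𝓡 k) ∞ N]

theorem triv_apply (q p : N) (v : TangentSpace (𝓡 k) p) :
    (trivializationAt (Eu k) (TangentSpace (𝓡 k)) q ⟨p, v⟩).2 =
      fderiv ℝ (chartAt (Eu k) q ∘ (chartAt (Eu k) p).symm) (chartAt (Eu k) p p) v := by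
  rw [TangentBundle.trivializationAt_apply]
  simp only [mfld_simps, fderivWithin_univ]

/-- The form at `p` read in the tangent space. -/
def Phi (Θ : N → Eu k → Eu k →L[ℝ] Eu k) (p : N) : TangentSpace (𝓡 k) p →L[ℝ] Eu k :=
  Θ p (chartAt (Eu k) p p)

/-- The frame. -/
def ee (Θ : N → Eu k → Eu k →L[ℝ] Eu k) (i : Fin k) (p : N) : TangentSpace (𝓡 k) p :=
  (Θ p (chartAt (Eu k) p p)).inverse (EuclideanSpace.single i (1 : ℝ))

structure Good (Θ : N → Eu k → Eu k →L[ℝ] Eu k) : Prop where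
  agree : ∀ p q : N, p ∈ (chartAt (Eu k) q).source →
    Θ p (chartAt (Eu k) p p) = (Θ q (chartAt (Eu k) q p)).comp
      (fderiv ℝ (chartAt (Eu k) q ∘ (chartAt (Eu k) p).symm) (chartAt (Eu k) p p))
  smooth : ∀ q : N, ContDiffAt ℝ ∞ (Θ q) (chartAt (Eu k) q q)
  inj : ∀ p : N, Function.Injective (Θ p (chartAt (Eu k) p p))

variable {Θ : N → Eu k → Eu k →L[ℝ] Eu k}

theorem Good.phi_eq (h : Good Θ) {q p : N} (hp : p ∈ (chartAt (Eu k) q).source)
    (v : TangentSpace (𝓡 k) p) :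
    Phi Θ p v = Θ q (chartAt (Eu k) q p)
      ((trivializationAt (Eu k) (TangentSpace (𝓡 k)) q ⟨p, v⟩).2) := by
  rw [triv_apply]
  exact DFunLike.congr_fun (h.agree p q hp) v

theorem Good.invertible (h : Good Θ) {q p : N} (hp : p ∈ (chartAt (Eu k) q).source) :
    (Θ q (chartAt (Eu k) q p)).IsInvertible := by
  apply isInvertible_of_surjective
  intro w
  have h1 := isInvertible_of_injective (h.inj p)
  refine ⟨_, ((h.phi_eq hp ((Θ p (chartAt (Eu k) p p)).inverse w)).symm.trans ?_)⟩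
  exact self_inverse h1 w

theorem Good.phi_ee (h : Good Θ) (i : Fin k) (p : N) :
    Phi Θ p (ee Θ i p) = EuclideanSpace.single i (1 : ℝ) :=
  self_inverse (h.invertible (mem_chart_source (Eu k) p)) _

theorem contMDiffAt_comp_chart {F : Type*} [NormedAddCommGroup F] [NormedSpace ℝ F]
    {G : Eu k → F} {q : N} (hG : ContDiffAt ℝ ∞ G (chartAt (Eu k) q q)) :
    ContMDiffAt (𝓡 k) 𝓘(ℝ, F) ∞ (fun x => G (chartAt (Eu k) q x)) q := by
  have h1 : ContMDiffAt (𝓡 k) 𝓘(ℝ, Eu k) ∞ (chartAt (Eu k) q) q := by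
    have := contMDiffAt_extChartAt (I := 𝓡 k) (n := ∞) (x := q)
    simpa only [mfld_simps] using this
  exact hG.contMDiffAt.comp q h1

theorem Good.contMDiff_ee (h : Good Θ) (i : Fin k) :
    ContMDiff (𝓡 k) (𝓡 k).tangent ∞
      (fun p => (⟨p, ee Θ i p⟩ : TangentBundle (𝓡 k) N)) := by
  intro q
  refine (contMDiffAt_section (F := Eu k) (E := TangentSpace (𝓡 k)) (IB := 𝓡 k)
    (s := fun p => ee Θ i p) q).mpr ?_
  have h1 : (fun x => (trivializationAt (Eu k) (TangentSpace (𝓡 k)) q ⟨x, ee Θ i x⟩).2)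
      =ᶠ[𝓝 q] fun x => (Θ q (chartAt (Eu k) q x)).inverse (EuclideanSpace.single i (1 : ℝ)) := by
    filter_upwards [(chartAt (Eu k) q).open_source.mem_nhds (mem_chart_source (Eu k) q)] with x hx
    have h2 := h.phi_eq hx (ee Θ i x)
    rw [h.phi_ee] at h2
    rw [h2, inverse_self (h.invertible hx)]
  refine ContMDiffAt.congr_of_eventuallyEq ?_ h1
  refine contMDiffAt_comp_chart (G := fun y => (Θ q y).inverse (EuclideanSpace.single i (1 : ℝ))) ?_
  have h3 := h.smooth q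
  obtain ⟨e, he⟩ := h.invertible (mem_chart_source (Eu k) q)
  have h4 : ContDiffAt ℝ ∞ ContinuousLinearMap.inverse (Θ q (chartAt (Eu k) q q)) := by
    rw [← he]; exact contDiffAt_map_inverse e
  exact (h4.comp _ h3).clm_apply contDiffAt_const

/-- The metric. -/
def gg (Θ : N → Eu k → Eu k →L[ℝ] Eu k) (p : N) :
    TangentSpace (𝓡 k) p →L[ℝ] TangentSpace (𝓡 k) p →L[ℝ] ℝ :=
  ((innerSL ℝ : Eu k →L[ℝ] Eu k →L[ℝ] ℝ).bilinearComp (Θ p (chartAt (Eu k) p p))
    (Θ p (chartAt (Eu k) p p)) : Eu k →L[ℝ] Eu k →L[ℝ] ℝ)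

theorem gg_apply (p : N) (v w : TangentSpace (𝓡 k) p) :
    gg Θ p v w = ⟪Phi Θ p v, Phi Θ p w⟫_ℝ := rfl

theorem Good.contMDiff_gg (h : Good Θ) :
    ContMDiff (𝓡 k) ((𝓡 k).prod 𝓘(ℝ, Eu k →L[ℝ] Eu k →L[ℝ] ℝ)) ∞
    (fun b ↦ TotalSpace.mk' (Eu k →L[ℝ] Eu k →L[ℝ] ℝ)
      (E := fun b : N => TangentSpace (𝓡 k) b →L[ℝ] TangentSpace (𝓡 k) b →L[ℝ] ℝ) b (gg Θ b)) := by
  intro q
  rw [contMDiffAt_section]
  have h1 : (fun x => (trivializationAt (Eu k →L[ℝ] Eu k →L[ℝ] ℝ)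
      (fun b : N => TangentSpace (𝓡 k) b →L[ℝ] TangentSpace (𝓡 k) b →L[ℝ] ℝ) q ⟨x, gg Θ x⟩).2)
      =ᶠ[𝓝 q] fun x => (innerSL ℝ : Eu k →L[ℝ] Eu k →L[ℝ] ℝ).bilinearComp
        (Θ q (chartAt (Eu k) q x)) (Θ q (chartAt (Eu k) q x)) := by
    filter_upwards [(chartAt (Eu k) q).open_source.mem_nhds (mem_chart_source (Eu k) q)] with x hx
    ext v w
    simp [hom_trivializationAt_apply, ContinuousLinearMap.inCoordinates,
      Trivialization.linearMapAt_apply, hx, gg_apply]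
    have key : ∀ u : Eu k, Phi Θ x ((trivializationAt (Eu k) (TangentSpace (𝓡 k)) q).symm x u)
        = Θ q (chartAt (Eu k) q x) u := by
      intro u
      have hb : x ∈ (trivializationAt (Eu k) (TangentSpace (𝓡 k)) q).baseSet := by
        rw [TangentBundle.trivializationAt_baseSet]
        exact hx
      rw [h.phi_eq hx, Trivialization.apply_mk_symm _ hb]
    rw [key, key]
  refine ContMDiffAt.congr_of_eventuallyEq ?_ h1
  refine contMDiffAt_comp_chart (G := fun y => (innerSL ℝ : Eu k →L[ℝ] Eu k →L[ℝ] ℝ).bilinearComp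
        (Θ q y) (Θ q y)) ?_
  have h3 := h.smooth q
  have h4 : ContDiffAt ℝ ∞ (fun y => ((innerSL ℝ : Eu k →L[ℝ] Eu k →L[ℝ] ℝ).comp
      (Θ q y))) (chartAt (Eu k) q q) := contDiffAt_const.clm_comp h3
  have h5 : ContDiff ℝ ∞ (fun A : Eu k →L[ℝ] Eu k →L[ℝ] ℝ => A.flip) := by
    have hb : IsBoundedLinearMap ℝ (fun A : Eu k →L[ℝ] Eu k →L[ℝ] ℝ => A.flip) :=
      ⟨⟨fun a b => rfl, fun c a => rfl⟩, 1, one_pos, fun a => by
        rw [one_mul, ContinuousLinearMap.opNorm_flip]⟩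
    exact hb.contDiff
  have h6 := (h5.contDiffAt.comp _ h4).clm_comp h3
  exact h5.contDiffAt.comp _ h6

end Local

section Max

variable {k : ℕ} {N : Type u} [TopologicalSpace N] [ChartedSpace (Eu k) N]
  [IsManifold (𝓡 k) ∞ N]

theorem mem_groupoid {e : OpenPartialHomeomorph (Eu k) (Eu k)}
    (h : ContDiffOn ℝ ∞ e e.source) (h' : ContDiffOn ℝ ∞ e.symm e.target) :
    e ∈ contDiffGroupoid ∞ (𝓡 k) := by
  refine mem_groupoid_of_pregroupoid.mpr ⟨?_, ?_⟩
  · simpa only [contDiffPregroupoid, mfld_simps] using h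
  · simpa only [contDiffPregroupoid, mfld_simps] using h'

theorem mem_maximalAtlas_of (c : OpenPartialHomeomorph N (Eu k))
    (h : ∀ e ∈ atlas (Eu k) N, ∀ p ∈ c.source, p ∈ e.source →
      ContDiffAt ℝ ∞ (e ∘ c.symm) (c p) ∧ ContDiffAt ℝ ∞ (c ∘ e.symm) (e p)) :
    c ∈ IsManifold.maximalAtlas (𝓡 k) ∞ N := by
  refine mem_maximalAtlas_iff.mpr fun e he => ?_
  have h1 : ContDiffOn ℝ ∞ (e ∘ c.symm) (c.symm ≫ₕ e).source := by
    intro y hy
    have hy1 : y ∈ c.target := hy.1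
    have := (h e he (c.symm y) (c.map_target hy1) hy.2).1
    rw [c.right_inv hy1] at this
    exact this.contDiffWithinAt
  have h2 : ContDiffOn ℝ ∞ (c ∘ e.symm) (e.symm ≫ₕ c).source := by
    intro y hy
    have hy1 : y ∈ e.target := hy.1
    have := (h e he (e.symm y) hy.2 (e.map_target hy1)).2
    rw [e.right_inv hy1] at this
    exact this.contDiffWithinAt
  refine ⟨mem_groupoid h1 ?_, mem_groupoid h2 ?_⟩
  · have : (c.symm ≫ₕ e).target = (e.symm ≫ₕ c).source := by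
      rw [← OpenPartialHomeomorph.symm_source, OpenPartialHomeomorph.trans_symm_eq_symm_trans_symm,
        OpenPartialHomeomorph.symm_symm]
    rw [this]
    exact h2
  · have : (e.symm ≫ₕ c).target = (c.symm ≫ₕ e).source := by
      rw [← OpenPartialHomeomorph.symm_source, OpenPartialHomeomorph.trans_symm_eq_symm_trans_symm,
        OpenPartialHomeomorph.symm_symm]
    rw [this]
    exact h1

theorem mfderiv_of_mem (c : OpenPartialHomeomorph N (Eu k))
    (hc : c ∈ IsManifold.maximalAtlas (𝓡 k) ∞ N) {p : N} (hp : p ∈ c.source)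
    (v : TangentSpace (𝓡 k) p) :
    mfderiv (𝓡 k) 𝓘(ℝ, Eu k) c p v =
      fderiv ℝ (c ∘ (chartAt (Eu k) p).symm) (chartAt (Eu k) p p) v := by
  have h1 : MDifferentiableAt (𝓡 k) 𝓘(ℝ, Eu k) c p :=
    (contMDiffAt_of_mem_maximalAtlas hc hp).mdifferentiableAt (by simp)
  rw [h1.mfderiv]
  simp only [mfld_simps, fderivWithin_univ, writtenInExtChartAt]
  rfl

end Max

end TM

theorem exists_manifold {k : ℕ} {N : Type u} [TopologicalSpace N]
    (𝔑 : FA (Eu k) (Eu k) N ∅) :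
    ∃ (_ : ChartedSpace (Eu k) N) (_ : IsManifold (𝓡 k) ∞ N)
      (h : Bundle.ContMDiffRiemannianMetric (𝓡 k) ∞ (Eu k)
        (fun p : N => TangentSpace (𝓡 k) p))
      (e : Fin k → (p : N) → TangentSpace (𝓡 k) p)
      (Φ : (p : N) → (TangentSpace (𝓡 k) p →L[ℝ] Eu k)),
      (∀ (p : N) (v w : TangentSpace (𝓡 k) p), h.inner p v w = ⟪Φ p v, Φ p w⟫_ℝ) ∧
      (∀ (p : N) (i : Fin k), Φ p (e i p) = EuclideanSpace.single i (1 : ℝ)) ∧
      (∀ i, ContMDiff (𝓡 k) (𝓡 k).tangent ∞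
        (fun p => (⟨p, e i p⟩ : TangentBundle (𝓡 k) N))) ∧
      ∀ c, 𝔑.Mem c → c.c ∈ IsManifold.maximalAtlas (𝓡 k) ∞ N ∧
        ∀ p ∈ c.c.source, ∀ v : TangentSpace (𝓡 k) p,
          Φ p v = c.Θ (c.c p) (mfderiv (𝓡 k) 𝓘(ℝ, Eu k) c.c p v) := by
  classical
  choose ch hch hmem using 𝔑.cover
  let cs : ChartedSpace (Eu k) N :=
    { atlas := range fun p => (ch p).c
      chartAt := fun p => (ch p).c
      mem_chart_source := hmem
      chart_mem_atlas := fun p => mem_range_self p }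
  have hm : IsManifold (𝓡 k) ∞ N := by
    apply isManifold_of_contDiffOn
    rintro _ _ ⟨p, rfl⟩ ⟨q, rfl⟩
    simp only [mfld_simps]
    intro y hy
    have hy1 : y ∈ (ch p).c.target := hy.1
    have := (𝔑.agree _ (hch p) _ (hch q) ((ch p).c.symm y) ((ch p).c.map_target hy1) hy.2).smooth
    rw [(ch p).c.right_inv hy1] at this
    exact this.contDiffWithinAt
  have hG : TM.Good (fun p : N => (ch p).Θ) :=
    ⟨fun p q hp => (𝔑.agree _ (hch p) _ (hch q) p (hmem p) hp).form (notMem_empty p),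
      fun q => 𝔑.smooth _ (hch q) q (hmem q) (notMem_empty q),
      fun q => 𝔑.inj _ (hch q) q (hmem q) (notMem_empty q)⟩
  have hbdd : ∀ p : N, Bornology.IsVonNBounded ℝ
      {v : TangentSpace (𝓡 k) p | TM.gg (fun p : N => (ch p).Θ) p v v < 1} := by
    intro p
    have hinv := hG.invertible (mem_chart_source (Eu k) p)
    obtain ⟨e, he⟩ := hinv
    have he' : ∀ v : Eu k, (ch p).Θ ((ch p).c p) v = e v := fun v =>
      (DFunLike.congr_fun he v).symm
    have h1 : Bornology.IsVonNBounded ℝ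
        (((e.symm : Eu k ≃L[ℝ] Eu k) : Eu k →L[ℝ] Eu k) '' ball (0 : Eu k) 1) :=
      (NormedSpace.isVonNBounded_ball ℝ (Eu k) 1).image _
    refine h1.subset ?_
    intro v hv
    have hv1 : ⟪(ch p).Θ ((ch p).c p) v, (ch p).Θ ((ch p).c p) v⟫_ℝ < 1 := hv
    rw [he', real_inner_self_eq_norm_sq] at hv1
    refine ⟨e v, ?_, e.symm_apply_apply v⟩
    rw [mem_ball_zero_iff]
    exact (sq_lt_one_iff₀ (norm_nonneg _)).mp hv1
  refine ⟨cs, hm,
    { inner := TM.gg (fun p : N => (ch p).Θ)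
      symm := fun p v w => by rw [TM.gg_apply, TM.gg_apply, real_inner_comm]
      pos := fun p v hv => ?_
      isVonNBounded := hbdd
      contMDiff := hG.contMDiff_gg }, TM.ee (fun p : N => (ch p).Θ),
      TM.Phi (fun p : N => (ch p).Θ), fun p v w => rfl, fun p i => hG.phi_ee i p,
      hG.contMDiff_ee, fun c hc => ?_⟩
  · rw [TM.gg_apply]
    refine real_inner_self_pos.2 fun h0 => hv ?_
    have h1 : Function.Injective (TM.Phi (fun p : N => (ch p).Θ) p) := hG.inj p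
    exact h1 (h0.trans (map_zero _).symm)
  · have hmax : c.c ∈ IsManifold.maximalAtlas (𝓡 k) ∞ N := by
      apply TM.mem_maximalAtlas_of
      rintro _ ⟨q, rfl⟩ p hp hq
      have := hc _ (hch q) p hp hq
      exact ⟨this.smooth, this.smooth'⟩
    refine ⟨hmax, fun p hp v => ?_⟩
    rw [TM.mfderiv_of_mem c.c hmax hp]
    have := (hc _ (hch p) p hp (hmem p)).symm hp (hmem p)
    exact DFunLike.congr_fun (this.form (notMem_empty p)) v

end PF
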