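import Pool.Agent.Helper4.PF.Bundle

/-!
# A regular constant section (project MP_905dfc_gt)
-/

open scoped Manifold ContDiff Topology InnerProductSpace
open Set Filter Metric ContinuousLinearMap

noncomputable section

universe u

namespace PF

section Aux

variable {V : Type} [NormedAddCommGroup V] [InnerProductSpace ℝ V] [FiniteDimensional ℝ V]
  {M : Type u} [TopologicalSpace M] {n m : ℕ}

/-- The open set of the points over which `(a, β)` trivialises the normal bundle. -/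
def RegO (a : FPair (Eu n) V M) (β : Eu m →L[ℝ] V) : Set M :=
  a.c.source ∩ (fun x => (a.c x, (0 : Eu m))) ⁻¹' (Om a β)

theorem isOpen_RegO {𝔸 : FA (Eu n) V M ∅} {a : FPair (Eu n) V M} (ha : 𝔸.Mem a)
    (β : Eu m →L[ℝ] V) : IsOpen (RegO a β) := by
  refine ContinuousOn.isOpen_inter_preimage ?_ a.c.open_source (isOpen_Om ha β)
  exact a.c.continuousOn.prodMk continuousOn_const

theorem mem_Om_of_mem_RegO {a : FPair (Eu n) V M} {β : Eu m →L[ℝ] V} {x : M}
    (hx : x ∈ RegO a β) (u : Eu m) : (a.c x, u) ∈ Om a β :=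
  Om_iff.1 hx.2

/-- The critical values of a trivialisation have measure zero. -/
theorem volume_crit_eq_zero [MeasurableSpace V] [BorelSpace V]
    {𝔸 : FA (Eu n) V M ∅} {a : FPair (Eu n) V M} (ha : 𝔸.Mem a)
    (β : Eu m →L[ℝ] V) (hdim : Module.finrank ℝ V = n + m) :
    MeasureTheory.volume (UU a β '' {z | z ∈ Om a β ∧ ¬ (fderiv ℝ (UU a β) z).IsInvertible})
      = 0 := by
  have hfr : Module.finrank ℝ V = Module.finrank ℝ (Eu n × Eu m) := by
    rw [hdim, Module.finrank_prod, finrank_euclideanSpace_fin, finrank_euclideanSpace_fin]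
  set L : V ≃L[ℝ] (Eu n × Eu m) := ContinuousLinearEquiv.ofFinrankEq hfr with hL
  set s : Set (Eu n × Eu m) :=
    {z | z ∈ Om a β ∧ ¬ (fderiv ℝ (UU a β) z).IsInvertible} with hs
  have himg : UU a β '' s = (UU a β ∘ L) '' (L ⁻¹' s) := by
    rw [image_comp, image_preimage_eq _ L.surjective]
  rw [himg]
  refine MeasureTheory.addHaar_image_eq_zero_of_det_fderivWithin_eq_zero _
    (f' := fun v => (fderiv ℝ (UU a β) (L v)).comp (L : V →L[ℝ] Eu n × Eu m)) ?_ ?_
  · intro v hv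
    have hd : DifferentiableAt ℝ (UU a β) (L v) :=
      (contDiffAt_UU ha hv.1).differentiableAt (by simp)
    exact (hd.hasFDerivAt.comp v L.hasFDerivAt).hasFDerivWithinAt
  · intro v hv
    by_contra hne
    apply hv.2
    set f : V →L[ℝ] V := (fderiv ℝ (UU a β) (L v)).comp (L : V →L[ℝ] Eu n × Eu m) with hf
    have h1 : f.IsInvertible :=
      ⟨f.toContinuousLinearEquivOfDetNeZero hne, f.coe_toContinuousLinearEquivOfDetNeZero hne⟩
    have h2 : fderiv ℝ (UU a β) (L v) = f.comp (L.symm : Eu n × Eu m →L[ℝ] V) := by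
      rw [hf, ContinuousLinearMap.comp_assoc]
      ext z <;> simp
    rw [h2]
    obtain ⟨e, he⟩ := h1
    exact ⟨L.symm.trans e, by rw [← he]; rfl⟩

/-- At a point with `c ∈ ν x` the pair gives a preimage of `c`. -/
theorem UU_at {𝔸 : FA (Eu n) V M ∅} {a : FPair (Eu n) V M} (ha : 𝔸.Mem a)
    {β : Eu m →L[ℝ] V} {x : M} (hx : x ∈ RegO a β) {c : V} (hc : c ∈ 𝔸.nu x) :
    UU a β (a.c x, adjoint β c) = c :=
  UU_eq_of_adjoint (mem_Om_of_mem_RegO hx _) ((FA.mem_nu_iff ha hx.1 c).1 hc)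

theorem local_sub {𝔸 : FA (Eu n) V M ∅} {a : FPair (Eu n) V M} (ha : 𝔸.Mem a)
    {β : Eu m →L[ℝ] V} {x : M} (hx : x ∈ RegO a β) {c : V}
    (hinv : c ∈ 𝔸.nu x → (fderiv ℝ (UU a β) (a.c x, adjoint β c)).IsInvertible) :
    ∃ W ∈ 𝓝 x, W ∩ {y | c ∈ 𝔸.nu y} ⊆ {x} := by
  by_cases hc : c ∈ 𝔸.nu x
  · set z : Eu n × Eu m := (a.c x, adjoint β c) with hz
    have hzO : z ∈ Om a β := mem_Om_of_mem_RegO hx _
    obtain ⟨e, he⟩ := hinv hc
    have hcd := contDiffAt_UU ha hzO
    have hst : HasStrictFDerivAt (UU a β) (e : Eu n × Eu m →L[ℝ] V) z := by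
      rw [he]
      exact hcd.hasStrictFDerivAt (by simp)
    set F := hst.toOpenPartialHomeomorph (UU a β) with hF
    have hFs : F.source ∈ 𝓝 z := F.open_source.mem_nhds (hst.mem_toOpenPartialHomeomorph_source)
    have hcont : ContinuousAt (fun y => (a.c y, adjoint β c)) x :=
      (a.c.continuousAt hx.1).prodMk continuousAt_const
    have hW1 : (fun y => (a.c y, adjoint β c)) ⁻¹' F.source ∈ 𝓝 x := hcont hFs
    have hW2 : RegO a β ∈ 𝓝 x := (isOpen_RegO ha β).mem_nhds hx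
    refine ⟨_, inter_mem hW1 hW2, ?_⟩
    rintro y ⟨⟨hy1, hy2⟩, hy3⟩
    have e1 : UU a β (a.c y, adjoint β c) = c := UU_at ha hy2 hy3
    have e2 : UU a β z = c := UU_at ha hx hc
    have e3 : F (a.c y, adjoint β c) = F z := by
      have h1 : F (a.c y, adjoint β c) = UU a β (a.c y, adjoint β c) := rfl
      have h2 : F z = UU a β z := rfl
      rw [h1, h2, e1, e2]
    have e4 := F.injOn hy1 (mem_of_mem_nhds hFs) e3
    have e5 : a.c y = a.c x := (Prod.ext_iff.1 e4).1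
    exact a.c.injOn hy2.1 hx.1 e5
  · have hne : adjoint (a.Θ (a.c x)) c ≠ 0 := fun h => hc ((FA.mem_nu_iff ha hx.1 c).2 h)
    have hc1 : ContinuousAt a.Θ (a.c x) := (ha.smooth hx.1 (by simp)).continuousAt
    have hc2 : ContinuousAt (fun y => adjoint (a.Θ (a.c y)) c) x := by
      have h1 : ContinuousAt (fun y => a.Θ (a.c y)) x :=
        ContinuousAt.comp (f := a.c) (g := a.Θ) hc1 (a.c.continuousAt hx.1)
      have h2 : ContinuousAt (fun y => adjoint (a.Θ (a.c y))) x :=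
        (ContinuousLinearMap.adjoint.continuous.continuousAt).comp h1
      exact h2.clm_apply continuousAt_const
    have hW1 : {y | adjoint (a.Θ (a.c y)) c ≠ 0} ∈ 𝓝 x := hc2.eventually_ne hne
    have hW2 : RegO a β ∈ 𝓝 x := (isOpen_RegO ha β).mem_nhds hx
    refine ⟨_, inter_mem hW1 hW2, ?_⟩
    rintro y ⟨⟨hy1, hy2⟩, hy3⟩
    exact absurd ((FA.mem_nu_iff ha hy2.1 c).1 hy3) hy1

end Aux

variable {V : Type} [NormedAddCommGroup V] [InnerProductSpace ℝ V] [FiniteDimensional ℝ V]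
  {M : Type u} [TopologicalSpace M] {n m : ℕ}

/-- A small vector `c` which is a regular value of the map `ν → V`. -/
theorem exists_regular [CompactSpace M] [T2Space M] (𝔸 : FA (Eu n) V M ∅)
    (hdim : Module.finrank ℝ V = n + m) :
    ∃ c : V, ‖c‖ < 1 / 4 ∧ {x | c ∈ 𝔸.nu x}.Finite ∧
      ∀ x, c ∈ 𝔸.nu x → ∃ (a : FPair (Eu n) V M) (β : Eu m →L[ℝ] V) (z : Eu n × Eu m),
        𝔸.Mem a ∧ z ∈ Om a β ∧ a.c.symm z.1 = x ∧ UU a β z = c ∧
        (fderiv ℝ (UU a β) z).IsInvertible := by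
  borelize V
  have hloc : ∀ x : M, ∃ (a : FPair (Eu n) V M) (β : Eu m →L[ℝ] V),
      𝔸.Mem a ∧ x ∈ RegO a β := by
    intro x
    obtain ⟨a, ha, hx⟩ := 𝔸.cover x
    obtain ⟨β, -, -, hβ⟩ := exists_beta hdim (𝔸.mem_of_mem_at ha) hx
    exact ⟨a, β, 𝔸.mem_of_mem_at ha, hx, hβ 0⟩
  choose a β ha hx using hloc
  obtain ⟨t, -, ht⟩ := isCompact_univ.elim_nhds_subcover (fun x => RegO (a x) (β x))
    (fun x _ => (isOpen_RegO (ha x) (β x)).mem_nhds (hx x))
  set bad : Set V := ⋃ x ∈ t, UU (a x) (β x) ''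
    {z | z ∈ Om (a x) (β x) ∧ ¬ (fderiv ℝ (UU (a x) (β x)) z).IsInvertible} with hbad
  have hbad0 : MeasureTheory.volume bad = 0 := by
    exact (MeasureTheory.measure_biUnion_null_iff t.countable_toSet).2
      fun x _ => volume_crit_eq_zero (ha x) (β x) hdim
  obtain ⟨c, hc1, hc2⟩ : ∃ c ∈ ball (0 : V) (1 / 4), c ∉ bad := by
    by_contra hcon
    push Not at hcon
    have hle : MeasureTheory.volume (ball (0 : V) (1 / 4)) ≤ MeasureTheory.volume bad :=
      MeasureTheory.measure_mono hcon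
    have hpos := Metric.measure_ball_pos (MeasureTheory.volume : MeasureTheory.Measure V)
      (0 : V) (r := 1 / 4) (by norm_num)
    rw [hbad0] at hle
    exact absurd hpos (not_lt.2 hle)
  have hcov : ∀ x : M, ∃ i ∈ t, x ∈ RegO (a i) (β i) := by
    intro x
    have := ht (mem_univ x)
    simpa using this
  have hinv : ∀ (x i : M), i ∈ t → x ∈ RegO (a i) (β i) → c ∈ 𝔸.nu x →
      (fderiv ℝ (UU (a i) (β i)) ((a i).c x, adjoint (β i) c)).IsInvertible := by
    intro x i hi hxi hcx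
    by_contra hcon
    apply hc2
    rw [hbad]
    refine mem_biUnion hi ⟨_, ⟨mem_Om_of_mem_RegO hxi _, hcon⟩, UU_at (ha i) hxi hcx⟩
  refine ⟨c, by simpa using hc1, ?_, ?_⟩
  · have hW : ∀ x : M, ∃ W ∈ 𝓝 x, W ∩ {y | c ∈ 𝔸.nu y} ⊆ {x} := by
      intro x
      obtain ⟨i, hi, hxi⟩ := hcov x
      exact local_sub (ha i) hxi (hinv x i hi hxi)
    choose W hW1 hW2 using hW
    obtain ⟨t', -, ht'⟩ := isCompact_univ.elim_nhds_subcover W (fun x _ => hW1 x)
    refine (t'.finite_toSet).subset ?_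
    intro y hy
    have := ht' (mem_univ y)
    simp only [mem_iUnion, exists_prop] at this
    obtain ⟨x, hxt, hyx⟩ := this
    have := hW2 x ⟨hyx, hy⟩
    rw [mem_singleton_iff] at this
    rw [this]
    exact hxt
  · intro x hcx
    obtain ⟨i, hi, hxi⟩ := hcov x
    exact ⟨a i, β i, ((a i).c x, adjoint (β i) c), ha i, mem_Om_of_mem_RegO hxi _,
      (a i).c.left_inv hxi.1, UU_at (ha i) hxi hcx, hinv x i hi hxi hcx⟩

end PF
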