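import Pool.Agent.Helper4.PF.SphereBundle
import Pool.Agent.Helper4.PF.Ext
import Pool.Agent.Helper4.PF.HtyClass
import Pool.Agent.Helper4.PF.Regular

/-!
# The sphere bundle with finitely many standard singular points (project MP_905dfc_gt)
-/

open scoped Manifold ContDiff Topology InnerProductSpace
open Set Filter Metric ContinuousLinearMap

noncomputable section

universe u

namespace PF

variable {V : Type} [NormedAddCommGroup V] [InnerProductSpace ℝ V] [FiniteDimensional ℝ V]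
  {M : Type u} [TopologicalSpace M] {n m : ℕ}

/-- The rescaled local inverse of `UU - c` at a regular point. -/
theorem exists_localChart {𝔸 : FA (Eu n) V M ∅} {a : FPair (Eu n) V M} (ha : 𝔸.Mem a)
    {β : Eu m →L[ℝ] V} {z₀ : Eu n × Eu m} (hz₀ : z₀ ∈ Om a β)
    (hinv : (fderiv ℝ (UU a β) z₀).IsInvertible) :
    ∃ (G : OpenPartialHomeomorph (Eu n × Eu m) V) (δ : ℝ), 0 < δ ∧ δ ≤ 1 / 8 ∧
      ContDiffOn ℝ ∞ G G.source ∧ ContDiffOn ℝ ∞ G.symm G.target ∧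
      z₀ ∈ G.source ∧ G z₀ = 0 ∧ closedBall 0 1 ⊆ G.target ∧ G.source ⊆ Om a β ∧
      ∀ ζ ∈ G.target, UU a β (G.symm ζ) = UU a β z₀ + δ • ζ := by
  obtain ⟨e, he⟩ := hinv
  set c : V := UU a β z₀ with hc
  set f : Eu n × Eu m → V := fun z => UU a β z - c with hf
  have hfz : ∀ z ∈ Om a β, ContDiffAt ℝ ∞ f z := fun z hz =>
    (contDiffAt_UU ha hz).sub contDiffAt_const
  have hfd : ∀ z ∈ Om a β, HasFDerivAt f (fderiv ℝ (UU a β) z) z := by
    intro z hz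
    have h1 : HasFDerivAt (UU a β) (fderiv ℝ (UU a β) z) z :=
      ((contDiffAt_UU ha hz).differentiableAt (by simp)).hasFDerivAt
    exact h1.sub_const c
  have hf0 : HasFDerivAt f (e : Eu n × Eu m →L[ℝ] V) z₀ := by
    rw [he]; exact hfd z₀ hz₀
  set e0 := (hfz z₀ hz₀).toOpenPartialHomeomorph f hf0 (by simp) with he0
  have he0c : ∀ z, e0 z = f z := fun z => rfl
  -- the open set where the derivative is invertible
  set W : Set (Eu n × Eu m) := Om a β ∩ (fderiv ℝ (UU a β)) ⁻¹'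
    (range ((↑) : ((Eu n × Eu m) ≃L[ℝ] V) → ((Eu n × Eu m) →L[ℝ] V))) with hW
  have hWo : IsOpen W := by
    refine ContinuousOn.isOpen_inter_preimage ?_ (isOpen_Om ha β) ContinuousLinearEquiv.isOpen
    intro z hz
    have h1 : ContDiffAt ℝ ∞ (fderiv ℝ (UU a β)) z :=
      (contDiffAt_UU ha hz).fderiv_right (m := ∞) (by simp)
    exact h1.continuousAt.continuousWithinAt
  have hz₀W : z₀ ∈ W := ⟨hz₀, ⟨e, he⟩⟩
  set e1 := e0.restrOpen W hWo with he1
  have he1s : e1.source = e0.source ∩ W := rfl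
  have hz₀1 : z₀ ∈ e1.source :=
    ⟨(hfz z₀ hz₀).mem_toOpenPartialHomeomorph_source hf0 (by simp), hz₀W⟩
  have he1c : ∀ z, e1 z = f z := fun z => rfl
  have he1z : e1 z₀ = 0 := by rw [he1c, hf]; simp [hc]
  have h0t : (0 : V) ∈ e1.target := by
    rw [← he1z]; exact e1.map_source hz₀1
  obtain ⟨r, hr, hrt⟩ := Metric.isOpen_iff.1 e1.open_target 0 h0t
  set δ : ℝ := min (r / 2) (1 / 8) with hδ
  have hδ0 : 0 < δ := lt_min (by linarith) (by norm_num)
  have hδi : δ⁻¹ ≠ 0 := inv_ne_zero hδ0.ne'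
  set G := e1.transHomeomorph (Homeomorph.smulOfNeZero δ⁻¹ hδi) with hG
  have hGs : G.source = e1.source := rfl
  have hGc : ∀ z, G z = δ⁻¹ • f z := fun z => rfl
  have hGsy : ∀ ζ, G.symm ζ = e1.symm (δ • ζ) := by
    intro ζ
    have : G.symm ζ = e1.symm ((δ⁻¹)⁻¹ • ζ) := rfl
    rw [this, inv_inv]
  have hGt : ∀ ζ, ζ ∈ G.target ↔ δ • ζ ∈ e1.target := by
    intro ζ
    have : ζ ∈ G.target ↔ (δ⁻¹)⁻¹ • ζ ∈ e1.target := Iff.rfl
    rw [this, inv_inv]
  have hsymm : ∀ v ∈ e1.target, e1.symm v ∈ W := by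
    intro v hv
    have := e1.map_target hv
    rw [he1s] at this
    exact this.2
  refine ⟨G, δ, hδ0, min_le_right _ _, ?_, ?_, hz₀1, ?_, ?_, ?_, ?_⟩
  · intro z hz
    have hzW : z ∈ W := hz.2
    have h1 : ContDiffAt ℝ ∞ (fun z => δ⁻¹ • f z) z := (hfz z hzW.1).const_smul δ⁻¹
    exact h1.contDiffWithinAt
  · intro ζ hζ
    have hζ' := (hGt ζ).1 hζ
    have hw := hsymm _ hζ'
    obtain ⟨E, hE⟩ := hw.2
    have h1 : HasFDerivAt e1 (E : Eu n × Eu m →L[ℝ] V) (e1.symm (δ • ζ)) := by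
      rw [hE]; exact hfd _ hw.1
    have h2 : ContDiffAt ℝ ∞ e1.symm (δ • ζ) := e1.contDiffAt_symm hζ' h1 (hfz _ hw.1)
    have h3 : ContDiffAt ℝ ∞ (fun ζ : V => e1.symm (δ • ζ)) ζ :=
      ContDiffAt.comp (g := e1.symm) (f := fun ζ : V => δ • ζ) ζ h2
        (contDiffAt_id.const_smul δ)
    have h4 : (G.symm : V → Eu n × Eu m) = fun ζ : V => e1.symm (δ • ζ) := funext hGsy
    rw [h4]
    exact h3.contDiffWithinAt
  · rw [hGc, hf]; simp [hc]
  · intro ζ hζ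
    rw [hGt]
    apply hrt
    rw [mem_ball_zero_iff, norm_smul, Real.norm_of_nonneg hδ0.le]
    rw [mem_closedBall_zero_iff] at hζ
    have : δ ≤ r / 2 := min_le_left _ _
    nlinarith [norm_nonneg ζ]
  · intro z hz
    exact hz.2.1
  · intro ζ hζ
    have hζ' := (hGt ζ).1 hζ
    have h1 : f (G.symm ζ) = δ • ζ := by
      rw [hGsy, ← he1c]; exact e1.right_inv hζ'
    have h2 : UU a β (G.symm ζ) - c = δ • ζ := h1
    rw [← h2]; abel

/-- The derivative of the inverse of a local diffeomorphism is injective. -/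
theorem injective_fderiv_symm {G : OpenPartialHomeomorph (Eu n × Eu m) V}
    (h1 : ContDiffOn ℝ ∞ G G.source) (h2 : ContDiffOn ℝ ∞ G.symm G.target) {ζ : V}
    (hζ : ζ ∈ G.target) : Function.Injective (fderiv ℝ G.symm ζ) := by
  have d2 : DifferentiableAt ℝ G.symm ζ :=
    ((h2 ζ hζ).contDiffAt (G.open_target.mem_nhds hζ)).differentiableAt (by simp)
  have d1 : DifferentiableAt ℝ G (G.symm ζ) :=
    ((h1 _ (G.map_target hζ)).contDiffAt
      (G.open_source.mem_nhds (G.map_target hζ))).differentiableAt (by simp)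
  have h3 : HasFDerivAt (G ∘ G.symm) ((fderiv ℝ G (G.symm ζ)).comp (fderiv ℝ G.symm ζ)) ζ :=
    d1.hasFDerivAt.comp ζ d2.hasFDerivAt
  have h4 : (G ∘ G.symm) =ᶠ[𝓝 ζ] id := by
    filter_upwards [G.open_target.mem_nhds hζ] with y hy
    exact G.right_inv hy
  have h5 : (fderiv ℝ G (G.symm ζ)).comp (fderiv ℝ G.symm ζ) = ContinuousLinearMap.id ℝ V :=
    (h3.congr_of_eventuallyEq h4.symm).unique (hasFDerivAt_id ζ)
  intro v w hvw
  have h6 := DFunLike.congr_fun h5 v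
  have h7 := DFunLike.congr_fun h5 w
  simp only [ContinuousLinearMap.comp_apply, ContinuousLinearMap.id_apply] at h6 h7
  rw [← h6, ← h7, hvw]

theorem exists_sing [CompactSpace M] [T2Space M] (𝔸 : FA (Eu n) V M ∅)
    (hdim : Module.finrank ℝ V = n + m) (L : (Eu n × Eu m) ≃L[ℝ] V) :
    ∃ (N : Type u) (_ : TopologicalSpace N) (_ : CompactSpace N) (_ : T2Space N)
      (Z : Set N) (𝔑 : FA V V N Z) (j : M → N),
      Z.Finite ∧ Emb (Eu m) 𝔸 𝔑 j ∧ ∀ z ∈ Z, Sing 𝔑 z := by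
  obtain ⟨c, hc, hfin, hreg⟩ := exists_regular 𝔸 hdim
  set F : M → V → V →L[ℝ] V := fun _ w => R (w - lam (‖w‖ ^ 2) • c) with hFdef
  set Z₀ : Set (M × V) := {p | p.2 = c ∧ p.2 ∈ 𝔸.nu p.1} with hZ₀
  have hF : Ext 𝔸 F Z₀ :=
    Ext.of_section 𝔸 (fun _ => c) (fun _ _ _ _ => contDiffAt_const) (fun _ => hc) hfin
  obtain ⟨N, _, _, _, pt, 𝔑, j, hinj, hEmb, hch⟩ := exists_sphereBundle 𝔸 hdim F Z₀ hF
  refine ⟨N, ‹_›, ‹_›, ‹_›, pt '' Z₀, 𝔑.changeModel L, j, hF.fin.image pt,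
    hEmb.changeModel L, ?_⟩
  rintro z ⟨⟨x, c'⟩, ⟨hc1, hc2⟩, rfl⟩
  simp only at hc1 hc2
  subst hc1
  obtain ⟨a, β, z₀, ha, hz₀, hx, hU, hinv⟩ := hreg x hc2
  obtain ⟨C, hCt, hCs, hCm⟩ := hch a β ha
  obtain ⟨G, δ, hδ0, hδ8, hG1, hG2, hzG, hGz, hGb, hGO, hGU⟩ := exists_localChart ha hz₀ hinv
  rw [hU] at hGU
  have hGtO : ∀ ζ ∈ G.target, G.symm ζ ∈ Om a β := fun ζ hζ => hGO (G.map_target hζ)
  have hCz : C.symm z₀ = pt (x, c') := by rw [hCs z₀ hz₀, hx, hU]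
  have hz₀C : z₀ ∈ C.target := by rw [hCt]; exact hz₀
  have hptS : pt (x, c') ∈ C.source := by rw [← hCz]; exact C.map_target hz₀C
  have hCpt : C (pt (x, c')) = z₀ := by rw [← hCz]; exact C.right_inv hz₀C
  set P : FPair (Eu n × Eu m) V N := ⟨C, ThM a β F⟩ with hP
  have hGs : ∀ ζ ∈ G.target, ContDiffAt ℝ ∞ G.symm ζ := fun ζ hζ =>
    (hG2 ζ hζ).contDiffAt (G.open_target.mem_nhds hζ)
  refine ⟨P.comp G, fun ζ => (Th0 a β (G.symm ζ)).comp (fderiv ℝ G.symm ζ), ?_, ?_, ?_, ?_, ?_,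
    ?_, ?_⟩
  · exact FA.Mem.comp_changeModel hCm L G hG1 hG2
  · rw [FPair.mem_comp_source]
    refine ⟨hptS, ?_⟩
    change C (pt (x, c')) ∈ G.source
    rw [hCpt]; exact hzG
  · rw [FPair.comp_apply]
    change G (C (pt (x, c'))) = 0
    rw [hCpt, hGz]
  · intro ζ hζ
    rw [FPair.mem_comp_target]
    refine ⟨hGb hζ, ?_⟩
    change G.symm ζ ∈ C.target
    rw [hCt]; exact hGtO ζ (hGb hζ)
  · intro ζ hζ hmem
    rw [FPair.comp_symm_apply] at hmem
    change C.symm (G.symm ζ) ∈ pt '' Z₀ at hmem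
    have hO := hGtO ζ (hGb hζ)
    rw [hCs _ hO] at hmem
    obtain ⟨⟨x', c''⟩, ⟨h1, h2⟩, h3⟩ := hmem
    simp only at h1 h2
    have h4 := hinj (show (x', c'') ∈ {p : M × V | p.2 ∈ 𝔸.nu p.1} from h2)
      (show (a.c.symm (G.symm ζ).1, UU a β (G.symm ζ)) ∈ {p : M × V | p.2 ∈ 𝔸.nu p.1} from
        UU_mem_nu ha hO) h3
    have h5 : c'' = UU a β (G.symm ζ) := (Prod.ext_iff.1 h4).2
    rw [hGU ζ (hGb hζ), h1] at h5
    have h6 : δ • ζ = 0 := by
      have : c' + 0 = c' + δ • ζ := by rw [add_zero]; exact h5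
      exact (add_left_cancel this).symm
    rcases smul_eq_zero.1 h6 with h7 | h7
    · exact absurd h7 hδ0.ne'
    · exact h7
  · intro ζ hζ
    have hO := hGtO ζ (hGb hζ)
    constructor
    · have h1 : ContDiffAt ℝ ∞ (fun ζ => Th0 a β (G.symm ζ)) ζ :=
        ContDiffAt.comp (g := Th0 a β) (f := G.symm) ζ (contDiffAt_Th0 ha hO) (hGs ζ (hGb hζ))
      have h2 : ContDiffAt ℝ ∞ (fderiv ℝ G.symm) ζ :=
        (hGs ζ (hGb hζ)).fderiv_right (m := ∞) (by simp)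
      exact h1.clm_comp h2
    · have h1 : Function.Injective ((Th0 a β (G.symm ζ)).comp (fderiv ℝ G.symm ζ)) := by
        have := (Th0_injective ha hO).comp (injective_fderiv_symm hG1 hG2 (hGb hζ))
        exact this
      rw [ContinuousLinearMap.isUnit_iff_bijective]
      refine ⟨h1, ?_⟩
      exact (LinearMap.injective_iff_surjective
        (f := (((Th0 a β (G.symm ζ)).comp (fderiv ℝ G.symm ζ) : V →L[ℝ] V) : V →ₗ[ℝ] V))).1 h1
  · intro ζ hζ _
    rw [FPair.comp_form]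
    change (ThM a β F (G.symm ζ)).comp (fderiv ℝ G.symm ζ) = _
    have hUζ := hGU ζ (hGb hζ)
    have hn : ‖UU a β (G.symm ζ)‖ ^ 2 ≤ 1 / 2 := by
      rw [hUζ]
      have h1 : ‖c' + δ • ζ‖ ≤ 1 / 2 := by
        refine (norm_add_le _ _).trans ?_
        rw [norm_smul, Real.norm_of_nonneg hδ0.le]
        rw [mem_closedBall_zero_iff] at hζ
        nlinarith [norm_nonneg ζ, hc.le]
      nlinarith [norm_nonneg (c' + δ • ζ)]
    have h1 : ThM a β F (G.symm ζ) = (R ζ).comp (Th0 a β (G.symm ζ)) := by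
      unfold ThM
      rw [phi_eq_one hn, one_smul, sub_add_cancel, ContinuousLinearMap.id_comp, hFdef]
      simp only
      rw [lam_eq_one hn, one_smul, hUζ, add_sub_cancel_left, R_smul hδ0.ne']
    rw [h1, ContinuousLinearMap.comp_assoc]

end PF
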