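import Pool.Agent.Helper4.PF.Kill
import Pool.Agent.Helper4.PF.SingPoints
import Pool.Agent.Helper4.PF.Fill
import Pool.Agent.Helper4.PF.Double
import Pool.Agent.Helper4.PF.HtyClass

/-!
# The main theorem in terms of form atlases (project MP_905dfc_gt)
-/

open scoped Manifold ContDiff Topology InnerProductSpace
open Set Filter Metric ContinuousLinearMap

noncomputable section

universe u

namespace PF

theorem Filler.of_hty {V : Type*} [NormedAddCommGroup V] [InnerProductSpace ℝ V]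
    {F G : V → V →L[ℝ] V} (h : Hty F G) (hG : Filler G) : Filler F := by
  obtain ⟨P, t, c, T2, W, 𝔹, b, h1, h2, h3, h4⟩ := hG
  exact ⟨P, t, c, T2, W, 𝔹, b, h1, h2, h3, h.trans h4⟩

/-- Every standard singular point can be filled. -/
theorem filler_flip {k : ℕ} (hk : 3 ≤ k) (Θ B : Eu k → Eu k →L[ℝ] Eu k)
    (hB : ∀ ζ ∈ closedBall (0 : Eu k) 1, ContDiffAt ℝ ∞ B ζ ∧ IsUnit (B ζ))
    (hΘ : ∀ ζ ∈ closedBall (0 : Eu k) 1, ζ ≠ 0 → Θ ζ = (R ζ).comp (B ζ)) :
    Filler (flip Θ) := by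
  obtain ⟨e, he, hf⟩ := filler_double k hk
  have h0 : IsUnit (B 0) := (hB 0 (mem_closedBall_self zero_le_one)).2
  rcases const_hty h0 he with h | h
  · exact Filler.of_hty (flip_hty_one hB hΘ h) (filler_const k (by omega) isUnit_one)
  · exact Filler.of_hty (flip_hty_refl hB hΘ h) hf

section Zero

/-- Transport of a regular form atlas along a homeomorphism. -/
def FA.transport {E V P P' : Type*} [NormedAddCommGroup E] [NormedSpace ℝ E]
    [NormedAddCommGroup V] [NormedSpace ℝ V] [TopologicalSpace P] [TopologicalSpace P']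
    (𝔹 : FA E V P ∅) (h : P ≃ₜ P') : FA E V P' ∅ where
  at' := (fun a : FPair E V P => a.push h.toOpenPartialHomeomorph) '' 𝔹.at'
  closed := isClosed_empty
  cover := fun p => by
    obtain ⟨a, ha, hp⟩ := 𝔹.cover (h.symm p)
    exact ⟨_, mem_image_of_mem _ ha, mem_univ _, hp⟩
  smooth := by
    rintro _ ⟨a, ha, rfl⟩ p hp _
    exact 𝔹.smooth a ha _ hp.2 (notMem_empty _)
  inj := by
    rintro _ ⟨a, ha, rfl⟩ p hp _
    exact 𝔹.inj a ha _ hp.2 (notMem_empty _)
  agree := by
    rintro _ ⟨a, ha, rfl⟩ _ ⟨b, hb, rfl⟩ p hp hq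
    have h1 : AgreeAt ∅ (a.push h.toOpenPartialHomeomorph) (b.push h.toOpenPartialHomeomorph)
        (h (h.symm p)) := (𝔹.agree a ha b hb (h.symm p) hp.2 hq.2).push
      (i := h.toOpenPartialHomeomorph) (Z' := ∅) (mem_univ _) hp.2 hq.2
      (fun _ => notMem_empty _)
    rwa [h.apply_symm_apply] at h1

theorem exists_parallelised' (k : ℕ) (hk : 1 ≤ k) :
    ∃ (P : Type u) (_ : TopologicalSpace P) (_ : CompactSpace P) (_ : T2Space P)
      (_ : Nonempty P), Nonempty (FA (Eu k) (Eu k) P ∅) := by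
  obtain ⟨P, t, c, T2, ⟨p⟩, ⟨𝔹⟩⟩ := exists_parallelised k hk
  exact ⟨ULift.{u} P, inferInstance, Homeomorph.ulift.symm.compactSpace,
    Homeomorph.ulift.symm.t2Space, ⟨⟨p⟩⟩, ⟨𝔹.transport Homeomorph.ulift.symm⟩⟩

variable {k : ℕ} {M : Type u} [TopologicalSpace M]

theorem source_subsingleton (a : FPair (Eu 0) (Eu k) M) {x x' : M} (hx : x ∈ a.c.source)
    (hx' : x' ∈ a.c.source) : x' = x :=
  a.c.injOn hx' hx (Subsingleton.elim _ _)

theorem discrete_of_FA (𝔸 : FA (Eu 0) (Eu k) M ∅) : DiscreteTopology M := by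
  rw [discreteTopology_iff_isOpen_singleton]
  intro x
  obtain ⟨a, ha, hx⟩ := 𝔸.cover x
  have : ({x} : Set M) = a.c.source := by
    apply Subset.antisymm
    · intro y hy
      rw [mem_singleton_iff.1 hy]; exact hx
    · intro y hy
      exact source_subsingleton a hx hy
  rw [this]
  exact a.c.open_source

theorem infinite_of_FA (hk : 1 ≤ k) {P : Type u} [TopologicalSpace P] [hP : Nonempty P]
    (𝔹 : FA (Eu k) (Eu k) P ∅) : Infinite P := by
  obtain ⟨p⟩ := hP
  obtain ⟨b, hb, hp⟩ := 𝔹.cover p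
  have hne : Nonempty (Fin k) := ⟨⟨0, by omega⟩⟩
  have h1 : (b.c.target).Infinite := by
    have h2 : b.c.target ∈ 𝓝 (b.c p) := b.c.open_target.mem_nhds (b.c.map_source hp)
    exact infinite_of_mem_nhds _ h2
  have h3 : (b.c.symm '' b.c.target).Infinite := h1.image b.c.symm.injOn
  exact h3.to_subtype.of_injective _ Subtype.val_injective

end Zero

theorem exists_dilation' {n m k : ℕ} (hk : k = n + m) {M : Type u} [TopologicalSpace M]
    [CompactSpace M] [T2Space M] (𝔸 : FA (Eu n) (Eu k) M ∅) :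
    ∃ (N : Type u) (_ : TopologicalSpace N) (_ : CompactSpace N) (_ : T2Space N)
      (𝔑 : FA (Eu k) (Eu k) N ∅) (j : M → N), Emb (Eu m) 𝔸 𝔑 j := by
  have hdim : Module.finrank ℝ (Eu k) = n + m := by simp [hk]
  have hfr : Module.finrank ℝ (Eu n × Eu m) = Module.finrank ℝ (Eu k) := by
    rw [hdim, Module.finrank_prod]; simp
  rcases Nat.eq_zero_or_pos m with rfl | hm
  · -- equal dimensions
    obtain rfl : k = n := by omega
    have hu : Unique (Eu 0) := ⟨⟨0⟩, fun x => Subsingleton.elim _ _⟩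
    refine ⟨M, inferInstance, inferInstance, inferInstance, 𝔸, id, continuous_id,
      Function.injective_id, fun x => notMem_empty _, fun x => ?_⟩
    obtain ⟨a, ha, hx⟩ := 𝔸.cover x
    refine ⟨a, a, ContinuousLinearEquiv.prodUnique ℝ _ _, 𝔸.mem_of_mem_at ha,
      𝔸.mem_of_mem_at ha, hx, fun x' hx' => ⟨hx', ?_, ?_⟩⟩
    · simp
    · ext v
      simp
  rcases Nat.eq_zero_or_pos n with rfl | hn
  · -- finite `M`
    obtain rfl : k = m := by omega
    obtain ⟨P, t, c, T2, hne, ⟨𝔹⟩⟩ := exists_parallelised'.{u} k hm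
    have hdisc := discrete_of_FA 𝔸
    have hfin : Finite M := finite_of_compact_of_discrete
    have hinf := infinite_of_FA hm 𝔹
    have := Fintype.ofFinite M
    let j : M → P := fun x => Infinite.natEmbedding P (Fintype.equivFin M x)
    have hj : Function.Injective j :=
      (Infinite.natEmbedding P).injective.comp
        (Fin.val_injective.comp (Fintype.equivFin M).injective)
    refine ⟨P, t, c, T2, 𝔹, j, continuous_of_discreteTopology, hj, fun x => notMem_empty _,
      fun x => ?_⟩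
    obtain ⟨a, ha, hx⟩ := 𝔸.cover x
    obtain ⟨b, hb, hjx⟩ := 𝔹.cover (j x)
    let τ : OpenPartialHomeomorph (Eu k) (Eu k) :=
      (Homeomorph.addRight (-(b.c (j x)))).toOpenPartialHomeomorph
    have hτ : ContDiff ℝ ∞ (fun y : Eu k => y + -(b.c (j x))) := contDiff_id.add contDiff_const
    have hτ' : ContDiff ℝ ∞ (fun y : Eu k => y + -(-(b.c (j x)))) :=
      contDiff_id.add contDiff_const
    refine ⟨a, b.comp τ, ContinuousLinearEquiv.ofFinrankEq hfr, 𝔸.mem_of_mem_at ha,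
      (𝔹.mem_of_mem_at hb).comp τ hτ.contDiffOn hτ'.contDiffOn, hx, fun x' hx' => ?_⟩
    obtain rfl := source_subsingleton a hx hx'
    refine ⟨⟨hjx, mem_univ _⟩, ?_, ?_⟩
    · have h0 : a.c x' = 0 := Subsingleton.elim _ _
      have h1 : ((a.c x', 0) : Eu 0 × Eu k) = 0 := by rw [h0]; rfl
      rw [h1, map_zero]
      show b.c (j x') + -(b.c (j x')) = 0
      exact add_neg_cancel _
    · ext v : 1
      rw [Subsingleton.elim v 0, map_zero, map_zero]
  rcases Nat.eq_or_lt_of_le (Nat.succ_le_of_lt hm) with h1 | h1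
  · -- codimension one
    obtain rfl : m = 1 := h1.symm
    obtain ⟨N, t, c, T2, 𝔑, j, hj⟩ := exists_codim_one 𝔸 hdim
    exact ⟨N, t, c, T2, 𝔑.changeModel (ContinuousLinearEquiv.ofFinrankEq hfr), j,
      hj.changeModel _⟩
  · have hk3 : 3 ≤ k := by omega
    have hne : Nonempty (Fin k) := ⟨⟨0, by omega⟩⟩
    obtain ⟨N, t, c, T2, Z, 𝔑, j, hZ, hj, hS⟩ :=
      exists_sing 𝔸 hdim (ContinuousLinearEquiv.ofFinrankEq hfr)
    exact kill (fun Θ B hB hΘ => filler_flip hk3 Θ B hB hΘ) hZ 𝔑 hS hj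

theorem exists_dilation {n k : ℕ} (hnk : n ≤ k) {M : Type u} [TopologicalSpace M]
    [CompactSpace M] [T2Space M] (𝔸 : FA (Eu n) (Eu k) M ∅) :
    ∃ (N : Type u) (_ : TopologicalSpace N) (_ : CompactSpace N) (_ : T2Space N)
      (𝔑 : FA (Eu k) (Eu k) N ∅) (j : M → N), Emb (Eu (k - n)) 𝔸 𝔑 j :=
  exists_dilation' (by omega) 𝔸

end PF
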