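import Pool.Agent.Helper4.PF.FrameFA
import Pool.Agent.Helper4.PF.ToManifold
import Pool.Agent.Helper4.PF.Topo

/-!
# Compact dilations of moving Parseval frames (project MP_905dfc_gt)

Module I3: from the form atlas theorem `exists_dilation` to Mathlib manifolds.
-/

open scoped Manifold ContDiff Topology InnerProductSpace
open Set Filter Metric ContinuousLinearMap

noncomputable section

universe u

namespace PF

section Aux

variable {n : ℕ} {V : Type*} [NormedAddCommGroup V] [NormedSpace ℝ V]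
  {M : Type u} [TopologicalSpace M] [ChartedSpace (Eu n) M] [IsManifold (𝓡 n) ∞ M]

/-- Charts which are compatible at every point with the preferred chart at this point belong to the
maximal atlas. -/
theorem mem_maximalAtlas_of_agree {Z : Set M} (a : FPair (Eu n) V M)
    (b : M → FPair (Eu n) V M) (hb : ∀ x, (b x).c = chartAt (Eu n) x)
    (h : ∀ x ∈ a.c.source, AgreeAt Z a (b x) x) :
    a.c ∈ IsManifold.maximalAtlas (𝓡 n) ∞ M := by
  apply OpenPartialHomeomorph.mem_maximalAtlas_of_contMDiffOn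
  · intro x hx
    have h1 := (h x hx).smooth'
    rw [hb x] at h1
    have hc : ContMDiffAt (𝓡 n) (𝓡 n) ∞ (chartAt (Eu n) x) x :=
      contMDiffAt_of_mem_maximalAtlas (IsManifold.chart_mem_maximalAtlas x)
        (mem_chart_source _ x)
    have h2 : ContMDiffAt (𝓡 n) (𝓡 n) ∞ ((a.c ∘ (chartAt (Eu n) x).symm) ∘ (chartAt (Eu n) x)) x :=
      ContMDiffAt.comp x h1.contMDiffAt hc
    refine (h2.congr_of_eventuallyEq ?_).contMDiffWithinAt
    filter_upwards [(chartAt (Eu n) x).open_source.mem_nhds (mem_chart_source _ x)] with y hy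
    simp [(chartAt (Eu n) x).left_inv hy]
  · intro y hy
    set x := a.c.symm y with hx
    have hxs : x ∈ a.c.source := a.c.map_target hy
    have hyx : a.c x = y := a.c.right_inv hy
    have h1 := (h x hxs).smooth
    rw [hb x, hyx] at h1
    have hc : ContMDiffAt (𝓡 n) (𝓡 n) ∞ (chartAt (Eu n) x).symm (chartAt (Eu n) x x) :=
      contMDiffAt_symm_of_mem_maximalAtlas (IsManifold.chart_mem_maximalAtlas x)
        (mem_chart_target _ x)
    have h2 : ContMDiffAt (𝓡 n) (𝓡 n) ∞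
        ((chartAt (Eu n) x).symm ∘ ((chartAt (Eu n) x) ∘ a.c.symm)) y := by
      have hc' : ContMDiffAt (𝓡 n) (𝓡 n) ∞ (chartAt (Eu n) x).symm
          (((chartAt (Eu n) x) ∘ a.c.symm) y) := by
        simpa [← hx] using hc
      exact ContMDiffAt.comp y hc' h1.contMDiffAt
    refine (h2.congr_of_eventuallyEq ?_).contMDiffWithinAt
    have hev : ∀ᶠ z in 𝓝 y, a.c.symm z ∈ (chartAt (Eu n) x).source :=
      (a.c.continuousAt_symm hy).eventually_mem
        ((chartAt (Eu n) x).open_source.mem_nhds (by rw [← hx]; exact mem_chart_source _ x))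
    filter_upwards [hev] with z hz
    simp [(chartAt (Eu n) x).left_inv hz]

end Aux

variable {n k : ℕ} {M : Type u} [TopologicalSpace M] [ChartedSpace (Eu n) M]
  [IsManifold (𝓡 n) ∞ M]

/-- The analysis operator of the frame at `x`. -/
def ana
    (g : Bundle.ContMDiffRiemannianMetric (𝓡 n) ∞ (Eu n) (fun x : M => TangentSpace (𝓡 n) x))
    (f : Fin k → (x : M) → TangentSpace (𝓡 n) x) (x : M) :
    TangentSpace (𝓡 n) x →L[ℝ] Eu k :=
  (EuclideanSpace.equiv (Fin k) ℝ).symm.toContinuousLinearMap.comp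
    (ContinuousLinearMap.pi fun i => g.inner x (f i x))

theorem form_apply {𝔸 : FA (Eu n) (Eu k) M ∅}
    (g : Bundle.ContMDiffRiemannianMetric (𝓡 n) ∞ (Eu n) (fun x : M => TangentSpace (𝓡 n) x))
    (f : Fin k → (x : M) → TangentSpace (𝓡 n) x)
    (h𝔸 : 𝔸.at' = range (framePair g f)) {a : FPair (Eu n) (Eu k) M} (ha : 𝔸.Mem a)
    (hamax : a.c ∈ IsManifold.maximalAtlas (𝓡 n) ∞ M)
    {x : M} (hx : x ∈ a.c.source) (v : TangentSpace (𝓡 n) x) :
    a.Θ (a.c x) (mfderiv (𝓡 n) 𝓘(ℝ, Eu n) a.c x v) = ana g f x v := by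
  have hb : framePair g f x ∈ 𝔸.at' := by rw [h𝔸]; exact ⟨x, rfl⟩
  have hag := ha _ hb x hx (mem_chart_source _ x)
  have hform := hag.form (Set.notMem_empty x)
  set φ := chartAt (Eu n) x with hφ
  have hbc : (framePair g f x).c = φ := rfl
  rw [hform]
  rw [hbc]
  -- chain rule for φ = (φ ∘ a.c.symm) ∘ a.c
  have hda : MDifferentiableAt (𝓡 n) (𝓡 n) a.c x :=
    (contMDiffAt_of_mem_maximalAtlas hamax hx).mdifferentiableAt (by simp)
  have hdt : MDifferentiableAt (𝓡 n) (𝓡 n) (φ ∘ a.c.symm) (a.c x) := by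
    have := hag.smooth
    rw [hbc] at this
    exact (this.differentiableAt (by simp)).mdifferentiableAt
  have hchain : mfderiv (𝓡 n) (𝓡 n) φ x =
      (fderiv ℝ (φ ∘ a.c.symm) (a.c x)).comp (mfderiv (𝓡 n) (𝓡 n) a.c x) := by
    have h1 : φ =ᶠ[𝓝 x] (φ ∘ a.c.symm) ∘ a.c := by
      filter_upwards [a.c.open_source.mem_nhds hx] with y hy
      simp [a.c.left_inv hy]
    rw [h1.mfderiv_eq, mfderiv_comp x hdt hda, mfderiv_eq_fderiv]
    rfl
  have hv : fderiv ℝ (φ ∘ a.c.symm) (a.c x) (mfderiv (𝓡 n) 𝓘(ℝ, Eu n) a.c x v)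
      = mfderiv (𝓡 n) 𝓘(ℝ, Eu n) φ x v := by
    rw [hchain]; rfl
  refine Eq.trans (congrArg ((framePair g f x).Θ (φ x)) hv) ?_
  have hφx : φ.symm (φ x) = x := φ.left_inv (mem_chart_source _ x)
  have hinv : ∀ w : TangentSpace (𝓡 n) x,
      mfderiv 𝓘(ℝ, Eu n) (𝓡 n) φ.symm (φ x) (mfderiv (𝓡 n) 𝓘(ℝ, Eu n) φ x w) = w := by
    intro w
    have hd1 : MDifferentiableAt (𝓡 n) (𝓡 n) φ x :=
      (contMDiffAt_of_mem_maximalAtlas (n := ∞) (IsManifold.chart_mem_maximalAtlas x)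
        (mem_chart_source _ x)).mdifferentiableAt (by simp)
    have hd2 : MDifferentiableAt (𝓡 n) (𝓡 n) φ.symm (φ x) :=
      (contMDiffAt_symm_of_mem_maximalAtlas (n := ∞) (IsManifold.chart_mem_maximalAtlas x)
        (mem_chart_target _ x)).mdifferentiableAt (by simp)
    have h1 : (φ.symm ∘ φ) =ᶠ[𝓝 x] id := by
      filter_upwards [φ.open_source.mem_nhds (mem_chart_source _ x)] with y hy
      simp [φ.left_inv hy]
    have h2 := h1.mfderiv_eq (I := 𝓡 n) (I' := 𝓡 n)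
    rw [mfderiv_comp x hd2 hd1, mfderiv_id] at h2
    exact congrArg (fun L => L w) h2
  have key : (framePair g f x).Θ (φ x) (mfderiv (𝓡 n) 𝓘(ℝ, Eu n) φ x v)
      = (EuclideanSpace.equiv (Fin k) ℝ).symm.toContinuousLinearMap.comp
    (ContinuousLinearMap.pi fun i =>
      (g.inner (φ.symm (φ x)) (f i (φ.symm (φ x))))) (mfderiv 𝓘(ℝ, Eu n) (𝓡 n) φ.symm (φ x) (mfderiv (𝓡 n) 𝓘(ℝ, Eu n) φ x v)) := rfl
  have haux : ∀ y : M, y = x → ∀ u : Eu n, ana g f y u = ana g f x u := by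
    rintro _ rfl _
    rfl
  exact key.trans ((haux _ hφx _).trans (congrArg (ana g f x) (hinv _)))

theorem ana_inner
    (g : Bundle.ContMDiffRiemannianMetric (𝓡 n) ∞ (Eu n) (fun x : M => TangentSpace (𝓡 n) x))
    (f : Fin k → (x : M) → TangentSpace (𝓡 n) x)
    (hP : ∀ (x : M) (v : TangentSpace (𝓡 n) x),
      ∑ i, (g.inner x (f i x) v) ^ 2 = g.inner x v v) (x : M)
    (v w : TangentSpace (𝓡 n) x) :
    ⟪ana g f x v, ana g f x w⟫_ℝ = g.inner x v w := by
  have h1 : ⟪ana g f x v, ana g f x w⟫_ℝ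
      = ∑ i, g.inner x (f i x) v * g.inner x (f i x) w := by
    rw [PiLp.inner_apply]
    refine Finset.sum_congr rfl fun i _ => ?_
    show (g.inner x (f i x) w) * (g.inner x (f i x) v) = _
    ring
  rw [h1]
  have h2 := hP x (v + w)
  have h3 := hP x v
  have h4 := hP x w
  simp only [map_add, add_apply] at h2
  have hs : g.inner x w v = g.inner x v w := g.symm x w v
  have h5 : ∑ i, (g.inner x (f i x) v + g.inner x (f i x) w) ^ 2
      = ∑ i, (g.inner x (f i x) v) ^ 2 + ∑ i, (g.inner x (f i x) w) ^ 2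
        + 2 * ∑ i, g.inner x (f i x) v * g.inner x (f i x) w := by
    rw [Finset.mul_sum, ← Finset.sum_add_distrib, ← Finset.sum_add_distrib]
    refine Finset.sum_congr rfl fun i _ => ?_
    ring
  rw [h5, h3, h4, hs] at h2
  linarith

theorem compact_dilation {n k : ℕ} (hnk : n ≤ k) {M : Type u} [TopologicalSpace M]
    [CompactSpace M] [T2Space M] [ChartedSpace (Eu n) M] [IsManifold (𝓡 n) ∞ M]
    (g : Bundle.ContMDiffRiemannianMetric (𝓡 n) ∞ (Eu n) (fun x : M => TangentSpace (𝓡 n) x))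
    (f : Fin k → (x : M) → TangentSpace (𝓡 n) x)
    (hf : ∀ i, ContMDiff (𝓡 n) (𝓡 n).tangent ∞
      (fun x => (⟨x, f i x⟩ : TangentBundle (𝓡 n) M)))
    (hP : ∀ (x : M) (v : TangentSpace (𝓡 n) x),
      ∑ i, (g.inner x (f i x) v) ^ 2 = g.inner x v v) :
    ∃ (N : Type u) (_ : TopologicalSpace N) (_ : CompactSpace N) (_ : T2Space N)
      (_ : ChartedSpace (Eu k) N) (_ : IsManifold (𝓡 k) ∞ N)
      (h : Bundle.ContMDiffRiemannianMetric (𝓡 k) ∞ (Eu k)
        (fun p : N => TangentSpace (𝓡 k) p))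
      (e : Fin k → (p : N) → TangentSpace (𝓡 k) p) (j : M → N),
      Manifold.IsSmoothEmbedding (𝓡 n) (𝓡 k) ∞ j ∧
      (∀ (x : M) (v w : TangentSpace (𝓡 n) x),
        h.inner (j x) (mfderiv (𝓡 n) (𝓡 k) j x v) (mfderiv (𝓡 n) (𝓡 k) j x w)
          = g.inner x v w) ∧
      (∀ i, ContMDiff (𝓡 k) (𝓡 k).tangent ∞
        (fun p => (⟨p, e i p⟩ : TangentBundle (𝓡 k) N))) ∧
      (∀ (p : N) (i l : Fin k), h.inner p (e i p) (e l p) = if i = l then 1 else 0) ∧
      (∀ (x : M) (i : Fin k) (v : TangentSpace (𝓡 n) x),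
        h.inner (j x) (e i (j x) - mfderiv (𝓡 n) (𝓡 k) j x (f i x))
          (mfderiv (𝓡 n) (𝓡 k) j x v) = 0) := by
  obtain ⟨𝔸, h𝔸⟩ := exists_frameFA g f hf hP
  obtain ⟨N, _, _, _, 𝔑, j, hj⟩ := exists_dilation hnk 𝔸
  obtain ⟨_, _, h, e, Φ, hΦ, he, hes, hc⟩ := exists_manifold 𝔑
  have hmax : ∀ a, 𝔸.Mem a → a.c ∈ IsManifold.maximalAtlas (𝓡 n) ∞ M := by
    intro a ha
    refine mem_maximalAtlas_of_agree (Z := ∅) a (framePair g f) (fun _ => rfl) ?_
    intro x hx
    exact ha _ (by rw [h𝔸]; exact ⟨x, rfl⟩) x hx (mem_chart_source _ x)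
  have himm : Manifold.IsImmersionOfComplement (Eu (k - n)) (𝓡 n) (𝓡 k) ∞ j := by
    intro x
    obtain ⟨a, c, ℓ, ha, hcm, hxa, hs⟩ := hj.slice x
    refine Manifold.IsImmersionAtOfComplement.mk_of_charts ℓ a.c c.c hxa (hs x hxa).1
      (hmax a ha) (hc c hcm).1 (fun x' hx' => (hs x' hx').1) ?_
    intro y hy
    have hy' : y ∈ a.c.target := by simpa using hy
    have hm := a.c.map_target hy'
    have h2 := (hs _ hm).2.1
    rw [a.c.right_inv hy'] at h2
    simpa using h2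
  have hemb : Manifold.IsSmoothEmbedding (𝓡 n) (𝓡 k) ∞ j :=
    ⟨himm.isImmersion, (hj.cont.isClosedEmbedding hj.inj).isEmbedding⟩
  have hdj : ∀ (x : M) (v : TangentSpace (𝓡 n) x),
      Φ (j x) (mfderiv (𝓡 n) (𝓡 k) j x v) = ana g f x v := by
    intro x v
    obtain ⟨a, c, ℓ, ha, hcm, hxa, hs⟩ := hj.slice x
    rw [← form_apply g f h𝔸 ha (hmax a ha) hxa v, (hc c hcm).2 (j x) (hs x hxa).1]
    have hda : MDifferentiableAt (𝓡 n) (𝓡 n) a.c x :=
      (contMDiffAt_of_mem_maximalAtlas (hmax a ha) hxa).mdifferentiableAt (by simp)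
    have hdc : MDifferentiableAt (𝓡 k) (𝓡 k) c.c (j x) :=
      (contMDiffAt_of_mem_maximalAtlas (hc c hcm).1 (hs x hxa).1).mdifferentiableAt (by simp)
    have hdj : MDifferentiableAt (𝓡 n) (𝓡 k) j x :=
      (hemb.contMDiff x).mdifferentiableAt (by simp)
    have h1 : (c.c ∘ j) =ᶠ[𝓝 x]
        (((ℓ : (Eu n × Eu (k - n)) →L[ℝ] Eu k).comp
          (ContinuousLinearMap.inl ℝ (Eu n) (Eu (k - n)))) ∘ a.c) := by
      filter_upwards [a.c.open_source.mem_nhds hxa] with y hy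
      simpa using (hs y hy).2.1
    have h2 := h1.mfderiv_eq (I := 𝓡 n) (I' := 𝓡 k)
    have hL : MDifferentiableAt (𝓡 n) (𝓡 k) ((ℓ : (Eu n × Eu (k - n)) →L[ℝ] Eu k).comp
          (ContinuousLinearMap.inl ℝ (Eu n) (Eu (k - n)))) (a.c x) :=
      ContinuousLinearMap.mdifferentiableAt _
    rw [mfderiv_comp x hdc hdj, mfderiv_comp x hL hda, ContinuousLinearMap.mfderiv_eq] at h2
    have h3 := congrArg (fun L => L v) h2
    have h4 := congrArg (c.Θ (c.c (j x))) h3
    have h5 := congrArg (fun L : Eu n →L[ℝ] Eu k => L (mfderiv (𝓡 n) 𝓘(ℝ, Eu n) a.c x v))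
      (hs x hxa).2.2
    exact h4.trans h5
  refine ⟨N, inferInstance, inferInstance, inferInstance, inferInstance, inferInstance, h, e, j,
    hemb, ?_, hes, ?_, ?_⟩
  · intro x v w
    rw [hΦ, hdj, hdj, ana_inner g f hP]
  · intro p i l
    rw [hΦ, he, he]
    simp [EuclideanSpace.inner_single_left]
  · intro x i v
    rw [hΦ, map_sub, he, hdj, hdj, inner_sub_left, ana_inner g f hP]
    rw [EuclideanSpace.inner_single_left]
    have : (ana g f x v) i = g.inner x (f i x) v := rfl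
    rw [this]
    simp

end PF
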