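import Pool.Agent.Helper4.PF.Basic

/-!
# From a moving Parseval frame to a form atlas (project MP_905dfc_gt)
-/

open scoped Manifold ContDiff Topology InnerProductSpace
open Set Filter Metric ContinuousLinearMap

noncomputable section

universe u

namespace PF

variable {n k : ℕ} {M : Type u} [TopologicalSpace M] [ChartedSpace (Eu n) M]
  [IsManifold (𝓡 n) ∞ M]

/-- In the chart at `x₀`, the analysis operator `v ↦ (g (v, f i))ᵢ` of the frame. -/
def framePair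
    (g : Bundle.ContMDiffRiemannianMetric (𝓡 n) ∞ (Eu n) (fun x : M => TangentSpace (𝓡 n) x))
    (f : Fin k → (x : M) → TangentSpace (𝓡 n) x) (x₀ : M) : FPair (Eu n) (Eu k) M where
  c := chartAt (Eu n) x₀
  Θ := fun y => (EuclideanSpace.equiv (Fin k) ℝ).symm.toContinuousLinearMap.comp
    (ContinuousLinearMap.pi fun i =>
      (g.inner ((chartAt (Eu n) x₀).symm y) (f i ((chartAt (Eu n) x₀).symm y))).comp
        (mfderiv 𝓘(ℝ, Eu n) (𝓡 n) (chartAt (Eu n) x₀).symm y))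

theorem contMDiffAt_chart_symm (x₀ : M) {y : Eu n} (hy : y ∈ (chartAt (Eu n) x₀).target) :
    ContMDiffAt 𝓘(ℝ, Eu n) (𝓡 n) ∞ (chartAt (Eu n) x₀).symm y :=
  (contMDiffOn_chart_symm (I := 𝓡 n) (n := ∞) (x := x₀)).contMDiffAt
    ((chartAt (Eu n) x₀).open_target.mem_nhds hy)

theorem contMDiffAt_chart' (x₀ : M) {p : M} (hp : p ∈ (chartAt (Eu n) x₀).source) :
    ContMDiffAt (𝓡 n) 𝓘(ℝ, Eu n) ∞ (chartAt (Eu n) x₀) p :=
  (contMDiffOn_chart (I := 𝓡 n) (n := ∞) (x := x₀)).contMDiffAt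
    ((chartAt (Eu n) x₀).open_source.mem_nhds hp)

theorem contMDiff_constSection (v : Eu n) :
    ContMDiff 𝓘(ℝ, Eu n) 𝓘(ℝ, Eu n).tangent ∞
      (fun y => (⟨y, v⟩ : TangentBundle 𝓘(ℝ, Eu n) (Eu n))) := by
  exact contMDiff_vectorSpace_iff_contDiff.2 contDiff_const

theorem contMDiffAt_tangent_symm (x₀ : M) {y : Eu n} (hy : y ∈ (chartAt (Eu n) x₀).target)
    (v : Eu n) :
    ContMDiffAt 𝓘(ℝ, Eu n) (𝓡 n).tangent ∞
      (fun y => (⟨(chartAt (Eu n) x₀).symm y,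
        mfderiv 𝓘(ℝ, Eu n) (𝓡 n) (chartAt (Eu n) x₀).symm y v⟩ : TangentBundle (𝓡 n) M)) y := by
  set c := chartAt (Eu n) x₀ with hc
  have h := (contMDiffOn_chart_symm (I := 𝓡 n) (n := ∞) (x := x₀)).contMDiffOn_tangentMapWithin
    (m := ∞) (by simp) c.open_target.uniqueMDiffOn
  have h2 : ContMDiffOn 𝓘(ℝ, Eu n) (𝓡 n).tangent ∞ (fun y => tangentMapWithin 𝓘(ℝ, Eu n) (𝓡 n)
      c.symm c.target (⟨y, v⟩ : TangentBundle 𝓘(ℝ, Eu n) (Eu n))) c.target :=
    h.comp (contMDiff_constSection v).contMDiffOn (fun y hy => hy)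
  refine (h2.contMDiffAt (c.open_target.mem_nhds hy)).congr_of_eventuallyEq ?_
  filter_upwards [c.open_target.mem_nhds hy] with z hz
  simp only [tangentMapWithin]
  rw [mfderivWithin_of_isOpen c.open_target hz]

section frame

variable
  (g : Bundle.ContMDiffRiemannianMetric (𝓡 n) ∞ (Eu n) (fun x : M => TangentSpace (𝓡 n) x))
  (f : Fin k → (x : M) → TangentSpace (𝓡 n) x)

theorem contDiffAt_coord
    (hf : ∀ i, ContMDiff (𝓡 n) (𝓡 n).tangent ∞
      (fun x => (⟨x, f i x⟩ : TangentBundle (𝓡 n) M)))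
    (x₀ : M) {y : Eu n} (hy : y ∈ (chartAt (Eu n) x₀).target) (i : Fin k) (v : Eu n) :
    ContDiffAt ℝ ∞ (fun y => g.inner ((chartAt (Eu n) x₀).symm y)
      (f i ((chartAt (Eu n) x₀).symm y))
      (mfderiv 𝓘(ℝ, Eu n) (𝓡 n) (chartAt (Eu n) x₀).symm y v)) y := by
  have hb := contMDiffAt_chart_symm x₀ hy
  have h1 := ContMDiffAt.comp y g.contMDiff.contMDiffAt hb
  have h2 := ContMDiffAt.comp y (hf i).contMDiffAt hb
  have h3 := contMDiffAt_tangent_symm x₀ hy v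
  have h4 : ContMDiffAt 𝓘(ℝ, Eu n) ((𝓡 n).prod 𝓘(ℝ)) ∞
      (fun y ↦ Bundle.TotalSpace.mk' ℝ (E := Bundle.Trivial M ℝ) ((chartAt (Eu n) x₀).symm y)
        (g.inner ((chartAt (Eu n) x₀).symm y)
      (f i ((chartAt (Eu n) x₀).symm y))
      (mfderiv 𝓘(ℝ, Eu n) (𝓡 n) (chartAt (Eu n) x₀).symm y v))) y := by
    apply ContMDiffAt.clm_bundle_apply₂ (F₁ := Eu n) (F₂ := Eu n)
    · exact h1
    · exact h2
    · exact h3
  simp only [Bundle.contMDiffAt_totalSpace] at h4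
  exact h4.2.contDiffAt

theorem contDiffAt_framePair
    (hf : ∀ i, ContMDiff (𝓡 n) (𝓡 n).tangent ∞
      (fun x => (⟨x, f i x⟩ : TangentBundle (𝓡 n) M)))
    (x₀ : M) {y : Eu n} (hy : y ∈ (chartAt (Eu n) x₀).target) :
    ContDiffAt ℝ ∞ (framePair g f x₀).Θ y := by
  have h : ContDiffOn ℝ ∞ (framePair g f x₀).Θ (chartAt (Eu n) x₀).target := by
    rw [contDiffOn_clm_apply]
    intro v z hz
    apply ContDiffAt.contDiffWithinAt
    rw [contDiffAt_euclidean]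
    intro i
    exact contDiffAt_coord g f hf x₀ hz i v
  exact h.contDiffAt ((chartAt (Eu n) x₀).open_target.mem_nhds hy)

/-- The form of a frame pair at a point. -/
def frameForm (p : M) (D : Eu n →L[ℝ] Eu n) : Eu n →L[ℝ] Eu k :=
  (EuclideanSpace.equiv (Fin k) ℝ).symm.toContinuousLinearMap.comp
    (ContinuousLinearMap.pi fun i =>
      ((g.inner p (f i p) : Eu n →L[ℝ] ℝ)).comp D)

theorem framePair_form (x₀ : M) {p : M} (hp : p ∈ (chartAt (Eu n) x₀).source) :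
    (framePair g f x₀).Θ (chartAt (Eu n) x₀ p) =
      frameForm g f p (mfderiv 𝓘(ℝ, Eu n) (𝓡 n) (chartAt (Eu n) x₀).symm
        (chartAt (Eu n) x₀ p)) := by
  have key : ∀ (q : M) (D : Eu n →L[ℝ] Eu n), q = p →
      (EuclideanSpace.equiv (Fin k) ℝ).symm.toContinuousLinearMap.comp
    (ContinuousLinearMap.pi fun i =>
      ((g.inner q (f i q) : Eu n →L[ℝ] ℝ)).comp D) = frameForm g f p D := by
    rintro q D rfl
    rfl
  exact key _ _ ((chartAt (Eu n) x₀).left_inv hp)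

theorem frameForm_comp (p : M) (D D' : Eu n →L[ℝ] Eu n) :
    frameForm g f p (D.comp D') = (frameForm g f p D).comp D' := by
  unfold frameForm
  ext v i
  rfl

theorem frameForm_injective
    (hP : ∀ (x : M) (v : TangentSpace (𝓡 n) x),
      ∑ i, (g.inner x (f i x) v) ^ 2 = g.inner x v v)
    (p : M) (D : Eu n →L[ℝ] Eu n) (hD : Function.Injective D) :
    Function.Injective (frameForm g f p D) := by
  rw [injective_iff_map_eq_zero]
  intro v hv
  have h1 : ∀ i, g.inner p (f i p) (D v) = 0 := fun i => by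
    have := congrArg (fun w : Eu k => w i) hv
    exact this
  have h2 := hP p (D v)
  rw [Finset.sum_eq_zero (fun i _ => by rw [h1 i]; ring)] at h2
  by_contra hv0
  have h3 : D v ≠ 0 := fun h => hv0 (hD (h.trans (map_zero D).symm))
  exact (g.pos p (D v) h3).ne h2

end frame

theorem mfderiv_symm_injective (x₀ : M) {p : M} (hp : p ∈ (chartAt (Eu n) x₀).source) :
    Function.Injective (mfderiv 𝓘(ℝ, Eu n) (𝓡 n) (chartAt (Eu n) x₀).symm
        (chartAt (Eu n) x₀ p)) := by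
  set c := chartAt (Eu n) x₀ with hc
  have hy : c p ∈ c.target := c.map_source hp
  have h1 : MDifferentiableAt 𝓘(ℝ, Eu n) (𝓡 n) c.symm (c p) :=
    (contMDiffAt_chart_symm x₀ hy).mdifferentiableAt (by simp)
  have h2 : MDifferentiableAt (𝓡 n) 𝓘(ℝ, Eu n) c (c.symm (c p)) := by
    rw [c.left_inv hp]
    exact (contMDiffAt_chart' x₀ hp).mdifferentiableAt (by simp)
  have h3 := mfderiv_comp (c p) h2 h1
  have h4 : (c ∘ c.symm) =ᶠ[𝓝 (c p)] id := trans_self_eventuallyEq c hp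
  rw [h4.mfderiv_eq, mfderiv_id] at h3
  intro v w hvw
  have h5 := congrArg (fun L => L v) h3
  have h6 := congrArg (fun L => L w) h3
  simp only [ContinuousLinearMap.comp_apply] at h5 h6
  rw [hvw] at h5
  exact h5.trans h6.symm

theorem contDiffAt_transition (x₀ x₁ : M) {p : M} (hp : p ∈ (chartAt (Eu n) x₀).source)
    (hq : p ∈ (chartAt (Eu n) x₁).source) :
    ContDiffAt ℝ ∞ (chartAt (Eu n) x₁ ∘ (chartAt (Eu n) x₀).symm) (chartAt (Eu n) x₀ p) := by
  have h1 := contMDiffAt_chart_symm x₀ ((chartAt (Eu n) x₀).map_source hp)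
  have h2 : ContMDiffAt (𝓡 n) 𝓘(ℝ, Eu n) ∞ (chartAt (Eu n) x₁)
      ((chartAt (Eu n) x₀).symm (chartAt (Eu n) x₀ p)) := by
    rw [(chartAt (Eu n) x₀).left_inv hp]
    exact contMDiffAt_chart' x₁ hq
  exact (ContMDiffAt.comp _ h2 h1).contDiffAt

theorem mfderiv_transition (x₀ x₁ : M) {p : M} (hp : p ∈ (chartAt (Eu n) x₀).source)
    (hq : p ∈ (chartAt (Eu n) x₁).source) :
    (mfderiv 𝓘(ℝ, Eu n) (𝓡 n) (chartAt (Eu n) x₀).symm (chartAt (Eu n) x₀ p) :
      Eu n →L[ℝ] Eu n) =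
    (mfderiv 𝓘(ℝ, Eu n) (𝓡 n) (chartAt (Eu n) x₁).symm (chartAt (Eu n) x₁ p) :
      Eu n →L[ℝ] Eu n).comp
      (fderiv ℝ (chartAt (Eu n) x₁ ∘ (chartAt (Eu n) x₀).symm) (chartAt (Eu n) x₀ p)) := by
  set c := chartAt (Eu n) x₀ with hc
  set c' := chartAt (Eu n) x₁ with hc'
  have h1 : c.symm =ᶠ[𝓝 (c p)] (c'.symm ∘ (c' ∘ c.symm)) := by
    have h1 : ∀ᶠ y in 𝓝 (c p), c.symm y ∈ c'.source := by
      have hcc := c.symm.continuousAt (c.map_source hp)
      apply hcc.eventually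
      rw [c.left_inv hp]
      exact c'.open_source.mem_nhds hq
    filter_upwards [h1] with y hy
    simp only [Function.comp_apply]
    rw [c'.left_inv hy]
  have h2 : (c' ∘ c.symm) (c p) = c' p := by
    simp only [Function.comp_apply]
    rw [c.left_inv hp]
  have h3 : MDifferentiableAt 𝓘(ℝ, Eu n) (𝓡 n) c'.symm ((c' ∘ c.symm) (c p)) := by
    rw [h2]
    exact (contMDiffAt_chart_symm x₁ (c'.map_source hq)).mdifferentiableAt (by simp)
  have h4 : MDifferentiableAt 𝓘(ℝ, Eu n) 𝓘(ℝ, Eu n) (c' ∘ c.symm) (c p) :=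
    ((contDiffAt_transition x₀ x₁ hp hq).differentiableAt (by simp)).mdifferentiableAt
  have h5 := mfderiv_comp (c p) h3 h4
  rw [h1.mfderiv_eq]
  refine h5.trans ?_
  have key : ∀ y : Eu n, y = c' p → (mfderiv 𝓘(ℝ, Eu n) (𝓡 n) c'.symm y : Eu n →L[ℝ] Eu n) =
      (mfderiv 𝓘(ℝ, Eu n) (𝓡 n) c'.symm (c' p) : Eu n →L[ℝ] Eu n) := by
    rintro _ rfl
    rfl
  rw [mfderiv_eq_fderiv]
  exact congrArg (fun L : Eu n →L[ℝ] Eu n =>
    L.comp (fderiv ℝ (c' ∘ c.symm) (c p))) (key _ h2)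

theorem exists_frameFA
    (g : Bundle.ContMDiffRiemannianMetric (𝓡 n) ∞ (Eu n) (fun x : M => TangentSpace (𝓡 n) x))
    (f : Fin k → (x : M) → TangentSpace (𝓡 n) x)
    (hf : ∀ i, ContMDiff (𝓡 n) (𝓡 n).tangent ∞
      (fun x => (⟨x, f i x⟩ : TangentBundle (𝓡 n) M)))
    (hP : ∀ (x : M) (v : TangentSpace (𝓡 n) x),
      ∑ i, (g.inner x (f i x) v) ^ 2 = g.inner x v v) :
    ∃ 𝔸 : FA (Eu n) (Eu k) M ∅, 𝔸.at' = range (framePair g f) := by
  refine ⟨{ at' := range (framePair g f)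
            closed := isClosed_empty
            cover := fun p => ⟨_, mem_range_self p, mem_chart_source (Eu n) p⟩
            smooth := ?_
            inj := ?_
            agree := ?_ }, rfl⟩
  · rintro _ ⟨x₀, rfl⟩ p hp -
    exact contDiffAt_framePair g f hf x₀ ((chartAt (Eu n) x₀).map_source hp)
  · rintro _ ⟨x₀, rfl⟩ p hp -
    change Function.Injective ((framePair g f x₀).Θ (chartAt (Eu n) x₀ p))
    rw [framePair_form g f x₀ hp]
    exact frameForm_injective g f hP p _ (mfderiv_symm_injective x₀ hp)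
  · rintro _ ⟨x₀, rfl⟩ _ ⟨x₁, rfl⟩ p hp hq
    refine ⟨contDiffAt_transition x₀ x₁ hp hq, contDiffAt_transition x₁ x₀ hq hp, fun _ => ?_⟩
    change (framePair g f x₀).Θ (chartAt (Eu n) x₀ p) =
      ((framePair g f x₁).Θ (chartAt (Eu n) x₁ p)).comp _
    rw [framePair_form g f x₀ hp, framePair_form g f x₁ hq]
    exact (congrArg (frameForm g f p) (mfderiv_transition x₀ x₁ hp hq)).trans
      (frameForm_comp g f p _ _)

end PF
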