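import Pool.Agent.Helper4.PF.CS

/-!
# Removing the singular points one by one (project MP_905dfc_gt)
-/

open scoped Manifold ContDiff Topology InnerProductSpace
open Set Filter Metric ContinuousLinearMap

noncomputable section

universe u

namespace PF

variable {V : Type} [NormedAddCommGroup V] [InnerProductSpace ℝ V] [FiniteDimensional ℝ V]
  [Nontrivial V]
  {E₀ F : Type} {M : Type u} [NormedAddCommGroup E₀] [NormedSpace ℝ E₀]
  [NormedAddCommGroup F] [NormedSpace ℝ F] [TopologicalSpace M] [CompactSpace M]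

/-- A standard singular point can be rescaled so that its ball is small. -/
theorem Sing.shrink {N : Type u} [TopologicalSpace N] {Z : Set N} {𝔸 : FA V V N Z} {z : N}
    (h : Sing 𝔸 z) {O : Set N} (hO : IsOpen O) (hz : z ∈ O) :
    ∃ (a : FPair V V N) (B : V → V →L[ℝ] V), 𝔸.Mem a ∧ z ∈ a.c.source ∧ a.c z = 0 ∧
      closedBall 0 1 ⊆ a.c.target ∧ a.c.symm '' closedBall 0 1 ⊆ O ∧
      (∀ ζ ∈ closedBall (0 : V) 1, a.c.symm ζ ∈ Z → ζ = 0) ∧
      (∀ ζ ∈ closedBall (0 : V) 1, ContDiffAt ℝ ∞ B ζ ∧ IsUnit (B ζ)) ∧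
      (∀ ζ ∈ closedBall (0 : V) 1, ζ ≠ 0 → a.Θ ζ = (R ζ).comp (B ζ)) := by
  obtain ⟨a, B, ha, hzs, hz0, hb, hZ, hB, hΘ⟩ := h
  have hsymm0 : a.c.symm 0 = z := by rw [← hz0, a.c.left_inv hzs]
  have h0 : (0 : V) ∈ a.c.target := hb (mem_closedBall_self zero_le_one)
  -- a small radius
  have h1 : ∀ᶠ y in 𝓝 (0 : V), a.c.symm y ∈ O := by
    have hc := a.c.symm.continuousAt h0
    apply hc.eventually
    rw [hsymm0]
    exact hO.mem_nhds hz
  obtain ⟨ε, hε, hεO⟩ := Metric.eventually_nhds_iff_ball.1 h1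
  set δ : ℝ := min (ε / 2) 1 with hδdef
  have hδ : 0 < δ := lt_min (by linarith) one_pos
  have hδ1 : δ ≤ 1 := min_le_right _ _
  have hδε : δ < ε := lt_of_le_of_lt (min_le_left _ _) (by linarith)
  have hδ0 : δ ≠ 0 := hδ.ne'
  have hmem : ∀ ζ ∈ closedBall (0 : V) 1, δ • ζ ∈ closedBall (0 : V) 1 := by
    intro ζ hζ
    rw [mem_closedBall_zero_iff] at hζ ⊢
    rw [norm_smul, Real.norm_of_nonneg hδ.le]
    calc δ * ‖ζ‖ ≤ 1 * 1 := mul_le_mul hδ1 hζ (norm_nonneg _) zero_le_one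
      _ = 1 := one_mul 1
  let g : OpenPartialHomeomorph V V := (Homeomorph.smulOfNeZero δ hδ0).symm.toOpenPartialHomeomorph
  have hgs : ∀ y : V, g.symm y = δ • y := fun y => rfl
  have hg : ∀ y : V, g y = δ⁻¹ • y := fun y => rfl
  have hgc : ContDiffOn ℝ ∞ g g.source := by
    have : ContDiff ℝ ∞ (fun y : V => δ⁻¹ • y) := contDiff_const_smul _
    exact this.contDiffOn
  have hgc' : ContDiffOn ℝ ∞ g.symm g.target := by
    have : ContDiff ℝ ∞ (fun y : V => δ • y) := contDiff_const_smul _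
    exact this.contDiffOn
  have hfd : ∀ y : V, fderiv ℝ g.symm y = δ • ContinuousLinearMap.id ℝ V := by
    intro y
    have h2 : (g.symm : V → V) = fun y => δ • y := funext hgs
    rw [h2]
    exact ((hasFDerivAt_id y).const_smul δ).fderiv
  refine ⟨a.comp g, fun ζ => δ • B (δ • ζ), ha.comp g hgc hgc', ⟨hzs, mem_univ _⟩, ?_, ?_, ?_,
    ?_, ?_, ?_⟩
  · show g (a.c z) = 0
    rw [hz0, hg, smul_zero]
  · intro ζ hζ
    exact ⟨mem_univ _, hb (hmem ζ hζ)⟩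
  · rintro _ ⟨ζ, hζ, rfl⟩
    show a.c.symm (δ • ζ) ∈ O
    apply hεO
    rw [mem_ball_zero_iff, norm_smul, Real.norm_of_nonneg hδ.le]
    rw [mem_closedBall_zero_iff] at hζ
    calc δ * ‖ζ‖ ≤ δ * 1 := by gcongr
      _ < ε := by rw [mul_one]; exact hδε
  · intro ζ hζ hζZ
    have h2 : δ • ζ = 0 := hZ (δ • ζ) (hmem ζ hζ) hζZ
    exact (smul_eq_zero.1 h2).resolve_left hδ0
  · intro ζ hζ
    obtain ⟨h2, h3⟩ := hB (δ • ζ) (hmem ζ hζ)
    constructor
    · have h4 : ContDiffAt ℝ ∞ (fun y : V => δ • y) ζ := (contDiff_const_smul _).contDiffAt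
      exact (ContDiffAt.comp (g := B) (f := fun y : V => δ • y) ζ h2 h4).const_smul δ
    · exact (IsUnit.smul (Units.mk0 δ hδ0) h3)
  · intro ζ hζ hζ0
    have h2 : (a.comp g).Θ ζ = (a.Θ (δ • ζ)).comp (fderiv ℝ g.symm ζ) := rfl
    rw [h2, hfd, hΘ (δ • ζ) (hmem ζ hζ) (smul_ne_zero hδ0 hζ0), R_smul hδ0]
    ext v
    simp

theorem kill {𝔹 : FA E₀ V M ∅}
    (hfill : ∀ Θ B : V → V →L[ℝ] V,
      (∀ ζ ∈ closedBall (0 : V) 1, ContDiffAt ℝ ∞ B ζ ∧ IsUnit (B ζ)) →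
      (∀ ζ ∈ closedBall (0 : V) 1, ζ ≠ 0 → Θ ζ = (R ζ).comp (B ζ)) → Filler (flip Θ))
    {N : Type u} [TopologicalSpace N] [CompactSpace N] [T2Space N] {Z : Set N}
    (hfin : Z.Finite) (𝔸 : FA V V N Z) (hS : ∀ z ∈ Z, Sing 𝔸 z) {j : M → N}
    (hj : Emb F 𝔹 𝔸 j) :
    ∃ (N' : Type u) (_ : TopologicalSpace N') (_ : CompactSpace N') (_ : T2Space N')
      (𝔸' : FA V V N' ∅) (j' : M → N'), Emb F 𝔹 𝔸' j' := by
  classical
  have hproper : ProperSpace V := FiniteDimensional.proper ℝ V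
  induction hk : Z.ncard using Nat.strong_induction_on generalizing N Z j with
  | _ k ih =>
  rcases Z.eq_empty_or_nonempty with rfl | ⟨z, hz⟩
  · exact ⟨N, inferInstance, inferInstance, inferInstance, 𝔸, j, hj⟩
  -- data at the other points
  have : Nonempty (FPair V V N) := by
    obtain ⟨a, -⟩ := hS z hz
    exact ⟨a⟩
  choose! a B ha hzs hz0 hb hZ hB hΘ using hS
  let K : Set N := ⋃ z' ∈ Z \ {z}, (a z').c.symm '' closedBall 0 1
  have hKc : IsClosed K := by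
    refine (hfin.subset sdiff_subset).isClosed_biUnion fun z' hz' => ?_
    exact ((isCompact_closedBall (0 : V) 1).image_of_continuousOn
      ((a z').c.symm.continuousOn.mono (hb z' hz'.1))).isClosed
  have hsymm0 : ∀ z' ∈ Z, (a z').c.symm 0 = z' := by
    intro z' hz'
    rw [← hz0 z' hz', (a z').c.left_inv (hzs z' hz')]
  have hzK : z ∉ K := by
    intro h
    simp only [K, mem_iUnion] at h
    obtain ⟨z', hz', ζ, hζ, hζz⟩ := h
    have h1 : ζ = 0 := hZ z' hz'.1 ζ hζ (by rw [hζz]; exact hz)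
    rw [h1, hsymm0 z' hz'.1] at hζz
    exact hz'.2 hζz
  have hrc : IsClosed (range j) := (isCompact_range hj.cont).isClosed
  have hzr : z ∉ range j := by
    rintro ⟨x, hx⟩
    exact hj.avoid x (by rw [hx]; exact hz)
  have hO : IsOpen (K ∪ range j)ᶜ := (hKc.union hrc).isOpen_compl
  have hzO : z ∈ (K ∪ range j)ᶜ := by
    rintro (h | h)
    · exact hzK h
    · exact hzr h
  obtain ⟨a₀, B₀, ha₀, hzs₀, hz0₀, hb₀, hO₀, hZ₀, hB₀, hΘ₀⟩ :=
    (show Sing 𝔸 z from ⟨a z, B z, ha z hz, hzs z hz, hz0 z hz, hb z hz, hZ z hz, hB z hz,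
      hΘ z hz⟩).shrink hO hzO
  have hz₀ : a₀.c.symm 0 = z := by rw [← hz0₀, a₀.c.left_inv hzs₀]
  obtain ⟨P, _, _, _, W, 𝔹', b, hbM, hb1, hW, hH⟩ := hfill a₀.Θ B₀ hB₀ hΘ₀
  obtain ⟨N', _, _, _, i, 𝔸', hi, hpush⟩ :=
    exists_connectedSum 𝔸 𝔹' a₀ b ha₀ hbM hb₀ hb1 hZ₀ hW hH
  have hKi : ∀ p ∈ K, p ∈ i.source := by
    intro p hp
    rw [hi]
    intro h
    exact hO₀ h (Or.inl hp)
  have hri : ∀ x, j x ∈ i.source := by
    intro x
    rw [hi]
    intro h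
    exact hO₀ h (Or.inr ⟨x, rfl⟩)
  have hballK : ∀ z' ∈ Z \ {z}, ∀ ζ ∈ closedBall (0 : V) 1, (a z').c.symm ζ ∈ K := by
    intro z' hz' ζ hζ
    simp only [K, mem_iUnion]
    exact ⟨z', hz', ζ, hζ, rfl⟩
  have hZK : ∀ z' ∈ Z \ {z}, z' ∈ K := by
    intro z' hz'
    have h := hballK z' hz' 0 (mem_closedBall_self zero_le_one)
    rwa [hsymm0 z' hz'.1] at h
  have hZ' : Z \ {a₀.c.symm 0} = Z \ {z} := by rw [hz₀]
  refine ih (i '' (Z \ {a₀.c.symm 0})).ncard ?_ (N := N') (Z := i '' (Z \ {a₀.c.symm 0}))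
    ((hfin.subset sdiff_subset).image i) 𝔸' ?_ (j := i ∘ j) ?_ rfl
  · rw [← hk]
    refine (ncard_image_le (hfin.subset sdiff_subset)).trans_lt ?_
    rw [hz₀]
    exact ncard_diff_singleton_lt_of_mem hz hfin
  · rintro _ ⟨z', hz', rfl⟩
    rw [hZ'] at hz'
    have hz'i : z' ∈ i.source := hKi _ (hZK z' hz')
    refine ⟨(a z').push i, B z', hpush _ (ha z' hz'.1), ?_, ?_, ?_, ?_, hB z' hz'.1,
      hΘ z' hz'.1⟩
    · rw [FPair.mem_push_source, i.left_inv hz'i]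
      exact ⟨i.map_source hz'i, hzs z' hz'.1⟩
    · rw [FPair.push_apply, i.left_inv hz'i]
      exact hz0 z' hz'.1
    · intro ζ hζ
      rw [FPair.mem_push_target]
      exact ⟨hb z' hz'.1 hζ, hKi _ (hballK z' hz' ζ hζ)⟩
    · intro ζ hζ hmem
      obtain ⟨z1, hz1, hz1e⟩ := hmem
      rw [hZ'] at hz1
      rw [FPair.push_symm_apply] at hz1e
      have h1 : z1 = (a z').c.symm ζ :=
        i.injOn (hKi _ (hZK z1 hz1)) (hKi _ (hballK z' hz' ζ hζ)) hz1e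
      exact hZ z' hz'.1 ζ hζ (by rw [← h1]; exact hz1.1)
  · refine ⟨?_, ?_, ?_, ?_⟩
    · rw [continuous_iff_continuousAt]
      intro x
      exact (i.continuousAt (hri x)).comp hj.cont.continuousAt
    · intro x y hxy
      exact hj.inj (i.injOn (hri x) (hri y) hxy)
    · rintro x ⟨z1, hz1, hz1e⟩
      rw [hZ'] at hz1
      have h1 : z1 = j x := i.injOn (hKi _ (hZK z1 hz1)) (hri x) hz1e
      exact hj.avoid x (by rw [← h1]; exact hz1.1)
    · intro x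
      obtain ⟨c, d, ℓ, hc, hd, hx, hsl⟩ := hj.slice x
      refine ⟨c, d.push i, ℓ, hc, hpush _ hd, hx, fun x' hx' => ?_⟩
      obtain ⟨h1, h2, h3⟩ := hsl x' hx'
      have h4 : i.symm ((i ∘ j) x') = j x' := i.left_inv (hri x')
      refine ⟨?_, ?_, ?_⟩
      · rw [FPair.mem_push_source, h4]
        exact ⟨i.map_source (hri x'), h1⟩
      · rw [FPair.push_apply, h4]
        exact h2
      · rw [FPair.push_apply, h4]
        exact h3

end PF
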