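import Pool.Agent.Helper4.PF.Bundle

/-!
# The sphere bundle of `ν ⊕ ℝ` (project MP_905dfc_gt)
-/

open scoped Manifold ContDiff Topology InnerProductSpace
open Set Filter Metric ContinuousLinearMap

noncomputable section

universe u

namespace PF

namespace SB

section Refl

variable {V : Type*} [NormedAddCommGroup V] [InnerProductSpace ℝ V]

theorem R_apply (v w : V) : R v w = w - (2 / ‖v‖ ^ 2 * ⟪v, w⟫_ℝ) • v := by
  simp [R, mul_smul]

theorem R_smul (v : V) {t : ℝ} (ht : t ≠ 0) : R (t • v) = R v := by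
  by_cases hv : v = 0
  · simp [hv]
  have h1 : ‖v‖ ≠ 0 := by simpa using hv
  ext w
  rw [R_apply, R_apply, norm_smul, inner_smul_left, smul_smul]
  congr 2
  simp only [Real.norm_eq_abs, mul_pow, sq_abs]
  simp
  field_simp

theorem R_of_orth {v w : V} (h : ⟪v, w⟫_ℝ = 0) : R v w = w := by
  rw [R_apply, h]
  simp

theorem R_R (v w : V) : R v (R v w) = w := by
  by_cases hv : v = 0
  · simp [hv, R_apply]
  have h1 : ‖v‖ ≠ 0 := by simpa using hv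
  rw [R_apply v (R v w), R_apply v w, inner_sub_right, inner_smul_right,
    real_inner_self_eq_norm_sq, sub_sub, ← add_smul]
  have h2 : (2 / ‖v‖ ^ 2 * ⟪v, w⟫_ℝ + 2 / ‖v‖ ^ 2 * (⟪v, w⟫_ℝ -
      2 / ‖v‖ ^ 2 * ⟪v, w⟫_ℝ * ‖v‖ ^ 2)) = 0 := by
    field_simp
    ring
  rw [h2]
  simp

theorem R_comm (P : V →L[ℝ] V) (hP : ∀ a b, ⟪P a, b⟫_ℝ = ⟪a, P b⟫_ℝ) {v : V} (hv : P v = v)
    (w : V) : R v (P w) = P (R v w) := by
  rw [R_apply, R_apply, map_sub, map_smul, hv, ← hP, hv]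

/-- inversion in the unit sphere -/
def inv (w : V) : V := (‖w‖ ^ 2)⁻¹ • w

theorem hasFDerivAt_inv {w : V} (hw : w ≠ 0) :
    HasFDerivAt (inv : V → V) ((‖w‖ ^ 2)⁻¹ • R w) w := by
  have h0 : ‖w‖ ^ 2 ≠ 0 := by positivity
  have h1 := (hasStrictFDerivAt_norm_sq w).hasFDerivAt
  have h2 := (hasDerivAt_inv h0).comp_hasFDerivAt w h1
  have h3 := h2.smul (hasFDerivAt_id w)
  refine h3.congr_fderiv ?_
  ext v
  simp only [R, id_eq, Function.comp_apply, add_apply,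
    smul_apply, ContinuousLinearMap.smulRight_apply,
    ContinuousLinearMap.id_apply, sub_apply, innerSL_apply_apply, smul_eq_mul,
    smul_sub, smul_smul]
  rw [sub_eq_add_neg, ← neg_smul]
  congr 2
  field_simp
  simp

theorem contDiffAt_inv {w : V} (hw : w ≠ 0) : ContDiffAt ℝ ∞ (inv : V → V) w := by
  have h0 : ‖w‖ ^ 2 ≠ 0 := by positivity
  have h1 : ContDiffAt ℝ ∞ (fun x : V => (‖x‖ ^ 2)⁻¹) w :=
    ((contDiff_norm_sq ℝ).contDiffAt).inv h0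
  exact h1.smul contDiffAt_id

theorem norm_inv {w : V} (hw : w ≠ 0) : ‖inv w‖ ^ 2 = (‖w‖ ^ 2)⁻¹ := by
  have h0 : ‖w‖ ≠ 0 := by simpa using hw
  unfold inv
  rw [norm_smul, mul_pow]
  simp
  field_simp

/-- stereographic parametrisation -/
def St (ε : ℝ) (w : V) : V × ℝ :=
  ((2 / (1 + ‖w‖ ^ 2)) • w, ε * ((1 - ‖w‖ ^ 2) / (1 + ‖w‖ ^ 2)))

/-- its inverse -/
def lift (ε : ℝ) (q : V × ℝ) : V := (1 + ε * q.2)⁻¹ • q.1

theorem one_add_pos (w : V) : 0 < 1 + ‖w‖ ^ 2 := by positivity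

theorem St_norm {ε : ℝ} (hε : ε * ε = 1) (w : V) : ‖(St ε w).1‖ ^ 2 + (St ε w).2 ^ 2 = 1 := by
  have h := one_add_pos w
  simp only [St, norm_smul, mul_pow, Real.norm_eq_abs, sq_abs]
  have h2 : ε ^ 2 = 1 := by rw [sq]; exact hε
  rw [h2]
  field_simp
  ring

theorem St_pos {ε : ℝ} (hε : ε * ε = 1) (w : V) : 0 < 1 + ε * (St ε w).2 := by
  have h := one_add_pos w
  simp only [St]
  have h2 : 1 + ε * (ε * ((1 - ‖w‖ ^ 2) / (1 + ‖w‖ ^ 2))) = 2 / (1 + ‖w‖ ^ 2) := by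
    rw [← mul_assoc, hε]
    field_simp
    ring
  rw [h2]
  positivity

theorem lift_St {ε : ℝ} (hε : ε * ε = 1) (w : V) : lift ε (St ε w) = w := by
  have h := one_add_pos w
  simp only [St, lift]
  have h2 : 1 + ε * (ε * ((1 - ‖w‖ ^ 2) / (1 + ‖w‖ ^ 2))) = 2 / (1 + ‖w‖ ^ 2) := by
    rw [← mul_assoc, hε]
    field_simp
    ring
  rw [h2, smul_smul, inv_mul_cancel₀ (by positivity), one_smul]

theorem lift_St_opp {ε : ℝ} (hε : ε * ε = 1) (w : V) : lift (-ε) (St ε w) = inv w := by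
  have h := one_add_pos w
  simp only [St, lift, inv]
  have h2 : 1 + -ε * (ε * ((1 - ‖w‖ ^ 2) / (1 + ‖w‖ ^ 2))) = 2 * ‖w‖ ^ 2 / (1 + ‖w‖ ^ 2) := by
    rw [← mul_assoc, neg_mul, hε]
    field_simp
    ring
  rw [h2, smul_smul]
  by_cases hw : w = 0
  · simp [hw]
  have h0 : ‖w‖ ≠ 0 := by simpa using hw
  congr 1
  field_simp

theorem St_lift {ε : ℝ} (hε : ε * ε = 1) {q : V × ℝ} (hq : ‖q.1‖ ^ 2 + q.2 ^ 2 = 1)
    (hq' : 0 < 1 + ε * q.2) : St ε (lift ε q) = q := by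
  have h1 : ‖lift ε q‖ ^ 2 = (1 - ε * q.2) / (1 + ε * q.2) := by
    simp only [lift, norm_smul, mul_pow, Real.norm_eq_abs, sq_abs]
    have h2 : ‖q.1‖ ^ 2 = (1 - ε * q.2) * (1 + ε * q.2) := by
      have h3 : (1 - ε * q.2) * (1 + ε * q.2) = 1 - (ε * ε) * q.2 ^ 2 := by ring
      rw [h3, hε]
      linarith
    rw [h2]
    field_simp
  have h4 : 1 + ‖lift ε q‖ ^ 2 = 2 / (1 + ε * q.2) := by
    rw [h1]
    field_simp
    ring
  ext1
  · simp only [St]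
    rw [h4, lift, smul_smul]
    have : 2 / (2 / (1 + ε * q.2)) * (1 + ε * q.2)⁻¹ = 1 := by
      field_simp
    rw [this, one_smul]
  · simp only [St]
    rw [h4, h1]
    have h5 : ε * ((1 - (1 - ε * q.2) / (1 + ε * q.2)) / (2 / (1 + ε * q.2))) =
        (ε * ε) * q.2 := by
      field_simp
      ring
    rw [h5, hε, one_mul]

theorem continuous_St (ε : ℝ) : Continuous (St ε : V → V × ℝ) := by
  unfold St
  have h : ∀ w : V, 1 + ‖w‖ ^ 2 ≠ 0 := fun w => (one_add_pos w).ne'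
  refine Continuous.prodMk ?_ ?_
  · exact (continuous_const.div (by fun_prop) h).smul continuous_id
  · exact continuous_const.mul ((by fun_prop : Continuous fun w : V => 1 - ‖w‖ ^ 2).div
      (by fun_prop) h)

end Refl


section Charts

variable {V : Type*} [NormedAddCommGroup V] [InnerProductSpace ℝ V] [FiniteDimensional ℝ V]
  {M : Type*} [TopologicalSpace M] {n m : ℕ} (𝔸 : FA (Eu n) V M ∅)
  {a a' : FPair (Eu n) V M} {β β' : Eu m →L[ℝ] V}

/-- the sphere bundle -/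
def S : Set (M × (V × ℝ)) := {p | p.2.1 ∈ 𝔸.nu p.1 ∧ ‖p.2.1‖ ^ 2 + p.2.2 ^ 2 = 1}

variable {𝔸}

theorem St_mem {ε : ℝ} (hε : ε * ε = 1) {x : M} {w : V} (hw : w ∈ 𝔸.nu x) :
    ((x, St ε w) : M × (V × ℝ)) ∈ S 𝔸 :=
  ⟨(𝔸.nu x).smul_mem _ hw, St_norm hε w⟩

theorem top_mem (x : M) : ((x, ((0 : V), (1 : ℝ))) : M × (V × ℝ)) ∈ S 𝔸 :=
  ⟨(𝔸.nu x).zero_mem, by simp⟩

theorem isClosed_nu : IsClosed {p : M × V | p.2 ∈ 𝔸.nu p.1} := by
  rw [← isOpen_compl_iff, isOpen_iff_mem_nhds]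
  rintro ⟨x, w⟩ hxw
  obtain ⟨a, ha, hx⟩ := 𝔸.cover x
  have ha' := 𝔸.mem_of_mem_at ha
  have h1 : ContinuousAt (fun p : M × V => adjoint (a.Θ (a.c p.1)) p.2) (x, w) := by
    have h2 : ContinuousAt (fun p : M × V => a.Θ (a.c p.1)) (x, w) := by
      have h3 : ContinuousAt a.Θ (a.c x) := (ha'.smooth hx (by simp)).continuousAt
      have h4 : ContinuousAt (fun p : M × V => a.c p.1) (x, w) :=
        ContinuousAt.comp (f := Prod.fst) (g := a.c) (x := (x, w))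
          (a.c.continuousAt hx) continuous_fst.continuousAt
      exact ContinuousAt.comp (f := fun p : M × V => a.c p.1) (g := a.Θ) (x := (x, w)) h3 h4
    have h5 : ContinuousAt (fun p : M × V => adjoint (a.Θ (a.c p.1))) (x, w) :=
      (adjoint : (Eu n →L[ℝ] V) ≃ₗᵢ⋆[ℝ] (V →L[ℝ] Eu n)).continuous.continuousAt.comp h2
    exact h5.clm_apply continuous_snd.continuousAt
  have h6 : adjoint (a.Θ (a.c x)) w ≠ 0 := fun h => hxw ((𝔸.mem_nu_iff ha' hx w).2 h)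
  have h7 := h1.eventually_ne h6
  have h8 : ∀ᶠ p : M × V in 𝓝 (x, w), p.1 ∈ a.c.source :=
    continuous_fst.continuousAt.eventually_mem (a.c.open_source.mem_nhds hx)
  filter_upwards [h7, h8] with p hp hp' hp''
  exact hp ((𝔸.mem_nu_iff ha' hp' p.2).1 hp'')

theorem isClosed_S : IsClosed (S 𝔸) := by
  have h1 : Continuous (fun p : M × (V × ℝ) => (p.1, p.2.1)) := by fun_prop
  have h2 : Continuous (fun p : M × (V × ℝ) => ‖p.2.1‖ ^ 2 + p.2.2 ^ 2) := by fun_prop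
  exact (isClosed_nu.preimage h1).inter (isClosed_singleton.preimage h2)

theorem isCompact_S [CompactSpace M] : IsCompact (S 𝔸) := by
  have h1 : IsCompact ((univ : Set M) ×ˢ ((closedBall (0 : V) 1) ×ˢ (Icc (-1 : ℝ) 1))) :=
    isCompact_univ.prod ((isCompact_closedBall 0 1).prod isCompact_Icc)
  refine h1.of_isClosed_subset isClosed_S ?_
  rintro ⟨x, w, t⟩ ⟨-, h2⟩
  simp only at h2
  refine ⟨mem_univ _, ?_, ?_⟩
  · rw [mem_closedBall_zero_iff]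
    nlinarith [norm_nonneg w, sq_nonneg t]
  · exact abs_le.mp (by nlinarith [sq_abs t, abs_nonneg t, sq_nonneg ‖w‖])

theorem isOpen_slice (ha : 𝔸.Mem a) (β : Eu m →L[ℝ] V) :
    IsOpen {x : M | x ∈ a.c.source ∧ (a.c x, (0 : Eu m)) ∈ Om a β} := by
  have h1 : IsOpen {y : Eu n | (y, (0 : Eu m)) ∈ Om a β} :=
    (isOpen_Om ha β).preimage (by fun_prop : Continuous fun y : Eu n => (y, (0 : Eu m)))
  exact a.c.isOpen_inter_preimage h1

theorem exists_chart (ha : 𝔸.Mem a) (β : Eu m →L[ℝ] V) {ε : ℝ} (hε : ε * ε = 1) :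
    ∃ c : OpenPartialHomeomorph (S 𝔸) (Eu n × Eu m),
      c.source = {p | (p.1.1 ∈ a.c.source ∧ (a.c p.1.1, (0 : Eu m)) ∈ Om a β) ∧
        0 < 1 + ε * p.1.2.2} ∧
      c.target = Om a β ∧
      (∀ p : S 𝔸, c p = (a.c p.1.1, adjoint β (lift ε p.1.2))) ∧
      ∀ z ∈ Om a β, ((c.symm z : S 𝔸) : M × (V × ℝ)) = (a.c.symm z.1, St ε (UU a β z)) := by
  have hU : IsOpen {p : M × (V × ℝ) | (p.1 ∈ a.c.source ∧ (a.c p.1, (0 : Eu m)) ∈ Om a β) ∧
      0 < 1 + ε * p.2.2} := by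
    refine IsOpen.inter ?_ ?_
    · exact (isOpen_slice ha β).preimage (continuous_fst : Continuous
        (Prod.fst : M × (V × ℝ) → M))
    · exact isOpen_lt continuous_const
        (by fun_prop : Continuous fun p : M × (V × ℝ) => 1 + ε * p.2.2)
  have hne : (S 𝔸).Nonempty := ⟨_, top_mem (a.c.symm 0)⟩
  obtain ⟨e, h1, h2, h3, h4⟩ := exists_subOPH (S := S 𝔸)
    (fun p : M × (V × ℝ) => (a.c p.1, adjoint β (lift ε p.2)))
    (fun z : Eu n × Eu m => (a.c.symm z.1, St ε (UU a β z)))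
    {p : M × (V × ℝ) | (p.1 ∈ a.c.source ∧ (a.c p.1, (0 : Eu m)) ∈ Om a β) ∧
      0 < 1 + ε * p.2.2} (Om a β) hU (isOpen_Om ha β) hne
    (fun p _ hp => hp.1.2)
    (fun z hz => ⟨St_mem hε (UU_mem_nu ha hz), ⟨⟨a.c.map_target hz.1, by
      simp only
      rw [a.c.right_inv hz.1]
      exact hz⟩, St_pos hε _⟩⟩)
    (fun z hz => by
      simp only
      rw [a.c.right_inv hz.1, lift_St hε, (UU_spec hz).2])
    (fun p hp hp' => by
      simp only
      have h5 : lift ε p.2 ∈ 𝔸.nu p.1 := (𝔸.nu p.1).smul_mem _ hp.1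
      have h6 := UU_eq_of_adjoint (a := a) (β := β) (y := a.c p.1) (w := lift ε p.2) hp'.1.2
        ((𝔸.mem_nu_iff ha hp'.1.1 _).1 h5)
      rw [h6, a.c.left_inv hp'.1.1, St_lift hε hp.2 hp'.2])
    (by
      intro p hp
      have h5 : ContinuousAt (fun p : M × (V × ℝ) => a.c p.1) p :=
        ContinuousAt.comp (f := Prod.fst) (g := a.c) (a.c.continuousAt hp.2.1.1)
          continuous_fst.continuousAt
      have h6 : ContinuousAt (fun p : M × (V × ℝ) => (1 + ε * p.2.2)⁻¹) p :=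
        ContinuousAt.inv₀ (by fun_prop) hp.2.2.ne'
      have h7 : ContinuousAt (fun p : M × (V × ℝ) => adjoint β (lift ε p.2)) p := by
        refine (adjoint β).continuous.continuousAt.comp ?_
        exact h6.smul (by fun_prop)
      exact (h5.prodMk h7).continuousWithinAt)
    (by
      intro z hz
      have h5 : ContinuousAt (fun z : Eu n × Eu m => a.c.symm z.1) z :=
        ContinuousAt.comp (f := Prod.fst) (g := a.c.symm) (a.c.continuousAt_symm hz.1)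
          continuous_fst.continuousAt
      have h6 : ContinuousAt (fun z : Eu n × Eu m => St ε (UU a β z)) z :=
        (continuous_St ε).continuousAt.comp (contDiffAt_UU ha hz).continuousAt
      exact (h5.prodMk h6).continuousWithinAt)
  exact ⟨e, h1, h2, h3, h4⟩

/-- the charts -/
def ch (ha : 𝔸.Mem a) (β : Eu m →L[ℝ] V) {ε : ℝ} (hε : ε * ε = 1) :
    OpenPartialHomeomorph (S 𝔸) (Eu n × Eu m) :=
  (exists_chart ha β hε).choose

theorem ch_source (ha : 𝔸.Mem a) (β : Eu m →L[ℝ] V) {ε : ℝ} (hε : ε * ε = 1) (p : S 𝔸) :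
    p ∈ (ch ha β hε).source ↔ (p.1.1 ∈ a.c.source ∧ (a.c p.1.1, (0 : Eu m)) ∈ Om a β) ∧
        0 < 1 + ε * p.1.2.2 := by
  unfold ch
  rw [(exists_chart ha β hε).choose_spec.1]
  rfl

theorem ch_target (ha : 𝔸.Mem a) (β : Eu m →L[ℝ] V) {ε : ℝ} (hε : ε * ε = 1) :
    (ch ha β hε).target = Om a β :=
  (exists_chart ha β hε).choose_spec.2.1

theorem ch_apply (ha : 𝔸.Mem a) (β : Eu m →L[ℝ] V) {ε : ℝ} (hε : ε * ε = 1) (p : S 𝔸) :
    ch ha β hε p = (a.c p.1.1, adjoint β (lift ε p.1.2)) :=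
  (exists_chart ha β hε).choose_spec.2.2.1 p

theorem ch_symm (ha : 𝔸.Mem a) (β : Eu m →L[ℝ] V) {ε : ℝ} (hε : ε * ε = 1)
    {z : Eu n × Eu m} (hz : z ∈ Om a β) :
    (((ch ha β hε).symm z : S 𝔸) : M × (V × ℝ)) = (a.c.symm z.1, St ε (UU a β z)) :=
  (exists_chart ha β hε).choose_spec.2.2.2 z hz

/-- at a point of the source, `UU` is the stereographic coordinate -/
theorem UU_ch (ha : 𝔸.Mem a) (β : Eu m →L[ℝ] V) {ε : ℝ} (hε : ε * ε = 1) {p : S 𝔸}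
    (hp : p ∈ (ch ha β hε).source) : UU a β (ch ha β hε p) = lift ε p.1.2 := by
  rw [ch_source] at hp
  rw [ch_apply]
  exact UU_eq_of_adjoint hp.1.2 ((𝔸.mem_nu_iff ha hp.1.1 _).1
    ((𝔸.nu p.1.1).smul_mem _ p.2.1))

theorem ch_mem_Om (ha : 𝔸.Mem a) (β : Eu m →L[ℝ] V) {ε : ℝ} (hε : ε * ε = 1) {p : S 𝔸}
    (hp : p ∈ (ch ha β hε).source) : ch ha β hε p ∈ Om a β := by
  rw [← ch_target ha β hε]
  exact (ch ha β hε).map_source hp

/-! ### Transitions -/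

/-- the transition maps -/
def tr (a a' : FPair (Eu n) V M) (β β' : Eu m →L[ℝ] V) (κ : V → V) (z : Eu n × Eu m) :
    Eu n × Eu m :=
  (a'.c (a.c.symm z.1), adjoint β' (κ (UU a β z)))

theorem tr_eq (ha : 𝔸.Mem a) (ha' : 𝔸.Mem a') {ε ε' : ℝ} (hε : ε * ε = 1) (hε' : ε' * ε' = 1)
    {κ : V → V} (hκ : ∀ w, lift ε' (St ε w) = κ w) {p : S 𝔸}
    (hp : p ∈ (ch ha β hε).source) :
    (ch ha' β' hε' ∘ (ch ha β hε).symm) =ᶠ[𝓝 (ch ha β hε p)] tr a a' β β' κ := by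
  filter_upwards [(isOpen_Om ha β).mem_nhds (ch_mem_Om ha β hε hp)] with z hz
  simp only [Function.comp_apply, tr, ch_apply, ch_symm ha β hε hz, hκ]

theorem contDiffAt_tr (ha : 𝔸.Mem a) (ha' : 𝔸.Mem a') {κ : V → V} {z : Eu n × Eu m}
    (hz : z ∈ Om a β) (hz' : a.c.symm z.1 ∈ a'.c.source)
    (hκ : ContDiffAt ℝ ∞ κ (UU a β z)) : ContDiffAt ℝ ∞ (tr a a' β β' κ) z := by
  have h1 := (ha.agree ha' (a.c.map_target hz.1) hz').smooth
  rw [a.c.right_inv hz.1] at h1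
  refine ContDiffAt.prodMk ?_ ?_
  · exact ContDiffAt.comp (g := a'.c ∘ a.c.symm) (f := Prod.fst) z h1 contDiffAt_fst
  · exact (adjoint β').contDiff.contDiffAt.comp z (hκ.comp z (contDiffAt_UU ha hz))

theorem UU_tr (ha : 𝔸.Mem a) (ha' : 𝔸.Mem a') {κ : V → V} {z : Eu n × Eu m}
    (hz : z ∈ Om a β) (hz' : a.c.symm z.1 ∈ a'.c.source)
    (hz'' : tr a a' β β' κ z ∈ Om a' β') (hκ : ContDiffAt ℝ ∞ κ (UU a β z))
    (hκ' : ∀ (x : M) (w : V), w ∈ 𝔸.nu x → κ w ∈ 𝔸.nu x) :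
    (UU a' β' ∘ tr a a' β β' κ) =ᶠ[𝓝 z] (κ ∘ UU a β) := by
  have h1 : ContinuousAt (tr a a' β β' κ) z := (contDiffAt_tr ha ha' hz hz' hκ).continuousAt
  have h2 : ContinuousAt (fun z : Eu n × Eu m => a.c.symm z.1) z :=
    ContinuousAt.comp (f := Prod.fst) (g := a.c.symm) (a.c.continuousAt_symm hz.1)
      continuous_fst.continuousAt
  filter_upwards [(isOpen_Om ha β).mem_nhds hz, h1.eventually_mem ((isOpen_Om ha' β').mem_nhds hz''),
    h2.eventually_mem (a'.c.open_source.mem_nhds hz')] with y hy hy' hy''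
  exact UU_eq_of_adjoint hy' ((𝔸.mem_nu_iff ha' hy'' _).1 (hκ' _ _ (UU_mem_nu ha hy)))

theorem PiN_eq (ha : 𝔸.Mem a) (ha' : 𝔸.Mem a') {x : M} (hx : x ∈ a.c.source)
    (hx' : x ∈ a'.c.source) : PiN (a'.Θ (a'.c x)) = PiN (a.Θ (a.c x)) := by
  rw [PiN_eq_starProjection ha hx, PiN_eq_starProjection ha' hx']

theorem Th0_tr (ha : 𝔸.Mem a) (ha' : 𝔸.Mem a') {κ : V → V} {z : Eu n × Eu m}
    (hz : z ∈ Om a β) (hz' : a.c.symm z.1 ∈ a'.c.source)
    (hz'' : tr a a' β β' κ z ∈ Om a' β') (hκ : ContDiffAt ℝ ∞ κ (UU a β z))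
    (hκ' : ∀ (x : M) (w : V), w ∈ 𝔸.nu x → κ w ∈ 𝔸.nu x) :
    (Th0 a' β' (tr a a' β β' κ z)).comp (fderiv ℝ (tr a a' β β' κ) z) =
      (a.Θ z.1).comp (ContinuousLinearMap.fst ℝ (Eu n) (Eu m)) +
        (PiN (a.Θ z.1)).comp ((fderiv ℝ κ (UU a β z)).comp (fderiv ℝ (UU a β) z)) := by
  have hne : (∞ : WithTop ℕ∞) ≠ 0 := by simp
  have hd : DifferentiableAt ℝ (tr a a' β β' κ) z :=
    (contDiffAt_tr ha ha' hz hz' hκ).differentiableAt hne
  have hag := ha.agree ha' (a.c.map_target hz.1) hz'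
  have h1 := hag.smooth
  have h1' := hag.form (by simp)
  rw [a.c.right_inv hz.1] at h1 h1'
  have hd1 : DifferentiableAt ℝ (a'.c ∘ a.c.symm) z.1 := h1.differentiableAt hne
  have h2 : (ContinuousLinearMap.fst ℝ (Eu n) (Eu m)).comp (fderiv ℝ (tr a a' β β' κ) z) =
      (fderiv ℝ (a'.c ∘ a.c.symm) z.1).comp (ContinuousLinearMap.fst ℝ (Eu n) (Eu m)) := by
    have h3 : HasFDerivAt (fun z : Eu n × Eu m => (tr a a' β β' κ z).1)
        ((ContinuousLinearMap.fst ℝ (Eu n) (Eu m)).comp (fderiv ℝ (tr a a' β β' κ) z)) z :=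
      hd.hasFDerivAt.fst
    have h4 : HasFDerivAt (fun z : Eu n × Eu m => (tr a a' β β' κ z).1)
        ((fderiv ℝ (a'.c ∘ a.c.symm) z.1).comp (ContinuousLinearMap.fst ℝ (Eu n) (Eu m))) z :=
      hd1.hasFDerivAt.comp z hasFDerivAt_fst
    exact h3.unique h4
  have hU : DifferentiableAt ℝ (UU a' β') (tr a a' β β' κ z) :=
    (contDiffAt_UU ha' hz'').differentiableAt hne
  have h5 : (fderiv ℝ (UU a' β') (tr a a' β β' κ z)).comp (fderiv ℝ (tr a a' β β' κ) z) =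
      (fderiv ℝ κ (UU a β z)).comp (fderiv ℝ (UU a β) z) := by
    have h6 := (UU_tr ha ha' hz hz' hz'' hκ hκ').fderiv_eq (𝕜 := ℝ)
    rw [fderiv_comp z hU hd, fderiv_comp z (hκ.differentiableAt hne)
      ((contDiffAt_UU ha hz).differentiableAt hne)] at h6
    exact h6
  have h7 : (tr a a' β β' κ z).1 = a'.c (a.c.symm z.1) := rfl
  have h8 : PiN (a'.Θ (a'.c (a.c.symm z.1))) = PiN (a.Θ z.1) := by
    have := PiN_eq ha ha' (a.c.map_target hz.1) hz'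
    rwa [a.c.right_inv hz.1] at this
  unfold Th0
  rw [add_comp, comp_assoc, h2, comp_assoc, h5, h7, h8, ← comp_assoc, ← h1']


/-! ### Forms -/

/-- the middle factor of `ThM` -/
theorem mid_apply (P : V →L[ℝ] V) (t : ℝ) (v : V) :
    (ContinuousLinearMap.id ℝ V - P + t • P) v = v - P v + t • P v := rfl

theorem mid_range {A : Eu n →L[ℝ] V} (hA : Function.Injective A) (t : ℝ) (v : Eu n) :
    (ContinuousLinearMap.id ℝ V - PiN A + t • PiN A) (A v) = A v := by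
  rw [mid_apply, PiN_apply_range hA]
  simp

theorem PiN_PiN {A : Eu n →L[ℝ] V} (hA : Function.Injective A) (w : V) :
    PiN A (PiN A w) = PiN A w := PiN_of_adjoint_eq_zero A (adjoint_PiN hA w)

theorem mid_PiN {A : Eu n →L[ℝ] V} (hA : Function.Injective A) (t : ℝ) (w : V) :
    (ContinuousLinearMap.id ℝ V - PiN A + t • PiN A) (PiN A w) = t • PiN A w := by
  rw [mid_apply, PiN_PiN hA]
  simp

theorem key_apply {A : Eu n →L[ℝ] V} (hA : Function.Injective A) {w : V} (hw : w ≠ 0)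
    (hadj : adjoint A w = 0) (x : Eu n) (y : V) :
    R w ((ContinuousLinearMap.id ℝ V - PiN A + ‖w‖ ^ 2 • PiN A)
      (A x + PiN A ((‖w‖ ^ 2)⁻¹ • R w y))) = A x + PiN A y := by
  have h0 : ‖w‖ ^ 2 ≠ 0 := by positivity
  rw [map_add, mid_range hA, mid_PiN hA, map_smul, smul_smul, mul_inv_cancel₀ h0, one_smul,
    map_add, R_comm _ (fun a b => PiN_symm hA a b) (PiN_of_adjoint_eq_zero _ hadj), R_R,
    R_of_orth]
  rw [← adjoint_inner_left, hadj, inner_zero_left]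

theorem mid_injective {A : Eu n →L[ℝ] V} (hA : Function.Injective A) {t : ℝ} (ht : 0 < t) :
    Function.Injective (ContinuousLinearMap.id ℝ V - PiN A + t • PiN A) := by
  rw [injective_iff_map_eq_zero]
  intro v hv
  rw [mid_apply] at hv
  have h1 := congrArg (PiN A) hv
  rw [map_add, map_sub, map_smul, PiN_PiN hA, map_zero] at h1
  have h2 : PiN A v = 0 := by
    simpa [ht.ne'] using h1
  rw [h2] at hv
  simpa using hv

variable {F : M → V → V →L[ℝ] V} {Z₀ : Set (M × V)}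

theorem contDiffAt_ThM (hF : Ext 𝔸 F Z₀) (ha : 𝔸.Mem a) {z : Eu n × Eu m}
    (hz : z ∈ Om a β) (hz' : (a.c.symm z.1, UU a β z) ∉ Z₀) :
    ContDiffAt ℝ ∞ (ThM a β F) z := by
  have hx := a.c.map_target hz.1
  have h1 := (hF.smooth a ha _ hx _ (UU_mem_nu ha hz) hz').1
  rw [a.c.right_inv hz.1] at h1
  have h2 : ContDiffAt ℝ ∞ (fun z : Eu n × Eu m => (z.1, UU a β z)) z :=
    contDiffAt_fst.prodMk (contDiffAt_UU ha hz)
  have h3 : ContDiffAt ℝ ∞ (fun z : Eu n × Eu m => F (a.c.symm z.1) (UU a β z)) z :=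
    ContDiffAt.comp (g := fun z : Eu n × V => F (a.c.symm z.1) z.2)
      (f := fun z : Eu n × Eu m => (z.1, UU a β z)) z h1 h2
  have h4 : ContDiffAt ℝ ∞ a.Θ z.1 := by
    have := ha.smooth hx (by simp)
    rwa [a.c.right_inv hz.1] at this
  have hA : Function.Injective (a.Θ z.1) := by
    have := ha.inj hx (by simp)
    rwa [a.c.right_inv hz.1] at this
  have h5 : ContDiffAt ℝ ∞ (fun z : Eu n × Eu m => PiN (a.Θ z.1)) z := by
    have h6 : ContDiffAt ℝ ∞ (fun z : Eu n × Eu m => a.Θ z.1) z :=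
      ContDiffAt.comp (g := a.Θ) (f := Prod.fst) z h4 contDiffAt_fst
    exact ContDiffAt.comp (g := PiN) (f := fun z : Eu n × Eu m => a.Θ z.1) z
      (contDiffAt_PiN hA) h6
  have h7 : ContDiffAt ℝ ∞ (fun z : Eu n × Eu m => phi (‖UU a β z‖ ^ 2)) z := by
    have h8 : ContDiffAt ℝ ∞ (fun z : Eu n × Eu m => ‖UU a β z‖ ^ 2) z :=
      (contDiffAt_UU ha hz).norm_sq ℝ
    exact ContDiffAt.comp (g := phi) (f := fun z : Eu n × Eu m => ‖UU a β z‖ ^ 2) z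
      (contDiffAt_phi (sq_nonneg _)) h8
  have h9 : ContDiffAt ℝ ∞ (fun z : Eu n × Eu m =>
      ContinuousLinearMap.id ℝ V - PiN (a.Θ z.1) + phi (‖UU a β z‖ ^ 2) • PiN (a.Θ z.1)) z :=
    (contDiffAt_const.sub h5).add (h7.smul h5)
  exact h3.clm_comp (h9.clm_comp (contDiffAt_Th0 ha hz))

theorem ThM_injective (hF : Ext 𝔸 F Z₀) (ha : 𝔸.Mem a) {z : Eu n × Eu m}
    (hz : z ∈ Om a β) (hz' : (a.c.symm z.1, UU a β z) ∉ Z₀) :
    Function.Injective (ThM a β F z) := by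
  have hx := a.c.map_target hz.1
  have h1 := (hF.smooth a ha _ hx _ (UU_mem_nu ha hz) hz').2
  have hA : Function.Injective (a.Θ z.1) := by
    have := ha.inj hx (by simp)
    rwa [a.c.right_inv hz.1] at this
  have h2 : Function.Injective (F (a.c.symm z.1) (UU a β z)) := by
    obtain ⟨u, hu⟩ := h1
    have h3 : ∀ v, (↑u⁻¹ : V →L[ℝ] V) (F (a.c.symm z.1) (UU a β z) v) = v := by
      intro v
      rw [← hu]
      change ((↑u⁻¹ * ↑u : V →L[ℝ] V)) v = v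
      rw [u.inv_mul]
      rfl
    exact Function.LeftInverse.injective h3
  have h4 := mid_injective hA (phi_pos (sq_nonneg ‖UU a β z‖))
  unfold ThM
  intro v w hvw
  exact Th0_injective ha hz (h4 (h2 hvw))

/-! ### The atlas -/

theorem one_sq : (1 : ℝ) * 1 = 1 := one_mul 1

theorem neg_one_sq : (-1 : ℝ) * (-1) = 1 := by norm_num

theorem isOpen_up : IsOpen {p : S 𝔸 | 0 < p.1.2.2} :=
  isOpen_lt continuous_const (by fun_prop : Continuous fun p : S 𝔸 => p.1.2.2)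

open Classical in
/-- the points of the lower half -/
def pt (p : M × V) : S 𝔸 :=
  if h : p.2 ∈ 𝔸.nu p.1 then ⟨(p.1, St (-1) p.2), St_mem neg_one_sq h⟩
  else ⟨(p.1, ((0 : V), (1 : ℝ))), top_mem p.1⟩

theorem pt_val {p : M × V} (h : p.2 ∈ 𝔸.nu p.1) :
    ((pt p : S 𝔸) : M × (V × ℝ)) = (p.1, St (-1) p.2) := by
  simp [pt, h]

theorem St_inj {ε : ℝ} (hε : ε * ε = 1) {v w : V} (h : St ε v = St ε w) : v = w := by
  rw [← lift_St hε v, h, lift_St hε]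

theorem pt_inj : InjOn (pt : M × V → S 𝔸) {p | p.2 ∈ 𝔸.nu p.1} := by
  intro p hp q hq hpq
  have h1 := congrArg Subtype.val hpq
  rw [pt_val hp, pt_val hq] at h1
  have h2 := Prod.ext_iff.1 h1
  exact Prod.ext h2.1 (St_inj neg_one_sq h2.2)

theorem ch_fst (ha : 𝔸.Mem a) (β : Eu m →L[ℝ] V) {ε : ℝ} (hε : ε * ε = 1) {p : S 𝔸}
    (hp : p ∈ (ch ha β hε).source) : a.c.symm (ch ha β hε p).1 = p.1.1 := by
  rw [ch_source] at hp
  rw [ch_apply]
  exact a.c.left_inv hp.1.1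

theorem ch_tr (ha : 𝔸.Mem a) (ha' : 𝔸.Mem a') {ε ε' : ℝ} (hε : ε * ε = 1) (hε' : ε' * ε' = 1)
    {κ : V → V} (hκ : ∀ w, lift ε' (St ε w) = κ w) {p : S 𝔸}
    (hp : p ∈ (ch ha β hε).source) :
    tr a a' β β' κ (ch ha β hε p) = ch ha' β' hε' p := by
  have h1 := (tr_eq (β' := β') ha ha' hε hε' hκ hp).self_of_nhds
  rw [← h1, Function.comp_apply, (ch ha β hε).left_inv hp]

theorem agree_of {Z : Set (S 𝔸)} (ha : 𝔸.Mem a) (ha' : 𝔸.Mem a') {ε ε' : ℝ} (hε : ε * ε = 1)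
    (hε' : ε' * ε' = 1) {κ κ' : V → V} (hκ : ∀ w, lift ε' (St ε w) = κ w)
    (hκ' : ∀ w, lift ε (St ε' w) = κ' w) {p : S 𝔸}
    (hp : p ∈ (ch ha β hε).source) (hp' : p ∈ (ch ha' β' hε').source)
    (sκ : ContDiffAt ℝ ∞ κ (lift ε p.1.2)) (sκ' : ContDiffAt ℝ ∞ κ' (lift ε' p.1.2))
    {Θ Θ' : Eu n × Eu m → (Eu n × Eu m) →L[ℝ] V}
    (hform : p ∉ Z → Θ (ch ha β hε p) =
      (Θ' (ch ha' β' hε' p)).comp (fderiv ℝ (tr a a' β β' κ) (ch ha β hε p))) :
    AgreeAt Z ⟨ch ha β hε, Θ⟩ ⟨ch ha' β' hε', Θ'⟩ p := by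
  have h1 := (ch_source ha β hε p).1 hp
  have h1' := (ch_source ha' β' hε' p).1 hp'
  refine AgreeAt.mk' (f := tr a a' β β' κ) (g := tr a' a β' β κ')
    (tr_eq ha ha' hε hε' hκ hp) (tr_eq ha' ha hε' hε hκ' hp') ?_ ?_ hform
  · refine contDiffAt_tr ha ha' (ch_mem_Om ha β hε hp) ?_ ?_
    · rw [ch_fst ha β hε hp]
      exact h1'.1.1
    · rw [UU_ch ha β hε hp]
      exact sκ
  · refine contDiffAt_tr ha' ha (ch_mem_Om ha' β' hε' hp') ?_ ?_
    · rw [ch_fst ha' β' hε' hp']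
      exact h1.1.1
    · rw [UU_ch ha' β' hε' hp']
      exact sκ'

/-- the form `Th0` under transitions with the same sign -/
theorem Th0_same (ha : 𝔸.Mem a) (ha' : 𝔸.Mem a') {ε : ℝ} (hε : ε * ε = 1) {p : S 𝔸}
    (hp : p ∈ (ch ha β hε).source) (hp' : p ∈ (ch ha' β' hε).source) :
    (Th0 a' β' (ch ha' β' hε p)).comp (fderiv ℝ (tr a a' β β' id) (ch ha β hε p)) =
      Th0 a β (ch ha β hε p) := by
  have h1 := (ch_source ha β hε p).1 hp
  have h1' := (ch_source ha' β' hε p).1 hp'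
  have h2 := ch_tr (β' := β') ha ha' hε hε (κ := id) (fun w => lift_St hε w) hp
  rw [← h2, Th0_tr ha ha' (ch_mem_Om ha β hε hp) (by
    rw [ch_fst ha β hε hp]
    exact h1'.1.1) (by
    rw [h2]
    exact ch_mem_Om ha' β' hε hp') contDiffAt_id (fun _ _ h => h), fderiv_id, id_comp]
  rfl

theorem agree_plus {Z : Set (S 𝔸)} (ha : 𝔸.Mem a) (ha' : 𝔸.Mem a') {p : S 𝔸}
    (hp : p ∈ (ch ha β one_sq).source) (hp' : p ∈ (ch ha' β' one_sq).source) :
    AgreeAt Z ⟨ch ha β one_sq, Th0 a β⟩ ⟨ch ha' β' one_sq, Th0 a' β'⟩ p :=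
  agree_of ha ha' one_sq one_sq (κ := id) (κ' := id) (fun w => lift_St one_sq w)
    (fun w => lift_St one_sq w) hp hp' contDiffAt_id contDiffAt_id
    (fun _ => (Th0_same ha ha' one_sq hp hp').symm)

theorem PiN_ch (ha : 𝔸.Mem a) (ha' : 𝔸.Mem a') {ε ε' : ℝ} (hε : ε * ε = 1) (hε' : ε' * ε' = 1)
    {p : S 𝔸} (hp : p ∈ (ch ha β hε).source) (hp' : p ∈ (ch ha' β' hε').source) :
    PiN (a'.Θ (ch ha' β' hε' p).1) = PiN (a.Θ (ch ha β hε p).1) := by
  have h1 := (ch_source ha β hε p).1 hp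
  have h1' := (ch_source ha' β' hε' p).1 hp'
  rw [ch_apply, ch_apply]
  exact PiN_eq ha ha' h1.1.1 h1'.1.1

theorem agree_minus {Z : Set (S 𝔸)} (ha : 𝔸.Mem a) (ha' : 𝔸.Mem a') {p : S 𝔸}
    (hp : p ∈ (ch ha β neg_one_sq).source) (hp' : p ∈ (ch ha' β' neg_one_sq).source) :
    AgreeAt Z ⟨ch ha β neg_one_sq, ThM a β F⟩ ⟨ch ha' β' neg_one_sq, ThM a' β' F⟩ p := by
  refine agree_of ha ha' neg_one_sq neg_one_sq (κ := id) (κ' := id)
    (fun w => lift_St neg_one_sq w) (fun w => lift_St neg_one_sq w) hp hp' contDiffAt_id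
    contDiffAt_id (fun _ => ?_)
  unfold ThM
  rw [comp_assoc, comp_assoc, Th0_same ha ha' neg_one_sq hp hp', ch_fst ha β neg_one_sq hp,
    ch_fst ha' β' neg_one_sq hp', UU_ch ha β neg_one_sq hp, UU_ch ha' β' neg_one_sq hp',
    PiN_ch ha ha' neg_one_sq neg_one_sq hp hp']

theorem lift_ne_zero {q : V × ℝ} (hq : ‖q.1‖ ^ 2 + q.2 ^ 2 = 1) (h1 : 0 < 1 + q.2)
    (h2 : 0 < 1 - q.2) {ε : ℝ} (h3 : 0 < 1 + ε * q.2) : lift ε q ≠ 0 := by
  intro h
  unfold lift at h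
  rw [smul_eq_zero] at h
  rcases h with h | h
  · exact h3.ne' (inv_eq_zero.1 h)
  · rw [h] at hq
    simp at hq
    rcases hq with hq | hq <;> linarith

theorem agree_pm (hF : Ext 𝔸 F Z₀) {Z : Set (S 𝔸)} (ha : 𝔸.Mem a) (ha' : 𝔸.Mem a') {p : S 𝔸}
    (hp : p ∈ (ch ha β one_sq).source) (hp' : p ∈ (ch ha' β' neg_one_sq).source)
    (hpos : 0 < p.1.2.2) :
    AgreeAt Z ⟨ch ha β one_sq, Th0 a β⟩ ⟨ch ha' β' neg_one_sq, ThM a' β' F⟩ p := by
  have h1 := (ch_source ha β one_sq p).1 hp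
  have h1' := (ch_source ha' β' neg_one_sq p).1 hp'
  have h2 : 0 < 1 - p.1.2.2 := by
    have := h1'.2
    linarith
  have h3 : 0 < 1 + p.1.2.2 := by linarith
  have hw : lift 1 p.1.2 ≠ 0 := lift_ne_zero p.2.2 h3 h2 h1.2
  have hw' : lift (-1) p.1.2 ≠ 0 := lift_ne_zero p.2.2 h3 h2 h1'.2
  have hk : ∀ w : V, lift (-1) (St 1 w) = inv w := fun w => lift_St_opp one_sq w
  have hk' : ∀ w : V, lift 1 (St (-1) w) = inv w := fun w => by
    have := lift_St_opp neg_one_sq w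
    rwa [neg_neg] at this
  refine agree_of ha ha' one_sq neg_one_sq (κ := inv) (κ' := inv) hk hk' hp hp'
    (contDiffAt_inv hw) (contDiffAt_inv hw') (fun _ => ?_)
  have hmem := ch_mem_Om ha β one_sq hp
  have hx : a.c.symm (ch ha β one_sq p).1 ∈ a'.c.source := by
    rw [ch_fst ha β one_sq hp]
    exact h1'.1.1
  have hU : UU a β (ch ha β one_sq p) = lift 1 p.1.2 := UU_ch ha β one_sq hp
  have hU' : UU a' β' (ch ha' β' neg_one_sq p) = inv (lift 1 p.1.2) := by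
    rw [UU_ch ha' β' neg_one_sq hp', ← hk (lift 1 p.1.2), St_lift one_sq p.2.2 h1.2]
  have h4 := ch_tr (β' := β') ha ha' one_sq neg_one_sq hk hp
  have h5 := Th0_tr (β' := β') (κ := inv) ha ha' hmem hx (by
    rw [h4]
    exact ch_mem_Om ha' β' neg_one_sq hp') (by
    rw [hU]
    exact contDiffAt_inv hw) (fun x w h => (𝔸.nu x).smul_mem _ h)
  rw [h4, hU, (hasFDerivAt_inv hw).fderiv] at h5
  have hnu : lift 1 p.1.2 ∈ 𝔸.nu p.1.1 := (𝔸.nu p.1.1).smul_mem _ p.2.1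
  have hnu' : inv (lift 1 p.1.2) ∈ 𝔸.nu p.1.1 := (𝔸.nu p.1.1).smul_mem _ hnu
  have hn0 : 0 < ‖lift 1 p.1.2‖ := norm_pos_iff.2 hw
  have hn1 : ‖lift 1 p.1.2‖ ^ 2 ≤ 1 := by
    have h6 : ‖lift 1 p.1.2‖ ^ 2 = (1 - p.1.2.2) / (1 + p.1.2.2) := by
      simp only [lift, one_mul, norm_smul, mul_pow, Real.norm_eq_abs, sq_abs]
      have h7 : ‖p.1.2.1‖ ^ 2 = (1 - p.1.2.2) * (1 + p.1.2.2) := by
        have := p.2.2
        linarith
      rw [h7]
      field_simp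
    rw [h6, div_le_one h3]
    linarith
  have hninv : 1 ≤ ‖inv (lift 1 p.1.2)‖ ^ 2 := by
    rw [norm_inv hw]
    exact (one_le_inv₀ (by positivity)).2 hn1
  have hfar := (hF.far p.1.1 _ hnu' (by
    by_contra hc
    have := norm_nonneg (inv (lift 1 p.1.2))
    nlinarith)).2
  have hA : Function.Injective (a.Θ (ch ha β one_sq p).1) := by
    have := ha.inj h1.1.1 (by simp)
    rw [ch_apply]
    exact this
  have hadj : adjoint (a.Θ (ch ha β one_sq p).1) (lift 1 p.1.2) = 0 := by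
    rw [ch_apply]
    exact (𝔸.mem_nu_iff ha h1.1.1 _).1 hnu
  unfold ThM
  rw [comp_assoc, comp_assoc, h5, ch_fst ha' β' neg_one_sq hp', hU', hfar,
    PiN_ch ha ha' one_sq neg_one_sq hp hp', phi_eq_inv hninv, norm_inv hw, inv_inv]
  have hR : R (inv (lift 1 p.1.2)) = R (lift 1 p.1.2) := R_smul _ (by positivity)
  rw [hR]
  exact ContinuousLinearMap.ext fun v =>
    (key_apply hA hw hadj v.1 (fderiv ℝ (UU a β) (ch ha β one_sq p) v)).symm

theorem pt_of_lift {p : S 𝔸} (hp : 0 < 1 + -1 * p.1.2.2) (h : (p.1.1, lift (-1) p.1.2) ∈ Z₀) :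
    p ∈ (pt '' Z₀ : Set (S 𝔸)) := by
  have h1 : lift (-1) p.1.2 ∈ 𝔸.nu p.1.1 := (𝔸.nu p.1.1).smul_mem _ p.2.1
  refine ⟨(p.1.1, lift (-1) p.1.2), h, ?_⟩
  apply Subtype.ext
  rw [pt_val (p := (p.1.1, lift (-1) p.1.2)) h1]
  simp only
  rw [St_lift neg_one_sq p.2.2 hp]

/-- the form atlas of the sphere bundle -/
def atl [T2Space M] (hdim : Module.finrank ℝ V = n + m) (hF : Ext 𝔸 F Z₀) :
    FA (Eu n × Eu m) V (S 𝔸) (pt '' Z₀) where
  at' := {d | (∃ (a : FPair (Eu n) V M) (ha : 𝔸.Mem a) (β : Eu m →L[ℝ] V),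
      d = (⟨ch ha β one_sq, Th0 a β⟩ : FPair (Eu n × Eu m) V (S 𝔸)).restr _ isOpen_up) ∨
    (∃ (a : FPair (Eu n) V M) (ha : 𝔸.Mem a) (β : Eu m →L[ℝ] V),
      d = ⟨ch ha β neg_one_sq, ThM a β F⟩)}
  closed := (hF.fin.image _).isClosed
  cover := by
    intro p
    obtain ⟨a, ha, hx⟩ := 𝔸.cover p.1.1
    have ha' := 𝔸.mem_of_mem_at ha
    obtain ⟨β, -, -, h3⟩ := exists_beta hdim ha' hx
    by_cases hp : 0 < p.1.2.2
    · refine ⟨_, Or.inl ⟨a, ha', β, rfl⟩, ?_, hp⟩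
      rw [ch_source]
      exact ⟨⟨hx, h3 0⟩, by linarith⟩
    · refine ⟨_, Or.inr ⟨a, ha', β, rfl⟩, ?_⟩
      rw [ch_source]
      exact ⟨⟨hx, h3 0⟩, by linarith⟩
  smooth := by
    rintro d (⟨a, ha, β, rfl⟩ | ⟨a, ha, β, rfl⟩) p hp hZ
    · exact contDiffAt_Th0 ha (ch_mem_Om ha β one_sq hp.1)
    · refine contDiffAt_ThM hF ha (ch_mem_Om ha β neg_one_sq hp) ?_
      rw [ch_fst ha β neg_one_sq hp, UU_ch ha β neg_one_sq hp]
      exact fun h => hZ (pt_of_lift ((ch_source ha β neg_one_sq p).1 hp).2 h)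
  inj := by
    rintro d (⟨a, ha, β, rfl⟩ | ⟨a, ha, β, rfl⟩) p hp hZ
    · exact Th0_injective ha (ch_mem_Om ha β one_sq hp.1)
    · refine ThM_injective hF ha (ch_mem_Om ha β neg_one_sq hp) ?_
      rw [ch_fst ha β neg_one_sq hp, UU_ch ha β neg_one_sq hp]
      exact fun h => hZ (pt_of_lift ((ch_source ha β neg_one_sq p).1 hp).2 h)
  agree := by
    rintro d (⟨a, ha, β, rfl⟩ | ⟨a, ha, β, rfl⟩) d' (⟨a', ha', β', rfl⟩ | ⟨a', ha', β', rfl⟩) p
      hp hp'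
    · exact ((agree_plus ha ha' hp.1 hp'.1).restr_left _ _).restr_right _ _
    · exact (agree_pm hF ha ha' hp.1 hp' hp.2).restr_left _ _
    · exact (AgreeAt.symm hp'.1 hp (agree_pm hF ha' ha hp'.1 hp hp'.2)).restr_right _ _
    · exact agree_minus ha ha' hp hp'

/-- the section of the upper half -/
def jj (x : M) : S 𝔸 := ⟨(x, ((0 : V), (1 : ℝ))), top_mem x⟩

theorem emb_jj [T2Space M] (hdim : Module.finrank ℝ V = n + m) (hF : Ext 𝔸 F Z₀) :
    Emb (Eu m) 𝔸 (atl hdim hF) (jj : M → S 𝔸) where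
  cont := by
    unfold jj
    fun_prop
  inj := by
    intro x y hxy
    exact (Prod.ext_iff.1 (congrArg Subtype.val hxy)).1
  avoid := by
    rintro x ⟨p, hp, hpx⟩
    have h1 := congrArg Subtype.val hpx
    rw [pt_val (hF.nu p hp)] at h1
    have h2 := (Prod.ext_iff.1 (Prod.ext_iff.1 h1).2).2
    simp only [jj, St] at h2
    have h3 := one_add_pos p.2
    field_simp at h2
    linarith
  slice := by
    intro x
    obtain ⟨a, ha, hx⟩ := 𝔸.cover x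
    have ha' := 𝔸.mem_of_mem_at ha
    obtain ⟨β, -, -, h3⟩ := exists_beta hdim ha' hx
    have hop := isOpen_slice ha' β
    refine ⟨a.restr _ hop, (⟨ch ha' β one_sq, Th0 a β⟩ : FPair (Eu n × Eu m) V (S 𝔸)).restr _
      isOpen_up, ContinuousLinearEquiv.refl ℝ _, ha'.restr _ hop,
      FA.mem_of_mem_at _ (Or.inl ⟨a, ha', β, rfl⟩), ⟨hx, hx, h3 0⟩, ?_⟩
    rintro x' ⟨-, hx', hx''⟩
    have h4 : jj x' ∈ (ch ha' β one_sq).source := by
      rw [ch_source]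
      exact ⟨⟨hx', hx''⟩, by simp [jj]⟩
    have h5 : ch ha' β one_sq (jj x') = (a.c x', 0) := by
      rw [ch_apply]
      simp [jj, lift]
    refine ⟨⟨h4, ?_⟩, ?_, ?_⟩
    · simp [jj]
    · exact h5
    · have h6 : ((⟨ch ha' β one_sq, Th0 a β⟩ : FPair (Eu n × Eu m) V (S 𝔸)).restr _
          isOpen_up).Θ (((⟨ch ha' β one_sq, Th0 a β⟩ : FPair (Eu n × Eu m) V (S 𝔸)).restr _
          isOpen_up).c (jj x')) = Th0 a β (a.c x', 0) := by
        rw [FPair.restr_form, FPair.restr_apply]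
        exact congrArg (Th0 a β) h5
      rw [h6]
      refine ContinuousLinearMap.ext fun v => ?_
      have h7 := fderiv_UU_inl ha' hx'' v
      simp only [Th0, comp_apply, add_apply, ContinuousLinearEquiv.coe_coe,
        ContinuousLinearEquiv.refl_apply, inl_apply, coe_fst', h7, map_zero, add_zero]
      rfl

end Charts

end SB

variable {V : Type} [NormedAddCommGroup V] [InnerProductSpace ℝ V] [FiniteDimensional ℝ V]
  {M : Type u} [TopologicalSpace M] {n m : ℕ}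

/-- The sphere bundle `S(ν ⊕ ℝ)` with the form given by `F` on its lower half. -/
theorem exists_sphereBundle [CompactSpace M] [T2Space M] (𝔸 : FA (Eu n) V M ∅)
    (hdim : Module.finrank ℝ V = n + m) (F : M → V → V →L[ℝ] V) (Z₀ : Set (M × V))
    (hF : Ext 𝔸 F Z₀) :
    ∃ (N : Type u) (_ : TopologicalSpace N) (_ : CompactSpace N) (_ : T2Space N)
      (pt : M × V → N) (𝔑 : FA (Eu n × Eu m) V N (pt '' Z₀)) (j : M → N),
      InjOn pt {p | p.2 ∈ 𝔸.nu p.1} ∧ Emb (Eu m) 𝔸 𝔑 j ∧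
      ∀ (a : FPair (Eu n) V M) (β : Eu m →L[ℝ] V), 𝔸.Mem a →
        ∃ c : OpenPartialHomeomorph N (Eu n × Eu m), c.target = Om a β ∧
          (∀ z ∈ Om a β, c.symm z = pt (a.c.symm z.1, UU a β z)) ∧
          𝔑.Mem ⟨c, ThM a β F⟩ := by
  refine ⟨SB.S 𝔸, inferInstance, isCompact_iff_compactSpace.1 SB.isCompact_S, inferInstance,
    SB.pt, SB.atl hdim hF, SB.jj, SB.pt_inj, SB.emb_jj hdim hF, fun a β ha => ?_⟩
  refine ⟨SB.ch ha β SB.neg_one_sq, SB.ch_target ha β SB.neg_one_sq, fun z hz => ?_,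
    FA.mem_of_mem_at _ (Or.inr ⟨a, ha, β, rfl⟩)⟩
  apply Subtype.ext
  rw [SB.ch_symm ha β SB.neg_one_sq hz,
    SB.pt_val (p := (a.c.symm z.1, UU a β z)) (UU_mem_nu ha hz)]

end PF
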